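import Pool.Agent.Work.MP_b0c12c_nt_helper63.Prob
import Pool.Agent.Work.MP_484fb8_nt.Cheb

/-!
The semi-random sieve leaves infinitely many integers.
-/

set_option linter.unusedSectionVars false
set_option linter.deprecated false

namespace Pool.Agent.Work.MP_b0c12c_nt_helper63

open MeasureTheory ProbabilityTheory Finset

lemma dyadic (M : ℕ) (hM : 2 ≤ M) :
    ∑ p ∈ (Ioc M (2 * M)).filter Nat.Prime, (1 : ℝ) / p ≤ 10 / Real.log M := by
  have hM0 : (0 : ℝ) < M := by exact_mod_cast (by omega : 0 < M)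
  have hlogM : 0 < Real.log M := Real.log_pos (by exact_mod_cast (by omega : 1 < M))
  have h1 := Pool.Agent.Work.MP_484fb8_nt.pi_upper (2 * M) (by omega)
  have h2 : ((Ioc M (2 * M)).filter Nat.Prime).card ≤ Nat.primeCounting (2 * M) := by
    have h3 : Nat.primeCounting (2 * M) = ((range (2 * M + 1)).filter Nat.Prime).card := by
      rw [Nat.primeCounting, Nat.primeCounting', Nat.count_eq_card_filter_range]
    rw [h3]
    apply card_le_card
    intro p hp
    rw [mem_filter, mem_Ioc] at hp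
    rw [mem_filter, mem_range]
    exact ⟨by omega, hp.2⟩
  have h3 : ∑ p ∈ (Ioc M (2 * M)).filter Nat.Prime, (1 : ℝ) / p ≤
      ((Ioc M (2 * M)).filter Nat.Prime).card * (1 / M) := by
    rw [← nsmul_eq_mul, ← Finset.sum_const]
    apply Finset.sum_le_sum
    intro p hp
    rw [mem_filter, mem_Ioc] at hp
    exact one_div_le_one_div_of_le hM0 (by exact_mod_cast hp.1.1.le)
  have h4 : (((Ioc M (2 * M)).filter Nat.Prime).card : ℝ) ≤ 10 * M / Real.log M := by
    have h5 : (((Ioc M (2 * M)).filter Nat.Prime).card : ℝ) ≤ Nat.primeCounting (2 * M) := by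
      exact_mod_cast h2
    have h6 : (5 : ℝ) * ((2 * M : ℕ) / Real.log (2 * M : ℕ)) ≤ 10 * M / Real.log M := by
      push_cast
      rw [mul_div_assoc']
      apply div_le_div₀ (by positivity) (by linarith) hlogM
      exact Real.log_le_log hM0 (by linarith)
    linarith
  calc ∑ p ∈ (Ioc M (2 * M)).filter Nat.Prime, (1 : ℝ) / p
      ≤ ((Ioc M (2 * M)).filter Nat.Prime).card * (1 / M) := h3
    _ ≤ (10 * M / Real.log M) * (1 / M) := mul_le_mul_of_nonneg_right h4 (by positivity)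
    _ = 10 / Real.log M := by field_simp

lemma dyadic_sum (M : ℕ) (hM : 2 ≤ M) (k : ℕ) :
    ∑ p ∈ (Ioc M (2 ^ k * M)).filter Nat.Prime, (1 : ℝ) / p ≤ 10 * k / Real.log M := by
  induction k with
  | zero => simp
  | succ k ih =>
    have hM0 : (0 : ℝ) < M := by exact_mod_cast (by omega : 0 < M)
    have hlogM : 0 < Real.log M := Real.log_pos (by exact_mod_cast (by omega : 1 < M))
    have h2k : 1 ≤ 2 ^ k := Nat.one_le_two_pow
    have hMk : M ≤ 2 ^ k * M := Nat.le_mul_of_pos_left _ (by omega)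
    have h1 := dyadic (2 ^ k * M) (by omega)
    have h2 : (Ioc M (2 ^ (k + 1) * M)).filter Nat.Prime ⊆
        (Ioc M (2 ^ k * M)).filter Nat.Prime ∪ (Ioc (2 ^ k * M) (2 * (2 ^ k * M))).filter Nat.Prime := by
      intro p hp
      rw [mem_filter, mem_Ioc] at hp
      rw [mem_union, mem_filter, mem_filter, mem_Ioc, mem_Ioc]
      by_cases h : p ≤ 2 ^ k * M
      · left; exact ⟨⟨hp.1.1, h⟩, hp.2⟩
      · right; refine ⟨⟨by omega, ?_⟩, hp.2⟩
        have := hp.1.2
        rw [pow_succ] at this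
        nlinarith
    have h3 : 10 / Real.log ((2 ^ k * M : ℕ) : ℝ) ≤ 10 / Real.log M := by
      apply div_le_div_of_nonneg_left (by norm_num) hlogM
      exact Real.log_le_log hM0 (by exact_mod_cast hMk)
    calc ∑ p ∈ (Ioc M (2 ^ (k + 1) * M)).filter Nat.Prime, (1 : ℝ) / p
        ≤ ∑ p ∈ (Ioc M (2 ^ k * M)).filter Nat.Prime ∪
            (Ioc (2 ^ k * M) (2 * (2 ^ k * M))).filter Nat.Prime, (1 : ℝ) / p :=
          Finset.sum_le_sum_of_subset_of_nonneg h2 (fun _ _ _ => by positivity)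
      _ ≤ ∑ p ∈ (Ioc M (2 ^ k * M)).filter Nat.Prime, (1 : ℝ) / p +
            ∑ p ∈ (Ioc (2 ^ k * M) (2 * (2 ^ k * M))).filter Nat.Prime, (1 : ℝ) / p := by
          rw [← Finset.sum_union_inter]
          have : 0 ≤ ∑ p ∈ (Ioc M (2 ^ k * M)).filter Nat.Prime ∩
            (Ioc (2 ^ k * M) (2 * (2 ^ k * M))).filter Nat.Prime, (1 : ℝ) / p :=
            Finset.sum_nonneg fun _ _ => by positivity
          linarith
      _ ≤ 10 * k / Real.log M + 10 / Real.log M := by linarith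
      _ = 10 * ((k + 1 : ℕ) : ℝ) / Real.log M := by push_cast; ring

lemma recip_bound (θ : ℝ) (hθ0 : 0 < θ) (hθ1 : θ < 1 / 2) (n : ℕ) (hn : 4 ≤ (n : ℝ) ^ θ)
    (B : Finset ℕ) (hB : ∀ p ∈ B, p.Prime ∧ (n : ℝ) ^ θ < p ∧ p ≤ n) :
    ∑ p ∈ B, (1 : ℝ) / p ≤ 40 / θ := by
  have hn1 : 1 < n := by
    by_contra h
    push Not at h
    interval_cases n
    · rw [Nat.cast_zero, Real.zero_rpow hθ0.ne'] at hn; norm_num at hn
    · rw [Nat.cast_one, Real.one_rpow] at hn; norm_num at hn
  have hn0 : (0 : ℝ) < n := by exact_mod_cast (by omega : 0 < n)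
  have hlog2 := Real.log_two_gt_d9
  have hlog2' := Real.log_two_lt_d9
  set M := ⌊(n : ℝ) ^ θ⌋₊ with hM
  have hM4 : 4 ≤ M := Nat.le_floor (by exact_mod_cast hn)
  have hMpos : (0 : ℝ) < M := by exact_mod_cast (by omega : 0 < M)
  have hlogn : 2 * Real.log 2 ≤ θ * Real.log n := by
    have h1 : Real.log 4 ≤ Real.log ((n : ℝ) ^ θ) := Real.log_le_log (by norm_num) hn
    rw [Real.log_rpow hn0] at h1
    have h2 : Real.log 4 = 2 * Real.log 2 := by
      rw [show (4 : ℝ) = 2 ^ 2 by norm_num, Real.log_pow]; norm_num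
    linarith
  have hlogM : θ / 2 * Real.log n ≤ Real.log M := by
    have h1 : (n : ℝ) ^ θ / 2 ≤ M := by
      have := Nat.lt_floor_add_one ((n : ℝ) ^ θ)
      rw [← hM] at this
      linarith
    have h2 := Real.log_le_log (by positivity) h1
    rw [Real.log_div (by positivity) (by norm_num), Real.log_rpow hn0] at h2
    linarith
  have hlogn0 : 0 < Real.log n := Real.log_pos (by exact_mod_cast hn1)
  set k := Nat.log 2 n + 1 with hk
  have hkn : n < 2 ^ k := Nat.lt_pow_succ_log_self (by norm_num) n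
  have hk2 : (k : ℝ) ≤ Real.log n / Real.log 2 + 1 := by
    rw [hk]; push_cast
    have h1 : 2 ^ Nat.log 2 n ≤ n := Nat.pow_log_le_self 2 (by omega)
    have h2 : ((2 : ℝ) ^ Nat.log 2 n) ≤ n := by exact_mod_cast h1
    have h3 := Real.log_le_log (by positivity) h2
    rw [Real.log_pow] at h3
    have h4 : (Nat.log 2 n : ℝ) ≤ Real.log n / Real.log 2 := by
      rw [le_div_iff₀ (by linarith)]; exact h3
    linarith
  have hsub : B ⊆ (Ioc M (2 ^ k * M)).filter Nat.Prime := by
    intro p hp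
    obtain ⟨h1, h2, h3⟩ := hB p hp
    rw [mem_filter, mem_Ioc]
    refine ⟨⟨?_, ?_⟩, h1⟩
    · exact (Nat.floor_lt (by positivity)).mpr h2
    · have : 2 ^ k ≤ 2 ^ k * M := Nat.le_mul_of_pos_right _ (by omega)
      omega
  calc ∑ p ∈ B, (1 : ℝ) / p ≤ ∑ p ∈ (Ioc M (2 ^ k * M)).filter Nat.Prime, (1 : ℝ) / p :=
        Finset.sum_le_sum_of_subset_of_nonneg hsub (fun _ _ _ => by positivity)
    _ ≤ 10 * k / Real.log M := dyadic_sum M (by omega) k
    _ ≤ 10 * (Real.log n / Real.log 2 + 1) / (θ / 2 * Real.log n) := by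
        apply div_le_div₀ (by positivity) (by linarith) (by positivity) hlogM
    _ ≤ 40 / θ := by
        rw [div_le_div_iff₀ (by positivity) hθ0]
        have h1 : Real.log n / Real.log 2 ≤ 3 / 2 * Real.log n := by
          rw [div_le_iff₀ (by linarith)]
          nlinarith
        have h2 : 1 ≤ Real.log n / 2 := by nlinarith
        have h3 : 10 * (Real.log n / Real.log 2 + 1) * θ ≤ 10 * (2 * Real.log n) * θ := by
          apply mul_le_mul_of_nonneg_right _ hθ0.le
          linarith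
        linarith

variable {Ω : Type*} [MeasurableSpace Ω] {μ : Measure Ω} [IsProbabilityMeasure μ]
  {a : ℕ → Ω → ℕ}

lemma avoid_prob (ha : RandomClasses μ a) (B : Finset ℕ) (hB : ∀ p ∈ B, p.Prime) (g : ℕ → ℕ)
    (hg : ∀ p ∈ B, g p < p) :
    μ.real {ω | ∀ p ∈ B, a p ω ≠ g p} = ∏ p ∈ B, (1 - 1 / (p : ℝ)) := by
  have h1 : {ω | ∀ p ∈ B, a p ω ≠ g p} = ⋂ p ∈ B, a p ⁻¹' {g p}ᶜ := by
    ext ω; simp
  have h2 := ha.indep.measure_inter_preimage_eq_mul B (sets := fun p => ({g p}ᶜ : Set ℕ))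
    (fun _ _ => MeasurableSet.of_discrete)
  rw [h1, measureReal_def, h2, ENNReal.toReal_prod]
  refine Finset.prod_congr rfl fun p hp => ?_
  have h3 : μ.real (a p ⁻¹' {g p}ᶜ) = 1 - μ.real (a p ⁻¹' {g p}) := by
    rw [Set.preimage_compl, probReal_compl_eq_one_sub (ha.meas p (measurableSet_singleton _))]
  have h4 : μ.real (a p ⁻¹' {g p}) = 1 / p := ha.unif p (hB p hp) (g p) (hg p hp)
  rw [h4] at h3
  rw [← h3]; rfl

lemma prod_lower (B : Finset ℕ) (hB : ∀ p ∈ B, p.Prime) :
    Real.exp (-2 * ∑ p ∈ B, (1 : ℝ) / p) ≤ ∏ p ∈ B, (1 - 1 / (p : ℝ)) := by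
  rw [Finset.mul_sum, Real.exp_sum]
  apply Finset.prod_le_prod
  · intro p _; exact (Real.exp_pos _).le
  · intro p hp
    apply one_sub_ge_exp (by positivity)
    apply one_div_le_one_div_of_le (by norm_num)
    exact_mod_cast (hB p hp).two_le

lemma exists_scales (θ : ℝ) (hθ0 : 0 < θ) : ∃ g : ℕ → ℕ, StrictMono g ∧
    (∀ j, (g j).Prime ∧ 4 ≤ ((g j : ℕ) : ℝ) ^ θ) ∧ ∀ i j, i < j → ((g i : ℕ) : ℝ) ≤ ((g j : ℕ) : ℝ) ^ θ := by
  have h1 : ∀ N : ℕ, ∃ n : ℕ, N < n ∧ n.Prime ∧ (N : ℝ) + 4 ≤ (n : ℝ) ^ θ := by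
    intro N
    have h2 : Filter.Tendsto (fun n : ℕ => (n : ℝ) ^ θ) Filter.atTop Filter.atTop :=
      (tendsto_rpow_atTop hθ0).comp tendsto_natCast_atTop_atTop
    obtain ⟨K, hK⟩ := Filter.eventually_atTop.mp (h2.eventually_ge_atTop ((N : ℝ) + 4))
    obtain ⟨n, hn1, hn2⟩ := Nat.exists_infinite_primes (max K (N + 1))
    exact ⟨n, by have := le_max_right K (N + 1); omega, hn2, hK n ((le_max_left _ _).trans hn1)⟩
  choose f hf1 hf2 hf3 using h1
  set g : ℕ → ℕ := fun j => Nat.rec (f 0) (fun _ m => f m) j with hg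
  have hgs : ∀ j, g (j + 1) = f (g j) := fun j => rfl
  have hmono : StrictMono g := strictMono_nat_of_lt_succ fun j => by rw [hgs]; exact hf1 _
  refine ⟨g, hmono, ?_, ?_⟩
  · intro j
    cases j with
    | zero =>
      refine ⟨hf2 0, ?_⟩
      have := hf3 0
      simp only [Nat.cast_zero, zero_add] at this
      exact this
    | succ j =>
      rw [hgs]
      refine ⟨hf2 _, ?_⟩
      have := hf3 (g j)
      have h0 : (0 : ℝ) ≤ g j := by positivity
      linarith
  · intro i j hij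
    obtain ⟨k, rfl⟩ : ∃ k, j = k + 1 := ⟨j - 1, by omega⟩
    have h2 : g i ≤ g k := hmono.monotone (by omega)
    have h3 := hf3 (g k)
    rw [← hgs] at h3
    have h4 : ((g i : ℕ) : ℝ) ≤ g k := by exact_mod_cast h2
    linarith

/-- The sifted set is almost surely infinite. -/
theorem sifted_infinite (ha : RandomClasses μ a) (θ : ℝ) (hθ0 : 0 < θ) (hθ1 : θ < 1 / 2)
    (A : ℕ → Set ℕ) (hA : ∀ n, ∀ p ∈ A n, (n : ℝ) ^ θ < p) :
    ∀ᵐ ω ∂μ, (Sifted A (fun p => a p ω)).Infinite := by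
  classical
  obtain ⟨g, hmono, hg1, hg2⟩ := exists_scales θ hθ0
  set B : ℕ → Finset ℕ := fun j => (range (g j + 1)).filter (fun p => p.Prime ∧ p * p ≤ g j ∧ p ∈ A (g j)) with hB
  have hBmem : ∀ j, ∀ p ∈ B j, p.Prime ∧ p * p ≤ g j ∧ p ∈ A (g j) := fun j p hp => by
    rw [hB] at hp; exact (mem_filter.mp hp).2
  have hBprime : ∀ j, ∀ p ∈ B j, p.Prime := fun j p hp => (hBmem j p hp).1
  set F : ℕ → Set Ω := fun j => {ω | ∀ p ∈ B j, a p ω ≠ g j % p} with hF
  have hFm : ∀ j, MeasurableSet (F j) := by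
    intro j
    have : F j = ⋂ p ∈ B j, a p ⁻¹' {g j % p}ᶜ := by ext ω; simp [hF]
    rw [this]
    exact Finset.measurableSet_biInter _ fun p _ => ha.meas p MeasurableSet.of_discrete
  have hFS : ∀ j ω, ω ∈ F j → g j ∈ Sifted A (fun p => a p ω) := by
    intro j ω hω
    refine ⟨(hg1 j).1.two_le, ?_⟩
    intro p hp hpp
    refine ⟨?_, ?_⟩
    · intro hpA
      have hpn : p ≤ g j := (Nat.le_mul_of_pos_left _ hp.pos).trans hpp
      exact (hω p (by rw [hB]; exact mem_filter.mpr ⟨mem_range.mpr (by omega), hp, hpp, hpA⟩)).symm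
    · intro _ hdvd
      rcases (Nat.dvd_prime (hg1 j).1).mp hdvd with h | h
      · exact hp.one_lt.ne' h
      · rw [h] at hpp
        have := (hg1 j).1.two_le
        nlinarith
  set c0 := Real.exp (-2 * (40 / θ)) with hc0
  have hc0pos : 0 < c0 := Real.exp_pos _
  have hFlow : ∀ j, c0 ≤ μ.real (F j) := by
    intro j
    rw [hF]
    simp only
    rw [avoid_prob ha (B j) (hBprime j) (fun p => g j % p) (fun p hp => Nat.mod_lt _ (hBprime j p hp).pos)]
    refine le_trans ?_ (prod_lower (B j) (hBprime j))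
    apply Real.exp_le_exp.mpr
    have := recip_bound θ hθ0 hθ1 (g j) (hg1 j).2 (B j) (fun p hp => by
      obtain ⟨h1, h2, h3⟩ := hBmem j p hp
      exact ⟨h1, hA _ _ h3, (Nat.le_mul_of_pos_left _ h1.pos).trans h2⟩)
    linarith
  have hdisj : ∀ i j, i < j → Disjoint (B i) (B j) := by
    intro i j hij
    rw [Finset.disjoint_left]
    intro p hpi hpj
    obtain ⟨h1, h2, _⟩ := hBmem i p hpi
    obtain ⟨_, _, h6⟩ := hBmem j p hpj
    have h7 := hA _ _ h6
    have h8 := hg2 i j hij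
    have h9 : p ≤ g i := (Nat.le_mul_of_pos_left _ h1.pos).trans h2
    have h10 : (p : ℝ) ≤ g i := by exact_mod_cast h9
    linarith
  have hpair' : ∀ i j, i < j → μ.real (F i ∩ F j) = μ.real (F i) * μ.real (F j) := by
    intro i j hij
    have hd := hdisj i j hij
    have h1 : F i ∩ F j = {ω | ∀ p ∈ B i ∪ B j, a p ω ≠ (if p ∈ B i then g i % p else g j % p)} := by
      ext ω
      simp only [hF, Set.mem_inter_iff, Set.mem_setOf_eq, mem_union]
      constructor
      · rintro ⟨h1, h2⟩ p hp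
        by_cases hpi : p ∈ B i
        · rw [if_pos hpi]; exact h1 p hpi
        · rw [if_neg hpi]; exact h2 p (hp.resolve_left hpi)
      · intro h1
        refine ⟨fun p hp => ?_, fun p hp => ?_⟩
        · have := h1 p (Or.inl hp); rwa [if_pos hp] at this
        · have hpi : p ∉ B i := fun h => (Finset.disjoint_left.mp hd) h hp
          have := h1 p (Or.inr hp); rwa [if_neg hpi] at this
    rw [h1, avoid_prob ha (B i ∪ B j) _ (fun p => if p ∈ B i then g i % p else g j % p),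
      Finset.prod_union hd]
    · rw [hF]
      simp only
      rw [avoid_prob ha (B i) (hBprime i) (fun p => g i % p) (fun p hp => Nat.mod_lt _ (hBprime i p hp).pos),
        avoid_prob ha (B j) (hBprime j) (fun p => g j % p) (fun p hp => Nat.mod_lt _ (hBprime j p hp).pos)]
    · intro p hp
      have hp' : p.Prime := by
        rw [mem_union] at hp
        exact hp.elim (hBprime i p) (hBprime j p)
      split_ifs <;> exact Nat.mod_lt _ hp'.pos
    · intro p hp
      rw [mem_union] at hp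
      exact hp.elim (hBprime i p) (hBprime j p)
  have hpair : ∀ i j, i ≠ j → μ.real (F i ∩ F j) ≤ μ.real (F i) * μ.real (F j) := by
    intro i j hij
    rcases Nat.lt_or_gt_of_ne hij with h | h
    · exact (hpair' i j h).le
    · rw [Set.inter_comm, mul_comm]; exact (hpair' j i h).le
  -- for each K, almost surely some F j occurs with j ≥ K
  have hK : ∀ K : ℕ, μ {ω | ∀ j, K ≤ j → ω ∉ F j} = 0 := by
    intro K
    have h1 : ∀ N : ℕ, 1 ≤ N → μ.real {ω | ∀ j, K ≤ j → ω ∉ F j} ≤ 1 / (c0 * N) := by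
      intro N hN
      have hN0 : (0 : ℝ) < N := by exact_mod_cast hN
      have h2 := second_moment (μ := μ) (Ico K (K + N)) F (fun j _ => hFm j)
        (fun i _ j _ hij => hpair i j hij) (lam := c0 * N) (by positivity) (by
          calc c0 * N = ∑ j ∈ Ico K (K + N), c0 := by
                rw [Finset.sum_const, Nat.card_Ico, nsmul_eq_mul, Nat.add_sub_cancel_left]; ring
            _ ≤ _ := Finset.sum_le_sum fun j _ => hFlow j)
      refine le_trans (measureReal_mono ?_) h2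
      intro ω hω j hj
      rw [mem_Ico] at hj
      exact hω j hj.1
    have h3 : μ.real {ω | ∀ j, K ≤ j → ω ∉ F j} ≤ 0 := by
      apply ge_of_tendsto (f := fun N : ℕ => 1 / (c0 * N)) (x := Filter.atTop) _
        (Filter.eventually_atTop.mpr ⟨1, h1⟩)
      have h4 : Filter.Tendsto (fun N : ℕ => c0 * (N : ℝ)) Filter.atTop Filter.atTop :=
        tendsto_natCast_atTop_atTop.const_mul_atTop hc0pos
      refine h4.inv_tendsto_atTop.congr fun N => ?_
      simp only [Pi.inv_apply, one_div]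
    have h4 : μ.real {ω | ∀ j, K ≤ j → ω ∉ F j} = 0 := le_antisymm h3 measureReal_nonneg
    rwa [measureReal_eq_zero_iff] at h4
  have hall : ∀ᵐ ω ∂μ, ∀ K : ℕ, ∃ j, K ≤ j ∧ ω ∈ F j := by
    rw [ae_all_iff]
    intro K
    rw [ae_iff]
    convert! hK K using 3
    push Not
    rfl
  filter_upwards [hall] with ω hω
  rw [Set.infinite_iff_exists_gt]
  intro N
  obtain ⟨j, hj, hjF⟩ := hω (N + 1)
  refine ⟨g j, hFS j ω hjF, ?_⟩
  have : j ≤ g j := hmono.le_apply
  omega

end Pool.Agent.Work.MP_b0c12c_nt_helper63
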