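import Pool.Agent.Work.MP_b0c12c_nt_helper63.Defs

/-!
From empty windows to the limsup of the gaps.
-/

namespace Pool.Agent.Work.MP_b0c12c_nt_helper63

open Filter

lemma exists_consecutive (S : Set ℕ) (hS : S.Infinite) (K m h : ℕ)
    (hK : Nat.nth (· ∈ S) K ≤ m) (hwin : ∀ n ∈ S, ¬ (m < n ∧ n ≤ m + h)) :
    ∃ k, K ≤ k ∧ Nat.nth (· ∈ S) k ≤ m ∧ m + h < Nat.nth (· ∈ S) (k + 1) := by
  have hsm := Nat.nth_strictMono (p := (· ∈ S)) hS
  have h1 : ∃ k, K ≤ k ∧ Nat.nth (· ∈ S) k ≤ m ∧ m < Nat.nth (· ∈ S) (k + 1) := by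
    by_contra hcon
    push Not at hcon
    have h2 : ∀ j, Nat.nth (· ∈ S) (K + j) ≤ m := by
      intro j
      induction j with
      | zero => simpa using hK
      | succ j ih => exact hcon (K + j) (by omega) ih
    have h3 := h2 (m + 1)
    have h4 : K + (m + 1) ≤ Nat.nth (· ∈ S) (K + (m + 1)) := hsm.le_apply
    omega
  obtain ⟨k, hk1, hk2, hk3⟩ := h1
  refine ⟨k, hk1, hk2, ?_⟩
  by_contra hcon
  push Not at hcon
  exact hwin _ (Nat.nth_mem_of_infinite (p := (· ∈ S)) hS (k + 1)) ⟨hk3, hcon⟩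

/-- The deterministic lemma. -/
lemma le_gapLimsup (w : ℕ → ℝ) (hw1 : ∀ n, 0 ≤ w n) (hwm : Monotone w) (S : Set ℕ)
    (hS : S.Infinite) (c : ℝ) (hc : 0 ≤ c)
    (hwin : ∀ X : ℕ, ∃ x m h : ℕ, X ≤ x ∧ x ≤ m ∧ 1 < m ∧ c * Real.log m ^ 2 ≤ h * w x ∧
      ∀ n ∈ S, ¬ (m < n ∧ n ≤ m + h)) :
    ((c : ℝ) : EReal) ≤ gapLimsup w S := by
  unfold gapLimsup
  apply le_limsup_of_frequently_le
  · rw [frequently_atTop]
    intro K
    set K' := max K 2 with hK'
    obtain ⟨x, m, h, hx, hxm, hm1, hch, hfree⟩ := hwin (Nat.nth (· ∈ S) K')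
    obtain ⟨k, hk1, hk2, hk3⟩ := exists_consecutive S hS K' m h (hx.trans hxm) hfree
    refine ⟨k, (le_max_left _ _).trans hk1, ?_⟩
    rw [EReal.coe_le_coe_iff]
    set s := Nat.nth (· ∈ S) k with hs
    set t := Nat.nth (· ∈ S) (k + 1) with ht
    have hs2 : 2 ≤ s := by
      have h1 : k ≤ s := (Nat.nth_strictMono (p := (· ∈ S)) hS).le_apply
      have h2 : 2 ≤ K' := le_max_right _ _
      omega
    have hlogs : 0 < Real.log s := Real.log_pos (by exact_mod_cast (by omega : 1 < s))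
    have hlogsm : Real.log s ≤ Real.log m :=
      Real.log_le_log (by exact_mod_cast (by omega : 0 < s)) (by exact_mod_cast hk2)
    rw [le_div_iff₀ (by positivity)]
    have h3 : c * Real.log s ^ 2 ≤ c * Real.log m ^ 2 := by
      apply mul_le_mul_of_nonneg_left _ hc
      exact pow_le_pow_left₀ hlogs.le hlogsm 2
    have h4 : (h : ℝ) ≤ (t : ℝ) - s := by
      have : s + h ≤ t := by omega
      have h5 : (s : ℝ) + h ≤ t := by exact_mod_cast this
      linarith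
    have h6 : w x ≤ w t := hwm (by omega)
    have h7 : (h : ℝ) * w x ≤ ((t : ℝ) - s) * w t :=
      mul_le_mul h4 h6 (hw1 x) (le_trans (by positivity) h4)
    linarith
  · exact isBoundedUnder_of ⟨⊤, fun _ => le_top⟩

end Pool.Agent.Work.MP_b0c12c_nt_helper63
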