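import Mathlib

/-!
Definitions for the semi-random sieve of Eratosthenes.
-/

namespace Pool.Agent.Work.MP_b0c12c_nt_helper63

open MeasureTheory ProbabilityTheory

/-- `a p` (`p` prime) are independent random residue classes, `a p` uniform on `0, ..., p - 1`. -/
structure RandomClasses {Ω : Type*} [MeasurableSpace Ω] (μ : Measure Ω) (a : ℕ → Ω → ℕ) :
    Prop where
  meas : ∀ p, Measurable (a p)
  indep : iIndepFun a μ
  unif : ∀ p, p.Prime → ∀ r < p, μ.real {ω | a p ω = r} = 1 / p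

/-- The integers `n ≥ 2` which survive the sieve by the primes `p ≤ √n`, where `p` removes the
class `a p` if `p ∈ A n` and the class `0` if `p ∉ A n`. -/
def Sifted (A : ℕ → Set ℕ) (a : ℕ → ℕ) : Set ℕ :=
  {n | 2 ≤ n ∧ ∀ p : ℕ, p.Prime → p * p ≤ n → (p ∈ A n → n % p ≠ a p) ∧ (p ∉ A n → ¬ p ∣ n)}

open Classical in
/-- Sum of `1 / p` over the primes `p ≤ √x` which lie in `A n` for all `n` in `[x, x + x^θ]`. -/
noncomputable def activeSum (θ : ℝ) (A : ℕ → Set ℕ) (x : ℕ) : ℝ :=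
  ∑ p ∈ (Finset.range (x + 1)).filter (fun p => p.Prime ∧ p * p ≤ x ∧
    ∀ n : ℕ, x ≤ n → (n : ℝ) ≤ x + (x : ℝ) ^ θ → p ∈ A n), (1 : ℝ) / p

/-- `limsup (s_{k+1} - s_k) w(s_{k+1}) / (log s_k)^2` for the increasing enumeration of `S`. -/
noncomputable def gapLimsup (w : ℕ → ℝ) (S : Set ℕ) : EReal :=
  Filter.limsup (fun k : ℕ =>
    (((((Nat.nth (· ∈ S) (k + 1) : ℕ) : ℝ) - ((Nat.nth (· ∈ S) k : ℕ) : ℝ)) *
      w (Nat.nth (· ∈ S) (k + 1)) / (Real.log ((Nat.nth (· ∈ S) k : ℕ) : ℝ)) ^ 2 : ℝ) : EReal))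
    Filter.atTop

end Pool.Agent.Work.MP_b0c12c_nt_helper63
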