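import Pool.Agent.Work.MP_b0c12c_nt_helper63.Phi
import Pool.Agent.Work.MP_b0c12c_nt_helper63.Defs

/-!
Random residue classes: probability that a set of integers is covered, second moment lemma.
-/

set_option linter.unusedSectionVars false
set_option linter.deprecated false

namespace Pool.Agent.Work.MP_b0c12c_nt_helper63

open MeasureTheory ProbabilityTheory

variable {Ω : Type*} [MeasurableSpace Ω] {μ : Measure Ω} [IsProbabilityMeasure μ]
  {a : ℕ → Ω → ℕ}

/-- the sigma-algebra generated by one class -/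
@[reducible] def sig (a : ℕ → Ω → ℕ) (p : ℕ) : MeasurableSpace Ω :=
  (inferInstance : MeasurableSpace ℕ).comap (a p)

lemma sig_le (h : ∀ p, Measurable (a p)) (p : ℕ) : sig a p ≤ ‹MeasurableSpace Ω› :=
  (h p).comap_le

lemma meas_sig (p : ℕ) (s : Set ℕ) : MeasurableSet[sig a p] {ω | a p ω ∈ s} :=
  ⟨s, MeasurableSet.of_discrete, rfl⟩

/-- all elements of `D` are hit by a class of a modulus in `l` -/
def Hit (a : ℕ → Ω → ℕ) (l : List ℕ) (D : Finset ℕ) : Set Ω :=
  {ω | ∀ n ∈ D, ∃ p ∈ l, a p ω = n % p}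

lemma hit_meas (l : List ℕ) (D : Finset ℕ) :
    MeasurableSet[⨆ i ∈ {q | q ∈ l}, sig a i] (Hit a l D) := by
  have : Hit a l D = ⋂ n ∈ D, ⋃ p ∈ l.toFinset, {ω | a p ω ∈ ({n % p} : Set ℕ)} := by
    ext ω
    simp [Hit]
  rw [this]
  refine MeasurableSet.biInter D.countable_toSet fun n _ => ?_
  refine MeasurableSet.biUnion l.toFinset.countable_toSet fun p hp => ?_
  have hp' : p ∈ {q | q ∈ l} := by simpa using hp
  exact (le_biSup (sig a) hp') _ (meas_sig p _)

lemma hit_meas' (h : ∀ p, Measurable (a p)) (l : List ℕ) (D : Finset ℕ) :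
    MeasurableSet (Hit a l D) := by
  have h1 : (⨆ i ∈ {q | q ∈ l}, sig a i) ≤ ‹MeasurableSpace Ω› := iSup₂_le fun i _ => sig_le h i
  exact h1 _ (hit_meas l D)

lemma indep_real (h : RandomClasses μ a) (p : ℕ) (l : List ℕ) (hp : p ∉ l) (s : Set ℕ)
    (D : Finset ℕ) :
    μ.real ({ω | a p ω ∈ s} ∩ Hit a l D) = μ.real {ω | a p ω ∈ s} * μ.real (Hit a l D) := by
  have hi : iIndep (fun i => sig a i) μ := h.indep.iIndep
  have h1 := indep_iSup_of_disjoint (fun i => sig_le h.meas i) hi
    (S := {p}) (T := {q | q ∈ l}) (by simpa using hp)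
  rw [Indep_iff] at h1
  have h2 := h1 {ω | a p ω ∈ s} (Hit a l D) ((le_biSup (sig a) (Set.mem_singleton p)) _ (meas_sig p s))
    (hit_meas l D)
  simp only [measureReal_def, h2, ENNReal.toReal_mul]

/-- The coverage probability equals `phi`. -/
lemma hit_prob (h : RandomClasses μ a) : ∀ (l : List ℕ), l.Nodup → (∀ p ∈ l, p.Prime) →
    ∀ D : Finset ℕ, (∀ p ∈ l, Set.InjOn (fun n => n % p) (D : Set ℕ)) →
    μ.real (Hit a l D) = phi l D.card := by
  classical
  intro l
  induction l with
  | nil =>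
    intro _ _ D _
    rcases D.eq_empty_or_nonempty with h0 | ⟨n, hn⟩
    · subst h0; simp [Hit, phi]
    · have h1 : Hit a [] D = ∅ := by
        ext ω; simp only [Hit, Set.mem_setOf_eq, Set.mem_empty_iff_false, iff_false]
        intro hh
        obtain ⟨p, hp, _⟩ := hh n hn
        simp at hp
      have h2 : D.card ≠ 0 := by rw [Finset.card_ne_zero]; exact ⟨n, hn⟩
      simp [h1, phi, h2]
  | cons p l ih =>
    intro hnd hprime D hinj
    rw [List.nodup_cons] at hnd
    have hpl : p ∉ l := hnd.1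
    have hp : p.Prime := hprime p (by simp)
    have hprime' : ∀ q ∈ l, q.Prime := fun q hq => hprime q (by simp [hq])
    have hinj' : ∀ q ∈ l, Set.InjOn (fun n => n % q) (D : Set ℕ) := fun q hq => hinj q (by simp [hq])
    have hinjp := hinj p (by simp)
    set m := D.card with hm
    -- decomposition
    have hdec : Hit a (p :: l) D = ({ω | a p ω ∈ ((D.image (fun n => n % p) : Finset ℕ) : Set ℕ)ᶜ} ∩ Hit a l D) ∪
        ⋃ n ∈ D, ({ω | a p ω ∈ ({n % p} : Set ℕ)} ∩ Hit a l (D.erase n)) := by
      ext ω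
      simp only [Hit, Set.mem_setOf_eq, Set.mem_union, Set.mem_inter_iff, Set.mem_iUnion,
        Set.mem_singleton_iff, Set.mem_compl_iff, Finset.mem_coe, Finset.mem_image, exists_prop,
        Finset.mem_erase]
      constructor
      · intro hh
        by_cases hc : ∃ n ∈ D, n % p = a p ω
        · right
          obtain ⟨n, hn, hnp⟩ := hc
          refine ⟨n, hn, hnp.symm, ?_⟩
          rintro k ⟨hkn, hkD⟩
          obtain ⟨q, hq, hqk⟩ := hh k hkD
          rw [List.mem_cons] at hq
          rcases hq with rfl | hq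
          · exfalso
            apply hkn
            apply hinjp hkD hn
            show k % q = n % q
            rw [hnp, hqk]
          · exact ⟨q, hq, hqk⟩
        · left
          refine ⟨hc, fun n hn => ?_⟩
          obtain ⟨q, hq, hqn⟩ := hh n hn
          rw [List.mem_cons] at hq
          rcases hq with rfl | hq
          · exact absurd ⟨n, hn, hqn.symm⟩ hc
          · exact ⟨q, hq, hqn⟩
      · rintro (⟨_, hh⟩ | ⟨n, hn, hnp, hh⟩)
        · intro k hk
          obtain ⟨q, hq, hqk⟩ := hh k hk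
          exact ⟨q, List.mem_cons_of_mem _ hq, hqk⟩
        · intro k hk
          by_cases hkn : k = n
          · subst hkn; exact ⟨p, by simp, hnp⟩
          · obtain ⟨q, hq, hqk⟩ := hh k ⟨hkn, hk⟩
            exact ⟨q, List.mem_cons_of_mem _ hq, hqk⟩
    have hmeasA : ∀ s : Set ℕ, MeasurableSet {ω | a p ω ∈ s} := fun s =>
      h.meas p (MeasurableSet.of_discrete (s := s))
    have hmeas2 : ∀ n ∈ D, MeasurableSet ({ω | a p ω ∈ ({n % p} : Set ℕ)} ∩ Hit a l (D.erase n)) :=
      fun n _ => (hmeasA _).inter (hit_meas' h.meas l _)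
    have hdisj : Disjoint ({ω | a p ω ∈ ((D.image (fun n => n % p) : Finset ℕ) : Set ℕ)ᶜ} ∩ Hit a l D)
        (⋃ n ∈ D, ({ω | a p ω ∈ ({n % p} : Set ℕ)} ∩ Hit a l (D.erase n))) := by
      rw [Set.disjoint_left]
      rintro ω ⟨h1, _⟩ h2
      simp only [Set.mem_iUnion, Set.mem_inter_iff, Set.mem_setOf_eq, Set.mem_singleton_iff,
        exists_prop] at h2
      obtain ⟨n, hn, hnp, _⟩ := h2
      simp only [Set.mem_setOf_eq, Set.mem_compl_iff, Finset.mem_coe, Finset.mem_image] at h1
      exact h1 ⟨n, hn, hnp.symm⟩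
    have hpd : (D : Set ℕ).PairwiseDisjoint
        (fun n => ({ω | a p ω ∈ ({n % p} : Set ℕ)} ∩ Hit a l (D.erase n))) := by
      intro n hn k hk hnk
      rw [Function.onFun, Set.disjoint_left]
      rintro ω ⟨h1, _⟩ ⟨h2, _⟩
      simp only [Set.mem_setOf_eq, Set.mem_singleton_iff] at h1 h2
      exact hnk (hinjp hn hk (by show n % p = k % p; rw [← h1, ← h2]))
    rw [hdec, measureReal_union hdisj (Finset.measurableSet_biUnion _ hmeas2) (measure_ne_top _ _)
      (measure_ne_top _ _),
      measureReal_biUnion_finset hpd hmeas2]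
    have hone : ∀ n ∈ D, μ.real {ω | a p ω ∈ ({n % p} : Set ℕ)} = 1 / p := by
      intro n _
      have := h.unif p hp (n % p) (Nat.mod_lt _ hp.pos)
      simpa using this
    have hsum : ∑ n ∈ D, μ.real ({ω | a p ω ∈ ({n % p} : Set ℕ)} ∩ Hit a l (D.erase n)) =
        (m : ℝ) / p * phi l (m - 1) := by
      have : ∀ n ∈ D, μ.real ({ω | a p ω ∈ ({n % p} : Set ℕ)} ∩ Hit a l (D.erase n)) =
          1 / p * phi l (m - 1) := by
        intro n hn
        rw [indep_real h p l hpl, hone n hn, ih hnd.2 hprime' (D.erase n)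
          (fun q hq => (hinj' q hq).mono (by intro x hx; exact Finset.mem_of_mem_erase hx)),
          Finset.card_erase_of_mem hn]
      rw [Finset.sum_congr rfl this, Finset.sum_const, nsmul_eq_mul]
      ring
    have hcompl : μ.real {ω | a p ω ∈ ((D.image (fun n => n % p) : Finset ℕ) : Set ℕ)ᶜ} = 1 - (m : ℝ) / p := by
      have e1 : {ω | a p ω ∈ ((D.image (fun n => n % p) : Finset ℕ) : Set ℕ)ᶜ} =
          (⋃ n ∈ D, {ω | a p ω ∈ ({n % p} : Set ℕ)})ᶜ := by
        ext ω
        simp only [Set.mem_setOf_eq, Set.mem_compl_iff, Finset.mem_coe, Finset.mem_image,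
          Set.mem_iUnion, Set.mem_singleton_iff, exists_prop]
        constructor
        · rintro h1 ⟨n, hn, hnp⟩; exact h1 ⟨n, hn, hnp.symm⟩
        · rintro h1 ⟨n, hn, hnp⟩; exact h1 ⟨n, hn, hnp.symm⟩
      have hpd2 : (D : Set ℕ).PairwiseDisjoint (fun n => {ω | a p ω ∈ ({n % p} : Set ℕ)}) := by
        intro n hn k hk hnk
        rw [Function.onFun, Set.disjoint_left]
        intro ω h1 h2
        simp only [Set.mem_setOf_eq, Set.mem_singleton_iff] at h1 h2
        exact hnk (hinjp hn hk (by show n % p = k % p; rw [← h1, ← h2]))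
      rw [e1, probReal_compl_eq_one_sub (Finset.measurableSet_biUnion _ fun n _ => hmeasA _),
        measureReal_biUnion_finset hpd2 (fun n _ => hmeasA _), Finset.sum_congr rfl hone,
        Finset.sum_const, nsmul_eq_mul]
      ring
    rw [hsum, indep_real h p l hpl, hcompl, ih hnd.2 hprime' D hinj']
    simp only [phi, ← hm]

/-- Second moment lemma. -/
lemma second_moment {ι : Type*} (W : Finset ι) (F : ι → Set Ω) (hF : ∀ i ∈ W, MeasurableSet (F i))
    (hneg : ∀ i ∈ W, ∀ j ∈ W, i ≠ j → μ.real (F i ∩ F j) ≤ μ.real (F i) * μ.real (F j))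
    {lam : ℝ} (hlam : 0 < lam) (hsum : lam ≤ ∑ i ∈ W, μ.real (F i)) :
    μ.real {ω | ∀ i ∈ W, ω ∉ F i} ≤ 1 / lam := by
  classical
  set L := ∑ i ∈ W, μ.real (F i) with hL
  have hL0 : 0 < L := lt_of_lt_of_le hlam hsum
  set N : Ω → ℝ := fun ω => ∑ i ∈ W, (F i).indicator (fun _ => (1 : ℝ)) ω with hN
  have hint : ∀ i ∈ W, Integrable ((F i).indicator (fun _ => (1 : ℝ))) μ := fun i hi =>
    (integrable_const _).indicator (hF i hi)
  have hintij : ∀ i ∈ W, ∀ j ∈ W, Integrable (fun ω => (F i).indicator (fun _ => (1 : ℝ)) ω *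
      (F j).indicator (fun _ => (1 : ℝ)) ω) μ := by
    intro i hi j hj
    have : (fun ω => (F i).indicator (fun _ => (1 : ℝ)) ω * (F j).indicator (fun _ => (1 : ℝ)) ω) =
        (F i ∩ F j).indicator (fun _ => (1 : ℝ)) := by
      ext ω
      by_cases h1 : ω ∈ F i <;> by_cases h2 : ω ∈ F j <;> simp [h1, h2]
    rw [this]
    exact (integrable_const _).indicator ((hF i hi).inter (hF j hj))
  have hEij : ∀ i ∈ W, ∀ j ∈ W, ∫ ω, (F i).indicator (fun _ => (1 : ℝ)) ω *
      (F j).indicator (fun _ => (1 : ℝ)) ω ∂μ = μ.real (F i ∩ F j) := by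
    intro i hi j hj
    have : (fun ω => (F i).indicator (fun _ => (1 : ℝ)) ω * (F j).indicator (fun _ => (1 : ℝ)) ω) =
        (F i ∩ F j).indicator (fun _ => (1 : ℝ)) := by
      ext ω
      by_cases h1 : ω ∈ F i <;> by_cases h2 : ω ∈ F j <;> simp [h1, h2]
    rw [this, integral_indicator ((hF i hi).inter (hF j hj))]
    simp
  have hE : ∫ ω, N ω ∂μ = L := by
    rw [hN, integral_finset_sum W hint, hL]
    refine Finset.sum_congr rfl fun i hi => ?_
    rw [integral_indicator (hF i hi)]
    simp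
  have hNint : Integrable N μ := by
    rw [hN]; exact integrable_finset_sum W hint
  have hN2eq : ∀ ω, N ω * N ω = ∑ i ∈ W, ∑ j ∈ W, (F i).indicator (fun _ => (1 : ℝ)) ω *
      (F j).indicator (fun _ => (1 : ℝ)) ω := by
    intro ω; rw [hN]; simp only; rw [Finset.sum_mul_sum]
  have hN2int : Integrable (fun ω => N ω * N ω) μ := by
    simp_rw [hN2eq]
    exact integrable_finset_sum W fun i hi => integrable_finset_sum W fun j hj => hintij i hi j hj
  have hE2 : ∫ ω, N ω * N ω ∂μ ≤ L + L * L := by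
    simp_rw [hN2eq]
    rw [integral_finset_sum W fun i hi => integrable_finset_sum W fun j hj => hintij i hi j hj]
    have h1 : ∀ i ∈ W, ∫ ω, ∑ j ∈ W, (F i).indicator (fun _ => (1 : ℝ)) ω *
        (F j).indicator (fun _ => (1 : ℝ)) ω ∂μ ≤ μ.real (F i) + μ.real (F i) * L := by
      intro i hi
      rw [integral_finset_sum W fun j hj => hintij i hi j hj, ← Finset.add_sum_erase W _ hi,
        hEij i hi i hi, Set.inter_self]
      have h2 : ∑ j ∈ W.erase i, ∫ ω, (F i).indicator (fun _ => (1 : ℝ)) ω *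
          (F j).indicator (fun _ => (1 : ℝ)) ω ∂μ ≤ ∑ j ∈ W.erase i, μ.real (F i) * μ.real (F j) := by
        apply Finset.sum_le_sum
        intro j hj
        rw [Finset.mem_erase] at hj
        rw [hEij i hi j hj.2]
        exact hneg i hi j hj.2 (Ne.symm hj.1)
      have h3 : ∑ j ∈ W.erase i, μ.real (F i) * μ.real (F j) ≤ μ.real (F i) * L := by
        rw [hL, Finset.mul_sum]
        apply Finset.sum_le_sum_of_subset_of_nonneg (Finset.erase_subset _ _)
        intro j _ _
        exact mul_nonneg measureReal_nonneg measureReal_nonneg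
      linarith
    calc ∑ i ∈ W, ∫ ω, ∑ j ∈ W, (F i).indicator (fun _ => (1 : ℝ)) ω *
        (F j).indicator (fun _ => (1 : ℝ)) ω ∂μ ≤ ∑ i ∈ W, (μ.real (F i) + μ.real (F i) * L) :=
          Finset.sum_le_sum h1
      _ = L + L * L := by rw [Finset.sum_add_distrib, ← Finset.sum_mul]
  have hvar : ∫ ω, (N ω - L) * (N ω - L) ∂μ ≤ L := by
    have e : ∀ ω, (N ω - L) * (N ω - L) = N ω * N ω - (2 * L) * N ω + L * L := fun ω => by ring
    simp_rw [e]
    have i1 : Integrable (fun ω => 2 * L * N ω) μ := hNint.const_mul _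
    have i2 : Integrable (fun ω => N ω * N ω - 2 * L * N ω) μ := hN2int.sub i1
    rw [integral_add i2 (integrable_const _), integral_sub hN2int i1, integral_const_mul, hE]
    simp only [integral_const, probReal_univ, smul_eq_mul, one_mul]
    linarith
  set Z : Set Ω := {ω | ∀ i ∈ W, ω ∉ F i} with hZ
  have hZm : MeasurableSet Z := by
    have : Z = ⋂ i ∈ W, (F i)ᶜ := by ext ω; simp [hZ]
    rw [this]
    exact Finset.measurableSet_biInter _ fun i hi => (hF i hi).compl
  have hmain : μ.real Z * (L * L) ≤ L := by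
    have h1 : ∫ ω, Z.indicator (fun _ => L * L) ω ∂μ ≤ ∫ ω, (N ω - L) * (N ω - L) ∂μ := by
      apply integral_mono ((integrable_const _).indicator hZm)
      · have e : (fun ω => (N ω - L) * (N ω - L)) = fun ω => N ω * N ω - (2 * L) * N ω + L * L := by
          ext ω; ring
        rw [e]
        exact (hN2int.sub (hNint.const_mul _)).add (integrable_const _)
      · intro ω
        by_cases hω : ω ∈ Z
        · have hNω : N ω = 0 := by
            rw [hN]
            apply Finset.sum_eq_zero
            intro i hi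
            exact Set.indicator_of_notMem (hω i hi) _
          simp only [Set.indicator_of_mem hω, hNω]
          apply le_of_eq; ring
        · simp only [Set.indicator_of_notMem hω]
          exact mul_self_nonneg _
    rw [integral_indicator hZm] at h1
    simp only [integral_const, smul_eq_mul, measureReal_restrict_apply MeasurableSet.univ, Set.univ_inter] at h1
    linarith
  have h2 : μ.real Z ≤ 1 / L := by
    rw [le_div_iff₀ hL0]
    have : μ.real Z * L * L ≤ 1 * L := by linarith
    exact le_of_mul_le_mul_right this hL0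
  exact h2.trans (one_div_le_one_div_of_le hlam hsum)

end Pool.Agent.Work.MP_b0c12c_nt_helper63
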