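import Pool.Agent.Work.MP_b0c12c_nt_helper63.Core

/-!
Asymptotics for block P.
-/

set_option linter.unusedSectionVars false
set_option linter.deprecated false

namespace Pool.Agent.Work.MP_b0c12c_nt_helper63

open Filter Topology

noncomputable def V0 (A x : ℝ) : ℕ := ⌊Real.log (x / 2) ^ A⌋₊
noncomputable def LL (l x : ℝ) : ℕ := ⌊l * Real.log x ^ 2⌋₊
noncomputable def UU (A l x : ℝ) : ℕ := ⌈Real.log (4 * x) ^ A⌉₊ + ⌈l * Real.log x ^ 2⌉₊
noncomputable def aa (A l x : ℝ) : ℝ := LL l x / (2 * (V0 A x : ℝ) + 1)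

lemma tend_logA (A : ℝ) (hA : 0 < A) : Tendsto (fun x : ℝ => Real.log x ^ A) atTop atTop :=
  (tendsto_rpow_atTop hA).comp Real.tendsto_log_atTop

lemma tend_log2A (A : ℝ) (hA : 2 < A) :
    Tendsto (fun x : ℝ => Real.log x ^ 2 / Real.log x ^ A) atTop (𝓝 0) := by
  have h1 : Tendsto (fun y : ℝ => y ^ (-(A - 2))) atTop (𝓝 0) :=
    tendsto_rpow_neg_atTop (by linarith)
  refine (h1.comp Real.tendsto_log_atTop).congr' ?_
  filter_upwards [eventually_gt_atTop 1] with x hx
  have hlog : 0 < Real.log x := Real.log_pos hx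
  simp only [Function.comp]
  rw [show -(A - 2) = 2 - A by ring, Real.rpow_sub hlog]
  norm_num

lemma tend_V0 (A : ℝ) (hA : 2 < A) :
    Tendsto (fun x : ℝ => (2 * (V0 A x : ℝ) + 1) / (2 * Real.log x ^ A)) atTop (𝓝 1) := by
  have h1 : Tendsto (fun x : ℝ => Real.log (x / 2) ^ A) atTop atTop :=
    (tend_logA A (by linarith)).comp (tendsto_id.atTop_div_const (by norm_num))
  have h2 := (tendsto_nat_floor_div_atTop (R := ℝ)).comp h1
  have h3 := log_ratio_rpow (1 / 2) A (by norm_num)
  have h4 : Tendsto (fun x : ℝ => 1 / (2 * Real.log x ^ A)) atTop (𝓝 0) := by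
    have := ((tend_logA A (by linarith)).const_mul_atTop (show (0 : ℝ) < 2 by norm_num)).inv_tendsto_atTop
    refine this.congr fun x => ?_
    simp [one_div]
  have h5 := (h2.mul h3).add h4
  rw [one_mul, add_zero] at h5
  refine h5.congr' ?_
  filter_upwards [eventually_gt_atTop 1, h1.eventually_gt_atTop 0] with x hx hx2
  have hlog : 0 < Real.log x ^ A := Real.rpow_pos_of_pos (Real.log_pos hx) _
  simp only [Function.comp, V0]
  rw [show 1 / 2 * x = x / 2 by ring]
  field_simp

lemma tend_ceil (l : ℝ) (hl : 0 < l) (A : ℝ) (hA : 2 < A) :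
    Tendsto (fun x : ℝ => (⌈l * Real.log x ^ 2⌉₊ : ℝ) / Real.log x ^ A) atTop (𝓝 0) := by
  have h0 : Tendsto (fun x : ℝ => Real.log x ^ 2) atTop atTop :=
    (tendsto_pow_atTop (by norm_num)).comp Real.tendsto_log_atTop
  have h1 : Tendsto (fun x : ℝ => l * Real.log x ^ 2) atTop atTop := h0.const_mul_atTop hl
  have h2 := (tendsto_nat_ceil_div_atTop (R := ℝ)).comp h1
  have h3 := (h2.mul ((tend_log2A A hA).const_mul l))
  rw [mul_zero, mul_zero] at h3
  refine h3.congr' ?_
  filter_upwards [eventually_gt_atTop 1] with x hx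
  have hlog : 0 < Real.log x := Real.log_pos hx
  have hlogA : 0 < Real.log x ^ A := Real.rpow_pos_of_pos hlog _
  simp only [Function.comp]
  field_simp

lemma tend_UU (A l : ℝ) (hA : 2 < A) (hl : 0 < l) :
    Tendsto (fun x : ℝ => (UU A l x : ℝ) / Real.log x ^ A) atTop (𝓝 1) := by
  have h1 : Tendsto (fun x : ℝ => Real.log (4 * x) ^ A) atTop atTop :=
    (tend_logA A (by linarith)).comp (tendsto_id.const_mul_atTop (by norm_num))
  have h2 := (tendsto_nat_ceil_div_atTop (R := ℝ)).comp h1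
  have h3 := log_ratio_rpow 4 A (by norm_num)
  have h5 := (h2.mul h3).add (tend_ceil l hl A hA)
  rw [one_mul, add_zero] at h5
  refine h5.congr' ?_
  filter_upwards [eventually_gt_atTop 1, h1.eventually_gt_atTop 0] with x hx hx2
  have hlog : 0 < Real.log x ^ A := Real.rpow_pos_of_pos (Real.log_pos hx) _
  simp only [Function.comp, UU]
  push_cast
  field_simp

lemma tend_LL (l : ℝ) (hl : 0 < l) :
    Tendsto (fun x : ℝ => (LL l x : ℝ) / Real.log x ^ 2) atTop (𝓝 l) := by
  have h0 : Tendsto (fun x : ℝ => Real.log x ^ 2) atTop atTop :=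
    (tendsto_pow_atTop (by norm_num)).comp Real.tendsto_log_atTop
  have h1 : Tendsto (fun x : ℝ => l * Real.log x ^ 2) atTop atTop := h0.const_mul_atTop hl
  have h2 := ((tendsto_nat_floor_div_atTop (R := ℝ)).comp h1).mul_const l
  rw [one_mul] at h2
  refine h2.congr' ?_
  filter_upwards [eventually_gt_atTop 1] with x hx
  have hlog : 0 < Real.log x := Real.log_pos hx
  simp only [Function.comp, LL]
  field_simp

lemma tend_aa (A l : ℝ) (hA : 2 < A) (hl : 0 < l) :
    Tendsto (fun x : ℝ => aa A l x) atTop (𝓝 0) := by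
  have h1 := (((tend_LL l hl).mul (tend_log2A A hA)).div (tend_V0 A hA) one_ne_zero).div_const 2
  rw [mul_zero, zero_div, zero_div] at h1
  refine h1.congr' ?_
  filter_upwards [eventually_gt_atTop 1] with x hx
  have hlog : 0 < Real.log x := Real.log_pos hx
  have hlogA : 0 < Real.log x ^ A := Real.rpow_pos_of_pos hlog _
  simp only [Pi.div_apply]
  unfold aa
  have : (0 : ℝ) < 2 * (V0 A x : ℝ) + 1 := by positivity
  field_simp

lemma tend_main (A l : ℝ) (hA : 2 < A) (hl : 0 < l) :
    Tendsto (fun x : ℝ => (aa A l x + aa A l x ^ 2) * (2 * (UU A l x : ℝ)) / Real.log x ^ 2)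
      atTop (𝓝 l) := by
  have h1 := (((tend_LL l hl).mul (tend_UU A l hA hl)).div (tend_V0 A hA) one_ne_zero).mul
    ((tend_aa A l hA hl).const_add 1)
  rw [mul_one, div_one, add_zero, mul_one] at h1
  refine h1.congr' ?_
  filter_upwards [eventually_gt_atTop 1] with x hx
  have hlog : 0 < Real.log x := Real.log_pos hx
  have hlogA : 0 < Real.log x ^ A := Real.rpow_pos_of_pos hlog _
  simp only [Pi.div_apply]
  unfold aa
  have : (0 : ℝ) < 2 * (V0 A x : ℝ) + 1 := by positivity
  field_simp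

end Pool.Agent.Work.MP_b0c12c_nt_helper63
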