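import Pool.Agent.Work.MP_b0c12c_nt_helper63.Gap
import Pool.Agent.Work.MP_b0c12c_nt.Interface

/-!
Block D of the interface: `LimsupOfWindows`.
-/

namespace Pool.Agent.Work.MP_b0c12c_nt_helper63

open Filter Topology Pool.Agent.Work.MP_b0c12c_nt

lemma log_ratio (c : ℝ) (hc : 0 < c) :
    Tendsto (fun x : ℝ => Real.log (c * x) / Real.log x) atTop (𝓝 1) := by
  have h1 : Tendsto (fun x : ℝ => Real.log c / Real.log x + 1) atTop (𝓝 (0 + 1)) :=
    (Real.tendsto_log_atTop.const_div_atTop (Real.log c)).add_const 1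
  rw [zero_add] at h1
  refine h1.congr' ?_
  filter_upwards [eventually_gt_atTop 1] with x hx
  have hlog : Real.log x ≠ 0 := (Real.log_pos hx).ne'
  rw [Real.log_mul hc.ne' (by linarith)]
  field_simp

theorem limsupOfWindows : Itf.LimsupOfWindows := by
  intro Q hQ l hl hwin
  refine EReal.ge_of_forall_gt_iff_ge.mp (fun z hz => ?_)
  rw [EReal.coe_lt_coe_iff] at hz
  -- for large x: z * log (4x)^2 <= l * log x ^ 2
  have hev : ∀ᶠ x : ℝ in atTop, 1 < x ∧ z * Real.log (4 * x) ^ 2 ≤ l * Real.log x ^ 2 := by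
    have h1 : Tendsto (fun x : ℝ => z * (Real.log (4 * x) / Real.log x) ^ 2) atTop (𝓝 (z * 1 ^ 2)) :=
      ((log_ratio 4 (by norm_num)).pow 2).const_mul z
    rw [one_pow, mul_one] at h1
    filter_upwards [h1.eventually (gt_mem_nhds hz), eventually_gt_atTop 1] with x hx1 hx2
    have hlog : 0 < Real.log x := Real.log_pos hx2
    refine ⟨hx2, ?_⟩
    rw [div_pow, mul_div_assoc', div_lt_iff₀ (by positivity)] at hx1
    exact hx1.le
  obtain ⟨X0, hX0⟩ := eventually_atTop.mp hev
  apply le_limsup_of_frequently_le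
  · rw [frequently_atTop]
    intro K
    set K' := max K 2 with hK'
    obtain ⟨x, hx, t, hxt, htx, hfree⟩ := hwin (max X0 (Nat.nth (· ∈ Q) K'))
    obtain ⟨hx1, hx2⟩ := hX0 x ((le_max_left _ _).trans hx)
    have hx3 : ((Nat.nth (· ∈ Q) K' : ℕ) : ℝ) ≤ t := ((le_max_right _ _).trans hx).trans hxt
    have hx4 : Nat.nth (· ∈ Q) K' ≤ t := by exact_mod_cast hx3
    have hLx : 0 < Real.log x := Real.log_pos hx1
    set g := ⌊l * Real.log x ^ 2⌋₊ with hg
    have hg1 : (g : ℝ) ≤ l * Real.log x ^ 2 := Nat.floor_le (by positivity)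
    have hg2 : l * Real.log x ^ 2 < g + 1 := Nat.lt_floor_add_one _
    obtain ⟨k, hk1, hk2, hk3⟩ := exists_consecutive Q hQ K' t g hx4 (by
      rintro n hn ⟨h1, h2⟩
      refine hfree n h1 ?_ hn
      have : (n : ℝ) ≤ t + g := by exact_mod_cast h2
      linarith)
    refine ⟨k, (le_max_left _ _).trans hk1, ?_⟩
    rw [EReal.coe_le_coe_iff]
    set s := Nat.nth (· ∈ Q) k with hs
    set s' := Nat.nth (· ∈ Q) (k + 1) with hs'
    have hs2 : 2 ≤ s := by
      have h1 : k ≤ s := (Nat.nth_strictMono (p := (· ∈ Q)) hQ).le_apply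
      have h2 : 2 ≤ K' := le_max_right _ _
      omega
    have hlogs : 0 < Real.log s := Real.log_pos (by exact_mod_cast (by omega : 1 < s))
    have hs4x : (s : ℝ) ≤ 4 * x := by
      have : (s : ℝ) ≤ t := by exact_mod_cast hk2
      linarith
    have hlogs4 : Real.log s ≤ Real.log (4 * x) :=
      Real.log_le_log (by exact_mod_cast (by omega : 0 < s)) hs4x
    have hgap : l * Real.log x ^ 2 ≤ (s' : ℝ) - s := by
      have h1 : s + (g + 1) ≤ s' := by omega
      have h2 : (s : ℝ) + (g + 1) ≤ s' := by exact_mod_cast h1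
      linarith
    rw [le_div_iff₀ (by positivity)]
    rcases le_or_gt z 0 with hz0 | hz0
    · have h1 : z * Real.log s ^ 2 ≤ 0 := mul_nonpos_of_nonpos_of_nonneg hz0 (by positivity)
      have h2 : 0 ≤ l * Real.log x ^ 2 := by positivity
      linarith
    · have h3 : z * Real.log s ^ 2 ≤ z * Real.log (4 * x) ^ 2 := by
        apply mul_le_mul_of_nonneg_left _ hz0.le
        exact pow_le_pow_left₀ hlogs.le hlogs4 2
      linarith
  · exact isBoundedUnder_of ⟨⊤, fun _ => le_top⟩

end Pool.Agent.Work.MP_b0c12c_nt_helper63
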