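import Pool.Agent.Work.MP_b0c12c_nt_helper63.Core

/-!
Block P of the interface: `WindowsPerturbed`.
-/

set_option linter.unusedSectionVars false
set_option linter.deprecated false

namespace Pool.Agent.Work.MP_b0c12c_nt_helper63

open MeasureTheory ProbabilityTheory Filter Topology Finset Pool.Agent.Work.MP_b0c12c_nt
open scoped ENNReal NNReal

lemma exp_neg_le_one_sub {a : ℝ} (h0 : 0 ≤ a) (h1 : a ≤ 1 / 2) :
    Real.exp (-(a + a ^ 2)) ≤ 1 - a := by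
  rw [Real.exp_neg]
  have h2 : 0 < 1 - a := by linarith
  rw [inv_le_comm₀ (Real.exp_pos _) h2]
  have h3 := Real.quadratic_le_exp_of_nonneg (show 0 ≤ a + a ^ 2 by positivity)
  refine le_trans ?_ h3
  rw [inv_le_iff_one_le_mul₀ h2]
  nlinarith [mul_nonneg (mul_nonneg h0 h0) (sq_nonneg (1 - a)), mul_nonneg h0 (mul_nonneg h0 h0),
    mul_nonneg (mul_nonneg h0 h0) (mul_nonneg h0 h0),
    mul_nonneg (mul_nonneg (mul_nonneg h0 h0) (sq_nonneg (1 - a))) h2.le]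

section uniform

variable {Ω : Type*} [MeasurableSpace Ω] {μ : Measure Ω} [IsProbabilityMeasure μ]

/-- product formula -/
lemma prod_formula {β : Type*} [MeasurableSpace β] [DiscreteMeasurableSpace β] {ξ : ℕ → Ω → β}
    (hi : iIndepFun ξ μ) (B : Finset ℕ) (s : ℕ → Set β) :
    μ.real {ω | ∀ p ∈ B, ξ p ω ∈ s p} = ∏ p ∈ B, μ.real {ω | ξ p ω ∈ s p} := by
  have h1 : {ω | ∀ p ∈ B, ξ p ω ∈ s p} = ⋂ p ∈ B, ξ p ⁻¹' s p := by
    ext ω; simp
  have h2 := hi.measure_inter_preimage_eq_mul B (sets := s) (fun _ _ => MeasurableSet.of_discrete)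
  rw [h1, measureReal_def, h2, ENNReal.toReal_prod]
  rfl

lemma prod_formula_two {β : Type*} [MeasurableSpace β] [DiscreteMeasurableSpace β]
    {ξ : ℕ → Ω → β} (hi : iIndepFun ξ μ) (B B' : Finset ℕ) (hd : Disjoint B B')
    (s s' : ℕ → Set β) :
    μ.real ({ω | ∀ p ∈ B, ξ p ω ∈ s p} ∩ {ω | ∀ p ∈ B', ξ p ω ∈ s' p}) =
      μ.real {ω | ∀ p ∈ B, ξ p ω ∈ s p} * μ.real {ω | ∀ p ∈ B', ξ p ω ∈ s' p} := by
  classical
  have h1 : {ω | ∀ p ∈ B, ξ p ω ∈ s p} ∩ {ω | ∀ p ∈ B', ξ p ω ∈ s' p} =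
      {ω | ∀ p ∈ B ∪ B', ξ p ω ∈ (if p ∈ B then s p else s' p)} := by
    ext ω
    simp only [Set.mem_inter_iff, Set.mem_setOf_eq, mem_union]
    constructor
    · rintro ⟨h1, h2⟩ p hp
      by_cases hpi : p ∈ B
      · rw [if_pos hpi]; exact h1 p hpi
      · rw [if_neg hpi]; exact h2 p (hp.resolve_left hpi)
    · intro h1
      refine ⟨fun p hp => ?_, fun p hp => ?_⟩
      · have := h1 p (Or.inl hp); rwa [if_pos hp] at this
      · have hpi : p ∉ B := fun h => (Finset.disjoint_left.mp hd) h hp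
        have := h1 p (Or.inr hp); rwa [if_neg hpi] at this
  rw [h1, prod_formula hi (B ∪ B'), Finset.prod_union hd, prod_formula hi B, prod_formula hi B']
  congr 1
  · refine Finset.prod_congr rfl fun p hp => ?_
    simp only [if_pos hp]
  · refine Finset.prod_congr rfl fun p hp => ?_
    have hpi : p ∉ B := fun h => (Finset.disjoint_left.mp hd) h hp
    simp only [if_neg hpi]

variable {ζ : Ω → ℤ} {V : ℕ}

lemma unif_real (hu : ∀ k : ℤ, |k| ≤ (V : ℤ) → μ {ω | ζ ω = k} = 1 / (2 * (V : ℝ≥0∞) + 1)) (k : ℤ)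
    (hk : |k| ≤ (V : ℤ)) : μ.real {ω | ζ ω = k} = 1 / (2 * (V : ℝ) + 1) := by
  rw [measureReal_def, hu k hk]
  rw [ENNReal.toReal_div, ENNReal.toReal_add (by finiteness) (by finiteness), ENNReal.toReal_mul]
  simp

lemma unif_abs (hm : Measurable ζ)
    (hu : ∀ k : ℤ, |k| ≤ (V : ℤ) → μ {ω | ζ ω = k} = 1 / (2 * (V : ℝ≥0∞) + 1)) :
    μ.real {ω | |ζ ω| ≤ (V : ℤ)} = 1 := by
  have h1 : {ω | |ζ ω| ≤ (V : ℤ)} = ⋃ k ∈ Finset.Icc (-(V : ℤ)) V, {ω | ζ ω = k} := by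
    ext ω
    simp [abs_le]
  rw [h1, measureReal_biUnion_finset]
  · have h2 : ∀ k ∈ Finset.Icc (-(V : ℤ)) V, μ.real {ω | ζ ω = k} = 1 / (2 * (V : ℝ) + 1) := by
      intro k hk
      rw [Finset.mem_Icc] at hk
      exact unif_real hu k (abs_le.mpr hk)
    rw [Finset.sum_congr rfl h2, Finset.sum_const, Int.card_Icc, nsmul_eq_mul]
    have h3 : ((V : ℤ) + 1 - -(V : ℤ)).toNat = 2 * V + 1 := by omega
    rw [h3]
    push_cast
    field_simp
  · intro i _ j _ hij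
    rw [Function.onFun, Set.disjoint_left]
    intro ω h2 h3
    exact hij (h2.symm.trans h3)
  · intro k _
    exact hm (measurableSet_singleton k)

lemma unif_le (hm : Measurable ζ)
    (hu : ∀ k : ℤ, |k| ≤ (V : ℤ) → μ {ω | ζ ω = k} = 1 / (2 * (V : ℝ≥0∞) + 1)) (k : ℤ) :
    μ.real {ω | ζ ω = k} ≤ 1 / (2 * (V : ℝ) + 1) := by
  by_cases hk : |k| ≤ (V : ℤ)
  · exact (unif_real hu k hk).le
  · have h1 : {ω | ζ ω = k} ⊆ {ω | |ζ ω| ≤ (V : ℤ)}ᶜ := by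
      intro ω hω h2
      simp only [Set.mem_setOf_eq] at hω h2
      rw [hω] at h2
      exact hk h2
    have h2 : MeasurableSet {ω | |ζ ω| ≤ (V : ℤ)} :=
      hm (MeasurableSet.of_discrete (s := {z : ℤ | |z| ≤ (V : ℤ)}))
    have h3 : μ.real {ω | |ζ ω| ≤ (V : ℤ)}ᶜ = 0 := by
      rw [probReal_compl_eq_one_sub h2, unif_abs hm hu, sub_self]
    calc μ.real {ω | ζ ω = k} ≤ μ.real {ω | |ζ ω| ≤ (V : ℤ)}ᶜ := measureReal_mono h1
      _ = 0 := h3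
      _ ≤ _ := by positivity

lemma unif_window (hm : Measurable ζ)
    (hu : ∀ k : ℤ, |k| ≤ (V : ℤ) → μ {ω | ζ ω = k} = 1 / (2 * (V : ℝ≥0∞) + 1)) (p t L : ℕ) :
    μ.real {ω | (t : ℤ) < p + ζ ω ∧ (p : ℤ) + ζ ω ≤ t + L} ≤ L / (2 * (V : ℝ) + 1) := by
  have h1 : {ω | (t : ℤ) < p + ζ ω ∧ (p : ℤ) + ζ ω ≤ t + L} ⊆
      ⋃ m ∈ Finset.Ioc t (t + L), {ω | ζ ω = (m : ℤ) - p} := by
    intro ω hω
    simp only [Set.mem_setOf_eq] at hω
    simp only [Set.mem_iUnion, Finset.mem_Ioc, Set.mem_setOf_eq, exists_prop]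
    refine ⟨((p : ℤ) + ζ ω).toNat, ?_, ?_⟩ <;> omega
  calc μ.real {ω | (t : ℤ) < p + ζ ω ∧ (p : ℤ) + ζ ω ≤ t + L}
      ≤ μ.real (⋃ m ∈ Finset.Ioc t (t + L), {ω | ζ ω = (m : ℤ) - p}) :=
        measureReal_mono h1 (measure_ne_top _ _)
    _ ≤ ∑ m ∈ Finset.Ioc t (t + L), μ.real {ω | ζ ω = (m : ℤ) - p} := measureReal_biUnion_finset_le _ _
    _ ≤ ∑ m ∈ Finset.Ioc t (t + L), 1 / (2 * (V : ℝ) + 1) :=
        Finset.sum_le_sum fun m _ => unif_le hm hu _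
    _ = L / (2 * (V : ℝ) + 1) := by
        rw [Finset.sum_const, Nat.card_Ioc, Nat.add_sub_cancel_left, nsmul_eq_mul]
        ring

end uniform

end Pool.Agent.Work.MP_b0c12c_nt_helper63
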