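import Pool.Agent.Work.MP_b0c12c_nt_helper63.BlockP
import Pool.Agent.Work.MP_b0c12c_nt_helper63.Asym

/-!
Block P of the interface: `WindowsPerturbed`, main part.
-/

set_option linter.unusedSectionVars false
set_option linter.deprecated false

namespace Pool.Agent.Work.MP_b0c12c_nt_helper63

open MeasureTheory ProbabilityTheory Filter Topology Finset Pool.Agent.Work.MP_b0c12c_nt
open scoped ENNReal NNReal

lemma log_rpow_le (A c : ℝ) (hc : 0 < c) : ∀ᶠ x : ℝ in atTop, Real.log x ^ A ≤ c * x := by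
  have h := (isLittleO_log_rpow_rpow_atTop A (show (0 : ℝ) < 1 by norm_num)).bound hc
  filter_upwards [h, eventually_gt_atTop 1] with x hx hx1
  rw [Real.rpow_one, Real.norm_of_nonneg (by linarith : (0 : ℝ) ≤ x)] at hx
  exact (Real.le_norm_self _).trans hx

lemma ev_cond (A A' l kap ρ x1 : ℝ) (hA : 2 < A) (hAA' : A < A') (hl : 0 < l) (hkap : 0 < kap)
    (hρ : l * kap < ρ) :
    ∀ᶠ x : ℝ in atTop, x1 ≤ x ∧ 1 < x ∧ Real.log x ≤ UU A l x ∧
      (UU A l x : ℝ) ≤ Real.log x ^ A' ∧ (UU A l x : ℝ) ≤ x / 4 ∧ aa A l x ≤ 1 / 2 ∧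
      (aa A l x + aa A l x ^ 2) * (kap * (2 * (UU A l x : ℝ)) / Real.log x) ≤ ρ * Real.log x ∧
      (∀ p : ℝ, 4 * x < p → Real.log p ^ A ≤ p / 8) := by
  have h1 := tend_UU A l hA hl
  have h2 : ∀ᶠ x : ℝ in atTop, 1 / 2 < (UU A l x : ℝ) / Real.log x ^ A :=
    h1.eventually (lt_mem_nhds (by norm_num))
  have h3 : ∀ᶠ x : ℝ in atTop, (UU A l x : ℝ) / Real.log x ^ A < 2 :=
    h1.eventually (gt_mem_nhds (by norm_num))
  have h4 : ∀ᶠ x : ℝ in atTop, 2 ≤ Real.log x ^ (A - 1) :=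
    (tend_logA (A - 1) (by linarith)).eventually_ge_atTop 2
  have h5 : ∀ᶠ x : ℝ in atTop, 2 ≤ Real.log x ^ (A' - A) :=
    (tend_logA (A' - A) (by linarith)).eventually_ge_atTop 2
  have h6 : ∀ᶠ x : ℝ in atTop, Real.log x ^ A ≤ 1 / 8 * x := log_rpow_le A (1 / 8) (by norm_num)
  have h7 : ∀ᶠ x : ℝ in atTop, aa A l x < 1 / 2 :=
    (tend_aa A l hA hl).eventually (gt_mem_nhds (by norm_num))
  have h8 : ∀ᶠ x : ℝ in atTop, (aa A l x + aa A l x ^ 2) * (2 * (UU A l x : ℝ)) / Real.log x ^ 2 < ρ / kap :=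
    (tend_main A l hA hl).eventually (gt_mem_nhds (by rw [lt_div_iff₀ hkap]; exact hρ))
  have h9 : ∀ᶠ x : ℝ in atTop, ∀ p : ℝ, 4 * x < p → Real.log p ^ A ≤ p / 8 := by
    obtain ⟨Y, hY⟩ := eventually_atTop.mp h6
    filter_upwards [eventually_ge_atTop (max Y 0)] with x hx p hp
    have hY' : Y ≤ x := (le_max_left _ _).trans hx
    have h0 : 0 ≤ x := (le_max_right _ _).trans hx
    have := hY p (by linarith)
    linarith
  filter_upwards [h2, h3, h4, h5, h6, h7, h8, h9, eventually_gt_atTop 1, eventually_ge_atTop x1]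
    with x g2 g3 g4 g5 g6 g7 g8 g9 g10 g11
  have hlog : 0 < Real.log x := Real.log_pos g10
  have hlogA : 0 < Real.log x ^ A := Real.rpow_pos_of_pos hlog _
  rw [lt_div_iff₀ hlogA] at g2
  rw [div_lt_iff₀ hlogA] at g3
  refine ⟨g11, g10, ?_, ?_, by linarith, g7.le, ?_, g9⟩
  · have e : Real.log x ^ A = Real.log x ^ (A - 1) * Real.log x := by
      rw [← Real.rpow_add_one hlog.ne']; congr 1; ring
    rw [e] at g2
    nlinarith
  · have e : Real.log x ^ A' = Real.log x ^ (A' - A) * Real.log x ^ A := by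
      rw [← Real.rpow_add hlog]; congr 1; ring
    rw [e]
    nlinarith
  · rw [div_lt_iff₀ (by positivity)] at g8
    have e : (aa A l x + aa A l x ^ 2) * (kap * (2 * (UU A l x : ℝ)) / Real.log x) =
        kap * ((aa A l x + aa A l x ^ 2) * (2 * (UU A l x : ℝ))) / Real.log x := by ring
    rw [e, div_le_iff₀ hlog]
    have h10 := mul_le_mul_of_nonneg_left g8.le hkap.le
    have h11 : kap * (ρ / kap * Real.log x ^ 2) = ρ * Real.log x * Real.log x := by
      field_simp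
    linarith

theorem windowsPerturbed : Itf.WindowsPerturbed := by
  intro A A' hA hAA' kap hkap hRows Ω _ μ _ ξ hξm hξi hξu l hl hlk
  classical
  set ρ := (1 + l * kap) / 2 with hρ
  have hρ1 : ρ < 1 := by rw [hρ]; linarith
  have hρ2 : l * kap < ρ := by rw [hρ]; linarith
  set η := (1 - ρ) / 2 with hη
  have hη0 : 0 < η := by rw [hη]; linarith
  obtain ⟨x1, hx1⟩ := hRows η hη0
  obtain ⟨X0, hX0⟩ := eventually_atTop.mp (ev_cond A A' l kap ρ x1 hA hAA' hl hkap hρ2)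
  set B : ℝ → ℕ → Finset ℕ := fun x t =>
    (Finset.Icc (t - UU A l x) (t + UU A l x)).filter Nat.Prime with hB
  set G : ℝ → ℕ → Set Ω := fun x t =>
    {ω | ∀ p ∈ B x t, ξ p ω ∈ {k : ℤ | ¬ ((t : ℤ) < p + k ∧ (p : ℤ) + k ≤ t + LL l x)}} with hG
  have hGm : ∀ x t, MeasurableSet (G x t) := by
    intro x t
    have : G x t = ⋂ p ∈ B x t, ξ p ⁻¹' {k : ℤ | ¬ ((t : ℤ) < p + k ∧ (p : ℤ) + k ≤ t + LL l x)} := by
      ext ω; simp [hG]
    rw [this]
    exact Finset.measurableSet_biInter _ fun p _ => hξm p MeasurableSet.of_discrete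
  have hBprime : ∀ x t, ∀ p ∈ B x t, p.Prime := fun x t p hp => by
    rw [hB] at hp; exact (mem_filter.mp hp).2
  -- one scale
  have hstep : ∀ x : ℝ, X0 ≤ x → ∃ T : Finset ℕ, (∀ t ∈ T, x ≤ (t : ℝ) ∧ (t : ℝ) ≤ 3 * x) ∧
      μ.real {ω | ∀ t ∈ T, ω ∉ G x t} ≤ x ^ (-η) := by
    intro x hx
    obtain ⟨c1, c2, c3, c4, c5, c6, c7, c8⟩ := hX0 x hx
    obtain ⟨T, hT1, hT2, hT3, hT4⟩ := hx1 x c1 (UU A l x) c3 c4
    refine ⟨T, hT1, ?_⟩
    have hlog : 0 < Real.log x := Real.log_pos c2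
    have ha0 : 0 ≤ aa A l x := by unfold aa; positivity
    set c := aa A l x + aa A l x ^ 2 with hc
    have hc0 : 0 ≤ c := by positivity
    have hexp : -η = -(1 - η - ρ) := by rw [hη]; ring
    rw [hexp]
    refine core_bound x ρ η c2 T (G x) (fun t _ => hGm x t) (fun t => ((B x t).card : ℝ)) c
      (kap * (2 * (UU A l x : ℝ)) / Real.log x) hc0 ?_ c7 hT3 ?_ ?_
    · have e : (T.card : ℝ) * (kap * (2 * (UU A l x : ℝ)) / Real.log x) =
          kap * T.card * (2 * (UU A l x : ℝ)) / Real.log x := by ring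
      rw [e]
      exact hT4
    · intro t ht
      simp only [hG]
      rw [prod_formula hξi (B x t)
        (fun p => {k : ℤ | ¬ ((t : ℤ) < p + k ∧ (p : ℤ) + k ≤ t + LL l x)})]
      have h1 : ∀ p ∈ B x t, Real.exp (-c) ≤
          μ.real {ω | ξ p ω ∈ {k : ℤ | ¬ ((t : ℤ) < p + k ∧ (p : ℤ) + k ≤ t + LL l x)}} := by
        intro p hp
        have hpp := hBprime x t p hp
        have hpt : (x / 2 : ℝ) ≤ p := by
          rw [hB] at hp
          have h2 := (mem_Icc.mp (mem_filter.mp hp).1).1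
          have h3 : t ≤ p + UU A l x := by omega
          have h4 : (t : ℝ) ≤ p + UU A l x := by exact_mod_cast h3
          have h5 := (hT1 t ht).1
          linarith
        have hV : (V0 A x : ℝ) ≤ (⌊Real.log p ^ A⌋₊ : ℝ) := by
          unfold V0
          have h2 : Real.log (x / 2) ^ A ≤ Real.log p ^ A := by
            by_cases h3 : 0 ≤ Real.log (x / 2)
            · exact Real.rpow_le_rpow h3 (Real.log_le_log (by linarith) hpt) (by linarith)
            · exfalso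
              -- U ≥ log x > 0 and U ≤ x/4 gives x > 2
              have h4 : Real.log (x / 2) < 0 := by linarith
              have h5 : x / 2 < 1 := by
                by_contra h6
                push Not at h6
                exact h3 (Real.log_nonneg h6)
              have h6 : (1 : ℝ) ≤ UU A l x := by
                have : 0 < UU A l x := by
                  have : (0 : ℝ) < UU A l x := lt_of_lt_of_le hlog c3
                  exact_mod_cast this
                exact_mod_cast this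
              linarith
          exact_mod_cast Nat.floor_le_floor h2
        have hcompl : {ω | ξ p ω ∈ {k : ℤ | ¬ ((t : ℤ) < p + k ∧ (p : ℤ) + k ≤ t + LL l x)}} =
            {ω | (t : ℤ) < p + ξ p ω ∧ (p : ℤ) + ξ p ω ≤ t + LL l x}ᶜ := by
          ext ω; simp
        have hmeas : MeasurableSet {ω | (t : ℤ) < p + ξ p ω ∧ (p : ℤ) + ξ p ω ≤ t + LL l x} :=
          hξm p (MeasurableSet.of_discrete (s := {k : ℤ | (t : ℤ) < p + k ∧ (p : ℤ) + k ≤ t + LL l x}))
        rw [hcompl, probReal_compl_eq_one_sub hmeas]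
        have h2 := unif_window (μ := μ) (hξm p) (hξu p hpp) p t (LL l x)
        have h3 : (LL l x : ℝ) / (2 * (⌊Real.log p ^ A⌋₊ : ℝ) + 1) ≤ aa A l x := by
          unfold aa
          apply div_le_div_of_nonneg_left (by positivity) (by positivity)
          linarith
        have h4 := exp_neg_le_one_sub ha0 c6
        rw [hc]
        linarith
      calc Real.exp (-(c * (B x t).card)) = ∏ p ∈ B x t, Real.exp (-c) := by
            rw [Finset.prod_const, ← Real.exp_nat_mul]; congr 1; ring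
        _ ≤ _ := Finset.prod_le_prod (fun _ _ => (Real.exp_pos _).le) h1
    · intro t ht t' ht' hne
      have hd : Disjoint (B x t) (B x t') := by
        rw [Finset.disjoint_left]
        intro p hp hp'
        rw [hB] at hp hp'
        have h2 := mem_Icc.mp (mem_filter.mp hp).1
        have h3 := mem_Icc.mp (mem_filter.mp hp').1
        rcases Nat.lt_or_gt_of_ne hne with h4 | h4
        · have := hT2 t ht t' ht' h4; omega
        · have := hT2 t' ht' t ht h4; omega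
      simp only [hG]
      rw [prod_formula_two hξi (B x t) (B x t') hd
        (fun p => {k : ℤ | ¬ ((t : ℤ) < p + k ∧ (p : ℤ) + k ≤ t + LL l x)})
        (fun p => {k : ℤ | ¬ ((t' : ℤ) < p + k ∧ (p : ℤ) + k ≤ t' + LL l x)})]
  obtain ⟨k0, hk0⟩ : ∃ k0 : ℕ, X0 ≤ (2 : ℝ) ^ k0 := by
    obtain ⟨k, hk⟩ := pow_unbounded_of_one_lt X0 (show (1 : ℝ) < 2 by norm_num)
    exact ⟨k, hk.le⟩
  have hk0' : ∀ k, k0 ≤ k → X0 ≤ (2 : ℝ) ^ k := fun k hk =>
    hk0.trans (pow_le_pow_right₀ (by norm_num) hk)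
  have hch : ∀ k : ℕ, ∃ T : Finset ℕ, k0 ≤ k →
      (∀ t ∈ T, (2 : ℝ) ^ k ≤ (t : ℝ) ∧ (t : ℝ) ≤ 3 * (2 : ℝ) ^ k) ∧
      μ.real {ω | ∀ t ∈ T, ω ∉ G ((2 : ℝ) ^ k) t} ≤ ((2 : ℝ) ^ k) ^ (-η) := by
    intro k
    by_cases hk : k0 ≤ k
    · obtain ⟨T, h1, h2⟩ := hstep _ (hk0' k hk)
      exact ⟨T, fun _ => ⟨h1, h2⟩⟩
    · exact ⟨∅, fun h => absurd h hk⟩
  choose T hT using hch
  have hBC := bc_pow_two (μ := μ) η hη0 (fun k => {ω | ∀ t ∈ T k, ω ∉ G ((2 : ℝ) ^ k) t}) k0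
    (fun k hk => (hT k hk).2)
  have habs : ∀ᵐ ω ∂μ, ∀ p : ℕ, p.Prime → |ξ p ω| ≤ (⌊Real.log p ^ A⌋₊ : ℤ) := by
    rw [ae_all_iff]
    intro p
    by_cases hp : p.Prime
    · have h1 := unif_abs (μ := μ) (hξm p) (hξu p hp)
      have hms : MeasurableSet {ω | |ξ p ω| ≤ (⌊Real.log p ^ A⌋₊ : ℤ)} :=
        hξm p (MeasurableSet.of_discrete (s := {z : ℤ | |z| ≤ (⌊Real.log p ^ A⌋₊ : ℤ)}))
      have h2 : μ.real {ω | |ξ p ω| ≤ (⌊Real.log p ^ A⌋₊ : ℤ)}ᶜ = 0 := by
        rw [probReal_compl_eq_one_sub hms, h1, sub_self]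
      rw [measureReal_eq_zero_iff] at h2
      have h3 : ∀ᵐ ω ∂μ, |ξ p ω| ≤ (⌊Real.log p ^ A⌋₊ : ℤ) := h2
      filter_upwards [h3] with ω hω _ using hω
    · exact Eventually.of_forall fun ω h => absurd h hp
  filter_upwards [hBC, habs] with ω hω habsω x0
  obtain ⟨K, hK⟩ := eventually_atTop.mp hω
  obtain ⟨k1, hk1⟩ := pow_unbounded_of_one_lt x0 (show (1 : ℝ) < 2 by norm_num)
  set k := max (max K k0) k1 with hk
  have hkK : K ≤ k := (le_max_left _ _).trans (le_max_left _ _)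
  have hkk0 : k0 ≤ k := (le_max_right _ _).trans (le_max_left _ _)
  have hkk1 : k1 ≤ k := le_max_right _ _
  have h1 : ¬ (∀ t ∈ T k, ω ∉ G ((2 : ℝ) ^ k) t) := hK k hkK
  push Not at h1
  obtain ⟨t, ht, htG⟩ := h1
  obtain ⟨hTk, _⟩ := hT k hkk0
  obtain ⟨ht1, ht2⟩ := hTk t ht
  set x : ℝ := (2 : ℝ) ^ k with hxk
  obtain ⟨c1, c2, c3, c4, c5, c6, c7, c8⟩ := hX0 x (hk0' k hkk0)
  refine ⟨x, hk1.le.trans (pow_le_pow_right₀ (by norm_num) hkk1), t, ht1, by linarith, ?_⟩
  rintro m hm1 hm2 ⟨p, hp, hmp⟩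
  -- m ≤ t + L
  have hmL : m ≤ t + LL l x := by
    have h2 : ((m - t : ℕ) : ℝ) ≤ l * Real.log x ^ 2 := by
      rw [Nat.cast_sub hm1.le]; linarith
    have h3 : m - t ≤ LL l x := by unfold LL; exact Nat.le_floor h2
    omega
  have hLc : LL l x ≤ ⌈l * Real.log x ^ 2⌉₊ := by unfold LL; exact Nat.floor_le_ceil _
  have hUdef : UU A l x = ⌈Real.log (4 * x) ^ A⌉₊ + ⌈l * Real.log x ^ 2⌉₊ := rfl
  have hpB : p ∈ B x t := by
    rw [hB]
    simp only [mem_filter, mem_Icc]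
    have habsp := habsω p hp
    rw [abs_le] at habsp
    refine ⟨?_, hp⟩
    by_cases hp4 : (p : ℝ) ≤ 4 * x
    · have hV : ⌊Real.log p ^ A⌋₊ ≤ ⌈Real.log (4 * x) ^ A⌉₊ := by
        refine (Nat.floor_le_ceil _).trans (Nat.ceil_le_ceil ?_)
        have h3 : 0 ≤ Real.log p := Real.log_natCast_nonneg p
        exact Real.rpow_le_rpow h3 (Real.log_le_log (by exact_mod_cast hp.pos) hp4) (by linarith)
      constructor <;> omega
    · push Not at hp4
      exfalso
      have h3 := c8 p hp4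
      have h4 : ((⌊Real.log p ^ A⌋₊ : ℕ) : ℝ) ≤ Real.log p ^ A := by
        apply Nat.floor_le
        exact Real.rpow_nonneg (Real.log_natCast_nonneg p) _
      have h5 : (p : ℝ) ≤ m + (⌊Real.log p ^ A⌋₊ : ℕ) := by
        have h6 : (p : ℤ) ≤ m + (⌊Real.log p ^ A⌋₊ : ℤ) := by omega
        exact_mod_cast h6
      have h7 : (m : ℝ) ≤ t + LL l x := by exact_mod_cast hmL
      have h8 : (LL l x : ℝ) ≤ UU A l x := by
        have : LL l x ≤ UU A l x := by omega
        exact_mod_cast this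
      linarith
  have h2 := htG p hpB
  simp only [Set.mem_setOf_eq] at h2
  apply h2
  constructor <;> omega

end Pool.Agent.Work.MP_b0c12c_nt_helper63
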