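import Pool.Agent.Work.MP_b0c12c_nt_helper63.BlockP2

/-!
Block T of the interface: `WindowsThinned`.
-/

set_option linter.unusedSectionVars false
set_option linter.deprecated false

namespace Pool.Agent.Work.MP_b0c12c_nt_helper63

open MeasureTheory ProbabilityTheory Filter Topology Finset Pool.Agent.Work.MP_b0c12c_nt
open scoped ENNReal NNReal

noncomputable def UT (l x : ℝ) : ℕ := ⌈l / 2 * Real.log x ^ 2⌉₊

lemma tend_UT (l : ℝ) (hl : 0 < l) :
    Tendsto (fun x : ℝ => (2 * (UT l x : ℝ)) / Real.log x ^ 2) atTop (𝓝 l) := by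
  have h0 : Tendsto (fun x : ℝ => Real.log x ^ 2) atTop atTop :=
    (tendsto_pow_atTop (by norm_num)).comp Real.tendsto_log_atTop
  have h1 : Tendsto (fun x : ℝ => l / 2 * Real.log x ^ 2) atTop atTop :=
    h0.const_mul_atTop (by positivity)
  have h2 := ((tendsto_nat_ceil_div_atTop (R := ℝ)).comp h1).mul_const l
  rw [one_mul] at h2
  refine h2.congr' ?_
  filter_upwards [eventually_gt_atTop 1] with x hx
  have hlog : 0 < Real.log x := Real.log_pos hx
  simp only [Function.comp, UT]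
  field_simp

lemma ev_condT (A' l kap c0 ρ x1 : ℝ) (hA : 2 < A') (hl : 0 < l) (hkap : 0 < kap) (hc0 : 0 < c0)
    (hρ : l * kap * c0 < ρ) :
    ∀ᶠ x : ℝ in atTop, x1 ≤ x ∧ 1 < x ∧ Real.log x ≤ UT l x ∧
      (UT l x : ℝ) ≤ Real.log x ^ A' ∧ (UT l x : ℝ) ≤ x / 4 ∧
      c0 * (kap * (2 * (UT l x : ℝ)) / Real.log x) ≤ ρ * Real.log x := by
  have h1 := tend_UT l hl
  have h2 : ∀ᶠ x : ℝ in atTop, l / 2 < (2 * (UT l x : ℝ)) / Real.log x ^ 2 :=
    h1.eventually (lt_mem_nhds (by linarith))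
  have h3 : ∀ᶠ x : ℝ in atTop, (2 * (UT l x : ℝ)) / Real.log x ^ 2 < 2 * l :=
    h1.eventually (gt_mem_nhds (by linarith))
  have h4 : ∀ᶠ x : ℝ in atTop, 4 / l ≤ Real.log x := Real.tendsto_log_atTop.eventually_ge_atTop _
  have h5 : ∀ᶠ x : ℝ in atTop, l ≤ Real.log x ^ (A' - 2) :=
    (tend_logA (A' - 2) (by linarith)).eventually_ge_atTop l
  have h6 : ∀ᶠ x : ℝ in atTop, Real.log x ^ A' ≤ 1 / 4 * x := log_rpow_le A' (1 / 4) (by norm_num)
  have h8 : ∀ᶠ x : ℝ in atTop, (2 * (UT l x : ℝ)) / Real.log x ^ 2 < ρ / (kap * c0) :=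
    h1.eventually (gt_mem_nhds (by rw [lt_div_iff₀ (by positivity)]; linarith))
  filter_upwards [h2, h3, h4, h5, h6, h8, eventually_gt_atTop 1, eventually_ge_atTop x1]
    with x g2 g3 g4 g5 g6 g8 g10 g11
  have hlog : 0 < Real.log x := Real.log_pos g10
  rw [lt_div_iff₀ (by positivity)] at g2
  rw [div_lt_iff₀ (by positivity)] at g3
  rw [div_le_iff₀ hl] at g4
  have e : Real.log x ^ A' = Real.log x ^ (A' - 2) * Real.log x ^ 2 := by
    rw [← Real.rpow_natCast, ← Real.rpow_add hlog]; congr 1; push_cast; ring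
  have hU : (UT l x : ℝ) ≤ Real.log x ^ A' := by
    rw [e]
    nlinarith [mul_le_mul_of_nonneg_right g5 (show (0 : ℝ) ≤ Real.log x ^ 2 by positivity)]
  refine ⟨g11, g10, ?_, hU, by linarith, ?_⟩
  · nlinarith
  · rw [div_lt_iff₀ (by positivity)] at g8
    have e2 : c0 * (kap * (2 * (UT l x : ℝ)) / Real.log x) =
        (kap * c0) * (2 * (UT l x : ℝ)) / Real.log x := by ring
    rw [e2, div_le_iff₀ hlog]
    have h10 := mul_le_mul_of_nonneg_left g8.le (show (0 : ℝ) ≤ kap * c0 by positivity)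
    have h11 : kap * c0 * (ρ / (kap * c0) * Real.log x ^ 2) = ρ * Real.log x * Real.log x := by
      field_simp
    linarith

theorem windowsThinned : Itf.WindowsThinned := by
  intro A' hA' kap hkap hRows Ω _ μ _ θ hθ0 hθ1 E hEm hEi hEu l hl hlk
  classical
  set c0 := Real.log (1 / (1 - θ)) with hc0
  have h1θ : 0 < 1 - θ := by linarith
  have hc0pos : 0 < c0 := by
    rw [hc0]
    apply Real.log_pos
    rw [lt_div_iff₀ h1θ]; linarith
  have hexpc0 : Real.exp (-c0) = 1 - θ := by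
    rw [hc0, one_div, Real.log_inv, neg_neg, Real.exp_log h1θ]
  set ρ := (1 + l * kap * c0) / 2 with hρ
  have hρ1 : ρ < 1 := by rw [hρ]; linarith
  have hρ2 : l * kap * c0 < ρ := by rw [hρ]; linarith
  set η := (1 - ρ) / 2 with hη
  have hη0 : 0 < η := by rw [hη]; linarith
  obtain ⟨x1, hx1⟩ := hRows η hη0
  obtain ⟨X0, hX0⟩ := eventually_atTop.mp (ev_condT A' l kap c0 ρ x1 hA' hl hkap hc0pos hρ2)
  set ξ : ℕ → Ω → ℕ := fun p => (E p).indicator (fun _ => 1) with hξ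
  have hξi : iIndepFun ξ μ := hEi.iIndepFun_indicator
  have hξm : ∀ p, Measurable (ξ p) := fun p => measurable_const.indicator (hEm p)
  have hξ0 : ∀ p ω, ξ p ω ∈ ({0} : Set ℕ) ↔ ω ∉ E p := by
    intro p ω
    rw [hξ]
    by_cases h : ω ∈ E p <;> simp [h]
  set B : ℝ → ℕ → Finset ℕ := fun x t =>
    (Finset.Icc (t - UT l x) (t + UT l x)).filter Nat.Prime with hB
  set G : ℝ → ℕ → Set Ω := fun x t => {ω | ∀ p ∈ B x t, ξ p ω ∈ ({0} : Set ℕ)} with hG
  have hGm : ∀ x t, MeasurableSet (G x t) := by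
    intro x t
    have : G x t = ⋂ p ∈ B x t, ξ p ⁻¹' {0} := by
      ext ω; simp [hG]
    rw [this]
    exact Finset.measurableSet_biInter _ fun p _ => hξm p MeasurableSet.of_discrete
  have hBprime : ∀ x t, ∀ p ∈ B x t, p.Prime := fun x t p hp => by
    rw [hB] at hp; exact (mem_filter.mp hp).2
  have hstep : ∀ x : ℝ, X0 ≤ x → ∃ T : Finset ℕ, (∀ t ∈ T, x ≤ (t : ℝ) ∧ (t : ℝ) ≤ 3 * x) ∧
      μ.real {ω | ∀ t ∈ T, ω ∉ G x t} ≤ x ^ (-η) := by
    intro x hx
    obtain ⟨c1, c2, c3, c4, c5, c7⟩ := hX0 x hx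
    obtain ⟨T, hT1, hT2, hT3, hT4⟩ := hx1 x c1 (UT l x) c3 c4
    refine ⟨T, hT1, ?_⟩
    have hexp : -η = -(1 - η - ρ) := by rw [hη]; ring
    rw [hexp]
    refine core_bound x ρ η c2 T (G x) (fun t _ => hGm x t) (fun t => ((B x t).card : ℝ)) c0
      (kap * (2 * (UT l x : ℝ)) / Real.log x) hc0pos.le ?_ c7 hT3 ?_ ?_
    · have e : (T.card : ℝ) * (kap * (2 * (UT l x : ℝ)) / Real.log x) =
          kap * T.card * (2 * (UT l x : ℝ)) / Real.log x := by ring
      rw [e]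
      exact hT4
    · intro t ht
      simp only [hG]
      rw [prod_formula hξi (B x t) (fun _ => {0})]
      have h1 : ∀ p ∈ B x t, μ.real {ω | ξ p ω ∈ ({0} : Set ℕ)} = Real.exp (-c0) := by
        intro p hp
        have h2 : {ω | ξ p ω ∈ ({0} : Set ℕ)} = (E p)ᶜ := by
          ext ω; exact hξ0 p ω
        rw [h2, probReal_compl_eq_one_sub (hEm p), hexpc0, measureReal_def, hEu p (hBprime x t p hp),
          ENNReal.toReal_ofReal hθ0.le]
      rw [Finset.prod_congr rfl h1, Finset.prod_const, ← Real.exp_nat_mul]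
      apply le_of_eq; congr 1; ring
    · intro t ht t' ht' hne
      have hd : Disjoint (B x t) (B x t') := by
        rw [Finset.disjoint_left]
        intro p hp hp'
        rw [hB] at hp hp'
        have h2 := mem_Icc.mp (mem_filter.mp hp).1
        have h3 := mem_Icc.mp (mem_filter.mp hp').1
        rcases Nat.lt_or_gt_of_ne hne with h4 | h4
        · have := hT2 t ht t' ht' h4; omega
        · have := hT2 t' ht' t ht h4; omega
      simp only [hG]
      rw [prod_formula_two hξi (B x t) (B x t') hd (fun _ => {0}) (fun _ => {0})]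
  obtain ⟨k0, hk0⟩ : ∃ k0 : ℕ, X0 ≤ (2 : ℝ) ^ k0 := by
    obtain ⟨k, hk⟩ := pow_unbounded_of_one_lt X0 (show (1 : ℝ) < 2 by norm_num)
    exact ⟨k, hk.le⟩
  have hk0' : ∀ k, k0 ≤ k → X0 ≤ (2 : ℝ) ^ k := fun k hk =>
    hk0.trans (pow_le_pow_right₀ (by norm_num) hk)
  have hch : ∀ k : ℕ, ∃ T : Finset ℕ, k0 ≤ k →
      (∀ t ∈ T, (2 : ℝ) ^ k ≤ (t : ℝ) ∧ (t : ℝ) ≤ 3 * (2 : ℝ) ^ k) ∧
      μ.real {ω | ∀ t ∈ T, ω ∉ G ((2 : ℝ) ^ k) t} ≤ ((2 : ℝ) ^ k) ^ (-η) := by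
    intro k
    by_cases hk : k0 ≤ k
    · obtain ⟨T, h1, h2⟩ := hstep _ (hk0' k hk)
      exact ⟨T, fun _ => ⟨h1, h2⟩⟩
    · exact ⟨∅, fun h => absurd h hk⟩
  choose T hT using hch
  have hBC := bc_pow_two (μ := μ) η hη0 (fun k => {ω | ∀ t ∈ T k, ω ∉ G ((2 : ℝ) ^ k) t}) k0
    (fun k hk => (hT k hk).2)
  filter_upwards [hBC] with ω hω x0
  obtain ⟨K, hK⟩ := eventually_atTop.mp hω
  obtain ⟨k1, hk1⟩ := pow_unbounded_of_one_lt (2 * max x0 0) (show (1 : ℝ) < 2 by norm_num)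
  set k := max (max K k0) k1 with hk
  have hkK : K ≤ k := (le_max_left _ _).trans (le_max_left _ _)
  have hkk0 : k0 ≤ k := (le_max_right _ _).trans (le_max_left _ _)
  have hkk1 : k1 ≤ k := le_max_right _ _
  have h1 : ¬ (∀ t ∈ T k, ω ∉ G ((2 : ℝ) ^ k) t) := hK k hkK
  push Not at h1
  obtain ⟨t, ht, htG⟩ := h1
  obtain ⟨hTk, _⟩ := hT k hkk0
  obtain ⟨ht1, ht2⟩ := hTk t ht
  set x : ℝ := (2 : ℝ) ^ k with hxk
  obtain ⟨c1, c2, c3, c4, c5, c7⟩ := hX0 x (hk0' k hkk0)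
  have hx2 : 2 * max x0 0 < x := lt_of_lt_of_le hk1 (pow_le_pow_right₀ (by norm_num) hkk1)
  have hm0 : x0 ≤ max x0 0 := le_max_left _ _
  have hm00 : 0 ≤ max x0 0 := le_max_right _ _
  have htU : UT l x ≤ t := by
    have : (UT l x : ℝ) ≤ t := by linarith
    exact_mod_cast this
  have hcast : ((t - UT l x : ℕ) : ℝ) = t - UT l x := by rw [Nat.cast_sub htU]
  refine ⟨x - UT l x, by linarith, t - UT l x, by rw [hcast]; linarith, by rw [hcast]; linarith, ?_⟩
  rintro m hm1 hm2 ⟨hmp, hmE⟩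
  have hU1 : (1 : ℝ) ≤ UT l x := by
    have h2 : 0 < UT l x := by
      have : (0 : ℝ) < UT l x := lt_of_lt_of_le (Real.log_pos c2) c3
      exact_mod_cast this
    exact_mod_cast h2
  have hlogle : Real.log (x - UT l x) ^ 2 ≤ Real.log x ^ 2 := by
    have h3 : 1 ≤ x - UT l x := by linarith
    exact pow_le_pow_left₀ (Real.log_nonneg h3) (Real.log_le_log (by linarith) (by linarith)) 2
  have hUge : l * Real.log x ^ 2 ≤ 2 * UT l x := by
    have := Nat.le_ceil (l / 2 * Real.log x ^ 2)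
    unfold UT
    linarith
  have hmB : m ∈ B x t := by
    rw [hB]
    simp only [mem_filter, mem_Icc]
    refine ⟨⟨hm1.le, ?_⟩, hmp⟩
    rw [hcast] at hm2
    have h4 : l * Real.log (x - UT l x) ^ 2 ≤ l * Real.log x ^ 2 := mul_le_mul_of_nonneg_left hlogle hl.le
    have h5 : (m : ℝ) ≤ t + UT l x := by linarith
    exact_mod_cast h5
  exact (hξ0 m ω).mp (htG m hmB) hmE

end Pool.Agent.Work.MP_b0c12c_nt_helper63
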