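import Pool.Agent.Work.MP_b0c12c_nt.Omega

/-!
Existence of Buchstab's function, its lower bound `1/2`, explicit form on `[2,3]`.
-/

namespace Pool.Agent.Work.MP_b0c12c_nt_helper63

open MeasureTheory Filter Topology Finset Pool.Agent.Work.MP_b0c12c_nt

/-- a concrete choice -/
noncomputable def buch (u : ℝ) : ℝ := bs (⌈u⌉₊) (u - 1) / u

lemma bs_eq_of_le {n m : ℕ} (h : n ≤ m) {u : ℝ} (hu : u ≤ n + 1) : bs m u = bs n u := by
  induction m, h using Nat.le_induction with
  | base => rfl
  | succ m hnm ih =>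
    have : (n : ℝ) ≤ m := by exact_mod_cast hnm
    rw [bs_succ_eq m u (by linarith), ih]

lemma buch_eq {n : ℕ} {u : ℝ} (hu1 : 1 ≤ u) (hu : u ≤ n + 2) : u * buch u = bs n (u - 1) := by
  unfold buch
  have h0 : u ≠ 0 := by linarith
  rw [mul_div_cancel₀ _ h0]
  have h1 : u ≤ ⌈u⌉₊ := Nat.le_ceil u
  rcases le_total n ⌈u⌉₊ with h | h
  · exact bs_eq_of_le h (by linarith)
  · exact (bs_eq_of_le h (by linarith)).symm

lemma buch_isBuchstab : IsBuchstab buch := by
  constructor
  · intro u hu
    have h := buch_eq (n := 0) hu.1 (by simpa using hu.2)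
    have h1 : bs 0 (u - 1) = 1 := rfl
    rw [h1] at h
    have h0 : u ≠ 0 := by linarith [hu.1]
    field_simp
    linarith
  · intro u hu
    obtain ⟨n, hn⟩ := exists_nat_ge u
    rw [buch_eq (n := n + 1) (by linarith) (by push_cast; linarith)]
    have h2 : bs (n + 1) (u - 1) = 1 + ∫ v in (1 : ℝ)..(max (u - 1) 1), bs n (v - 1) / max v 1 := rfl
    rw [h2, max_eq_left (by linarith)]
    congr 1
    apply intervalIntegral.integral_congr
    intro v hv
    rw [Set.uIcc_of_le (by linarith)] at hv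
    simp only
    rw [max_eq_left hv.1, ← buch_eq (n := n) hv.1 (by linarith [hv.2])]
    have : v ≠ 0 := by linarith [hv.1]
    field_simp

lemma isB_half {N : ℕ} {b : ℝ → ℝ} (hb : IsB N b) :
    ∀ n : ℕ, ∀ v : ℝ, v ≤ n + 1 → v ≤ N → (v + 1) / 2 ≤ b v := by
  intro n
  induction n with
  | zero =>
    intro v hv _
    push_cast at hv
    rw [hb.one v (by linarith)]
    linarith
  | succ n ih =>
    intro v hv hvN
    rcases le_or_gt v 1 with h | h
    · rw [hb.one v h]; linarith
    · rw [hb.eq v h.le hvN]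
      have hc : Continuous fun v : ℝ => b (v - 1) / max v 1 :=
        (hb.cont.comp (continuous_id.sub continuous_const)).div continuous_max_one max_one_ne
      have h1 : ∫ _t in (1 : ℝ)..v, (1 / 2 : ℝ) ≤ ∫ t in (1 : ℝ)..v, b (t - 1) / max t 1 := by
        apply intervalIntegral.integral_mono_on h.le intervalIntegrable_const
          (hc.intervalIntegrable _ _)
        intro t ht
        push_cast at hv
        have h2 := ih (t - 1) (by linarith [ht.2]) (by linarith [ht.2])
        rw [max_eq_left ht.1, le_div_iff₀ (by linarith [ht.1])]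
        linarith
      rw [intervalIntegral.integral_const, smul_eq_mul] at h1
      linarith

lemma half_le {w : ℝ → ℝ} (hw : IsBuchstab w) {u : ℝ} (hu : 1 ≤ u) : 1 / 2 ≤ w u := by
  obtain ⟨N, hN⟩ := exists_nat_ge u
  obtain ⟨b, hb⟩ := exists_isB N
  have h := hw.eq_b hb N u hu (by linarith) (by linarith)
  have h2 := isB_half hb N (u - 1) (by linarith) (by linarith)
  rw [← h, sub_add_cancel] at h2
  have h0 : 0 < u := by linarith
  have h3 : u * (1 / 2) ≤ u * w u := by linarith
  exact le_of_mul_le_mul_left h3 h0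

lemma buch_unique {w w' : ℝ → ℝ} (hw : IsBuchstab w) (hw' : IsBuchstab w') {u : ℝ} (hu : 1 ≤ u) :
    w u = w' u := by
  obtain ⟨N, hN⟩ := exists_nat_ge u
  obtain ⟨b, hb⟩ := exists_isB N
  have h := hw.eq_b hb N u hu (by linarith) (by linarith)
  have h' := hw'.eq_b hb N u hu (by linarith) (by linarith)
  have h0 : u ≠ 0 := by linarith
  exact mul_left_cancel₀ h0 (h.trans h'.symm)

lemma explicit23 {w : ℝ → ℝ} (hw : IsBuchstab w) {u : ℝ} (h2 : 2 ≤ u) (h3 : u ≤ 3) :
    w u = (1 + Real.log (u - 1)) / u := by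
  have h := hw.2 u h2
  have h4 : ∫ v in (1 : ℝ)..(u - 1), w v = ∫ v in (1 : ℝ)..(u - 1), 1 / v := by
    apply intervalIntegral.integral_congr
    intro v hv
    rw [Set.uIcc_of_le (by linarith)] at hv
    exact hw.1 v ⟨hv.1, by linarith [hv.2]⟩
  rw [h4, integral_one_div_of_pos one_pos (by linarith), div_one] at h
  rw [← h]
  field_simp

/-- the constant `sup_{u > A} e^{-γ} / w(u)` -/
noncomputable def cA (A : ℝ) : ℝ :=
  sSup ((fun u => Real.exp (-Real.eulerMascheroniConstant) / buch u) '' Set.Ioi A)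

lemma bddAbove_cA {A : ℝ} (hA : 1 ≤ A) :
    BddAbove ((fun u => Real.exp (-Real.eulerMascheroniConstant) / buch u) '' Set.Ioi A) := by
  refine ⟨2 * Real.exp (-Real.eulerMascheroniConstant), ?_⟩
  rintro _ ⟨u, hu, rfl⟩
  have h1 := half_le buch_isBuchstab (hA.trans (le_of_lt hu))
  simp only
  rw [div_le_iff₀ (by linarith)]
  nlinarith [Real.exp_pos (-Real.eulerMascheroniConstant)]

lemma le_cA {A : ℝ} (hA : 1 ≤ A) {w : ℝ → ℝ} (hw : IsBuchstab w) {u : ℝ} (hu : A < u) :
    Real.exp (-Real.eulerMascheroniConstant) / w u ≤ cA A := by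
  rw [buch_unique hw buch_isBuchstab (by linarith)]
  exact le_csSup (bddAbove_cA hA) ⟨u, hu, rfl⟩

lemma one_lt_cA {A : ℝ} (hA : 1 ≤ A) : 1 < cA A := by
  obtain ⟨u, hu1, _, hu3⟩ := buch_isBuchstab.exists_lt (n := ⌊A⌋₊ + 1) (by omega)
  have h1 : A < u := by
    have := Nat.lt_floor_add_one A
    push_cast at hu1
    linarith
  refine lt_of_lt_of_le ?_ (le_cA hA buch_isBuchstab h1)
  have := half_le buch_isBuchstab (u := u) (by linarith)
  rwa [one_lt_div (by linarith)]

lemma explicit_le_cA {A : ℝ} (hA : 2 ≤ A) (hA3 : A < 3) :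
    Real.exp (-Real.eulerMascheroniConstant) * (A / (1 + Real.log (A - 1))) ≤ cA A := by
  have h1 : Tendsto (fun u : ℝ => Real.exp (-Real.eulerMascheroniConstant) *
      (u / (1 + Real.log (u - 1)))) (𝓝[>] A)
      (𝓝 (Real.exp (-Real.eulerMascheroniConstant) * (A / (1 + Real.log (A - 1))))) := by
    apply Tendsto.mono_left _ nhdsWithin_le_nhds
    apply ContinuousAt.tendsto
    apply ContinuousAt.mul continuousAt_const
    apply ContinuousAt.div continuousAt_id
    · apply ContinuousAt.add continuousAt_const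
      apply ContinuousAt.log (by fun_prop)
      linarith
    · have : 0 ≤ Real.log (A - 1) := Real.log_nonneg (by linarith)
      positivity
  apply le_of_tendsto h1
  have h2 : Set.Ioo A 3 ∈ 𝓝[>] A := Ioo_mem_nhdsGT hA3
  filter_upwards [h2] with u hu
  have h3 := le_cA (by linarith : (1 : ℝ) ≤ A) buch_isBuchstab hu.1
  rw [explicit23 buch_isBuchstab (by linarith [hu.1]) hu.2.le] at h3
  have : Real.exp (-Real.eulerMascheroniConstant) * (u / (1 + Real.log (u - 1))) =
      Real.exp (-Real.eulerMascheroniConstant) / ((1 + Real.log (u - 1)) / u) := by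
    rw [div_div_eq_mul_div, mul_div_assoc]
  rw [this]
  exact h3

lemma exists_of_lt_cA {A l : ℝ} (hl : l < cA A) :
    ∃ u, A < u ∧ l < Real.exp (-Real.eulerMascheroniConstant) / buch u := by
  obtain ⟨_, ⟨u, hu, rfl⟩, h⟩ := exists_lt_of_lt_csSup
    (Set.Nonempty.image _ ⟨A + 1, by simp⟩) hl
  exact ⟨u, hu, h⟩

end Pool.Agent.Work.MP_b0c12c_nt_helper63
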