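import Pool.Agent.Work.MP_b0c12c_nt.Maier
import Pool.Agent.Work.MP_b0c12c_nt_helper63.Fin1

/-!
Rough numbers up to `U`, uniformly for `z ^ u₁ ≤ U ≤ z ^ u₂`.
-/

namespace Pool.Agent.Work.MP_b0c12c_nt_helper63

open MeasureTheory Filter Topology Finset Pool.Agent.Work.MP_b0c12c_nt ArithmeticFunction

lemma exists_sub_mod {K z z' q : ℕ} (hz : z' ≤ z) (hq : IsMod K z q) :
    ∃ q', IsMod K z' q' ∧ q' ∣ q ∧ ∀ p : ℕ, p.Prime → p ∣ q → p ≤ z' → p ∣ q' := by
  have hdvd : primorial z' ∣ primorial z := primorial_dvd_primorial hz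
  rcases hq with hq | ⟨r, hr, hrK, hrz, hq⟩
  · refine ⟨primorial z', Or.inl rfl, by rw [hq]; exact hdvd, fun p hp _ hpz => ?_⟩
    exact hp.dvd_primorial_iff.mpr hpz
  · rcases le_or_gt r z' with h | h
    · obtain ⟨q', hq'⟩ : r ∣ primorial z' := hr.dvd_primorial_iff.mpr h
      have hq'' : q' * r = primorial z' := by rw [hq']; ring
      refine ⟨q', Or.inr ⟨r, hr, hrK, h, hq''⟩, ?_, fun p hp hpq hpz => ?_⟩
      · rw [← hq'', ← hq] at hdvd
        exact Nat.dvd_of_mul_dvd_mul_right hr.pos hdvd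
      · have h1 : p ∣ q' * r := by
          rw [hq'']; exact hp.dvd_primorial_iff.mpr hpz
        rcases (Nat.Prime.dvd_mul hp).mp h1 with h2 | h2
        · exact h2
        · exfalso
          have h3 : p = r := (Nat.prime_dvd_prime_iff_eq hp hr).mp h2
          subst h3
          have h4 := squarefree_primorial z
          have h5 : p * p ∣ primorial z := by
            rw [← hq]; exact Nat.mul_dvd_mul_right hpq p
          exact hp.one_lt.ne' (Nat.isUnit_iff.mp (h4 p h5))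
    · refine ⟨primorial z', Or.inl rfl, ?_, fun p hp _ hpz => hp.dvd_primorial_iff.mpr hpz⟩
      have h1 : Nat.Coprime (primorial z') r := by
        rw [Nat.coprime_comm, Nat.Prime.coprime_iff_not_dvd hr]
        intro h2
        have := hr.dvd_primorial_iff.mp h2
        omega
      rw [← hq] at hdvd
      exact h1.dvd_of_dvd_mul_right hdvd

lemma tot_eq {n : ℕ} (hn : 0 < n) :
    (n.totient : ℝ) / n = ∏ p ∈ n.primeFactors, (1 - 1 / (p : ℝ)) := by
  have h1 := Nat.totient_eq_mul_prod_factors n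
  have hn0 : (n : ℝ) ≠ 0 := by exact_mod_cast hn.ne'
  have h2 : (n.totient : ℝ) = n * ∏ p ∈ n.primeFactors, (1 - 1 / (p : ℝ)) := by
    have : ((n.totient : ℚ) : ℝ) = ((n * ∏ p ∈ n.primeFactors, (1 - (p : ℚ)⁻¹) : ℚ) : ℝ) := by
      rw [h1]
    push_cast at this
    rw [this]
    congr 1
    apply Finset.prod_congr rfl
    intro p _
    rw [one_div]
  rw [h2]
  field_simp

lemma one_sub_nonneg {p : ℕ} (hp : p.Prime) : 0 ≤ 1 - 1 / (p : ℝ) := by
  have : (1 : ℝ) ≤ p := by exact_mod_cast hp.one_lt.le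
  rw [sub_nonneg, div_le_one (by linarith)]
  exact this

lemma totient_ratio {z z' q q' : ℕ} (hq : q ∣ primorial z) (hq0 : 0 < q)
    (hd : q' ∣ q) (h : ∀ p : ℕ, p.Prime → p ∣ q → p ≤ z' → p ∣ q') :
    (q'.totient : ℝ) / q' * ∏ p ∈ (Ioc z' z).filter Nat.Prime, (1 - 1 / (p : ℝ)) ≤
      (q.totient : ℝ) / q := by
  have hq0' : 0 < q' := Nat.pos_of_dvd_of_pos hd hq0
  rw [tot_eq hq0, tot_eq hq0']
  have hsub : q'.primeFactors ⊆ q.primeFactors := Nat.primeFactors_mono hd hq0.ne'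
  rw [← Finset.prod_sdiff hsub, mul_comm]
  have h0 : 0 ≤ ∏ p ∈ q'.primeFactors, (1 - 1 / (p : ℝ)) :=
    Finset.prod_nonneg fun p hp => one_sub_nonneg (Nat.prime_of_mem_primeFactors hp)
  apply mul_le_mul_of_nonneg_right _ h0
  have hsub2 : q.primeFactors \ q'.primeFactors ⊆ (Ioc z' z).filter Nat.Prime := by
    intro p hp
    rw [Finset.mem_sdiff, Nat.mem_primeFactors, Nat.mem_primeFactors] at hp
    obtain ⟨⟨hpp, hpq, _⟩, h2⟩ := hp
    rw [mem_filter, mem_Ioc]
    refine ⟨⟨?_, hpp.dvd_primorial_iff.mp (hpq.trans hq)⟩, hpp⟩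
    by_contra hcon
    exact h2 ⟨hpp, h p hpp hpq (by omega), hq0'.ne'⟩
  rw [← Finset.prod_sdiff hsub2]
  have h1 : ∏ p ∈ ((Ioc z' z).filter Nat.Prime) \ (q.primeFactors \ q'.primeFactors),
      (1 - 1 / (p : ℝ)) ≤ 1 := by
    apply Finset.prod_le_one
    · intro p hp
      rw [Finset.mem_sdiff, mem_filter] at hp
      exact one_sub_nonneg hp.1.2
    · intro p _
      have : 0 ≤ 1 / (p : ℝ) := by positivity
      linarith
  have h2 : 0 ≤ ∏ p ∈ q.primeFactors \ q'.primeFactors, (1 - 1 / (p : ℝ)) := by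
    apply Finset.prod_nonneg
    intro p hp
    rw [Finset.mem_sdiff] at hp
    exact one_sub_nonneg (Nat.prime_of_mem_primeFactors hp.1)
  nlinarith

lemma exp_neg_two_le {x : ℝ} (h0 : 0 ≤ x) (h1 : x ≤ 1 / 2) : Real.exp (-(2 * x)) ≤ 1 - x := by
  rw [Real.exp_neg, inv_le_comm₀ (Real.exp_pos _) (by linarith)]
  have h2 := Real.quadratic_le_exp_of_nonneg (show 0 ≤ 2 * x by linarith)
  refine le_trans ?_ h2
  rw [inv_le_iff_one_le_mul₀ (by linarith)]
  nlinarith [mul_nonneg h0 h0, mul_nonneg h0 (by linarith : 0 ≤ 1 / 2 - x),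
    mul_nonneg (mul_nonneg h0 h0) (by linarith : 0 ≤ 1 / 2 - x)]

lemma sum_inv_le {z z' : ℕ} (hz' : 2 ≤ z') (hz : z' ≤ z) :
    ∑ p ∈ (Ioc z' z).filter Nat.Prime, 1 / (p : ℝ) ≤
      (Real.log z - Real.log z' + 7) / Real.log z' := by
  have hl : 0 < Real.log z' := Real.log_pos (by exact_mod_cast hz')
  rw [le_div_iff₀ hl, Finset.sum_mul]
  have h1 : ∀ p ∈ (Ioc z' z).filter Nat.Prime, 1 / (p : ℝ) * Real.log z' ≤ Λ p / p := by
    intro p hp
    rw [mem_filter, mem_Ioc] at hp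
    rw [vonMangoldt_apply_prime hp.2, one_div_mul_eq_div]
    apply div_le_div_of_nonneg_right _ (Nat.cast_nonneg p)
    apply Real.log_le_log
    · exact_mod_cast (by omega : 0 < z')
    · exact_mod_cast hp.1.1.le
  refine (Finset.sum_le_sum h1).trans ?_
  have h2 : ∑ p ∈ (Ioc z' z).filter Nat.Prime, Λ p / (p : ℝ) ≤ ∑ d ∈ Ioc z' z, Λ d / (d : ℝ) := by
    apply Finset.sum_le_sum_of_subset_of_nonneg (Finset.filter_subset _ _)
    intro d _ _
    exact div_nonneg vonMangoldt_nonneg (Nat.cast_nonneg d)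
  refine h2.trans ?_
  have h3 : MM z' + ∑ d ∈ Ioc z' z, Λ d / (d : ℝ) = MM z := by
    unfold MM
    have e : Icc 1 z = Icc 1 z' ∪ Ioc z' z := by
      ext d; simp only [mem_Icc, mem_union, mem_Ioc]; omega
    have hd : Disjoint (Icc 1 z') (Ioc z' z) := by
      rw [Finset.disjoint_left]; intro d hd1 hd2
      rw [mem_Icc] at hd1; rw [mem_Ioc] at hd2; omega
    rw [e, Finset.sum_union hd]
  have h4 := MM_ge (n := z') (by omega)
  have h5 := MM_le (n := z) (by omega)
  linarith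

lemma prod_ge {z z' : ℕ} (hz' : 2 ≤ z') (hz : z' ≤ z) :
    Real.exp (-(2 * ((Real.log z - Real.log z' + 7) / Real.log z'))) ≤
      ∏ p ∈ (Ioc z' z).filter Nat.Prime, (1 - 1 / (p : ℝ)) := by
  calc Real.exp (-(2 * ((Real.log z - Real.log z' + 7) / Real.log z')))
      ≤ Real.exp (-(2 * ∑ p ∈ (Ioc z' z).filter Nat.Prime, 1 / (p : ℝ))) := by
        apply Real.exp_le_exp.mpr
        have := sum_inv_le hz' hz
        linarith
    _ = ∏ p ∈ (Ioc z' z).filter Nat.Prime, Real.exp (-(2 * (1 / (p : ℝ)))) := by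
        rw [← Real.exp_sum, Finset.mul_sum, ← Finset.sum_neg_distrib]
    _ ≤ _ := by
        apply Finset.prod_le_prod (fun _ _ => (Real.exp_pos _).le)
        intro p hp
        rw [mem_filter, mem_Ioc] at hp
        apply exp_neg_two_le (by positivity)
        have : (2 : ℝ) ≤ p := by exact_mod_cast hp.2.two_le
        exact one_div_le_one_div_of_le (by norm_num) this

/-- Rough numbers, uniformly in a range. -/
theorem rough_q_range {w : ℝ → ℝ} (hw : IsBuchstab w) {u1 u2 : ℝ} (hu1 : 2 ≤ u1) (h12 : u1 ≤ u2)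
    {c : ℝ} (hc : w u2 / Real.exp (-Real.eulerMascheroniConstant) *
      Real.exp (2 * (u2 / u1 - 1)) < c) :
    ∃ K : ℕ, ∀ᶠ z : ℕ in atTop, ∀ q : ℕ, IsMod K z q → ∀ U : ℕ, (z : ℝ) ^ u1 ≤ U →
      (U : ℝ) ≤ (z : ℝ) ^ u2 → ((Cq q U).card : ℝ) ≤ c * U * (q.totient / q) := by
  have hE : 0 < Real.exp (2 * (u2 / u1 - 1)) := Real.exp_pos _
  have hu0 : 0 < u1 := by linarith
  have hu20 : 0 < u2 := by linarith
  have hw0 : 1 / 2 ≤ w u2 := half_le hw (by linarith)
  have he : 0 < Real.exp (-Real.eulerMascheroniConstant) := Real.exp_pos _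
  -- choose c1
  obtain ⟨c1, hc1, hc2⟩ : ∃ c1, w u2 / Real.exp (-Real.eulerMascheroniConstant) < c1 ∧
      c1 * Real.exp (2 * (u2 / u1 - 1)) < c := by
    obtain ⟨d, hd1, hd2⟩ := exists_between hc
    refine ⟨d / Real.exp (2 * (u2 / u1 - 1)), ?_, ?_⟩
    · rw [lt_div_iff₀ hE]; exact hd1
    · rw [div_mul_cancel₀ _ hE.ne']; exact hd2
  have hc10 : 0 < c1 := lt_trans (by positivity) hc1
  obtain ⟨K, hK⟩ := rough_q hw (hu1.trans h12) hc1
  refine ⟨K, ?_⟩
  obtain ⟨z0, hz0⟩ := eventually_atTop.mp hK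
  -- auxiliary limit: with y = log z
  -- bound for the exponent in terms of log z
  set B : ℕ → ℝ := fun z => 2 * ((Real.log z + 7) / (u1 / u2 * Real.log z - Real.log 2) - 1) with hB
  have hlog : Tendsto (fun z : ℕ => Real.log z) atTop atTop :=
    Real.tendsto_log_atTop.comp tendsto_natCast_atTop_atTop
  have hBt : Tendsto B atTop (𝓝 (2 * (u2 / u1 - 1))) := by
    have h1 : Tendsto (fun y : ℝ => (y + 7) / (u1 / u2 * y - Real.log 2)) atTop (𝓝 (u2 / u1)) := by
      have h2 : Tendsto (fun y : ℝ => (1 + 7 / y) / (u1 / u2 - Real.log 2 / y)) atTop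
          (𝓝 ((1 + 0) / (u1 / u2 - 0))) := by
        apply Tendsto.div
        · exact (tendsto_id.const_div_atTop 7).const_add 1
        · exact (tendsto_id.const_div_atTop (Real.log 2)).const_sub _
        · rw [sub_zero]; positivity
      have e : (1 + 0) / (u1 / u2 - 0) = u2 / u1 := by rw [sub_zero, add_zero, one_div_div]
      rw [e] at h2
      refine h2.congr' ?_
      filter_upwards [eventually_gt_atTop 0] with y hy
      rw [← mul_div_mul_right (1 + 7 / y) (u1 / u2 - Real.log 2 / y) hy.ne']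
      congr 1
      · field_simp
      · field_simp
    exact ((h1.comp hlog).sub_const 1).const_mul 2
  have hev1 : ∀ᶠ z : ℕ in atTop, c1 * Real.exp (B z) < c := by
    have h1 : Tendsto (fun z => c1 * Real.exp (B z)) atTop
        (𝓝 (c1 * Real.exp (2 * (u2 / u1 - 1)))) :=
      ((Real.continuous_exp.tendsto _).comp hBt).const_mul c1
    exact h1.eventually_lt_const hc2
  have hev2 : ∀ᶠ z : ℕ in atTop, (max z0 2 : ℕ) + 1 ≤ (z : ℝ) ^ (u1 / u2) := by
    have h1 : Tendsto (fun z : ℕ => (z : ℝ) ^ (u1 / u2)) atTop atTop :=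
      (tendsto_rpow_atTop (by positivity)).comp tendsto_natCast_atTop_atTop
    exact h1.eventually_ge_atTop _
  have hev3 : ∀ᶠ z : ℕ in atTop, Real.log 2 < u1 / u2 * Real.log z := by
    have h1 : Tendsto (fun z : ℕ => u1 / u2 * Real.log z) atTop atTop :=
      hlog.const_mul_atTop (by positivity)
    exact h1.eventually_gt_atTop _
  filter_upwards [hev1, hev2, hev3, eventually_ge_atTop 1] with z g1 g2 g3 g4 q hq U hU1 hU2
  have hz1 : (1 : ℝ) ≤ z := by exact_mod_cast g4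
  have hzp : (0 : ℝ) < z := by linarith
  obtain ⟨z', hz'⟩ : ∃ z', z' = zU u2 U := ⟨_, rfl⟩
  have k1 : (z' : ℝ) ^ u2 ≤ U := by rw [hz']; exact zU_le hu20 U
  have k2 : (U : ℝ) ≤ ((z' : ℝ) + 1) ^ u2 := by rw [hz']; exact le_zU hu20 U
  have hz'z : z' ≤ z := by
    have h1 : (z' : ℝ) ^ u2 ≤ (z : ℝ) ^ u2 := k1.trans hU2
    have h2 := (Real.rpow_le_rpow_iff (Nat.cast_nonneg z') hzp.le hu20).mp h1
    exact_mod_cast h2
  have hlow : (z : ℝ) ^ (u1 / u2) ≤ (z' : ℝ) + 1 := by
    have h1 : (z : ℝ) ^ u1 ≤ ((z' : ℝ) + 1) ^ u2 := hU1.trans k2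
    calc (z : ℝ) ^ (u1 / u2) = ((z : ℝ) ^ u1) ^ (1 / u2) := by
          rw [← Real.rpow_mul hzp.le]; congr 1; ring
      _ ≤ (((z' : ℝ) + 1) ^ u2) ^ (1 / u2) := Real.rpow_le_rpow (by positivity) h1 (by positivity)
      _ = (z' : ℝ) + 1 := by
          rw [← Real.rpow_mul (by positivity), mul_one_div_cancel hu20.ne', Real.rpow_one]
  have hz'big : max z0 2 ≤ z' := by
    have h1 : (((max z0 2 : ℕ)) : ℝ) ≤ z' := by linarith
    exact_mod_cast h1
  have hz'0 : z0 ≤ z' := (le_max_left _ _).trans hz'big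
  have hz'2 : 2 ≤ z' := (le_max_right _ _).trans hz'big
  obtain ⟨q', hq'1, hq'2, hq'3⟩ := exists_sub_mod hz'z hq
  have m1 := hz0 z' hz'0 q' hq'1 U k1 k2
  have m2 : ((Cq q U).card : ℝ) ≤ (Cq q' U).card := by
    have : Cq q U ⊆ Cq q' U := by
      intro m hm
      unfold Cq at hm ⊢
      rw [mem_filter] at hm ⊢
      exact ⟨hm.1, Nat.Coprime.coprime_dvd_right hq'2 hm.2⟩
    exact_mod_cast Finset.card_le_card this
  have hq0 : 0 < q := hq.pos
  have m3 := totient_ratio (z' := z') hq.dvd hq0 hq'2 hq'3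
  have m4 := prod_ge hz'2 hz'z
  set P := ∏ p ∈ (Ioc z' z).filter Nat.Prime, (1 - 1 / (p : ℝ)) with hP
  have hPpos : 0 < P := lt_of_lt_of_le (Real.exp_pos _) m4
  have hlz' : 0 < Real.log z' := Real.log_pos (by exact_mod_cast hz'2)
  -- exponent bound
  have m5 : 2 * ((Real.log z - Real.log z' + 7) / Real.log z') ≤ B z := by
    have h1 : u1 / u2 * Real.log z - Real.log 2 ≤ Real.log z' := by
      have h2 : Real.log ((z : ℝ) ^ (u1 / u2)) ≤ Real.log (2 * z') := by
        apply Real.log_le_log (by positivity)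
        have : (1 : ℝ) ≤ z' := by exact_mod_cast (by omega : 1 ≤ z')
        linarith
      rw [Real.log_rpow hzp, Real.log_mul (by norm_num) (by
        have : (2 : ℝ) ≤ z' := by exact_mod_cast hz'2
        linarith)] at h2
      linarith
    have h2 : (Real.log z - Real.log z' + 7) / Real.log z' = (Real.log z + 7) / Real.log z' - 1 := by
      field_simp
      ring
    rw [h2, hB]
    have h3 : (Real.log z + 7) / Real.log z' ≤
        (Real.log z + 7) / (u1 / u2 * Real.log z - Real.log 2) := by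
      apply div_le_div_of_nonneg_left _ (by linarith) h1
      have := Real.log_nonneg hz1
      linarith
    linarith
  have m6 : (q'.totient : ℝ) / q' ≤ Real.exp (B z) * ((q.totient : ℝ) / q) := by
    have h1 : Real.exp (-(B z)) ≤ P := by
      refine le_trans ?_ m4
      apply Real.exp_le_exp.mpr
      linarith
    have h2 : 0 ≤ (q'.totient : ℝ) / q' := by positivity
    have h3 : (q'.totient : ℝ) / q' * Real.exp (-(B z)) ≤ (q.totient : ℝ) / q :=
      (mul_le_mul_of_nonneg_left h1 h2).trans m3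
    rw [Real.exp_neg, ← div_eq_mul_inv, div_le_iff₀ (Real.exp_pos _)] at h3
    linarith
  have hφ : 0 ≤ (q.totient : ℝ) / q := by positivity
  calc ((Cq q U).card : ℝ) ≤ c1 * U * ((q'.totient : ℝ) / q') := m2.trans m1
    _ ≤ c1 * U * (Real.exp (B z) * ((q.totient : ℝ) / q)) :=
        mul_le_mul_of_nonneg_left m6 (by positivity)
    _ = (c1 * Real.exp (B z)) * (U * ((q.totient : ℝ) / q)) := by ring
    _ ≤ c * (U * ((q.totient : ℝ) / q)) := mul_le_mul_of_nonneg_right g1.le (by positivity)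
    _ = c * U * (q.totient / q) := by ring

end Pool.Agent.Work.MP_b0c12c_nt_helper63
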