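import Pool.Agent.Work.MP_b0c12c_nt_helper63.C3
import Pool.Agent.Work.MP_b0c12c_nt_helper63.BlockP2

/-!
Layer-cake summation and the hitting probability.
-/

set_option linter.unusedSectionVars false
set_option linter.deprecated false

namespace Pool.Agent.Work.MP_b0c12c_nt_helper63

open MeasureTheory ProbabilityTheory Filter Topology Finset Pool.Agent.Work.MP_b0c12c_nt
open scoped ENNReal NNReal

/-- telescoping -/
lemma telescope {c : ℕ → ℝ} {i : ℕ} (n : ℕ) :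
    ∑ j ∈ range n, (if i ≤ j then c j - c (j + 1) else 0) = c (min i n) - c n := by
  induction n with
  | zero => simp
  | succ n ih =>
    rw [Finset.sum_range_succ, ih]
    rcases le_or_gt i n with h | h
    · rw [if_pos h, min_eq_left h, min_eq_left (by omega)]; ring
    · rw [if_neg (by omega), min_eq_right (by omega), min_eq_right (by omega)]; ring

lemma abel_id (c : ℕ → ℝ) (n : ℕ) :
    ∑ j ∈ range n, (c j - c (j + 1)) * ((j : ℝ) + 1) = ∑ j ∈ range n, c j - n * c n := by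
  induction n with
  | zero => simp
  | succ n ih =>
    rw [Finset.sum_range_succ, ih, Finset.sum_range_succ]
    push_cast
    ring

lemma layer {c : ℕ → ℝ} {n : ℕ} (hcn : c n = 0) (S : Finset ℕ) (idx : ℕ → ℕ)
    (hidx : ∀ p ∈ S, idx p ≤ n) :
    ∑ p ∈ S, c (idx p) =
      ∑ j ∈ range n, (c j - c (j + 1)) * ((S.filter (fun p => idx p ≤ j)).card : ℝ) := by
  have h1 : ∀ p ∈ S, c (idx p) = ∑ j ∈ range n, (if idx p ≤ j then c j - c (j + 1) else 0) := by
    intro p hp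
    rw [telescope, min_eq_left (hidx p hp), hcn, sub_zero]
  rw [Finset.sum_congr rfl h1, Finset.sum_comm]
  apply Finset.sum_congr rfl
  intro j _
  rw [← Finset.sum_filter, Finset.sum_const, nsmul_eq_mul, mul_comm]

section hit

variable {Ω : Type*} [MeasurableSpace Ω] {μ : Measure Ω} [IsProbabilityMeasure μ]

/-- `X` is uniformly distributed on `[-1, 1]` -/
def UnifOn (μ : Measure Ω) (X : Ω → ℝ) : Prop :=
  ∀ a ∈ Set.Icc (-1 : ℝ) 1, μ {ω | X ω ≤ a} = ENNReal.ofReal ((a + 1) / 2)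

variable {X : Ω → ℝ}

lemma cdf_eq (hu : UnifOn μ X) {a : ℝ} (h1 : -1 ≤ a) (h2 : a ≤ 1) :
    μ.real {ω | X ω ≤ a} = (a + 1) / 2 := by
  rw [measureReal_def, hu a ⟨h1, h2⟩, ENNReal.toReal_ofReal (by linarith)]

lemma cdf_top (hu : UnifOn μ X) {a : ℝ} (h : 1 ≤ a) : μ.real {ω | X ω ≤ a} = 1 := by
  apply le_antisymm measureReal_le_one
  have h1 := cdf_eq hu (a := 1) (by norm_num) le_rfl
  have h2 : (1 : ℝ) = (1 + 1) / 2 := by norm_num
  rw [h2, ← h1]
  exact measureReal_mono (fun ω hω => le_trans hω h)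

lemma cdf_bot (hu : UnifOn μ X) {a : ℝ} (h : a ≤ -1) : μ.real {ω | X ω ≤ a} = 0 := by
  apply le_antisymm _ measureReal_nonneg
  have h1 := cdf_eq hu (a := -1) le_rfl (by norm_num)
  have h2 : (0 : ℝ) = (-1 + 1) / 2 := by norm_num
  rw [h2, ← h1]
  exact measureReal_mono (fun ω hω => le_trans hω h)

lemma cdf_le (hu : UnifOn μ X) (a : ℝ) : μ.real {ω | X ω ≤ a} ≤ max 0 ((a + 1) / 2) := by
  rcases le_or_gt a (-1) with h | h
  · rw [cdf_bot hu h]; exact le_max_left _ _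
  · rcases le_or_gt a 1 with h2 | h2
    · rw [cdf_eq hu h.le h2]; exact le_max_right _ _
    · rw [cdf_top hu h2.le]; exact le_trans (by linarith) (le_max_right _ _)

lemma cdf_ge (hu : UnifOn μ X) (a : ℝ) : 1 - max 0 ((1 - a) / 2) ≤ μ.real {ω | X ω ≤ a} := by
  rcases le_or_gt a (-1) with h | h
  · rw [cdf_bot hu h]
    have := le_max_right 0 ((1 - a) / 2)
    linarith
  · rcases le_or_gt a 1 with h2 | h2
    · rw [cdf_eq hu h.le h2]
      have := le_max_right 0 ((1 - a) / 2)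
      linarith
    · rw [cdf_top hu h2.le]
      have := le_max_left 0 ((1 - a) / 2)
      linarith

lemma cdf_diff (hu : UnifOn μ X) {a b : ℝ} (hab : a ≤ b) :
    μ.real {ω | X ω ≤ b} - μ.real {ω | X ω ≤ a} ≤ (b - a) / 2 := by
  rcases le_or_gt a (-1) with h | h
  · have h0 : 0 ≤ μ.real {ω | X ω ≤ a} := measureReal_nonneg
    have h1 := cdf_le hu b
    have h2 : max 0 ((b + 1) / 2) ≤ (b - a) / 2 := max_le (by linarith) (by linarith)
    linarith
  · rcases le_or_gt 1 b with h2 | h2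
    · rw [cdf_top hu h2]
      have h3 := cdf_ge hu a
      have h4 : max 0 ((1 - a) / 2) ≤ (b - a) / 2 := max_le (by linarith) (by linarith)
      linarith
    · rw [cdf_eq hu h.le (by linarith), cdf_eq hu (by linarith) h2.le]
      linarith

/-- the probability that a moved point lands in the window -/
lemma hit_prob_cloud (hm : Measurable X) (hu : UnifOn μ X) {lam : ℝ} (hlam : 0 < lam) (p t h : ℕ)
    (y : ℝ) (hy : y ≤ |(p : ℝ) - t|) :
    μ.real {ω | (t : ℤ) - h < ⌊(p : ℝ) + lam * X ω⌋ ∧ ⌊(p : ℝ) + lam * X ω⌋ ≤ (t : ℤ) + h} ≤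
      max 0 (min (2 * (h : ℝ) + 1) (lam - y + h + 1)) / (2 * lam) := by
  set α : ℝ := ((t : ℝ) - h - p) / lam with hα
  set β : ℝ := ((t : ℝ) + h + 1 - p) / lam with hβ
  have hαβ : α ≤ β := by
    rw [hα, hβ]
    apply div_le_div_of_nonneg_right _ hlam.le
    have : (0 : ℝ) ≤ h := Nat.cast_nonneg h
    linarith
  have hsub : {ω | (t : ℤ) - h < ⌊(p : ℝ) + lam * X ω⌋ ∧ ⌊(p : ℝ) + lam * X ω⌋ ≤ (t : ℤ) + h} ⊆
      {ω | X ω ≤ β} \ {ω | X ω ≤ α} := by
    rintro ω ⟨h1, h2⟩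
    constructor
    · simp only [Set.mem_setOf_eq]
      rw [hβ, le_div_iff₀ hlam]
      have h3 := Int.lt_floor_add_one ((p : ℝ) + lam * X ω)
      have h4 : ((⌊(p : ℝ) + lam * X ω⌋ : ℤ) : ℝ) ≤ (t : ℝ) + h := by exact_mod_cast h2
      linarith
    · simp only [Set.mem_setOf_eq, not_le]
      rw [hα, div_lt_iff₀ hlam]
      have h3 := Int.floor_le ((p : ℝ) + lam * X ω)
      have h4 : (t : ℝ) - h < ((⌊(p : ℝ) + lam * X ω⌋ : ℤ) : ℝ) := by exact_mod_cast h1
      linarith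
  have hle : {ω | X ω ≤ α} ⊆ {ω | X ω ≤ β} := fun ω hω => le_trans hω hαβ
  have h1 : μ.real {ω | (t : ℤ) - h < ⌊(p : ℝ) + lam * X ω⌋ ∧
      ⌊(p : ℝ) + lam * X ω⌋ ≤ (t : ℤ) + h} ≤ μ.real {ω | X ω ≤ β} - μ.real {ω | X ω ≤ α} := by
    rw [← measureReal_diff hle (hm measurableSet_Iic)]
    exact measureReal_mono hsub
  refine h1.trans ?_
  rw [← max_div_div_right (by positivity : (0 : ℝ) ≤ 2 * lam), zero_div]
  have h0 : (0 : ℝ) ≤ h := Nat.cast_nonneg h
  have h2 : μ.real {ω | X ω ≤ β} - μ.real {ω | X ω ≤ α} ≤ (2 * (h : ℝ) + 1) / (2 * lam) := by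
    refine (cdf_diff hu hαβ).trans (le_of_eq ?_)
    rw [hα, hβ]
    field_simp
    ring
  have h3 : μ.real {ω | X ω ≤ β} - μ.real {ω | X ω ≤ α} ≤ max 0 ((lam - y + h + 1) / (2 * lam)) := by
    rcases le_total (t : ℝ) p with hpt | hpt
    · rw [abs_of_nonneg (by linarith)] at hy
      have h4 := cdf_le hu β
      have h5 : 0 ≤ μ.real {ω | X ω ≤ α} := measureReal_nonneg
      have h6 : (β + 1) / 2 ≤ (lam - y + h + 1) / (2 * lam) := by
        rw [hβ, div_add_one hlam.ne', div_div, mul_comm lam 2]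
        apply div_le_div_of_nonneg_right _ (by positivity)
        linarith
      have h7 : max 0 ((β + 1) / 2) ≤ max 0 ((lam - y + h + 1) / (2 * lam)) :=
        max_le_max le_rfl h6
      linarith
    · rw [abs_of_nonpos (by linarith)] at hy
      have h4 := cdf_ge hu α
      have h5 : μ.real {ω | X ω ≤ β} ≤ 1 := measureReal_le_one
      have h6 : (1 - α) / 2 ≤ (lam - y + h + 1) / (2 * lam) := by
        rw [hα, one_sub_div hlam.ne', div_div, mul_comm lam 2]
        apply div_le_div_of_nonneg_right _ (by positivity)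
        linarith
      have h7 : max 0 ((1 - α) / 2) ≤ max 0 ((lam - y + h + 1) / (2 * lam)) :=
        max_le_max le_rfl h6
      linarith
  rcases le_total (2 * (h : ℝ) + 1) (lam - y + h + 1) with h4 | h4
  · rw [min_eq_left h4]
    exact h2.trans (le_max_right _ _)
  · rw [min_eq_right h4]
    exact h3

lemma abs_le_one_ae (hm : Measurable X) (hu : UnifOn μ X) : ∀ᵐ ω ∂μ, |X ω| ≤ 1 := by
  have h1 : ∀ᵐ ω ∂μ, X ω ≤ 1 := by
    have h2 := cdf_top hu le_rfl
    have h3 : μ.real {ω | X ω ≤ 1}ᶜ = 0 := by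
      have h4 : MeasurableSet {ω | X ω ≤ 1} := hm measurableSet_Iic
      rw [probReal_compl_eq_one_sub h4, h2, sub_self]
    rw [measureReal_eq_zero_iff] at h3
    exact h3
  have h2 : ∀ᵐ ω ∂μ, ¬ (X ω ≤ -1) := by
    have h2 := cdf_bot hu (a := -1) le_rfl
    rw [measureReal_eq_zero_iff] at h2
    rw [ae_iff]
    simpa using h2
  filter_upwards [h1, h2] with ω h3 h4
  rw [abs_le]
  constructor <;> linarith

end hit

/-- eventual conditions -/
lemma ev_cloud {C g l M δ e : ℝ} (hC : 0 < C) (hg : 0 < g) (hlg : l < g) (hM : C + g / 2 + 1 ≤ M)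
    (hδ : 0 < δ) (he : 0 < e) (x1 : ℝ) :
    ∀ᶠ x : ℝ in atTop, x1 ≤ x ∧ 1 < x ∧ 2 ≤ δ * Real.log x ^ 2 ∧ 1 ≤ e * Real.log x ^ 2 ∧
      C * Real.log (4 * x) ^ 2 ≤ (C + e) * Real.log x ^ 2 ∧
      (C - e) * Real.log x ^ 2 ≤ C * Real.log (x / 2) ^ 2 ∧ 0 < Real.log (x / 2) ∧
      M * Real.log x ^ 2 ≤ x / 2 ∧ 2 ≤ (g - l) * Real.log x ^ 2 ∧
      C * Real.log (4 * x) ^ 2 + 2 ≤ (C + 1) * Real.log x ^ 2 ∧
      (∀ p : ℝ, 4 * x < p → C * Real.log p ^ 2 + 1 ≤ p / 8) := by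
  have hL2 : Tendsto (fun x : ℝ => Real.log x ^ 2) atTop atTop :=
    (tendsto_pow_atTop two_ne_zero).comp Real.tendsto_log_atTop
  have h1 : ∀ᶠ x : ℝ in atTop, 2 ≤ δ * Real.log x ^ 2 :=
    (hL2.const_mul_atTop hδ).eventually_ge_atTop 2
  have h2 : ∀ᶠ x : ℝ in atTop, 1 ≤ e * Real.log x ^ 2 :=
    (hL2.const_mul_atTop he).eventually_ge_atTop 1
  have h3 : ∀ᶠ x : ℝ in atTop, 2 ≤ (g - l) * Real.log x ^ 2 :=
    (hL2.const_mul_atTop (by linarith)).eventually_ge_atTop 2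
  have h4 : Tendsto (fun x : ℝ => C * (Real.log (4 * x) / Real.log x) ^ 2) atTop (𝓝 (C * 1 ^ 2)) :=
    ((log_ratio 4 (by norm_num)).pow 2).const_mul C
  rw [one_pow, mul_one] at h4
  have h5 : Tendsto (fun x : ℝ => C * (Real.log (1 / 2 * x) / Real.log x) ^ 2) atTop (𝓝 (C * 1 ^ 2)) :=
    ((log_ratio (1 / 2) (by norm_num)).pow 2).const_mul C
  rw [one_pow, mul_one] at h5
  have h6 : ∀ᶠ x : ℝ in atTop, Real.log x ^ (2 : ℝ) ≤ 1 / (2 * M) * x := by
    apply log_rpow_le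
    have : 0 < M := by linarith
    positivity
  have h7 : ∀ᶠ x : ℝ in atTop, Real.log x ^ (2 : ℝ) ≤ 1 / (16 * C) * x := log_rpow_le _ _ (by positivity)
  have h8 : ∀ᶠ x : ℝ in atTop, ∀ p : ℝ, 4 * x < p → C * Real.log p ^ 2 + 1 ≤ p / 8 := by
    obtain ⟨Y, hY⟩ := eventually_atTop.mp h7
    filter_upwards [eventually_ge_atTop (max Y 4)] with x hx p hp
    have hY' : Y ≤ x := (le_max_left _ _).trans hx
    have h0 : 4 ≤ x := (le_max_right _ _).trans hx
    have h9 := hY p (by linarith)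
    rw [Real.rpow_two] at h9
    have h10 : C * Real.log p ^ 2 ≤ C * (1 / (16 * C) * p) := mul_le_mul_of_nonneg_left h9 hC.le
    have h11 : C * (1 / (16 * C) * p) = p / 16 := by field_simp
    linarith
  have h9 : ∀ᶠ x : ℝ in atTop, 4 ≤ 1 * Real.log x ^ 2 :=
    (hL2.const_mul_atTop one_pos).eventually_ge_atTop 4
  filter_upwards [h1, h2, h3, h4.eventually_lt_const (show C < C + e by linarith),
    h5.eventually_const_lt (show C - e < C by linarith), h6, h8, h9,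
    h4.eventually_lt_const (show C < C + 1 / 2 by linarith), eventually_gt_atTop 4,
    eventually_ge_atTop x1] with x g1 g2 g3 g4 g5 g6 g8 g9 g10 g11 g12
  have hlog : 0 < Real.log x := Real.log_pos (by linarith)
  have hsq : 0 < Real.log x ^ 2 := by positivity
  rw [div_pow, mul_div_assoc', div_lt_iff₀ hsq] at g4 g10
  rw [div_pow, mul_div_assoc', lt_div_iff₀ hsq] at g5
  have e1 : 1 / 2 * x = x / 2 := by ring
  rw [e1] at g5
  rw [Real.rpow_two] at g6
  have hMp : 0 < M := by linarith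
  refine ⟨g12, by linarith, g1, g2, g4.le, g5.le, Real.log_pos (by linarith), ?_, g3, ?_, g8⟩
  · have h10 : M * Real.log x ^ 2 ≤ M * (1 / (2 * M) * x) := mul_le_mul_of_nonneg_left g6 hMp.le
    have h11 : M * (1 / (2 * M) * x) = x / 2 := by field_simp
    linarith
  · nlinarith

end Pool.Agent.Work.MP_b0c12c_nt_helper63
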