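import Pool.Agent.Work.MP_b0c12c_nt_helper63.C6
import Pool.Agent.Work.MP_b0c12c_nt_helper63.C4

/-!
Zero-one law: the Cramér constant of the moved primes is non-random.
-/

set_option linter.unusedSectionVars false
set_option linter.deprecated false

namespace Pool.Agent.Work.MP_b0c12c_nt_helper63

open MeasureTheory ProbabilityTheory Filter Topology Pool.Agent.Work.MP_b0c12c_nt
open scoped ENNReal NNReal

lemma gapL_gt_iff {Q : Set ℕ} (hQ : Q.Infinite) (r : ℝ) :
    (r : EReal) < gapL Q ↔ ∃ r' : ℚ, r < (r' : ℝ) ∧ ∀ N : ℕ, ∃ q : ℕ, N ≤ q ∧ q ∈ Q ∧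
      ∀ m ∈ Q, q < m → (q : ℝ) + (r' : ℝ) * Real.log q ^ 2 < m := by
  have hsm := Nat.nth_strictMono (p := (· ∈ Q)) hQ
  constructor
  · intro h
    obtain ⟨r', h1, h2⟩ := EReal.lt_iff_exists_rat_btwn.mp h
    refine ⟨r', by exact_mod_cast h1, fun N => ?_⟩
    have hfreq : ∃ᶠ k in atTop, (((r' : ℝ)) : EReal) <
      ((((Nat.nth (· ∈ Q) (k + 1) : ℝ) - (Nat.nth (· ∈ Q) k : ℝ)) /
        Real.log (Nat.nth (· ∈ Q) k) ^ 2 : ℝ) : EReal) :=
      frequently_lt_of_lt_limsup (by isBoundedDefault) h2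
    obtain ⟨k, hk1, hk2⟩ := frequently_atTop.mp hfreq (N + 2)
    have hqk : k ≤ Nat.nth (· ∈ Q) k := hsm.le_apply
    refine ⟨Nat.nth (· ∈ Q) k, by omega, Nat.nth_mem_of_infinite (p := (· ∈ Q)) hQ k, ?_⟩
    intro m hm hlt
    have hk3 : (r' : ℝ) < ((Nat.nth (· ∈ Q) (k + 1) : ℝ) - (Nat.nth (· ∈ Q) k : ℝ)) /
        Real.log (Nat.nth (· ∈ Q) k) ^ 2 := by exact_mod_cast hk2
    have hlog : 0 < Real.log (Nat.nth (· ∈ Q) k) :=
      Real.log_pos (by exact_mod_cast (by omega : 1 < Nat.nth (· ∈ Q) k))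
    rw [lt_div_iff₀ (by positivity)] at hk3
    have h4 : Nat.nth (· ∈ Q) (k + 1) ≤ m := by
      by_contra hcon
      push Not at hcon
      have := Nat.le_nth_of_lt_nth_succ (p := (· ∈ Q)) hcon hm
      omega
    have h5 : (Nat.nth (· ∈ Q) (k + 1) : ℝ) ≤ m := by exact_mod_cast h4
    linarith
  · rintro ⟨r', h1, h2⟩
    have h3 : (((r' : ℝ)) : EReal) ≤ gapL Q := by
      unfold gapL
      apply le_limsup_of_frequently_le
      · rw [frequently_atTop]
        intro K
        obtain ⟨q, hq1, hq2, hq3⟩ := h2 (max (Nat.nth (· ∈ Q) K) 2)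
        obtain ⟨k, hk⟩ := Nat.exists_lt_card_nth_eq (p := (· ∈ Q)) hq2
        have hk' : Nat.nth (· ∈ Q) k = q := hk.2
        have hKk : K ≤ k := by
          have : Nat.nth (· ∈ Q) K ≤ Nat.nth (· ∈ Q) k := by
            rw [hk']; exact (le_max_left _ _).trans hq1
          exact hsm.le_iff_le.mp this
        have hq2' : 2 ≤ q := (le_max_right _ _).trans hq1
        refine ⟨k, hKk, ?_⟩
        rw [EReal.coe_le_coe_iff, hk']
        have hlog : 0 < Real.log q := Real.log_pos (by exact_mod_cast (by omega : 1 < q))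
        rw [le_div_iff₀ (by positivity)]
        have h5 := hq3 (Nat.nth (· ∈ Q) (k + 1)) (Nat.nth_mem_of_infinite (p := (· ∈ Q)) hQ (k + 1))
          (by rw [← hk']; exact hsm (Nat.lt_succ_self k))
        linarith
      · exact isBoundedUnder_of ⟨⊤, fun _ => le_top⟩
    refine lt_of_lt_of_le ?_ h3
    exact_mod_cast h1

/-- clipping -/
noncomputable def clip (y : ℝ) : ℝ := max (-1) (min 1 y)

lemma abs_clip (y : ℝ) : |clip y| ≤ 1 := by
  unfold clip
  rw [abs_le]
  exact ⟨le_max_left _ _, max_le (by norm_num) (min_le_left _ _)⟩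

lemma clip_eq {y : ℝ} (h : |y| ≤ 1) : clip y = y := by
  rw [abs_le] at h
  unfold clip
  rw [min_eq_right h.2, max_eq_right h.1]

lemma measurable_clip : Measurable clip := by
  unfold clip
  fun_prop

section zeroOne

variable {Ω : Type*} [m0 : MeasurableSpace Ω]

/-- the set of the moved primes with clipped moves -/
noncomputable def clouds (C : ℝ) (X : ℕ → Ω → ℝ) (ω : Ω) : Set ℕ := cloud C (fun p => clip (X p ω))

lemma mem_tail {C : ℝ} (hC : 0 ≤ C) (X : ℕ → Ω → ℝ) (n : ℕ) :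
    ∃ N : ℕ, ∀ q, N ≤ q →
      MeasurableSet[⨆ i, ⨆ _ : i ≥ n, MeasurableSpace.comap (X i) inferInstance]
        {ω | q ∈ clouds C X ω} := by
  refine ⟨n + ⌈C * Real.log n ^ 2⌉₊ + 1, fun q hq => ?_⟩
  have h1 : {ω | q ∈ clouds C X ω} = ⋃ p : ℕ, ⋃ _ : p.Prime ∧ n ≤ p,
      {ω | (q : ℤ) = ⌊(p : ℝ) + C * Real.log p ^ 2 * clip (X p ω)⌋} := by
    ext ω
    simp only [Set.mem_setOf_eq, Set.mem_iUnion, exists_prop, clouds, cloud]
    constructor
    · rintro ⟨p, hp, h⟩
      refine ⟨p, ⟨hp, ?_⟩, h⟩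
      by_contra hcon
      push Not at hcon
      have h2 := Int.floor_le ((p : ℝ) + C * Real.log p ^ 2 * clip (X p ω))
      rw [← h] at h2
      have h3 := move_abs hC (u := fun p => clip (X p ω)) (p := p) (abs_clip _)
      rw [abs_le] at h3
      have h4 : C * Real.log p ^ 2 ≤ C * Real.log n ^ 2 := by
        apply mul_le_mul_of_nonneg_left _ hC
        apply pow_le_pow_left₀ (Real.log_natCast_nonneg p)
        exact Real.log_le_log (by exact_mod_cast hp.pos) (by exact_mod_cast hcon.le)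
      have h5 := Nat.le_ceil (C * Real.log n ^ 2)
      have h6 : (n : ℝ) + ⌈C * Real.log n ^ 2⌉₊ + 1 ≤ q := by exact_mod_cast hq
      have h7 : (p : ℝ) < n := by exact_mod_cast hcon
      have h8 : ((q : ℤ) : ℝ) = q := by push_cast; rfl
      rw [h8] at h2
      linarith [h3.2]
    · rintro ⟨p, ⟨hp, _⟩, h⟩
      exact ⟨p, hp, h⟩
  rw [h1]
  refine MeasurableSet.iUnion fun p => MeasurableSet.iUnion fun hp => ?_
  have h2 : MeasurableSpace.comap (X p) inferInstance ≤
      ⨆ i, ⨆ _ : i ≥ n, MeasurableSpace.comap (X i) inferInstance :=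
    le_iSup₂_of_le p hp.2 le_rfl
  apply h2
  refine ⟨{y : ℝ | (q : ℤ) = ⌊(p : ℝ) + C * Real.log p ^ 2 * clip y⌋}, ?_, rfl⟩
  have h3 : Measurable fun y : ℝ => ⌊(p : ℝ) + C * Real.log p ^ 2 * clip y⌋ := by
    apply Int.measurable_floor.comp
    exact (measurable_clip.const_mul _).const_add _
  have h4 : {y : ℝ | (q : ℤ) = ⌊(p : ℝ) + C * Real.log p ^ 2 * clip y⌋} =
      (fun y : ℝ => ⌊(p : ℝ) + C * Real.log p ^ 2 * clip y⌋) ⁻¹' {(q : ℤ)} := by
    ext y; simp [eq_comm]
  rw [h4]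
  exact h3 (measurableSet_singleton _)

lemma clouds_infinite {C : ℝ} (hC : 0 ≤ C) (X : ℕ → Ω → ℝ) (ω : Ω) : (clouds C X ω).Infinite :=
  cloud_infinite hC fun _ _ => abs_clip _

lemma tail_event {C : ℝ} (hC : 0 ≤ C) (X : ℕ → Ω → ℝ) (r : ℝ) (n : ℕ) :
    MeasurableSet[⨆ i, ⨆ _ : i ≥ n, MeasurableSpace.comap (X i) inferInstance]
      {ω | (r : EReal) < gapL (clouds C X ω)} := by
  obtain ⟨N0, hN0⟩ := mem_tail hC X n
  have h1 : {ω | (r : EReal) < gapL (clouds C X ω)} = ⋃ r' : ℚ, ⋃ _ : r < (r' : ℝ),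
      ⋂ N : ℕ, ⋃ q : ℕ, ⋃ _ : max N N0 ≤ q, ({ω | q ∈ clouds C X ω} ∩
        ⋂ m : ℕ, ⋂ _ : q < m ∧ (m : ℝ) ≤ (q : ℝ) + (r' : ℝ) * Real.log q ^ 2,
          {ω | m ∈ clouds C X ω}ᶜ) := by
    ext ω
    simp only [Set.mem_setOf_eq, Set.mem_iUnion, Set.mem_iInter, exists_prop, Set.mem_inter_iff,
      Set.mem_compl_iff]
    rw [gapL_gt_iff (clouds_infinite hC X ω)]
    constructor
    · rintro ⟨r', h2, h3⟩
      refine ⟨r', h2, fun N => ?_⟩
      obtain ⟨q, hq1, hq2, hq3⟩ := h3 (max N N0)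
      refine ⟨q, hq1, hq2, fun m hm hmQ => ?_⟩
      have := hq3 m hmQ hm.1
      linarith [hm.2]
    · rintro ⟨r', h2, h3⟩
      refine ⟨r', h2, fun N => ?_⟩
      obtain ⟨q, hq1, hq2, hq3⟩ := h3 N
      refine ⟨q, (le_max_left _ _).trans hq1, hq2, fun m hmQ hm => ?_⟩
      by_contra hcon
      push Not at hcon
      exact hq3 m ⟨hm, hcon⟩ hmQ
  rw [h1]
  refine MeasurableSet.iUnion fun r' => MeasurableSet.iUnion fun _ => MeasurableSet.iInter fun N =>
    MeasurableSet.iUnion fun q => MeasurableSet.iUnion fun hq => ?_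
  have hqN : N0 ≤ q := (le_max_right _ _).trans hq
  refine MeasurableSet.inter (hN0 q hqN) (MeasurableSet.iInter fun m => MeasurableSet.iInter fun hm => ?_)
  exact (hN0 m (hqN.trans hm.1.le)).compl

lemma tail_measurable {C : ℝ} (hC : 0 ≤ C) (X : ℕ → Ω → ℝ) :
    @Measurable Ω EReal (limsup (fun i => MeasurableSpace.comap (X i) inferInstance) atTop)
      inferInstance (fun ω => gapL (clouds C X ω)) := by
  refine measurable_of_Ioi (mδ := limsup (fun i => MeasurableSpace.comap (X i) inferInstance) atTop)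
    (fun x => ?_)
  rw [limsup_eq_iInf_iSup_of_nat, MeasurableSpace.measurableSet_iInf]
  intro n
  induction x with
  | bot =>
    have : (fun ω => gapL (clouds C X ω)) ⁻¹' Set.Ioi ⊥ = Set.univ := by
      ext ω
      simp only [Set.mem_preimage, Set.mem_Ioi, Set.mem_univ, iff_true]
      exact lt_of_lt_of_le EReal.bot_lt_zero (gapL_nonneg _ (clouds_infinite hC X ω))
    rw [this]
    exact @MeasurableSet.univ Ω (⨆ i, ⨆ _ : i ≥ n, MeasurableSpace.comap (X i) inferInstance)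
  | top =>
    have : (fun ω => gapL (clouds C X ω)) ⁻¹' Set.Ioi ⊤ = ∅ := by
      ext ω
      simp
    rw [this]
    exact @MeasurableSet.empty Ω (⨆ i, ⨆ _ : i ≥ n, MeasurableSpace.comap (X i) inferInstance)
  | coe r => exact tail_event hC X r n

variable {μ : Measure Ω} [IsProbabilityMeasure μ]

lemma const_ae {C : ℝ} (hC : 0 ≤ C) (X : ℕ → Ω → ℝ) (hXm : ∀ p, Measurable (X p))
    (hXi : iIndepFun X μ) : ∃ a : EReal, ∀ᵐ ω ∂μ, gapL (clouds C X ω) = a := by
  have h1 := tail_measurable hC X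
  have hle : ∀ n, MeasurableSpace.comap (X n) inferInstance ≤ m0 := fun n => (hXm n).comap_le
  have h2 := exists_eventuallyEq_const_of_forall_separating (l := ae μ)
    (f := fun ω => gapL (clouds C X ω)) (p := MeasurableSet) (fun U hU => by
      have h3 := measure_zero_or_one_of_measurableSet_limsup_atTop (μ := μ)
        (s := fun i => MeasurableSpace.comap (X i) inferInstance) hle hXi (h1 hU)
      have hms : MeasurableSet ((fun ω => gapL (clouds C X ω)) ⁻¹' U) := by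
        have h5 : limsup (fun i => MeasurableSpace.comap (X i) inferInstance) atTop ≤ m0 :=
          limsup_le_iSup.trans (iSup_le hle)
        exact h5 _ (h1 hU)
      rcases h3 with h3 | h3
      · right
        rw [ae_iff]
        simp only [not_not]
        exact h3
      · left
        rw [← prob_compl_eq_zero_iff hms] at h3
        exact h3)
  obtain ⟨a, ha⟩ := h2
  exact ⟨a, ha⟩

end zeroOne

end Pool.Agent.Work.MP_b0c12c_nt_helper63
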