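import Mathlib

/-!
Definitions for the hand-in on the primes moved by random amounts.
-/

namespace Pool.Agent.Work.MP_b0c12c_nt_helper63

open Filter

/-- The moved primes: the natural numbers `⌊p + C (log p)^A u_p⌋`, `p` prime, where the `u_p` are
real numbers (used with `|u_p| ≤ 1`). -/
def moved (A C : ℝ) (u : ℕ → ℝ) : Set ℕ :=
  {m | ∃ p : ℕ, p.Prime ∧ (m : ℤ) = ⌊(p : ℝ) + C * Real.log p ^ A * u p⌋}

/-- The analogue of `L` for a set `Q = {q_0 < q_1 < ...}` of natural numbers: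
`limsup (q_{k+1} - q_k) / (log q_k)^2` in the extended reals. -/
noncomputable def gapL (Q : Set ℕ) : EReal :=
  limsup (fun k : ℕ =>
      ((((Nat.nth (· ∈ Q) (k + 1) : ℝ) - (Nat.nth (· ∈ Q) k : ℝ)) /
        Real.log (Nat.nth (· ∈ Q) k) ^ 2 : ℝ) : EReal)) atTop

end Pool.Agent.Work.MP_b0c12c_nt_helper63
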