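import Pool.Agent.Work.MP_b0c12c_nt_helper63.Fin1
import Pool.Agent.Work.MP_b0c12c_nt_helper63.BlockD
import Pool.Agent.Work.MP_b0c12c_nt_helper63.BlockP2
import Pool.Agent.Work.MP_b0c12c_nt_helper63.BlockT
import Pool.Agent.Work.MP_b0c12c_nt.Maier

/-!
Final theorems on randomly perturbed and randomly thinned primes (from `UniformPntStrong`).
-/

set_option linter.unusedSectionVars false
set_option linter.deprecated false

namespace Pool.Agent.Work.MP_b0c12c_nt_helper63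

open MeasureTheory ProbabilityTheory Filter Topology Finset Pool.Agent.Work.MP_b0c12c_nt
open scoped ENNReal NNReal

/-- The set `{p + x_p : p prime}` (its elements that are natural numbers). -/
def perturbedPrimes (x : ℕ → ℤ) : Set ℕ := {m | ∃ p : ℕ, p.Prime ∧ (m : ℤ) = p + x p}

/-- The analogue of `L` for a set `Q = {q_0 < q_1 < ...}` of natural numbers:
`limsup (q_{k+1} - q_k) / (log q_k)^2` in the extended reals. -/
noncomputable def cramerL (Q : Set ℕ) : EReal :=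
  limsup (fun k : ℕ =>
      ((((Nat.nth (· ∈ Q) (k + 1) : ℝ) - (Nat.nth (· ∈ Q) k : ℝ)) /
        Real.log (Nat.nth (· ∈ Q) k) ^ 2 : ℝ) : EReal)) atTop

lemma perturbed_infinite {A : ℝ} {x : ℕ → ℤ}
    (hx : ∀ p : ℕ, p.Prime → |x p| ≤ (⌊Real.log p ^ A⌋₊ : ℤ)) : (perturbedPrimes x).Infinite := by
  rw [Set.infinite_iff_exists_gt]
  intro n
  have h1 : ∀ᶠ y : ℝ in atTop, Real.log y ^ A ≤ (1 / 2) * y := log_rpow_le A (1 / 2) (by norm_num)
  obtain ⟨y0, hy0⟩ := h1.exists_forall_of_atTop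
  obtain ⟨p, hp1, hp2⟩ := Nat.exists_infinite_primes (⌈y0⌉₊ + 2 * n + 2)
  have hp0 : y0 ≤ p := by
    have h2 : (⌈y0⌉₊ : ℝ) ≤ p := by exact_mod_cast (by omega : ⌈y0⌉₊ ≤ p)
    exact (Nat.le_ceil y0).trans h2
  have h3 := hy0 p hp0
  have h4 := hx p hp2
  have h5 : (⌊Real.log p ^ A⌋₊ : ℝ) ≤ (1 / 2) * p := by
    have hlog : 0 ≤ Real.log p := Real.log_natCast_nonneg p
    exact (Nat.floor_le (by positivity)).trans h3
  have h6 : 2 * ⌊Real.log p ^ A⌋₊ ≤ p := by
    have : (2 * ⌊Real.log p ^ A⌋₊ : ℝ) ≤ p := by linarith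
    exact_mod_cast this
  have h7 := (abs_le.mp h4).1
  refine ⟨((p : ℤ) + x p).toNat, ⟨p, hp2, ?_⟩, ?_⟩
  · rw [Int.toNat_of_nonneg]
    omega
  · omega

/-- limit step -/
lemma le_cramerL_of {Q : Set ℕ} {c : ℝ}
    (h : ∀ n : ℕ, ((c * (1 - 1 / ((n : ℝ) + 2)) : ℝ) : EReal) ≤ cramerL Q) :
    ((c : ℝ) : EReal) ≤ cramerL Q := by
  have h1 : Tendsto (fun n : ℕ => c * (1 - 1 / ((n : ℝ) + 2))) atTop (𝓝 (c * (1 - 0))) := by
    apply Tendsto.const_mul
    apply Tendsto.const_sub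
    apply tendsto_const_nhds.div_atTop
    exact tendsto_atTop_add_const_right _ _ tendsto_natCast_atTop_atTop
  rw [sub_zero, mul_one] at h1
  have h2 := (continuous_coe_real_ereal.tendsto c).comp h1
  exact le_of_tendsto' h2 h

theorem perturbed_core (hS : Itf2.UniformPntStrong) (A : ℝ) (hA : 2 < A) :
    ∀ {Ω : Type} [MeasurableSpace Ω] (μ : Measure Ω) [IsProbabilityMeasure μ]
      (ξ : ℕ → Ω → ℤ), (∀ p, Measurable (ξ p)) → iIndepFun ξ μ →
      (∀ p : ℕ, p.Prime → ∀ k : ℤ, |k| ≤ (⌊Real.log p ^ A⌋₊ : ℤ) →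
        μ {ω | ξ p ω = k} = 1 / (2 * (⌊Real.log p ^ A⌋₊ : ℝ≥0∞) + 1)) →
      ∀ᵐ ω ∂μ, ((cA A : ℝ) : EReal) ≤ cramerL (perturbedPrimes (fun p => ξ p ω)) := by
  intro Ω _ μ _ ξ hm hi hu
  have hc1 : 1 < cA A := one_lt_cA (by linarith)
  have hc0 : 0 < cA A := by linarith
  -- bounded perturbations
  have hbd : ∀ᵐ ω ∂μ, ∀ p : ℕ, p.Prime → |ξ p ω| ≤ (⌊Real.log p ^ A⌋₊ : ℤ) := by
    rw [ae_all_iff]
    intro p
    by_cases hp : p.Prime
    · have h1 := unif_abs (hm p) (hu p hp)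
      have h2 : MeasurableSet {ω | |ξ p ω| ≤ (⌊Real.log p ^ A⌋₊ : ℤ)} :=
        hm p (MeasurableSet.of_discrete (s := {z : ℤ | |z| ≤ (⌊Real.log p ^ A⌋₊ : ℤ)}))
      have h3 : μ.real {ω | |ξ p ω| ≤ (⌊Real.log p ^ A⌋₊ : ℤ)}ᶜ = 0 := by
        rw [probReal_compl_eq_one_sub h2, h1, sub_self]
      have h4 : μ {ω | |ξ p ω| ≤ (⌊Real.log p ^ A⌋₊ : ℤ)}ᶜ = 0 := by
        rwa [measureReal_eq_zero_iff] at h3
      have h5 : ∀ᵐ ω ∂μ, ω ∈ {ω | |ξ p ω| ≤ (⌊Real.log p ^ A⌋₊ : ℤ)} := h4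
      filter_upwards [h5] with ω hω _
      exact hω
    · exact Eventually.of_forall fun ω h => absurd h hp
  have hwin : ∀ n : ℕ, ∀ᵐ ω ∂μ, ∀ x0 : ℝ, ∃ x : ℝ, x0 ≤ x ∧ ∃ t : ℕ, x ≤ (t : ℝ) ∧
      (t : ℝ) ≤ 4 * x ∧ ∀ m : ℕ, t < m →
        (m : ℝ) ≤ t + (cA A * (1 - 1 / ((n : ℝ) + 2))) * Real.log x ^ 2 →
            ¬ ∃ p : ℕ, p.Prime ∧ (m : ℤ) = p + ξ p ω := by
    intro n
    have hn0 : (0 : ℝ) ≤ n := Nat.cast_nonneg n
    have hn1 : 0 < 1 - 1 / ((n : ℝ) + 2) := by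
      rw [sub_pos, div_lt_one (by linarith)]
      linarith
    have hn2 : 1 - 1 / ((n : ℝ) + 2) < 1 := by
      have : 0 < 1 / ((n : ℝ) + 2) := by positivity
      linarith
    set l := cA A * (1 - 1 / ((n : ℝ) + 2)) with hl
    have hl0 : 0 < l := by positivity
    have hlc : l < cA A := by
      rw [hl]
      nlinarith
    obtain ⟨u, huA, hu2⟩ := exists_of_lt_cA hlc
    have hw := half_le buch_isBuchstab (u := u) (by linarith)
    have hw0 : 0 < buch u := by linarith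
    have he : 0 < Real.exp (-Real.eulerMascheroniConstant) := Real.exp_pos _
    -- kap between w u / e^{-γ} and 1 / l
    have h1 : buch u / Real.exp (-Real.eulerMascheroniConstant) < 1 / l := by
      rw [lt_div_iff₀ hw0] at hu2
      rw [div_lt_div_iff₀ he hl0]
      linarith
    obtain ⟨kap, hk1, hk2⟩ := exists_between h1
    have hkap : 0 < kap := lt_trans (by positivity) hk1
    obtain ⟨A', hA1, hA2⟩ := exists_between huA
    have hrows := maier_rows hS buch_isBuchstab (A := A') (u := u) (by linarith) hA2 (by linarith)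
      hkap hk1
    refine windowsPerturbed A A' hA hA1 kap hkap hrows μ ξ hm hi hu l hl0 ?_
    rw [lt_div_iff₀ hl0] at hk2
    linarith
  have hall := ae_all_iff.mpr hwin
  filter_upwards [hbd, hall] with ω h1 h2
  have hinf : (perturbedPrimes (fun p => ξ p ω)).Infinite := perturbed_infinite (A := A) h1
  apply le_cramerL_of
  intro n
  have hn0 : (0 : ℝ) ≤ n := Nat.cast_nonneg n
  have hn1 : 0 < 1 - 1 / ((n : ℝ) + 2) := by
    rw [sub_pos, div_lt_one (by linarith)]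
    linarith
  exact limsupOfWindows _ hinf _ (by positivity) (h2 n)

theorem thinned_core (hS : Itf2.UniformPntStrong) (θ : ℝ) (hθ0 : 0 < θ) (hθ1 : θ < 1) :
    ∀ {Ω : Type} [MeasurableSpace Ω] (μ : Measure Ω) [IsProbabilityMeasure μ]
      (E : ℕ → Set Ω), (∀ p, MeasurableSet (E p)) →
      iIndepSet E μ → (∀ p : ℕ, p.Prime → μ (E p) = ENNReal.ofReal θ) →
      ∀ᵐ ω ∂μ, ((2 * Real.exp (-Real.eulerMascheroniConstant) / Real.log (1 / (1 - θ)) : ℝ) : EReal)
        ≤ cramerL {p : ℕ | p.Prime ∧ ω ∈ E p} := by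
  intro Ω _ μ _ E hm hi hp
  have hlog : 0 < Real.log (1 / (1 - θ)) := Real.log_pos (by
    rw [lt_div_iff₀ (by linarith)]; linarith)
  set Lg := Real.log (1 / (1 - θ)) with hLg
  have he : 0 < Real.exp (-Real.eulerMascheroniConstant) := Real.exp_pos _
  set c := 2 * Real.exp (-Real.eulerMascheroniConstant) / Lg with hc
  have hc0 : 0 < c := by positivity
  -- the set is infinite
  have hinf : ∀ᵐ ω ∂μ, {p : ℕ | p.Prime ∧ ω ∈ E p}.Infinite := by
    have h1 : ∀ N : ℕ, ∀ᵐ ω ∂μ, ∃ p : ℕ, N < p ∧ p.Prime ∧ ω ∈ E p := by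
      intro N
      have h2 : ∀ k : ℕ, μ.real {ω | ¬ ∃ p : ℕ, N < p ∧ p.Prime ∧ ω ∈ E p} ≤ (1 - θ) ^ k := by
        intro k
        obtain ⟨B, hB1, hB2⟩ : ∃ B : Finset ℕ, B.card = k ∧ ∀ p ∈ B, N < p ∧ p.Prime := by
          have hinf : {p : ℕ | N < p ∧ p.Prime}.Infinite := by
            rw [Set.infinite_iff_exists_gt]
            intro n
            obtain ⟨p, h1, h2⟩ := Nat.exists_infinite_primes (n + N + 1)
            exact ⟨p, ⟨by omega, h2⟩, by omega⟩
          obtain ⟨B, hB1, hB2⟩ := hinf.exists_subset_card_eq k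
          exact ⟨B, hB2, fun p hp => hB1 hp⟩
        have h3 : {ω | ¬ ∃ p : ℕ, N < p ∧ p.Prime ∧ ω ∈ E p} ⊆ ⋂ p ∈ B, (E p)ᶜ := by
          intro ω hω
          simp only [Set.mem_iInter, Set.mem_compl_iff]
          intro p hpB hpE
          exact hω ⟨p, (hB2 p hpB).1, (hB2 p hpB).2, hpE⟩
        refine (measureReal_mono h3).trans (le_of_eq ?_)
        have h5 : μ (⋂ p ∈ B, (E p)ᶜ) = ∏ p ∈ B, μ (E p)ᶜ := by
          refine iIndep.meas_biInter (iIndepSet.iIndep_comap_mem hi) (S := B)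
            (s := fun p => (E p)ᶜ) (fun p _ => ⟨{False}, trivial, ?_⟩)
          ext ω
          simp
        rw [measureReal_def, h5, ENNReal.toReal_prod, ← hB1, Finset.prod_eq_pow_card]
        intro p hpB
        have h6 : μ.real (E p)ᶜ = 1 - θ := by
          rw [probReal_compl_eq_one_sub (hm p), measureReal_def, hp p (hB2 p hpB).2,
            ENNReal.toReal_ofReal hθ0.le]
        exact h6
      have h3 : μ.real {ω | ¬ ∃ p : ℕ, N < p ∧ p.Prime ∧ ω ∈ E p} ≤ 0 :=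
        ge_of_tendsto' (tendsto_pow_atTop_nhds_zero_of_lt_one (by linarith) (by linarith)) h2
      have h4 : μ.real {ω | ¬ ∃ p : ℕ, N < p ∧ p.Prime ∧ ω ∈ E p} = 0 :=
        le_antisymm h3 measureReal_nonneg
      rw [measureReal_eq_zero_iff] at h4
      exact h4
    filter_upwards [ae_all_iff.mpr h1] with ω hω
    rw [Set.infinite_iff_exists_gt]
    intro n
    obtain ⟨p, h1, h2, h3⟩ := hω n
    exact ⟨p, ⟨h2, h3⟩, h1⟩
  have hwin : ∀ n : ℕ, ∀ᵐ ω ∂μ, ∀ x0 : ℝ, ∃ x : ℝ, x0 ≤ x ∧ ∃ t : ℕ, x ≤ (t : ℝ) ∧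
      (t : ℝ) ≤ 4 * x ∧ ∀ m : ℕ, t < m →
        (m : ℝ) ≤ t + (c * (1 - 1 / ((n : ℝ) + 2))) * Real.log x ^ 2 →
            ¬ (m.Prime ∧ ω ∈ E m) := by
    intro n
    have hn0 : (0 : ℝ) ≤ n := Nat.cast_nonneg n
    have hn1 : 0 < 1 - 1 / ((n : ℝ) + 2) := by
      rw [sub_pos, div_lt_one (by linarith)]
      linarith
    have hn2 : 1 - 1 / ((n : ℝ) + 2) < 1 := by
      have : 0 < 1 / ((n : ℝ) + 2) := by positivity
      linarith
    set l := c * (1 - 1 / ((n : ℝ) + 2)) with hl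
    have hl0 : 0 < l := by positivity
    have hlc : l < c := by
      rw [hl]
      nlinarith
    have hlc' : l * Lg < 2 * Real.exp (-Real.eulerMascheroniConstant) := by
      rw [hc, lt_div_iff₀ hlog] at hlc
      exact hlc
    -- choose u near 2
    have htend : Tendsto (fun u : ℝ => l * Lg * ((1 + Real.log (u - 1)) / u)) (𝓝[>] 2)
        (𝓝 (l * Lg * ((1 + Real.log (2 - 1)) / 2))) := by
      apply Tendsto.mono_left _ nhdsWithin_le_nhds
      apply ContinuousAt.tendsto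
      apply ContinuousAt.mul continuousAt_const
      apply ContinuousAt.div _ continuousAt_id (by norm_num)
      apply ContinuousAt.add continuousAt_const
      apply ContinuousAt.log (by fun_prop)
      norm_num
    have hlim : l * Lg * ((1 + Real.log (2 - 1)) / 2) <
        Real.exp (-Real.eulerMascheroniConstant) := by
      have : (2 : ℝ) - 1 = 1 := by norm_num
      rw [this, Real.log_one]
      linarith
    obtain ⟨u, hu1, hu2⟩ := ((htend.eventually_lt_const hlim).and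
      (Ioo_mem_nhdsGT (show (2 : ℝ) < 3 by norm_num))).exists
    have hwu := explicit23 buch_isBuchstab hu2.1.le hu2.2.le
    rw [← hwu] at hu1
    have hw := half_le buch_isBuchstab (u := u) (by linarith [hu2.1])
    have hw0 : 0 < buch u := by linarith
    have h1 : buch u / Real.exp (-Real.eulerMascheroniConstant) < 1 / (l * Lg) := by
      rw [div_lt_div_iff₀ he (by positivity)]
      linarith
    obtain ⟨kap, hk1, hk2⟩ := exists_between h1
    have hkap : 0 < kap := lt_trans (by positivity) hk1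
    obtain ⟨A', hA1, hA2⟩ := exists_between hu2.1
    have hrows := maier_rows hS buch_isBuchstab (A := A') (u := u) (by linarith) hA2
      (by linarith [hu2.1]) hkap hk1
    refine windowsThinned A' hA1 kap hkap hrows μ θ hθ0 hθ1 E hm hi hp l hl0 ?_
    rw [lt_div_iff₀ (by positivity)] at hk2
    calc l * kap * Real.log (1 / (1 - θ)) = kap * (l * Lg) := by rw [← hLg]; ring
      _ < 1 := hk2
  filter_upwards [hinf, ae_all_iff.mpr hwin] with ω h1 h2
  apply le_cramerL_of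
  intro n
  have hn0 : (0 : ℝ) ≤ n := Nat.cast_nonneg n
  have hn1 : 0 < 1 - 1 / ((n : ℝ) + 2) := by
    rw [sub_pos, div_lt_one (by linarith)]
    linarith
  exact limsupOfWindows _ h1 _ (by positivity) (h2 n)

end Pool.Agent.Work.MP_b0c12c_nt_helper63
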