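import Pool.Agent.Work.MP_b0c12c_nt_helper63.C4
import Pool.Agent.Work.MP_b0c12c_nt_helper63.Fin2
import Pool.Agent.Work.MP_b0c12c_nt_helper63.CloudDefs

/-!
Empty windows for the primes moved by `C u_p (log p)^A`, `A > 2`.
-/

set_option linter.unusedSectionVars false
set_option linter.deprecated false

namespace Pool.Agent.Work.MP_b0c12c_nt_helper63

open MeasureTheory ProbabilityTheory Filter Topology Finset Pool.Agent.Work.MP_b0c12c_nt
open scoped ENNReal NNReal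

noncomputable def UC (A C l x : ℝ) : ℕ := ⌈C * Real.log (4 * x) ^ A⌉₊ + ⌈l * Real.log x ^ 2⌉₊ + 1
noncomputable def ac (A C l x : ℝ) : ℝ := (LL l x + 1) / (2 * (C * Real.log (x / 2) ^ A))

lemma tend_inv2 : Tendsto (fun x : ℝ => 1 / Real.log x ^ 2) atTop (𝓝 0) := by
  have h0 : Tendsto (fun x : ℝ => Real.log x ^ 2) atTop atTop :=
    (tendsto_pow_atTop (by norm_num)).comp Real.tendsto_log_atTop
  exact h0.const_div_atTop 1

lemma tend_invA (A : ℝ) (hA : 0 < A) : Tendsto (fun x : ℝ => 1 / Real.log x ^ A) atTop (𝓝 0) :=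
  (tend_logA A hA).const_div_atTop 1

lemma tend_UC (A C l : ℝ) (hA : 2 < A) (hC : 0 < C) (hl : 0 < l) :
    Tendsto (fun x : ℝ => (UC A C l x : ℝ) / (C * Real.log x ^ A)) atTop (𝓝 1) := by
  have h1 : Tendsto (fun x : ℝ => C * Real.log (4 * x) ^ A) atTop atTop :=
    ((tend_logA A (by linarith)).comp (tendsto_id.const_mul_atTop (by norm_num))).const_mul_atTop hC
  have h2 := (tendsto_nat_ceil_div_atTop (R := ℝ)).comp h1
  have h3 := log_ratio_rpow 4 A (by norm_num)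
  have h5 := ((h2.mul h3).add ((tend_ceil l hl A hA).div_const C)).add
    ((tend_invA A (by linarith)).div_const C)
  rw [one_mul, zero_div, add_zero, add_zero] at h5
  refine h5.congr' ?_
  filter_upwards [eventually_gt_atTop 1, h1.eventually_gt_atTop 0] with x hx hx2
  have hlog : 0 < Real.log x ^ A := Real.rpow_pos_of_pos (Real.log_pos hx) _
  have h4 : 0 < Real.log (4 * x) ^ A := by
    by_contra hcon
    push Not at hcon
    nlinarith
  simp only [Function.comp, UC]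
  push_cast
  field_simp

lemma tend_ac (A C l : ℝ) (hA : 2 < A) (hC : 0 < C) (hl : 0 < l) :
    Tendsto (fun x : ℝ => ac A C l x * (2 * (C * Real.log x ^ A)) / Real.log x ^ 2) atTop (𝓝 l) := by
  have h3 := log_ratio_rpow (1 / 2) A (by norm_num)
  have h1 := ((tend_LL l hl).add tend_inv2).div h3 one_ne_zero
  rw [add_zero, div_one] at h1
  refine h1.congr' ?_
  filter_upwards [eventually_gt_atTop 4] with x hx
  have hlog : 0 < Real.log x := Real.log_pos (by linarith)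
  have hlogA : 0 < Real.log x ^ A := Real.rpow_pos_of_pos hlog _
  have hlog2 : 0 < Real.log (x / 2) := Real.log_pos (by linarith)
  have hlog2A : 0 < Real.log (x / 2) ^ A := Real.rpow_pos_of_pos hlog2 _
  simp only [Pi.div_apply]
  unfold ac
  rw [show 1 / 2 * x = x / 2 by ring]
  field_simp

lemma tend_ac0 (A C l : ℝ) (hA : 2 < A) (hC : 0 < C) (hl : 0 < l) :
    Tendsto (fun x : ℝ => ac A C l x) atTop (𝓝 0) := by
  have h1 := ((tend_ac A C l hA hC hl).mul (tend_log2A A hA)).div_const (2 * C)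
  rw [mul_zero, zero_div] at h1
  refine h1.congr' ?_
  filter_upwards [eventually_gt_atTop 4] with x hx
  have hlog : 0 < Real.log x := Real.log_pos (by linarith)
  have hlogA : 0 < Real.log x ^ A := Real.rpow_pos_of_pos hlog _
  field_simp

lemma tend_mainC (A C l : ℝ) (hA : 2 < A) (hC : 0 < C) (hl : 0 < l) :
    Tendsto (fun x : ℝ => (ac A C l x + ac A C l x ^ 2) * (2 * (UC A C l x : ℝ)) / Real.log x ^ 2)
      atTop (𝓝 l) := by
  have h1 := ((tend_ac A C l hA hC hl).mul (tend_UC A C l hA hC hl)).mul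
    ((tend_ac0 A C l hA hC hl).const_add 1)
  rw [mul_one, add_zero, mul_one] at h1
  refine h1.congr' ?_
  filter_upwards [eventually_gt_atTop 4] with x hx
  have hlog : 0 < Real.log x := Real.log_pos (by linarith)
  have hlogA : 0 < Real.log x ^ A := Real.rpow_pos_of_pos hlog _
  field_simp

lemma ev_condC (A A' C l kap ρ x1 : ℝ) (hA : 2 < A) (hAA' : A < A') (hC : 0 < C) (hl : 0 < l)
    (hkap : 0 < kap) (hρ : l * kap < ρ) :
    ∀ᶠ x : ℝ in atTop, x1 ≤ x ∧ 4 < x ∧ Real.log x ≤ UC A C l x ∧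
      (UC A C l x : ℝ) ≤ Real.log x ^ A' ∧ (UC A C l x : ℝ) ≤ x / 4 ∧ ac A C l x ≤ 1 / 2 ∧
      (ac A C l x + ac A C l x ^ 2) * (kap * (2 * (UC A C l x : ℝ)) / Real.log x) ≤ ρ * Real.log x ∧
      (∀ p : ℝ, 4 * x < p → C * Real.log p ^ A + 1 ≤ p / 8) := by
  have h1 := tend_UC A C l hA hC hl
  have h2 : ∀ᶠ x : ℝ in atTop, 1 / 2 < (UC A C l x : ℝ) / (C * Real.log x ^ A) :=
    h1.eventually (lt_mem_nhds (by norm_num))
  have h3 : ∀ᶠ x : ℝ in atTop, (UC A C l x : ℝ) / (C * Real.log x ^ A) < 2 :=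
    h1.eventually (gt_mem_nhds (by norm_num))
  have h4 : ∀ᶠ x : ℝ in atTop, 2 / C ≤ Real.log x ^ (A - 1) :=
    (tend_logA (A - 1) (by linarith)).eventually_ge_atTop _
  have h5 : ∀ᶠ x : ℝ in atTop, 2 * C ≤ Real.log x ^ (A' - A) :=
    (tend_logA (A' - A) (by linarith)).eventually_ge_atTop _
  have h6 : ∀ᶠ x : ℝ in atTop, Real.log x ^ A ≤ 1 / (16 * C) * x :=
    log_rpow_le A (1 / (16 * C)) (by positivity)
  have h7 : ∀ᶠ x : ℝ in atTop, ac A C l x < 1 / 2 :=
    (tend_ac0 A C l hA hC hl).eventually (gt_mem_nhds (by norm_num))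
  have h8 : ∀ᶠ x : ℝ in atTop,
      (ac A C l x + ac A C l x ^ 2) * (2 * (UC A C l x : ℝ)) / Real.log x ^ 2 < ρ / kap :=
    (tend_mainC A C l hA hC hl).eventually (gt_mem_nhds (by rw [lt_div_iff₀ hkap]; exact hρ))
  have h9 : ∀ᶠ x : ℝ in atTop, ∀ p : ℝ, 4 * x < p → C * Real.log p ^ A + 1 ≤ p / 8 := by
    obtain ⟨Y, hY⟩ := eventually_atTop.mp h6
    filter_upwards [eventually_ge_atTop (max Y 4)] with x hx p hp
    have hY' : Y ≤ x := (le_max_left _ _).trans hx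
    have h0 : 4 ≤ x := (le_max_right _ _).trans hx
    have h10 := hY p (by linarith)
    have h11 : C * Real.log p ^ A ≤ C * (1 / (16 * C) * p) := mul_le_mul_of_nonneg_left h10 hC.le
    have h12 : C * (1 / (16 * C) * p) = p / 16 := by field_simp
    linarith
  filter_upwards [h2, h3, h4, h5, h6, h7, h8, h9, eventually_gt_atTop 4, eventually_ge_atTop x1]
    with x g2 g3 g4 g5 g6 g7 g8 g9 g10 g11
  have hlog : 0 < Real.log x := Real.log_pos (by linarith)
  have hlogA : 0 < Real.log x ^ A := Real.rpow_pos_of_pos hlog _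
  have hCA : 0 < C * Real.log x ^ A := by positivity
  rw [lt_div_iff₀ hCA] at g2
  rw [div_lt_iff₀ hCA] at g3
  have g6' : C * Real.log x ^ A ≤ x / 16 := by
    have h11 : C * Real.log x ^ A ≤ C * (1 / (16 * C) * x) := mul_le_mul_of_nonneg_left g6 hC.le
    have h12 : C * (1 / (16 * C) * x) = x / 16 := by field_simp
    linarith
  refine ⟨g11, g10, ?_, ?_, by linarith, g7.le, ?_, g9⟩
  · have e : Real.log x ^ A = Real.log x ^ (A - 1) * Real.log x := by
      rw [← Real.rpow_add_one hlog.ne']; congr 1; ring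
    rw [e] at g2
    have h10 : 2 ≤ C * Real.log x ^ (A - 1) := by
      rw [div_le_iff₀ hC] at g4
      linarith
    nlinarith
  · have e : Real.log x ^ A' = Real.log x ^ (A' - A) * Real.log x ^ A := by
      rw [← Real.rpow_add hlog]; congr 1; ring
    rw [e]
    nlinarith
  · rw [div_lt_iff₀ (by positivity)] at g8
    have e : (ac A C l x + ac A C l x ^ 2) * (kap * (2 * (UC A C l x : ℝ)) / Real.log x) =
        kap * ((ac A C l x + ac A C l x ^ 2) * (2 * (UC A C l x : ℝ))) / Real.log x := by ring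
    rw [e, div_le_iff₀ hlog]
    have h10 := mul_le_mul_of_nonneg_left g8.le hkap.le
    have h11 : kap * (ρ / kap * Real.log x ^ 2) = ρ * Real.log x * Real.log x := by
      field_simp
    linarith

lemma hit_simple {Ω : Type*} [MeasurableSpace Ω] {μ : Measure Ω} [IsProbabilityMeasure μ]
    {X : Ω → ℝ} (hm : Measurable X) (hu : UnifOn μ X) {lam : ℝ} (hlam : 0 < lam) (p t L : ℕ) :
    μ.real {ω | (t : ℤ) < ⌊(p : ℝ) + lam * X ω⌋ ∧ ⌊(p : ℝ) + lam * X ω⌋ ≤ (t : ℤ) + L} ≤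
      (L + 1) / (2 * lam) := by
  set α : ℝ := ((t : ℝ) - p) / lam with hα
  set β : ℝ := ((t : ℝ) + L + 1 - p) / lam with hβ
  have hL : (0 : ℝ) ≤ L := Nat.cast_nonneg L
  have hαβ : α ≤ β := by
    rw [hα, hβ]
    apply div_le_div_of_nonneg_right _ hlam.le
    linarith
  have hsub : {ω | (t : ℤ) < ⌊(p : ℝ) + lam * X ω⌋ ∧ ⌊(p : ℝ) + lam * X ω⌋ ≤ (t : ℤ) + L} ⊆
      {ω | X ω ≤ β} \ {ω | X ω ≤ α} := by
    rintro ω ⟨h1, h2⟩
    constructor
    · simp only [Set.mem_setOf_eq]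
      rw [hβ, le_div_iff₀ hlam]
      have h3 := Int.lt_floor_add_one ((p : ℝ) + lam * X ω)
      have h4 : ((⌊(p : ℝ) + lam * X ω⌋ : ℤ) : ℝ) ≤ (t : ℝ) + L := by exact_mod_cast h2
      linarith
    · simp only [Set.mem_setOf_eq, not_le]
      rw [hα, div_lt_iff₀ hlam]
      have h3 := Int.floor_le ((p : ℝ) + lam * X ω)
      have h4 : (t : ℝ) < ((⌊(p : ℝ) + lam * X ω⌋ : ℤ) : ℝ) := by exact_mod_cast h1
      linarith
  have hle : {ω | X ω ≤ α} ⊆ {ω | X ω ≤ β} := fun ω hω => le_trans hω hαβ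
  have h1 : μ.real {ω | (t : ℤ) < ⌊(p : ℝ) + lam * X ω⌋ ∧
      ⌊(p : ℝ) + lam * X ω⌋ ≤ (t : ℤ) + L} ≤ μ.real {ω | X ω ≤ β} - μ.real {ω | X ω ≤ α} := by
    rw [← measureReal_diff hle (hm measurableSet_Iic)]
    exact measureReal_mono hsub
  refine h1.trans ((cdf_diff hu hαβ).trans (le_of_eq ?_))
  rw [hα, hβ]
  field_simp
  ring

theorem windowsMoved (A A' C : ℝ) (hA : 2 < A) (hAA' : A < A') (hC : 0 < C) (kap : ℝ)
    (hkap : 0 < kap)
    (hRows : ∀ η : ℝ, 0 < η → ∃ x0 : ℝ, ∀ x : ℝ, x0 ≤ x →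
      ∀ U : ℕ, Real.log x ≤ U → (U : ℝ) ≤ Real.log x ^ A' → Itf.Rows kap η x U)
    {Ω : Type*} [MeasurableSpace Ω] (μ : Measure Ω) [IsProbabilityMeasure μ]
    (X : ℕ → Ω → ℝ) (hXm : ∀ p, Measurable (X p)) (hXi : iIndepFun X μ)
    (hXu : ∀ p : ℕ, p.Prime → UnifOn μ (X p)) (l : ℝ) (hl : 0 < l) (hlk : l * kap < 1) :
    ∀ᵐ ω ∂μ, ∀ x0 : ℝ, ∃ x : ℝ, x0 ≤ x ∧ ∃ t : ℕ, x ≤ (t : ℝ) ∧ (t : ℝ) ≤ 4 * x ∧
      ∀ m : ℕ, t < m → (m : ℝ) ≤ t + l * Real.log x ^ 2 → m ∉ moved A C (fun p => X p ω) := by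
  classical
  set ρ := (1 + l * kap) / 2 with hρ
  have hρ1 : ρ < 1 := by rw [hρ]; linarith
  have hρ2 : l * kap < ρ := by rw [hρ]; linarith
  set η := (1 - ρ) / 2 with hη
  have hη0 : 0 < η := by rw [hη]; linarith
  obtain ⟨x1, hx1⟩ := hRows η hη0
  obtain ⟨X0, hX0⟩ := eventually_atTop.mp (ev_condC A A' C l kap ρ x1 hA hAA' hC hl hkap hρ2)
  set B : ℝ → ℕ → Finset ℕ := fun x t =>
    (Finset.Icc (t - UC A C l x) (t + UC A C l x)).filter Nat.Prime with hB
  set ξ : ℕ → Ω → ℤ := fun p ω => ⌊(p : ℝ) + C * Real.log p ^ A * X p ω⌋ with hξ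
  have hξm : ∀ p, Measurable (ξ p) := by
    intro p
    exact Int.measurable_floor.comp (by fun_prop)
  have hξi : iIndepFun ξ μ := by
    exact hXi.comp (fun p (y : ℝ) => ⌊(p : ℝ) + C * Real.log p ^ A * y⌋)
      (fun p => Int.measurable_floor.comp (by fun_prop))
  set bad : ℝ → ℕ → Set ℤ := fun x t => {k : ℤ | (t : ℤ) < k ∧ k ≤ (t : ℤ) + LL l x} with hbad
  set G : ℝ → ℕ → Set Ω := fun x t => {ω | ∀ p ∈ B x t, ξ p ω ∈ (bad x t)ᶜ} with hG
  have hGm : ∀ x t, MeasurableSet (G x t) := by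
    intro x t
    have : G x t = ⋂ p ∈ B x t, ξ p ⁻¹' (bad x t)ᶜ := by
      ext ω; simp [hG]
    rw [this]
    exact Finset.measurableSet_biInter _ fun p _ => hξm p MeasurableSet.of_discrete
  have hBprime : ∀ x t, ∀ p ∈ B x t, p.Prime := fun x t p hp => by
    rw [hB] at hp; exact (mem_filter.mp hp).2
  -- one scale
  have hstep : ∀ x : ℝ, X0 ≤ x → ∃ T : Finset ℕ, (∀ t ∈ T, x ≤ (t : ℝ) ∧ (t : ℝ) ≤ 3 * x) ∧
      μ.real {ω | ∀ t ∈ T, ω ∉ G x t} ≤ x ^ (-η) := by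
    intro x hx
    obtain ⟨c1, c2, c3, c4, c5, c6, c7, c8⟩ := hX0 x hx
    obtain ⟨T, hT1, hT2, hT3, hT4⟩ := hx1 x c1 (UC A C l x) c3 c4
    refine ⟨T, hT1, ?_⟩
    have hlog : 0 < Real.log x := Real.log_pos (by linarith)
    have hlogh : 0 < Real.log (x / 2) := Real.log_pos (by linarith)
    have hloghA : 0 < Real.log (x / 2) ^ A := Real.rpow_pos_of_pos hlogh _
    have ha0 : 0 ≤ ac A C l x := by unfold ac; positivity
    set c := ac A C l x + ac A C l x ^ 2 with hc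
    have hc0 : 0 ≤ c := by positivity
    have hexp : -η = -(1 - η - ρ) := by rw [hη]; ring
    rw [hexp]
    refine core_bound x ρ η (by linarith) T (G x) (fun t _ => hGm x t)
      (fun t => ((B x t).card : ℝ)) c
      (kap * (2 * (UC A C l x : ℝ)) / Real.log x) hc0 ?_ c7 hT3 ?_ ?_
    · have e : (T.card : ℝ) * (kap * (2 * (UC A C l x : ℝ)) / Real.log x) =
          kap * T.card * (2 * (UC A C l x : ℝ)) / Real.log x := by ring
      rw [e]
      exact hT4
    · intro t ht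
      have hpf := prod_formula hξi (B x t) (fun _ => (bad x t)ᶜ)
      have hGt : G x t = {ω | ∀ p ∈ B x t, ξ p ω ∈ (bad x t)ᶜ} := rfl
      rw [hGt, hpf]
      have h1 : ∀ p ∈ B x t, Real.exp (-c) ≤ μ.real {ω | ξ p ω ∈ (bad x t)ᶜ} := by
        intro p hp
        have hpp := hBprime x t p hp
        have hpt : (x / 2 : ℝ) ≤ p := by
          rw [hB] at hp
          have h2 := (mem_Icc.mp (mem_filter.mp hp).1).1
          have h3 : t ≤ p + UC A C l x := by omega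
          have h4 : (t : ℝ) ≤ p + UC A C l x := by exact_mod_cast h3
          have h5 := (hT1 t ht).1
          linarith
        have hlp : Real.log (x / 2) ≤ Real.log p := Real.log_le_log (by linarith) hpt
        have hlpA : Real.log (x / 2) ^ A ≤ Real.log p ^ A :=
          Real.rpow_le_rpow hlogh.le hlp (by linarith)
        set lam := C * Real.log p ^ A with hlam
        have hlam1 : C * Real.log (x / 2) ^ A ≤ lam := mul_le_mul_of_nonneg_left hlpA hC.le
        have hlam0 : 0 < lam := lt_of_lt_of_le (by positivity) hlam1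
        have h2 := hit_simple (hXm p) (hXu p hpp) hlam0 p t (LL l x)
        have h3 : ((LL l x : ℝ) + 1) / (2 * lam) ≤ ac A C l x := by
          unfold ac
          apply div_le_div_of_nonneg_left (by positivity) (by positivity)
          linarith
        have hmeas : MeasurableSet {ω | (t : ℤ) < ⌊(p : ℝ) + lam * X p ω⌋ ∧
            ⌊(p : ℝ) + lam * X p ω⌋ ≤ (t : ℤ) + LL l x} :=
          hξm p (MeasurableSet.of_discrete (s := bad x t))
        have hcompl : {ω | ξ p ω ∈ (bad x t)ᶜ} = {ω | (t : ℤ) < ⌊(p : ℝ) + lam * X p ω⌋ ∧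
            ⌊(p : ℝ) + lam * X p ω⌋ ≤ (t : ℤ) + LL l x}ᶜ := by
          ext ω
          simp [hbad, hξ, hlam]
        rw [hcompl, probReal_compl_eq_one_sub hmeas]
        have h4 := exp_neg_le_one_sub ha0 c6
        rw [hc]
        linarith
      calc Real.exp (-(c * (B x t).card)) = ∏ p ∈ B x t, Real.exp (-c) := by
            rw [Finset.prod_const, ← Real.exp_nat_mul]; congr 1; ring
        _ ≤ _ := Finset.prod_le_prod (fun _ _ => (Real.exp_pos _).le) h1
    · intro t ht t' ht' hne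
      have hd : Disjoint (B x t) (B x t') := by
        rw [Finset.disjoint_left]
        intro p hp hp'
        rw [hB] at hp hp'
        have h2 := mem_Icc.mp (mem_filter.mp hp).1
        have h3 := mem_Icc.mp (mem_filter.mp hp').1
        rcases Nat.lt_or_gt_of_ne hne with h4 | h4
        · have := hT2 t ht t' ht' h4; omega
        · have := hT2 t' ht' t ht h4; omega
      exact (prod_formula_two hξi (B x t) (B x t') hd (fun _ => (bad x t)ᶜ)
        (fun _ => (bad x t')ᶜ)).le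
  obtain ⟨k0, hk0⟩ : ∃ k0 : ℕ, X0 ≤ (2 : ℝ) ^ k0 := by
    obtain ⟨k, hk⟩ := pow_unbounded_of_one_lt X0 (show (1 : ℝ) < 2 by norm_num)
    exact ⟨k, hk.le⟩
  have hk0' : ∀ k, k0 ≤ k → X0 ≤ (2 : ℝ) ^ k := fun k hk =>
    hk0.trans (pow_le_pow_right₀ (by norm_num) hk)
  have hch : ∀ k : ℕ, ∃ T : Finset ℕ, k0 ≤ k →
      (∀ t ∈ T, (2 : ℝ) ^ k ≤ (t : ℝ) ∧ (t : ℝ) ≤ 3 * (2 : ℝ) ^ k) ∧
      μ.real {ω | ∀ t ∈ T, ω ∉ G ((2 : ℝ) ^ k) t} ≤ ((2 : ℝ) ^ k) ^ (-η) := by
    intro k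
    by_cases hk : k0 ≤ k
    · obtain ⟨T, h1, h2⟩ := hstep _ (hk0' k hk)
      exact ⟨T, fun _ => ⟨h1, h2⟩⟩
    · exact ⟨∅, fun h => absurd h hk⟩
  choose T hT using hch
  have hBC := bc_pow_two (μ := μ) η hη0 (fun k => {ω | ∀ t ∈ T k, ω ∉ G ((2 : ℝ) ^ k) t}) k0
    (fun k hk => (hT k hk).2)
  have habs : ∀ᵐ ω ∂μ, ∀ p : ℕ, p.Prime → |X p ω| ≤ 1 := by
    rw [ae_all_iff]
    intro p
    by_cases hp : p.Prime
    · filter_upwards [abs_le_one_ae (hXm p) (hXu p hp)] with ω hω _ using hω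
    · exact Eventually.of_forall fun ω h => absurd h hp
  filter_upwards [hBC, habs] with ω hω habsω x0
  obtain ⟨K, hK⟩ := eventually_atTop.mp hω
  obtain ⟨k1, hk1⟩ := pow_unbounded_of_one_lt x0 (show (1 : ℝ) < 2 by norm_num)
  set k := max (max K k0) k1 with hk
  have hkK : K ≤ k := (le_max_left _ _).trans (le_max_left _ _)
  have hkk0 : k0 ≤ k := (le_max_right _ _).trans (le_max_left _ _)
  have hkk1 : k1 ≤ k := le_max_right _ _
  have h1 : ¬ (∀ t ∈ T k, ω ∉ G ((2 : ℝ) ^ k) t) := hK k hkK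
  push Not at h1
  obtain ⟨t, ht, htG⟩ := h1
  obtain ⟨hTk, _⟩ := hT k hkk0
  obtain ⟨ht1, ht2⟩ := hTk t ht
  set x : ℝ := (2 : ℝ) ^ k with hxk
  obtain ⟨c1, c2, c3, c4, c5, c6, c7, c8⟩ := hX0 x (hk0' k hkk0)
  refine ⟨x, hk1.le.trans (pow_le_pow_right₀ (by norm_num) hkk1), t, ht1, by linarith, ?_⟩
  rintro m hm1 hm2 ⟨p, hp, hmp⟩
  -- m ≤ t + L
  have hmL : m ≤ t + LL l x := by
    have h2 : ((m - t : ℕ) : ℝ) ≤ l * Real.log x ^ 2 := by
      rw [Nat.cast_sub hm1.le]; linarith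
    have h3 : m - t ≤ LL l x := by unfold LL; exact Nat.le_floor h2
    omega
  have hLc : LL l x ≤ ⌈l * Real.log x ^ 2⌉₊ := by unfold LL; exact Nat.floor_le_ceil _
  have hUdef : UC A C l x = ⌈C * Real.log (4 * x) ^ A⌉₊ + ⌈l * Real.log x ^ 2⌉₊ + 1 := rfl
  have hXp := habsω p hp
  set lam := C * Real.log p ^ A with hlam
  have hlamnn : 0 ≤ lam := by
    have := Real.rpow_nonneg (Real.log_natCast_nonneg p) A
    positivity
  have hmf1 := Int.floor_le ((p : ℝ) + lam * X p ω)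
  have hmf2 := Int.lt_floor_add_one ((p : ℝ) + lam * X p ω)
  have hmr : (m : ℝ) = ((⌊(p : ℝ) + lam * X p ω⌋ : ℤ) : ℝ) := by
    exact_mod_cast congrArg (fun y : ℤ => (y : ℝ)) hmp
  rw [← hmr] at hmf1 hmf2
  have h5 : |lam * X p ω| ≤ lam := by
    rw [abs_mul, abs_of_nonneg hlamnn]
    nlinarith
  rw [abs_le] at h5
  have hpB : p ∈ B x t := by
    rw [hB]
    simp only [mem_filter, mem_Icc]
    refine ⟨?_, hp⟩
    by_cases hp4 : (p : ℝ) ≤ 4 * x
    · have hV : lam ≤ ⌈C * Real.log (4 * x) ^ A⌉₊ := by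
        refine le_trans ?_ (Nat.le_ceil _)
        have h3 : 0 ≤ Real.log p := Real.log_natCast_nonneg p
        apply mul_le_mul_of_nonneg_left _ hC.le
        exact Real.rpow_le_rpow h3 (Real.log_le_log (by exact_mod_cast hp.pos) hp4) (by linarith)
      have h6 : (p : ℝ) ≤ m + ⌈C * Real.log (4 * x) ^ A⌉₊ + 1 := by linarith [h5.1]
      have h7 : (m : ℝ) ≤ p + ⌈C * Real.log (4 * x) ^ A⌉₊ := by linarith [h5.2]
      have h6' : p ≤ m + ⌈C * Real.log (4 * x) ^ A⌉₊ + 1 := by exact_mod_cast h6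
      have h7' : m ≤ p + ⌈C * Real.log (4 * x) ^ A⌉₊ := by exact_mod_cast h7
      constructor <;> omega
    · push Not at hp4
      exfalso
      have h3 := c8 p hp4
      have h7 : (m : ℝ) ≤ t + LL l x := by exact_mod_cast hmL
      have h8 : (LL l x : ℝ) ≤ UC A C l x := by
        have : LL l x ≤ UC A C l x := by omega
        exact_mod_cast this
      linarith [h5.1]
  have h2 := htG p hpB
  apply h2
  rw [hbad, hξ]
  simp only [Set.mem_setOf_eq]
  rw [← hmp]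
  constructor <;> omega

lemma moved_infinite {A C : ℝ} (hC : 0 < C) {u : ℕ → ℝ}
    (hu : ∀ p : ℕ, p.Prime → |u p| ≤ 1) : (moved A C u).Infinite := by
  rw [Set.infinite_iff_exists_gt]
  intro n
  have h1 : ∀ᶠ y : ℝ in atTop, Real.log y ^ A ≤ 1 / (2 * C) * y :=
    log_rpow_le A _ (by positivity)
  obtain ⟨y0, hy0⟩ := h1.exists_forall_of_atTop
  obtain ⟨p, hp1, hp2⟩ := Nat.exists_infinite_primes (⌈y0⌉₊ + 2 * n + 4)
  have hp0 : y0 ≤ p := by
    have h2 : (⌈y0⌉₊ : ℝ) ≤ p := by exact_mod_cast (by omega : ⌈y0⌉₊ ≤ p)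
    exact (Nat.le_ceil y0).trans h2
  have h3 := hy0 p hp0
  have h4 := hu p hp2
  have hlog : 0 ≤ Real.log p ^ A := Real.rpow_nonneg (Real.log_natCast_nonneg p) A
  have h5 : C * Real.log p ^ A ≤ p / 2 := by
    have h6 : C * Real.log p ^ A ≤ C * (1 / (2 * C) * p) := mul_le_mul_of_nonneg_left h3 hC.le
    have h7 : C * (1 / (2 * C) * p) = p / 2 := by field_simp
    linarith
  have h6 : |C * Real.log p ^ A * u p| ≤ C * Real.log p ^ A := by
    rw [abs_mul, abs_of_nonneg (by positivity : 0 ≤ C * Real.log p ^ A)]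
    nlinarith [mul_nonneg hC.le hlog]
  rw [abs_le] at h6
  have h7 : (n : ℝ) + 1 ≤ (p : ℝ) + C * Real.log p ^ A * u p := by
    have h8 : (2 : ℝ) * n + 4 ≤ p := by exact_mod_cast (by omega : 2 * n + 4 ≤ p)
    linarith [h6.1]
  have h8 : (n : ℤ) + 1 ≤ ⌊(p : ℝ) + C * Real.log p ^ A * u p⌋ := by
    apply Int.le_floor.mpr
    push_cast
    exact h7
  refine ⟨(⌊(p : ℝ) + C * Real.log p ^ A * u p⌋).toNat, ⟨p, hp2, ?_⟩, ?_⟩
  · rw [Int.toNat_of_nonneg]
    omega
  · omega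

theorem moved_core (hS : Itf2.UniformPntStrong) (A C : ℝ) (hA : 2 < A) (hC : 0 < C)
    {Ω : Type*} [MeasurableSpace Ω] (μ : Measure Ω) [IsProbabilityMeasure μ]
    (X : ℕ → Ω → ℝ) (hXm : ∀ p, Measurable (X p)) (hXi : iIndepFun X μ)
    (hXu : ∀ p : ℕ, p.Prime → UnifOn μ (X p)) :
    ∀ᵐ ω ∂μ, ((cA A : ℝ) : EReal) ≤ gapL (moved A C (fun p => X p ω)) := by
  have hc1 : 1 < cA A := one_lt_cA (by linarith)
  have hc0 : 0 < cA A := by linarith
  have habs : ∀ᵐ ω ∂μ, ∀ p : ℕ, p.Prime → |X p ω| ≤ 1 := by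
    rw [ae_all_iff]
    intro p
    by_cases hp : p.Prime
    · filter_upwards [abs_le_one_ae (hXm p) (hXu p hp)] with ω hω _ using hω
    · exact Eventually.of_forall fun ω h => absurd h hp
  have hwin : ∀ n : ℕ, ∀ᵐ ω ∂μ, ∀ x0 : ℝ, ∃ x : ℝ, x0 ≤ x ∧ ∃ t : ℕ, x ≤ (t : ℝ) ∧
      (t : ℝ) ≤ 4 * x ∧ ∀ m : ℕ, t < m →
        (m : ℝ) ≤ t + (cA A * (1 - 1 / ((n : ℝ) + 2))) * Real.log x ^ 2 →
            m ∉ moved A C (fun p => X p ω) := by
    intro n
    have hn0 : (0 : ℝ) ≤ n := Nat.cast_nonneg n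
    have hn1 : 0 < 1 - 1 / ((n : ℝ) + 2) := by
      rw [sub_pos, div_lt_one (by linarith)]
      linarith
    have hn2 : 1 - 1 / ((n : ℝ) + 2) < 1 := by
      have : 0 < 1 / ((n : ℝ) + 2) := by positivity
      linarith
    set l := cA A * (1 - 1 / ((n : ℝ) + 2)) with hl
    have hl0 : 0 < l := by positivity
    have hlc : l < cA A := by
      rw [hl]
      nlinarith
    obtain ⟨u, huA, hu2⟩ := exists_of_lt_cA hlc
    have hw := half_le buch_isBuchstab (u := u) (by linarith)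
    have hw0 : 0 < buch u := by linarith
    have he : 0 < Real.exp (-Real.eulerMascheroniConstant) := Real.exp_pos _
    have h1 : buch u / Real.exp (-Real.eulerMascheroniConstant) < 1 / l := by
      rw [lt_div_iff₀ hw0] at hu2
      rw [div_lt_div_iff₀ he hl0]
      linarith
    obtain ⟨kap, hk1, hk2⟩ := exists_between h1
    have hkap : 0 < kap := lt_trans (by positivity) hk1
    obtain ⟨A', hA1, hA2⟩ := exists_between huA
    have hrows := maier_rows hS buch_isBuchstab (A := A') (u := u) (by linarith) hA2 (by linarith)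
      hkap hk1
    refine windowsMoved A A' C hA hA1 hC kap hkap hrows μ X hXm hXi hXu l hl0 ?_
    rw [lt_div_iff₀ hl0] at hk2
    linarith
  filter_upwards [habs, ae_all_iff.mpr hwin] with ω h1 h2
  have hinf := moved_infinite (A := A) hC h1
  have h3 : ∀ n : ℕ, ((cA A * (1 - 1 / ((n : ℝ) + 2)) : ℝ) : EReal) ≤
      gapL (moved A C (fun p => X p ω)) := by
    intro n
    have hn0 : (0 : ℝ) ≤ n := Nat.cast_nonneg n
    have hn1 : 0 < 1 - 1 / ((n : ℝ) + 2) := by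
      rw [sub_pos, div_lt_one (by linarith)]
      linarith
    exact limsupOfWindows _ hinf _ (by positivity) (h2 n)
  have h4 : Tendsto (fun n : ℕ => cA A * (1 - 1 / ((n : ℝ) + 2))) atTop (𝓝 (cA A * (1 - 0))) := by
    apply Tendsto.const_mul
    apply Tendsto.const_sub
    apply tendsto_const_nhds.div_atTop
    exact tendsto_atTop_add_const_right _ _ tendsto_natCast_atTop_atTop
  rw [sub_zero, mul_one] at h4
  exact le_of_tendsto' ((continuous_coe_real_ereal.tendsto (cA A)).comp h4) h3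

end Pool.Agent.Work.MP_b0c12c_nt_helper63
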