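import Pool.Agent.Work.MP_b0c12c_nt_helper63.C8
import Pool.Agent.Work.MP_b0c12c_nt_helper63.C9
import Pool.Agent.Work.MP_b0c12c_nt_helper63.P3

/-!
The non-random function `Λ` and the final assembly.
-/

set_option linter.unusedSectionVars false
set_option linter.deprecated false

namespace Pool.Agent.Work.MP_b0c12c_nt_helper63

open MeasureTheory ProbabilityTheory Filter Topology Pool.Agent.Work.MP_b0c12c_nt
open scoped ENNReal NNReal

lemma le_of_lip {f g : ℝ → EReal}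
    (hf : ∀ C C' : ℝ, 0 ≤ C → 0 ≤ C' → f C ≤ f C' + ((2 * |C - C'| : ℝ) : EReal))
    (hg : ∀ C C' : ℝ, 0 ≤ C → 0 ≤ C' → g C ≤ g C' + ((2 * |C - C'| : ℝ) : EReal))
    (h : ∀ q : ℚ, 0 ≤ q → f q = g q) {C : ℝ} (hC : 0 ≤ C) : f C ≤ g C := by
  apply EReal.le_of_forall_lt_iff_le.mp
  intro z hz
  obtain ⟨z1, hz1, hz2⟩ := EReal.lt_iff_exists_real_btwn.mp hz
  rw [EReal.coe_lt_coe_iff] at hz2
  obtain ⟨q, hq1, hq2⟩ := exists_rat_btwn (show C < C + (z - z1) / 4 by linarith)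
  have hq0 : (0 : ℝ) ≤ q := by linarith
  have hq0' : 0 ≤ q := by exact_mod_cast hq0
  have h1 := hf C q hC hq0
  have h2 := hg q C hq0 hC
  rw [h q hq0'] at h1
  have h3 : f C ≤ g C + ((2 * |(q : ℝ) - C| : ℝ) : EReal) + ((2 * |C - (q : ℝ)| : ℝ) : EReal) :=
    h1.trans (add_le_add h2 le_rfl)
  have h4 : |C - (q : ℝ)| = q - C := by rw [abs_sub_comm, abs_of_nonneg (by linarith)]
  have h5 : |(q : ℝ) - C| = q - C := abs_of_nonneg (by linarith)
  rw [h4, h5] at h3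
  have h6 : f C ≤ ((z1 : ℝ) : EReal) + ((2 * ((q : ℝ) - C) : ℝ) : EReal) +
      ((2 * ((q : ℝ) - C) : ℝ) : EReal) :=
    h3.trans (add_le_add (add_le_add hz1.le le_rfl) le_rfl)
  refine h6.trans ?_
  rw [← EReal.coe_add, ← EReal.coe_add, EReal.coe_le_coe_iff]
  linarith

theorem exists_Lam {Ω : Type*} [MeasurableSpace Ω] (μ : Measure Ω) [IsProbabilityMeasure μ]
    (X : ℕ → Ω → ℝ) (hXm : ∀ p, Measurable (X p)) (hXi : iIndepFun X μ)
    (hXu : ∀ p : ℕ, p.Prime → UnifOn μ (X p)) :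
    ∃ Lam : ℝ → EReal, Lam 0 = gapL {p : ℕ | p.Prime} ∧
      (∀ C C' : ℝ, 0 ≤ C → 0 ≤ C' → Lam C ≤ Lam C' + ((2 * |C - C'| : ℝ) : EReal)) ∧
      ∀ᵐ ω ∂μ, ∀ C : ℝ, 0 ≤ C → gapL (cloud C (fun p => X p ω)) = Lam C := by
  have habs : ∀ᵐ ω ∂μ, ∀ p : ℕ, p.Prime → |X p ω| ≤ 1 := by
    rw [ae_all_iff]
    intro p
    by_cases hp : p.Prime
    · filter_upwards [abs_le_one_ae (hXm p) (hXu p hp)] with ω hω _ using hω
    · exact Eventually.of_forall fun ω h => absurd h hp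
  have hconst : ∀ q : ℚ, ∃ a : EReal, 0 ≤ q → ∀ᵐ ω ∂μ, gapL (clouds (q : ℝ) X ω) = a := by
    intro q
    by_cases hq : 0 ≤ q
    · obtain ⟨a, ha⟩ := const_ae (μ := μ) (C := (q : ℝ)) (by exact_mod_cast hq) X hXm hXi
      exact ⟨a, fun _ => ha⟩
    · exact ⟨0, fun h => absurd h hq⟩
  choose a ha using hconst
  have hall : ∀ᵐ ω ∂μ, ∀ q : ℚ, 0 ≤ q → gapL (clouds (q : ℝ) X ω) = a q := by
    rw [ae_all_iff]
    intro q
    by_cases hq : 0 ≤ q
    · filter_upwards [ha q hq] with ω hω _ using hω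
    · exact Eventually.of_forall fun ω h => absurd h hq
  obtain ⟨ω0, hω0⟩ := hall.exists
  have hlip : ∀ ω, ∀ C C' : ℝ, 0 ≤ C → 0 ≤ C' →
      gapL (clouds C X ω) ≤ gapL (clouds C' X ω) + ((2 * |C - C'| : ℝ) : EReal) := by
    intro ω C C' hC hC'
    exact gapL_lipschitz hC hC' (fun p _ => abs_clip _)
  refine ⟨fun C => gapL (clouds C X ω0), ?_, hlip ω0, ?_⟩
  · simp only [clouds]
    rw [cloud_zero]
  · filter_upwards [habs, hall] with ω h1 h2 C hC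
    have h3 : cloud C (fun p => X p ω) = clouds C X ω := by
      unfold clouds cloud
      ext m
      simp only [Set.mem_setOf_eq]
      constructor
      · rintro ⟨p, hp, h⟩
        exact ⟨p, hp, by rw [clip_eq (h1 p hp)]; exact h⟩
      · rintro ⟨p, hp, h⟩
        exact ⟨p, hp, by rw [clip_eq (h1 p hp)] at h; exact h⟩
    rw [h3]
    apply le_antisymm
    · exact le_of_lip (hlip ω) (hlip ω0) (fun q hq => by rw [h2 q hq, hω0 q hq]) hC
    · exact le_of_lip (hlip ω0) (hlip ω) (fun q hq => by rw [h2 q hq, hω0 q hq]) hC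

theorem moved_final (hS : Itf2.UniformPntStrong)
    {Ω : Type*} [MeasurableSpace Ω] (μ : Measure Ω) [IsProbabilityMeasure μ]
    (X : ℕ → Ω → ℝ) (hXm : ∀ p, Measurable (X p)) (hXi : iIndepFun X μ)
    (hXu : ∀ p : ℕ, p.Prime → UnifOn μ (X p)) :
    ∃ Lam : ℝ → EReal, Lam 0 = gapL {p : ℕ | p.Prime} ∧
      (∀ C C' : ℝ, 0 ≤ C → 0 ≤ C' → Lam C ≤ Lam C' + ((2 * |C - C'| : ℝ) : EReal)) ∧
      (∀ᵐ ω ∂μ, ∀ C : ℝ, 0 ≤ C → gapL (moved 2 C (fun p => X p ω)) = Lam C) ∧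
      (∀ C g : ℝ, 0 < g → g < 2 * C →
        2 * g + (2 * C - g) * Real.log (1 - g / (2 * C)) <
          2 * Real.exp (-Real.eulerMascheroniConstant) → ((g : ℝ) : EReal) ≤ Lam C) ∧
      (∀ C : ℝ, 9 / 4 ≤ C → 1 < Lam C) ∧
      (∀ C : ℝ, 1 ≤ C →
        ((2 * Real.exp (-Real.eulerMascheroniConstant) - 1 / C : ℝ) : EReal) ≤ Lam C) := by
  obtain ⟨Lam, h1, h2, h3⟩ := exists_Lam μ X hXm hXi hXu
  have h4 := cloud_final hS μ X hXm hXi hXu
  obtain ⟨ω, h5, h6, h7, h8⟩ := (h3.and h4).exists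
  refine ⟨Lam, h1, h2, ?_, ?_, ?_, ?_⟩
  · filter_upwards [h3] with ω hω C hC
    rw [moved_two]
    exact hω C hC
  · intro C g hg hgC hK
    rw [← h5 C (by linarith)]
    exact h6 C g hg hgC hK
  · intro C hC
    rw [← h5 C (by linarith)]
    exact h7 C hC
  · intro C hC
    rw [← h5 C (by linarith)]
    exact h8 C hC

lemma moved_zero (A : ℝ) (u : ℕ → ℝ) : moved A 0 u = {p : ℕ | p.Prime} := by
  ext m
  simp only [moved, zero_mul, add_zero, Int.floor_natCast, Set.mem_setOf_eq]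
  constructor
  · rintro ⟨p, hp, h⟩
    have : m = p := by exact_mod_cast h
    rwa [this]
  · intro h
    exact ⟨m, h, rfl⟩

end Pool.Agent.Work.MP_b0c12c_nt_helper63
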