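import Pool.Agent.Work.MP_b0c12c_nt_helper63.C1

/-!
Maier rows with one family of centres for all radii between `a (log x)^2` and `b (log x)^2`.
-/

namespace Pool.Agent.Work.MP_b0c12c_nt_helper63

open MeasureTheory Filter Topology Finset Pool.Agent.Work.MP_b0c12c_nt ArithmeticFunction

/-- one family `T` of centres for all radii in `[a (log x)^2, b (log x)^2]` -/
def RowsM (kap η a b x : ℝ) : Prop :=
  ∃ T : Finset ℕ, (∀ t ∈ T, x + b * Real.log x ^ 2 ≤ (t : ℝ) ∧ (t : ℝ) ≤ 3 * x) ∧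
    (∀ t ∈ T, ∀ t' ∈ T, t < t' → (t : ℝ) + 2 * (b * Real.log x ^ 2) < t') ∧
    x ^ (1 - η) ≤ (T.card : ℝ) ∧
    ∀ U : ℕ, a * Real.log x ^ 2 ≤ U → (U : ℝ) ≤ b * Real.log x ^ 2 →
      ∑ t ∈ T, (((Icc (t - U) (t + U)).filter Nat.Prime).card : ℝ)
        ≤ kap * T.card * (2 * U) / Real.log x

lemma exists_kappa {kap : ℝ}
    (hk : 1 / 2 / Real.exp (-Real.eulerMascheroniConstant) < kap) :
    ∃ κ : ℝ, 0 < κ ∧ κ ≤ 1 / 3 ∧ buch (2 + 3 * κ) / Real.exp (-Real.eulerMascheroniConstant) *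
      Real.exp (2 * ((2 + 3 * κ) / (2 + κ) - 1)) < kap := by
  have h1 : Tendsto (fun κ : ℝ => (1 + Real.log (2 + 3 * κ - 1)) / (2 + 3 * κ) /
      Real.exp (-Real.eulerMascheroniConstant) *
      Real.exp (2 * ((2 + 3 * κ) / (2 + κ) - 1))) (𝓝[>] 0)
      (𝓝 ((1 + Real.log (2 + 3 * 0 - 1)) / (2 + 3 * 0) /
      Real.exp (-Real.eulerMascheroniConstant) *
      Real.exp (2 * ((2 + 3 * 0) / (2 + 0) - 1)))) := by
    apply Tendsto.mono_left _ nhdsWithin_le_nhds
    apply ContinuousAt.tendsto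
    apply ContinuousAt.mul
    · apply ContinuousAt.div _ continuousAt_const (Real.exp_ne_zero _)
      apply ContinuousAt.div
      · apply ContinuousAt.add continuousAt_const
        apply ContinuousAt.log (by fun_prop)
        norm_num
      · fun_prop
      · norm_num
    · apply ContinuousAt.rexp
      apply ContinuousAt.mul continuousAt_const
      apply ContinuousAt.sub _ continuousAt_const
      apply ContinuousAt.div (by fun_prop) (by fun_prop)
      norm_num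
  have h2 : (1 + Real.log (2 + 3 * 0 - 1)) / (2 + 3 * 0) /
      Real.exp (-Real.eulerMascheroniConstant) *
      Real.exp (2 * ((2 + 3 * 0) / (2 + 0) - 1)) =
      1 / 2 / Real.exp (-Real.eulerMascheroniConstant) := by
    have e1 : (2 : ℝ) + 3 * 0 - 1 = 1 := by norm_num
    have e2 : (2 : ℝ) * ((2 + 3 * 0) / (2 + 0) - 1) = 0 := by norm_num
    rw [e1, e2, Real.log_one, Real.exp_zero]
    norm_num
  rw [h2] at h1
  obtain ⟨κ, hκ1, hκ2⟩ := ((h1.eventually_lt_const hk).and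
    (Ioo_mem_nhdsGT (show (0 : ℝ) < 1 / 3 by norm_num))).exists
  refine ⟨κ, hκ2.1, hκ2.2.le, ?_⟩
  rw [explicit23 buch_isBuchstab (by linarith [hκ2.1]) (by linarith [hκ2.2])]
  exact hκ1

lemma zL_tendsto {κ : ℝ} (hκ : 0 < κ) :
    Tendsto (fun x : ℝ => ⌊Real.log x ^ (1 / (1 + κ))⌋₊) atTop atTop := by
  have h1 : Tendsto (fun x : ℝ => Real.log x ^ (1 / (1 + κ))) atTop atTop :=
    (tendsto_rpow_atTop (by positivity)).comp Real.tendsto_log_atTop
  exact tendsto_nat_floor_atTop.comp h1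

theorem rows_multi (hS : Itf2.UniformPntStrong) {kap : ℝ}
    (hk : 1 / 2 / Real.exp (-Real.eulerMascheroniConstant) < kap) {a b η : ℝ} (ha : 0 < a)
    (hab : a ≤ b) (hη : 0 < η) : ∃ x0 : ℝ, ∀ x : ℝ, x0 ≤ x → RowsM kap η a b x := by
  have he : 0 < Real.exp (-Real.eulerMascheroniConstant) := Real.exp_pos _
  have hkap : 0 < kap := lt_trans (by positivity) hk
  have hb : 0 < b := lt_of_lt_of_le ha hab
  obtain ⟨c, hc1, hc2⟩ := exists_between hk
  have hc0 : 0 < c := lt_trans (by positivity) hc1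
  obtain ⟨ε, hε0, hε1, hε2⟩ : ∃ ε : ℝ, 0 < ε ∧ ε ≤ 1 ∧ c * (1 + ε) ^ 2 ≤ kap := by
    have h1 : 0 < kap / c - 1 := by
      rw [sub_pos, lt_div_iff₀ hc0]
      linarith
    refine ⟨min 1 ((kap / c - 1) / 3), lt_min one_pos (by linarith), min_le_left _ _, ?_⟩
    obtain ⟨e, he⟩ : ∃ e, e = min 1 ((kap / c - 1) / 3) := ⟨_, rfl⟩
    rw [← he]
    have h2 : e ≤ 1 := by rw [he]; exact min_le_left _ _
    have h3 : e ≤ (kap / c - 1) / 3 := by rw [he]; exact min_le_right _ _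
    have h4 : 0 < e := by rw [he]; exact lt_min one_pos (by linarith)
    have h5 : (1 + e) ^ 2 ≤ 1 + 3 * e := by nlinarith
    calc c * (1 + e) ^ 2 ≤ c * (1 + 3 * e) := mul_le_mul_of_nonneg_left h5 hc0.le
      _ ≤ c * (kap / c) := mul_le_mul_of_nonneg_left (by linarith) hc0.le
      _ = kap := by field_simp
  obtain ⟨κ, hκ0, hκ1, hκ2⟩ := exists_kappa hc1
  obtain ⟨K, hK⟩ := rough_q_range buch_isBuchstab (u1 := 2 + κ) (u2 := 2 + 3 * κ)
    (by linarith) (by linarith) hκ2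
  obtain ⟨z1, hz1⟩ := hS κ hκ0 3 ε hε0 K
  -- eventual conditions on z
  have hzt : Tendsto (fun z : ℕ => (z : ℝ)) atTop atTop := tendsto_natCast_atTop_atTop
  have ev1 : ∀ᶠ z : ℕ in atTop, 4 * (z * (z : ℝ) ^ (2 + 3 * κ)) < Real.exp (z / 2) := by
    have h1 : Tendsto (fun x : ℝ => x ^ (3 + 3 * κ) * Real.exp (-(1 / 2) * x)) atTop (𝓝 0) :=
      tendsto_rpow_mul_exp_neg_mul_atTop_nhds_zero _ (1 / 2) (by norm_num)
    have h2 := (h1.comp hzt).eventually_lt_const (show (0 : ℝ) < 1 / 4 by norm_num)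
    filter_upwards [h2, eventually_ge_atTop 2] with z h3 h4
    simp only [Function.comp_apply] at h3
    have hz2 : (2 : ℝ) ≤ z := by exact_mod_cast h4
    have hz0 : (0 : ℝ) < z := by linarith
    have h6 : Real.exp (-(1 / 2) * (z : ℝ)) = (Real.exp (z / 2))⁻¹ := by
      rw [← Real.exp_neg]
      congr 1
      ring
    rw [h6, ← div_eq_mul_inv, div_lt_iff₀ (Real.exp_pos _)] at h3
    have h7 : (z : ℝ) ^ (3 + 3 * κ) = z * (z : ℝ) ^ (2 + 3 * κ) := by
      rw [show (3 : ℝ) + 3 * κ = 2 + 3 * κ + 1 by ring, Real.rpow_add_one hz0.ne']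
      ring
    rw [h7] at h3
    linarith
  have ev2 : ∀ᶠ z : ℕ in atTop, max (1 / a) (b * 2 ^ (2 + 2 * κ)) ≤ (z : ℝ) ^ κ := by
    exact ((tendsto_rpow_atTop hκ0).comp hzt).eventually_ge_atTop _
  have ev3 : ∀ᶠ z : ℕ in atTop, 8 ≤ (z : ℝ) := hzt.eventually_ge_atTop _
  obtain ⟨z2, hz2⟩ := eventually_atTop.mp (((hK.and ev1).and (ev2.and primorial_ge_eventually)).and
    ((eventually_ge_atTop (max z1 3)).and ev3))
  obtain ⟨x1, hx1⟩ := eventually_atTop.mp ((zL_tendsto hκ0).eventually_ge_atTop z2)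
  -- eventual conditions on x
  have evx : ∀ᶠ x : ℝ in atTop, Real.log 4 * Real.log x ^ (1 / (1 + κ)) + Real.log 4 ≤
      min (η / 2) (1 / 2) * Real.log x := by
    have hAu1 : 1 / (1 + κ) < 1 := by
      rw [div_lt_one (by linarith)]
      linarith
    have h1 : Tendsto (fun y : ℝ => (Real.log 4 * y ^ (1 / (1 + κ)) + Real.log 4) / y) atTop
        (𝓝 0) := by
      have h2 : Tendsto (fun y : ℝ => y ^ (1 / (1 + κ) - 1)) atTop (𝓝 0) := by
        have := tendsto_rpow_neg_atTop (y := 1 - 1 / (1 + κ)) (by linarith)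
        simpa using this
      have h3 : Tendsto (fun y : ℝ => Real.log 4 / y) atTop (𝓝 0) := tendsto_id.const_div_atTop _
      have h4 := (h2.const_mul (Real.log 4)).add h3
      simp only [mul_zero, add_zero] at h4
      refine h4.congr' ?_
      filter_upwards [eventually_gt_atTop 0] with y hy
      rw [Real.rpow_sub_one hy.ne']
      field_simp
    have h5 := (h1.comp Real.tendsto_log_atTop).eventually_le_const
      (show (0 : ℝ) < min (η / 2) (1 / 2) by positivity)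
    filter_upwards [h5, Real.tendsto_log_atTop.eventually_gt_atTop 0] with x h6 h7
    simp only [Function.comp_apply] at h6
    rwa [div_le_iff₀ h7] at h6
  have evx3 : ∀ᶠ x : ℝ in atTop, (2 + 2 / ε) ≤ x ^ (1 / 2 : ℝ) / 2 := by
    have h1 : Tendsto (fun x : ℝ => x ^ (1 / 2 : ℝ)) atTop atTop := tendsto_rpow_atTop (by norm_num)
    filter_upwards [h1.eventually_ge_atTop (2 * (2 + 2 / ε))] with x h2
    linarith
  obtain ⟨x2, hx2⟩ := eventually_atTop.mp (evx.and evx3)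
  refine ⟨max (max x1 x2) (Real.exp 1), fun x hx => ?_⟩
  have hxx1 : x1 ≤ x := (le_max_left x1 x2).trans ((le_max_left _ _).trans hx)
  have hxx2 : x2 ≤ x := (le_max_right x1 x2).trans ((le_max_left _ _).trans hx)
  have hxe : Real.exp 1 ≤ x := (le_max_right _ _).trans hx
  have hx0 : 0 < x := lt_of_lt_of_le (Real.exp_pos 1) hxe
  have hlx : 1 ≤ Real.log x := by
    rw [Real.le_log_iff_exp_le hx0]
    exact hxe
  have hlx0 : 0 < Real.log x := by linarith
  have hxge1 : 1 ≤ x := by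
    have := Real.add_one_le_exp (1 : ℝ)
    linarith
  have hκp : 0 < 1 + κ := by linarith
  obtain ⟨z, hz⟩ : ∃ z, z = ⌊Real.log x ^ (1 / (1 + κ))⌋₊ := ⟨_, rfl⟩
  have hzz2 : z2 ≤ z := by rw [hz]; exact hx1 x hxx1
  obtain ⟨⟨⟨hKz, hev1⟩, ⟨hev2, hprim⟩⟩, hmax, hz8⟩ := hz2 z hzz2
  obtain ⟨hevx, hevx3⟩ := hx2 x hxx2
  have hzz1 : z1 ≤ z := (le_max_left _ _).trans hmax
  have hz3 : 3 ≤ z := (le_max_right _ _).trans hmax
  have hzr : (3 : ℝ) ≤ z := by exact_mod_cast hz3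
  have hz0 : (0 : ℝ) < z := by linarith
  -- z against log x
  have hzx : (z : ℝ) ≤ Real.log x ^ (1 / (1 + κ)) := by
    rw [hz]; exact Nat.floor_le (by positivity)
  have hzx1 : (z : ℝ) ^ (1 + κ) ≤ Real.log x := by
    calc (z : ℝ) ^ (1 + κ) ≤ (Real.log x ^ (1 / (1 + κ))) ^ (1 + κ) :=
          Real.rpow_le_rpow hz0.le hzx hκp.le
      _ = Real.log x := by
          rw [← Real.rpow_mul hlx0.le, one_div_mul_cancel hκp.ne', Real.rpow_one]
  have hzx2 : Real.log x ≤ (2 * (z : ℝ)) ^ (1 + κ) := by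
    have h1 : Real.log x ^ (1 / (1 + κ)) ≤ 2 * (z : ℝ) := by
      have := Nat.lt_floor_add_one (Real.log x ^ (1 / (1 + κ)))
      rw [← hz] at this
      linarith
    calc Real.log x = (Real.log x ^ (1 / (1 + κ))) ^ (1 + κ) := by
          rw [← Real.rpow_mul hlx0.le, one_div_mul_cancel hκp.ne', Real.rpow_one]
      _ ≤ _ := Real.rpow_le_rpow (by positivity) h1 hκp.le
  have hzx3 : (z : ℝ) ^ (2 + 2 * κ) ≤ Real.log x ^ 2 := by
    have h1 : (z : ℝ) ^ (2 + 2 * κ) = ((z : ℝ) ^ (1 + κ)) ^ 2 := by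
      rw [← Real.rpow_natCast, ← Real.rpow_mul hz0.le]
      congr 1
      push_cast
      ring
    rw [h1]
    exact pow_le_pow_left₀ (by positivity) hzx1 2
  have hzx4 : Real.log x ^ 2 ≤ 2 ^ (2 + 2 * κ) * (z : ℝ) ^ (2 + 2 * κ) := by
    have h1 : 2 ^ (2 + 2 * κ) * (z : ℝ) ^ (2 + 2 * κ) = ((2 * (z : ℝ)) ^ (1 + κ)) ^ 2 := by
      rw [← Real.mul_rpow (by norm_num) hz0.le, ← Real.rpow_natCast,
        ← Real.rpow_mul (by positivity)]
      congr 1
      push_cast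
      ring
    rw [h1]
    exact pow_le_pow_left₀ hlx0.le hzx2 2
  have hκz : 0 < (z : ℝ) ^ κ := by positivity
  have hlowU : (z : ℝ) ^ (2 + κ) ≤ a * Real.log x ^ 2 := by
    have h1 : 1 / a ≤ (z : ℝ) ^ κ := (le_max_left _ _).trans hev2
    have h2 : (z : ℝ) ^ (2 + 2 * κ) = (z : ℝ) ^ (2 + κ) * (z : ℝ) ^ κ := by
      rw [← Real.rpow_add hz0]; congr 1; ring
    have h3 : 1 ≤ a * (z : ℝ) ^ κ := by
      rw [div_le_iff₀ ha] at h1; linarith
    have h4 : 0 < (z : ℝ) ^ (2 + κ) := by positivity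
    calc (z : ℝ) ^ (2 + κ) ≤ (z : ℝ) ^ (2 + κ) * (a * (z : ℝ) ^ κ) := by nlinarith
      _ = a * (z : ℝ) ^ (2 + 2 * κ) := by rw [h2]; ring
      _ ≤ _ := mul_le_mul_of_nonneg_left hzx3 ha.le
  have hupU : b * Real.log x ^ 2 ≤ (z : ℝ) ^ (2 + 3 * κ) := by
    have h1 : b * 2 ^ (2 + 2 * κ) ≤ (z : ℝ) ^ κ := (le_max_right _ _).trans hev2
    have h2 : (z : ℝ) ^ (2 + 3 * κ) = (z : ℝ) ^ κ * (z : ℝ) ^ (2 + 2 * κ) := by
      rw [← Real.rpow_add hz0]; congr 1; ring
    have h4 : 0 < (z : ℝ) ^ (2 + 2 * κ) := by positivity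
    calc b * Real.log x ^ 2 ≤ b * (2 ^ (2 + 2 * κ) * (z : ℝ) ^ (2 + 2 * κ)) :=
          mul_le_mul_of_nonneg_left hzx4 hb.le
      _ = (b * 2 ^ (2 + 2 * κ)) * (z : ℝ) ^ (2 + 2 * κ) := by ring
      _ ≤ (z : ℝ) ^ κ * (z : ℝ) ^ (2 + 2 * κ) := mul_le_mul_of_nonneg_right h1 h4.le
      _ = _ := h2.symm
  obtain ⟨q, hq, hqS⟩ := hz1 z hzz1
  have hqM : IsMod K z q := hq
  have hq0 : 0 < q := hqM.pos
  have hqr : (0 : ℝ) < q := by exact_mod_cast hq0
  -- size of q
  have hqlow : Real.exp (z / 2) / z ≤ q := by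
    rcases hq with h | ⟨p, hp, _, hpz, h⟩
    · rw [h]
      refine le_trans ?_ hprim
      apply div_le_self (Real.exp_pos _).le (by linarith)
    · rw [div_le_iff₀ hz0]
      have h1 : (q : ℝ) * p = primorial z := by exact_mod_cast h
      have h2 : (p : ℝ) ≤ z := by exact_mod_cast hpz
      calc Real.exp (z / 2) ≤ (primorial z : ℝ) := hprim
        _ = q * p := h1.symm
        _ ≤ q * z := mul_le_mul_of_nonneg_left h2 hqr.le
  have hUq : 2 * (b * Real.log x ^ 2) < q := by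
    calc 2 * (b * Real.log x ^ 2) ≤ 2 * (z : ℝ) ^ (2 + 3 * κ) := by linarith
      _ < Real.exp (z / 2) / z := by
          rw [lt_div_iff₀ hz0]
          have : 0 < (z : ℝ) ^ (2 + 3 * κ) * z := by positivity
          linarith
      _ ≤ q := hqlow
  have hqup : (q : ℝ) ≤ 4 ^ z := by
    have h1 : q ≤ primorial z := Nat.le_of_dvd (primorial_pos z) hqM.dvd
    have h2 := primorial_le_four_pow z
    exact_mod_cast h1.trans h2
  have hq4 : 4 * (q : ℝ) ≤ x ^ (min (η / 2) (1 / 2)) := by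
    have h0 : Real.exp (Real.log 4 * z) = 4 ^ z := by
      rw [mul_comm, Real.exp_nat_mul, Real.exp_log (by norm_num)]
    have h1 : 4 * (q : ℝ) ≤ Real.exp (Real.log 4 * z + Real.log 4) := by
      rw [Real.exp_add, h0, Real.exp_log (by norm_num)]
      linarith
    refine h1.trans ?_
    rw [Real.rpow_def_of_pos hx0]
    apply Real.exp_le_exp.mpr
    have h2 : Real.log 4 * z ≤ Real.log 4 * Real.log x ^ (1 / (1 + κ)) :=
      mul_le_mul_of_nonneg_left hzx (Real.log_nonneg (by norm_num))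
    linarith
  have hm1 : min (η / 2) (1 / 2) ≤ η / 2 := min_le_left _ _
  have hm2 : min (η / 2) (1 / 2) ≤ 1 / 2 := min_le_right _ _
  have hxq : 4 * x ^ (1 - min (η / 2) (1 / 2)) ≤ x / q := by
    rw [le_div_iff₀ hqr]
    calc 4 * x ^ (1 - min (η / 2) (1 / 2)) * q = (4 * q) * x ^ (1 - min (η / 2) (1 / 2)) := by ring
      _ ≤ x ^ (min (η / 2) (1 / 2)) * x ^ (1 - min (η / 2) (1 / 2)) :=
          mul_le_mul_of_nonneg_right hq4 (by positivity)
      _ = x := by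
          rw [← Real.rpow_add hx0]
          simp
  have hxq1 : x ^ (1 / 2 : ℝ) ≤ x ^ (1 - min (η / 2) (1 / 2)) :=
    Real.rpow_le_rpow_of_exponent_le hxge1 (by linarith)
  have hxq2 : x ^ (1 - η) ≤ x ^ (1 - min (η / 2) (1 / 2)) :=
    Real.rpow_le_rpow_of_exponent_le hxge1 (by linarith)
  have hx12 : 1 ≤ x ^ (1 / 2 : ℝ) := Real.one_le_rpow hxge1 (by norm_num)
  have hqx : 4 * (q : ℝ) ≤ x := by
    refine hq4.trans ?_
    calc x ^ (min (η / 2) (1 / 2)) ≤ x ^ (1 : ℝ) :=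
          Real.rpow_le_rpow_of_exponent_le hxge1 (by linarith)
      _ = x := Real.rpow_one x
  obtain ⟨R, hR⟩ : ∃ R, R = ⌈x / q⌉₊ := ⟨_, rfl⟩
  have hRge : x / q ≤ R := by rw [hR]; exact Nat.le_ceil _
  have hRlt : (R : ℝ) < x / q + 1 := by rw [hR]; exact Nat.ceil_lt_add_one (by positivity)
  have hXge : x ≤ (R : ℝ) * q := by rwa [div_le_iff₀ hqr] at hRge
  have hXle : (R : ℝ) * q ≤ x + q := by
    have h1 := mul_le_mul_of_nonneg_right hRlt.le hqr.le
    have h2 : (x / q + 1) * (q : ℝ) = x + q := by field_simp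
    linarith
  have hRbig : 1 + 1 / ε ≤ R := by
    have h1 : 4 * x ^ (1 / 2 : ℝ) ≤ R := by linarith
    have h2 : 0 < 1 / ε := by positivity
    have h3 : 2 / ε = 2 * (1 / ε) := by ring
    rw [h3] at hevx3
    linarith
  have hR1 : 1 ≤ R := by
    have : (1 : ℝ) ≤ R := by
      have : 0 < 1 / ε := by positivity
      linarith
    exact_mod_cast this
  have hinj : Function.Injective (fun r : ℕ => r * q) := fun a b h => Nat.eq_of_mul_eq_mul_right hq0 h
  have hTcard : ((((Ioo R (2 * R)).image (fun r => r * q)).card : ℕ) : ℝ) = (R : ℝ) - 1 := by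
    rw [Finset.card_image_of_injective _ hinj, Nat.card_Ioo]
    have : 2 * R - R - 1 = R - 1 := by omega
    rw [this, Nat.cast_sub hR1]
    simp
  have hlX : Real.log x ≤ Real.log ((R : ℝ) * q) := Real.log_le_log hx0 hXge
  have hc1' : (z : ℝ) ^ (1 + κ) ≤ Real.log ((R : ℝ) * q) := hzx1.trans hlX
  have hc2' : Real.log ((R : ℝ) * q) ≤ (z : ℝ) ^ (3 : ℝ) := by
    have h1 : Real.log ((R : ℝ) * q) ≤ Real.log (2 * x) := by
      apply Real.log_le_log
      · linarith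
      · linarith
    rw [Real.log_mul (by norm_num) hx0.ne'] at h1
    have h2 : Real.log 2 ≤ 1 := by
      have := Real.log_two_lt_d9
      linarith
    have h3 : (2 * (z : ℝ)) ^ (1 + κ) ≤ (2 * (z : ℝ)) ^ (2 : ℝ) :=
      Real.rpow_le_rpow_of_exponent_le (by linarith) (by linarith)
    have h4 : (2 * (z : ℝ)) ^ (2 : ℝ) = 4 * z ^ 2 := by
      rw [Real.rpow_two]; ring
    have h5 : (z : ℝ) ^ (3 : ℝ) = z ^ 2 * z := by
      rw [show (3 : ℝ) = ((3 : ℕ) : ℝ) by norm_num, Real.rpow_natCast]; ring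
    rw [h5]
    rw [h4] at h3
    have h6 : (z : ℝ) ^ 2 * 8 ≤ (z : ℝ) ^ 2 * z := mul_le_mul_of_nonneg_left hz8 (by positivity)
    have h7 : (1 : ℝ) ≤ z ^ 2 := by nlinarith
    linarith
  have hφ0 : (0 : ℝ) < q.totient := by exact_mod_cast Nat.totient_pos.mpr hq0
  obtain ⟨E, hE⟩ : ∃ E : ℝ, E = (1 + ε) * ((R : ℝ) * q) / q.totient / Real.log x := ⟨_, rfl⟩
  have hE0 : 0 ≤ E := by rw [hE]; positivity
  have hEa : ∀ a : ℕ, a.Coprime q →
      (((Ioc (R * q) (2 * (R * q))).filter (fun p => p.Prime ∧ p ≡ a [MOD q])).card : ℝ) ≤ E := by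
    intro a ha
    have h1 := hqS ((R : ℝ) * q) (lt_of_lt_of_le hx0 hXge) hc1' hc2' a ha
    have h2 : ⌊(R : ℝ) * q⌋₊ = R * q := by
      rw [← Nat.cast_mul, Nat.floor_natCast]
    have h3 : ⌊2 * ((R : ℝ) * q)⌋₊ = 2 * (R * q) := by
      have : (2 : ℝ) * ((R : ℝ) * q) = ((2 * (R * q) : ℕ) : ℝ) := by push_cast; ring
      rw [this, Nat.floor_natCast]
    rw [h2, h3] at h1
    rw [hE, le_div_iff₀ hlx0]
    refine le_trans ?_ h1
    rw [← nsmul_eq_mul]
    apply Finset.card_nsmul_le_sum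
    intro p hp
    rw [mem_filter, mem_Ioc] at hp
    apply Real.log_le_log hx0
    have h4 : ((R * q : ℕ) : ℝ) < p := by exact_mod_cast hp.1.1
    push_cast at h4
    linarith
  have hcop : ∀ p : ℕ, p.Prime → R * q < p → p.Coprime q := by
    intro p hp hpq
    rw [Nat.Prime.coprime_iff_not_dvd hp]
    intro h
    have h1 := Nat.le_of_dvd hq0 h
    have h2 : q ≤ R * q := Nat.le_mul_of_pos_left q hR1
    omega
  have hq2 : 2 ≤ q := by
    have h1 : (0 : ℝ) < 2 * (b * Real.log x ^ 2) := by positivity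
    have h2 : (1 : ℝ) < q := by
      refine lt_of_lt_of_le ?_ hqlow
      rw [lt_div_iff₀ hz0]
      have h3 : 1 ≤ (z : ℝ) ^ (2 + 3 * κ) := Real.one_le_rpow (by linarith) (by linarith)
      nlinarith
    exact_mod_cast h2
  refine ⟨(Ioo R (2 * R)).image (fun r => r * q), ?_, ?_, ?_, ?_⟩
  · intro t ht
    rw [mem_image] at ht
    obtain ⟨r, hr, rfl⟩ := ht
    rw [mem_Ioo] at hr
    have h1 : ((R : ℝ)) + 1 ≤ r := by exact_mod_cast hr.1
    have h2 : (r : ℝ) ≤ 2 * R := by exact_mod_cast hr.2.le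
    have h3 := mul_le_mul_of_nonneg_right h1 hqr.le
    have h4 := mul_le_mul_of_nonneg_right h2 hqr.le
    have h5 : 0 < b * Real.log x ^ 2 := by positivity
    push_cast
    constructor
    · linarith
    · linarith
  · intro t ht t' ht' htt
    rw [mem_image] at ht ht'
    obtain ⟨r, hr, rfl⟩ := ht
    obtain ⟨s', hs, rfl⟩ := ht'
    have h1 : r < s' := lt_of_mul_lt_mul_right htt (Nat.zero_le q)
    have h2 : (r + 1) * q ≤ s' * q := Nat.mul_le_mul_right q h1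
    have h3 : ((r : ℝ) + 1) * q ≤ ((s' * q : ℕ) : ℝ) := by exact_mod_cast h2
    have h4 : ((r : ℝ) + 1) * q = ((r * q : ℕ) : ℝ) + q := by push_cast; ring
    linarith
  · rw [hTcard]
    linarith
  · intro U hU1 hU2
    have hUq' : 2 * U < q := by
      have h1 : (2 : ℝ) * U < q := by linarith
      exact_mod_cast h1
    have hmain := rows_count hq2 hUq' hcop hEa hE0
    refine hmain.trans ?_
    rw [hTcard]
    have h1 := hKz q hqM U (hlowU.trans hU1) (hU2.trans hupU)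
    have h2 : 2 * ((Cq q U).card : ℝ) * E ≤ 2 * (c * U * (q.totient / q)) * E := by
      apply mul_le_mul_of_nonneg_right _ hE0
      linarith
    refine h2.trans ?_
    have h3 : 2 * (c * U * ((q.totient : ℝ) / q)) * E = 2 * U * (c * (1 + ε) * R) / Real.log x := by
      rw [hE]
      field_simp
    rw [h3]
    have h4 : (R : ℝ) ≤ (1 + ε) * ((R : ℝ) - 1) := by
      have h5 : ε * (1 + 1 / ε) ≤ ε * R := mul_le_mul_of_nonneg_left hRbig hε0.le
      have h6 : ε * (1 + 1 / ε) = ε + 1 := by field_simp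
      linarith
    have h5 : c * (1 + ε) * R ≤ kap * ((R : ℝ) - 1) := by
      have hR1' : (0 : ℝ) ≤ (R : ℝ) - 1 := by
        have : (1 : ℝ) ≤ R := by exact_mod_cast hR1
        linarith
      calc c * (1 + ε) * R ≤ c * (1 + ε) * ((1 + ε) * ((R : ℝ) - 1)) :=
            mul_le_mul_of_nonneg_left h4 (by positivity)
        _ = c * (1 + ε) ^ 2 * ((R : ℝ) - 1) := by ring
        _ ≤ kap * ((R : ℝ) - 1) := mul_le_mul_of_nonneg_right hε2 hR1'
    have h7 : kap * ((R : ℝ) - 1) * (2 * U) / Real.log x = 2 * U * (kap * ((R : ℝ) - 1)) / Real.log x := by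
      ring
    rw [h7]
    apply div_le_div_of_nonneg_right _ hlx0.le
    exact mul_le_mul_of_nonneg_left h5 (by positivity)

end Pool.Agent.Work.MP_b0c12c_nt_helper63
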