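import Pool.Agent.Work.MP_b0c12c_nt_helper63.C2

/-!
The cost function of a window at the critical scale and its Riemann sums.
-/

namespace Pool.Agent.Work.MP_b0c12c_nt_helper63

open MeasureTheory Filter Topology Finset Pool.Agent.Work.MP_b0c12c_nt

/-- limit probability that a point at distance `σ` hits the window of length `g`, when moves are
uniform on `[-C, C]` -/
noncomputable def PP (C g σ : ℝ) : ℝ := max 0 (min g (C + g / 2 - σ)) / (2 * C)

lemma PP_nonneg {C g σ : ℝ} (hC : 0 < C) : 0 ≤ PP C g σ :=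
  div_nonneg (le_max_left _ _) (by linarith)

lemma PP_le {C g σ : ℝ} (hC : 0 < C) (hg : 0 ≤ g) : PP C g σ ≤ g / (2 * C) :=
  div_le_div_of_nonneg_right (max_le hg (min_le_left _ _)) (by linarith)

lemma PP_anti {C g : ℝ} (hC : 0 < C) : Antitone (PP C g) := by
  intro s t h
  unfold PP
  apply div_le_div_of_nonneg_right _ (by linarith)
  exact max_le_max le_rfl (min_le_min le_rfl (by linarith))

lemma PP_lt_one {C g σ : ℝ} (hC : 0 < C) (hg : 0 ≤ g) (hgC : g < 2 * C) : PP C g σ < 1 :=
  lt_of_le_of_lt (PP_le hC hg) (by rw [div_lt_one (by linarith)]; exact hgC)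

lemma continuous_PP (C g : ℝ) : Continuous (PP C g) := by
  unfold PP
  fun_prop

/-- cost -/
noncomputable def cost (C g σ : ℝ) : ℝ := -Real.log (1 - PP C g σ)

lemma cost_anti {C g : ℝ} (hC : 0 < C) (hg : 0 ≤ g) (hgC : g < 2 * C) : Antitone (cost C g) := by
  intro s t h
  unfold cost
  apply neg_le_neg
  apply Real.log_le_log
  · have := PP_lt_one (σ := s) hC hg hgC
    linarith
  · have := PP_anti (g := g) hC h
    linarith

lemma continuous_cost {C g : ℝ} (hC : 0 < C) (hg : 0 ≤ g) (hgC : g < 2 * C) :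
    Continuous (cost C g) := by
  unfold cost
  apply Continuous.neg
  apply Continuous.log
  · exact continuous_const.sub (continuous_PP C g)
  · intro σ
    have := PP_lt_one (σ := σ) hC hg hgC
    linarith

lemma cost_nonneg {C g σ : ℝ} (hC : 0 < C) (hg : 0 ≤ g) (hgC : g < 2 * C) : 0 ≤ cost C g σ := by
  unfold cost
  have h1 := PP_lt_one (σ := σ) hC hg hgC
  have h2 := PP_nonneg (g := g) (σ := σ) hC
  have := Real.log_nonpos (show 0 ≤ 1 - PP C g σ by linarith) (by linarith)
  linarith

lemma integral_neg_log_one_sub {a : ℝ} (h0 : 0 ≤ a) (h1 : a < 1) :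
    ∫ v in (0 : ℝ)..a, -Real.log (1 - v) = a + (1 - a) * Real.log (1 - a) := by
  have h2 : ∫ v in (0 : ℝ)..a, -Real.log (1 - v) = ∫ v in (1 - a)..(1 - 0 : ℝ), -Real.log v := by
    exact intervalIntegral.integral_comp_sub_left (fun v => -Real.log v) 1
  rw [h2, intervalIntegral.integral_neg, sub_zero, integral_log]
  simp

lemma integral_cost {C g : ℝ} (hC : 0 < C) (hg : 0 < g) (hgC : g < 2 * C) :
    ∫ σ in (0 : ℝ)..(C + g / 2), cost C g σ = g + (C - g / 2) * Real.log (1 - g / (2 * C)) := by
  have hc := continuous_cost hC hg.le hgC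
  have hsplit := intervalIntegral.integral_add_adjacent_intervals
    (hc.intervalIntegrable (μ := volume) 0 (C - g / 2))
    (hc.intervalIntegrable (μ := volume) (C - g / 2) (C + g / 2))
  rw [← hsplit]
  have h1 : ∫ σ in (0 : ℝ)..(C - g / 2), cost C g σ =
      (C - g / 2) * (-Real.log (1 - g / (2 * C))) := by
    have : ∫ σ in (0 : ℝ)..(C - g / 2), cost C g σ =
        ∫ _σ in (0 : ℝ)..(C - g / 2), (-Real.log (1 - g / (2 * C))) := by
      apply intervalIntegral.integral_congr
      intro σ hσ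
      rw [Set.uIcc_of_le (by linarith)] at hσ
      simp only [cost, PP]
      rw [min_eq_left (by linarith [hσ.2]), max_eq_right hg.le]
    rw [this, intervalIntegral.integral_const, smul_eq_mul]
    ring
  have h2 : ∫ σ in (C - g / 2)..(C + g / 2), cost C g σ =
      2 * C * (g / (2 * C) + (1 - g / (2 * C)) * Real.log (1 - g / (2 * C))) := by
    have e1 : ∫ σ in (C - g / 2)..(C + g / 2), cost C g σ =
        ∫ σ in (C - g / 2)..(C + g / 2), -Real.log (1 - ((C + g / 2) / (2 * C) - σ / (2 * C))) := by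
      apply intervalIntegral.integral_congr
      intro σ hσ
      rw [Set.uIcc_of_le (by linarith)] at hσ
      simp only [cost, PP]
      rw [min_eq_right (by linarith [hσ.1]), max_eq_right (by linarith [hσ.2])]
      congr 3
      ring
    have e2 := intervalIntegral.integral_comp_sub_div (a := C - g / 2) (b := C + g / 2)
      (fun v => -Real.log (1 - v)) (show (2 * C : ℝ) ≠ 0 by linarith) ((C + g / 2) / (2 * C))
    rw [e1, e2, smul_eq_mul]
    have e3 : (C + g / 2) / (2 * C) - (C + g / 2) / (2 * C) = 0 := sub_self _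
    have e4 : (C + g / 2) / (2 * C) - (C - g / 2) / (2 * C) = g / (2 * C) := by
      field_simp
      ring
    rw [e3, e4, integral_neg_log_one_sub (by positivity) (by
      rw [div_lt_one (by linarith)]; exact hgC)]
  rw [h1, h2]
  field_simp
  ring

/-- Riemann sums -/
lemma riemann_cost {C g M : ℝ} (hC : 0 < C) (hg : 0 < g) (hgC : g < 2 * C)
    (hM : C + g / 2 ≤ M) {n : ℕ} (hn : 1 ≤ n) :
    M / n * ∑ j ∈ range n, cost C g (j * (M / n)) ≤
      g + (C - g / 2) * Real.log (1 - g / (2 * C)) + M / n * cost C g 0 := by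
  have hM0 : 0 < M := by linarith
  have hn0 : (0 : ℝ) < n := by exact_mod_cast hn
  set δ := M / n with hδ
  have hδ0 : 0 < δ := by positivity
  obtain ⟨m, rfl⟩ : ∃ m, n = m + 1 := ⟨n - 1, by omega⟩
  have hanti : AntitoneOn (fun y : ℝ => cost C g (y * δ)) (Set.Icc 0 (0 + (m : ℝ))) := by
    intro s _ t _ h
    exact cost_anti hC hg.le hgC (mul_le_mul_of_nonneg_right h hδ0.le)
  have h1 := hanti.sum_le_integral
  have h2 : ∫ y in (0 : ℝ)..(0 + (m : ℝ)), cost C g (y * δ) = δ⁻¹ * ∫ σ in (0 : ℝ)..(m * δ), cost C g σ := by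
    have := intervalIntegral.integral_comp_mul_right (a := 0) (b := (m : ℝ)) (fun σ => cost C g σ)
      hδ0.ne'
    rw [zero_add, this, smul_eq_mul, zero_mul]
  rw [h2] at h1
  have hc := continuous_cost hC hg.le hgC
  -- integral over [0, mδ] at most integral over [0, M]
  have h3 : ∫ σ in (0 : ℝ)..(m * δ), cost C g σ ≤ ∫ σ in (0 : ℝ)..M, cost C g σ := by
    apply intervalIntegral.integral_mono_interval le_rfl (by positivity)
    · rw [hδ]
      push_cast
      have : (m : ℝ) * (M / (m + 1)) = M * (m / (m + 1)) := by ring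
      rw [this]
      have h5 : (m : ℝ) / (m + 1) ≤ 1 := by
        rw [div_le_one (by positivity)]
        linarith
      nlinarith
    · exact Eventually.of_forall fun σ => cost_nonneg hC hg.le hgC
    · exact hc.intervalIntegrable _ _
  have h4 : ∫ σ in (0 : ℝ)..M, cost C g σ = ∫ σ in (0 : ℝ)..(C + g / 2), cost C g σ := by
    have hsplit := intervalIntegral.integral_add_adjacent_intervals
      (hc.intervalIntegrable (μ := volume) 0 (C + g / 2))
      (hc.intervalIntegrable (μ := volume) (C + g / 2) M)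
    rw [← hsplit]
    have : ∫ σ in (C + g / 2)..M, cost C g σ = ∫ _σ in (C + g / 2)..M, (0 : ℝ) := by
      apply intervalIntegral.integral_congr
      intro σ hσ
      rw [Set.uIcc_of_le hM] at hσ
      simp only [cost, PP]
      rw [max_eq_left]
      · simp
      · exact (min_le_right _ _).trans (by linarith [hσ.1])
    rw [this]
    simp
  rw [h4, integral_cost hC hg hgC] at h3
  have h5 : ∑ j ∈ range (m + 1), cost C g (j * δ) =
      ∑ i ∈ range m, cost C g ((0 + ((i + 1 : ℕ) : ℝ)) * δ) + cost C g 0 := by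
    rw [Finset.sum_range_succ']
    simp
  rw [h5, mul_add]
  have h6 : δ * ∑ i ∈ range m, cost C g ((0 + ((i + 1 : ℕ) : ℝ)) * δ) ≤
      δ * (δ⁻¹ * ∫ σ in (0 : ℝ)..(m * δ), cost C g σ) := mul_le_mul_of_nonneg_left h1 hδ0.le
  rw [← mul_assoc, mul_inv_cancel₀ hδ0.ne', one_mul] at h6
  linarith

/-- choice of the parameters -/
lemma exists_params {C g : ℝ} (hC : 0 < C) (hg : 0 < g) (hgC : g < 2 * C)
    (hK : 2 * g + (2 * C - g) * Real.log (1 - g / (2 * C)) <
      2 * Real.exp (-Real.eulerMascheroniConstant)) :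
    ∃ kap : ℝ, 1 / 2 / Real.exp (-Real.eulerMascheroniConstant) < kap ∧
      ∃ n : ℕ, 1 ≤ n ∧ ∃ ε : ℝ, 0 < ε ∧ g / (2 * C) + ε < 1 ∧ ∃ ρ : ℝ, ρ < 1 ∧
        2 * kap * ((C + g / 2 + 1) / n) *
          ∑ j ∈ range n, -Real.log (1 - PP C g (j * ((C + g / 2 + 1) / n)) - ε) ≤ ρ := by
  have he : 0 < Real.exp (-Real.eulerMascheroniConstant) := Real.exp_pos _
  set I := g + (C - g / 2) * Real.log (1 - g / (2 * C)) with hI
  have hI1 : I < Real.exp (-Real.eulerMascheroniConstant) := by
    have : 2 * I = 2 * g + (2 * C - g) * Real.log (1 - g / (2 * C)) := by rw [hI]; ring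
    linarith
  have hI0 : 0 ≤ I := by
    rw [hI, ← integral_cost hC hg hgC]
    apply intervalIntegral.integral_nonneg (by linarith)
    intro σ _
    exact cost_nonneg hC hg.le hgC
  set M := C + g / 2 + 1 with hM
  have hM0 : 0 < M := by linarith
  -- kap
  have h1 : Tendsto (fun kap : ℝ => 2 * kap * I) (𝓝[>] (1 / 2 / Real.exp (-Real.eulerMascheroniConstant)))
      (𝓝 (2 * (1 / 2 / Real.exp (-Real.eulerMascheroniConstant)) * I)) := by
    apply Tendsto.mono_left _ nhdsWithin_le_nhds
    exact (by fun_prop : Continuous fun kap : ℝ => 2 * kap * I).tendsto _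
  have h2 : 2 * (1 / 2 / Real.exp (-Real.eulerMascheroniConstant)) * I < 1 := by
    have : 2 * (1 / 2 / Real.exp (-Real.eulerMascheroniConstant)) * I =
        I / Real.exp (-Real.eulerMascheroniConstant) := by ring
    rw [this, div_lt_one he]
    exact hI1
  obtain ⟨kap, hk1, hk2'⟩ := ((h1.eventually_lt_const h2).and self_mem_nhdsWithin).exists
  have hk2 : 1 / 2 / Real.exp (-Real.eulerMascheroniConstant) < kap := hk2'
  have hkap : 0 < kap := lt_trans (by positivity) hk2
  refine ⟨kap, hk2, ?_⟩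
  -- n
  have h3 : Tendsto (fun n : ℕ => 2 * kap * (I + M / n * cost C g 0)) atTop
      (𝓝 (2 * kap * (I + 0 * cost C g 0))) := by
    apply Tendsto.const_mul
    apply Tendsto.const_add
    apply Tendsto.mul_const
    exact tendsto_const_div_atTop_nhds_zero_nat M
  rw [zero_mul, add_zero] at h3
  obtain ⟨n, hn1, hn2⟩ := ((h3.eventually_lt_const hk1).and (eventually_ge_atTop 1)).exists
  refine ⟨n, hn2, ?_⟩
  have h4 : 2 * kap * (M / n * ∑ j ∈ range n, cost C g (j * (M / n))) < 1 := by
    refine lt_of_le_of_lt ?_ hn1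
    apply mul_le_mul_of_nonneg_left _ (by positivity)
    exact riemann_cost hC hg hgC (by linarith) hn2
  -- ε
  have h5 : Tendsto (fun ε : ℝ => 2 * kap * (M / n) *
      ∑ j ∈ range n, -Real.log (1 - PP C g (j * (M / n)) - ε)) (𝓝[>] 0)
      (𝓝 (2 * kap * (M / n) *
      ∑ j ∈ range n, -Real.log (1 - PP C g (j * (M / n)) - 0))) := by
    apply Tendsto.mono_left _ nhdsWithin_le_nhds
    apply Tendsto.const_mul
    apply tendsto_finset_sum
    intro j _
    apply ContinuousAt.tendsto
    apply ContinuousAt.neg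
    apply ContinuousAt.log (by fun_prop)
    have := PP_lt_one (σ := j * (M / n)) hC hg.le hgC
    rw [sub_zero]
    linarith
  have h6 : 2 * kap * (M / n) * ∑ j ∈ range n, -Real.log (1 - PP C g (j * (M / n)) - 0) < 1 := by
    have : ∀ j ∈ range n, -Real.log (1 - PP C g (j * (M / n)) - 0) = cost C g (j * (M / n)) := by
      intro j _
      unfold cost
      rw [sub_zero]
    rw [Finset.sum_congr rfl this, mul_assoc]
    exact h4
  have h7 : 0 < 1 - g / (2 * C) := by
    rw [sub_pos, div_lt_one (by linarith)]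
    exact hgC
  obtain ⟨ε, hε1, hε2⟩ := ((h5.eventually_lt_const h6).and (Ioo_mem_nhdsGT h7)).exists
  refine ⟨ε, hε2.1, by linarith [hε2.2], _, hε1, le_rfl⟩

end Pool.Agent.Work.MP_b0c12c_nt_helper63
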