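import Pool.Agent.Work.MP_b0c12c_nt_helper63.C4

/-!
Empty windows for the primes moved by at most `C (log p)^2`.
-/

set_option linter.unusedSectionVars false
set_option linter.deprecated false

namespace Pool.Agent.Work.MP_b0c12c_nt_helper63

open MeasureTheory ProbabilityTheory Filter Topology Finset Pool.Agent.Work.MP_b0c12c_nt
open scoped ENNReal NNReal

/-- the step costs -/
noncomputable def stepCost (C g δ ε : ℝ) (n j : ℕ) : ℝ :=
  if j < n then -Real.log (1 - PP C g (j * δ) - ε) else 0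

lemma stepCost_top (C g δ ε : ℝ) (n : ℕ) : stepCost C g δ ε n n = 0 := by simp [stepCost]

lemma stepCost_anti {C g δ ε : ℝ} (hC : 0 < C) (hg : 0 < g) (hδ : 0 < δ)
    (hε : 0 < ε) (hε1 : g / (2 * C) + ε < 1) (n j : ℕ) :
    stepCost C g δ ε n (j + 1) ≤ stepCost C g δ ε n j := by
  unfold stepCost
  have hpos : ∀ σ, 0 < 1 - PP C g σ - ε := fun σ => by
    have := PP_le (C := C) (σ := σ) hC hg.le
    linarith
  have hlt : ∀ σ, 1 - PP C g σ - ε ≤ 1 := fun σ => by
    have := PP_nonneg (g := g) (σ := σ) hC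
    linarith
  by_cases h1 : j + 1 < n
  · rw [if_pos h1, if_pos (by omega)]
    apply neg_le_neg
    apply Real.log_le_log (hpos _)
    have : PP C g (((j + 1 : ℕ) : ℝ) * δ) ≤ PP C g (j * δ) := by
      apply PP_anti hC
      push_cast
      nlinarith
    linarith
  · rw [if_neg h1]
    split_ifs
    · have := Real.log_nonpos (hpos (j * δ)).le (hlt _)
      linarith
    · exact le_rfl

theorem windows_cloud {C g l : ℝ} (hC : 0 < C) (hg : 0 < g) (hgC : g < 2 * C)
    (hK : 2 * g + (2 * C - g) * Real.log (1 - g / (2 * C)) <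
      2 * Real.exp (-Real.eulerMascheroniConstant))
    (hS : Itf2.UniformPntStrong) (hl : 0 < l) (hlg : l < g)
    {Ω : Type*} [MeasurableSpace Ω] (μ : Measure Ω) [IsProbabilityMeasure μ]
    (X : ℕ → Ω → ℝ) (hXm : ∀ p, Measurable (X p)) (hXi : iIndepFun X μ)
    (hXu : ∀ p : ℕ, p.Prime → UnifOn μ (X p)) :
    ∀ᵐ ω ∂μ, ∀ x0 : ℝ, ∃ x : ℝ, x0 ≤ x ∧ ∃ t : ℕ, x ≤ (t : ℝ) ∧ (t : ℝ) ≤ 4 * x ∧
      ∀ m : ℕ, t < m → (m : ℝ) ≤ t + l * Real.log x ^ 2 →
        ¬ ∃ p : ℕ, p.Prime ∧ (m : ℤ) = ⌊(p : ℝ) + C * Real.log p ^ 2 * X p ω⌋ := by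
  classical
  obtain ⟨kap, hk, n, hn, ε, hε, hε1, ρ, hρ, hsum⟩ := exists_params hC hg hgC hK
  have hkap : 0 < kap := lt_trans (by positivity) hk
  set M := C + g / 2 + 1 with hM
  have hM0 : 0 < M := by linarith
  have hn0 : (0 : ℝ) < n := by exact_mod_cast hn
  set δ := M / n with hδ
  have hδ0 : 0 < δ := by positivity
  have hnδ : n * δ = M := by rw [hδ]; field_simp
  have hδM : δ / 2 ≤ M := by
    have h1 : δ ≤ M := by
      rw [hδ]
      apply div_le_self hM0.le
      exact_mod_cast hn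
    linarith
  set η := (1 - ρ) / 2 with hη
  have hη0 : 0 < η := by rw [hη]; linarith
  obtain ⟨x1, hx1⟩ := rows_multi hS hk (a := δ / 2) (b := M) (η := η) (by positivity) hδM hη0
  set e := min (C / 2) (ε * C / 4) with he
  have he0 : 0 < e := lt_min (by positivity) (by positivity)
  have he1 : e ≤ C / 2 := min_le_left _ _
  have he2 : 2 * e ≤ ε * (C - e) := by
    have h1 : e ≤ ε * C / 4 := min_le_right _ _
    nlinarith
  obtain ⟨X0, hX0⟩ := eventually_atTop.mp (ev_cloud hC hg hlg (le_of_eq hM.symm) hδ0 he0 x1)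
  set hh : ℝ → ℕ := fun x => ⌊g / 2 * Real.log x ^ 2⌋₊ with hhh
  set RR : ℝ → ℕ := fun x => ⌊M * Real.log x ^ 2⌋₊ with hRR
  set B : ℝ → ℕ → Finset ℕ := fun x t =>
    (Finset.Icc (t - RR x) (t + RR x)).filter
      (fun p => p.Prime ∧ |(p : ℝ) - t| < M * Real.log x ^ 2) with hB
  set ξ : ℕ → Ω → ℤ := fun p ω => ⌊(p : ℝ) + C * Real.log p ^ 2 * X p ω⌋ with hξ
  have hξm : ∀ p, Measurable (ξ p) := by
    intro p
    exact Int.measurable_floor.comp (by fun_prop)
  have hξi : iIndepFun ξ μ := by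
    exact hXi.comp (fun p (y : ℝ) => ⌊(p : ℝ) + C * Real.log p ^ 2 * y⌋)
      (fun p => Int.measurable_floor.comp (by fun_prop))
  set bad : ℝ → ℕ → Set ℤ := fun x t => {k : ℤ | (t : ℤ) - hh x < k ∧ k ≤ (t : ℤ) + hh x} with hbad
  set G : ℝ → ℕ → Set Ω := fun x t => {ω | ∀ p ∈ B x t, ξ p ω ∈ (bad x t)ᶜ} with hG
  have hGm : ∀ x t, MeasurableSet (G x t) := by
    intro x t
    have : G x t = ⋂ p ∈ B x t, ξ p ⁻¹' (bad x t)ᶜ := by
      ext ω; simp [hG]
    rw [this]
    exact Finset.measurableSet_biInter _ fun p _ => hξm p MeasurableSet.of_discrete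
  have hBprime : ∀ x t, ∀ p ∈ B x t, p.Prime := fun x t p hp => by
    rw [hB] at hp; exact (mem_filter.mp hp).2.1
  have hBabs : ∀ x t, ∀ p ∈ B x t, |(p : ℝ) - t| < M * Real.log x ^ 2 := fun x t p hp => by
    rw [hB] at hp; exact (mem_filter.mp hp).2.2
  set c : ℕ → ℝ := stepCost C g δ ε n with hc
  have hcn : c n = 0 := stepCost_top _ _ _ _ _
  have hcanti : ∀ j, c (j + 1) ≤ c j := stepCost_anti hC hg hδ0 hε hε1 n
  -- one scale
  have hstep : ∀ x : ℝ, X0 ≤ x → ∃ T : Finset ℕ,
      (∀ t ∈ T, x + M * Real.log x ^ 2 ≤ (t : ℝ) ∧ (t : ℝ) ≤ 3 * x) ∧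
      μ.real {ω | ∀ t ∈ T, ω ∉ G x t} ≤ x ^ (-η) := by
    intro x hx
    obtain ⟨c1, c2, c3, c4, c5, c6, c7, c8, c9, c10, c11⟩ := hX0 x hx
    obtain ⟨T, hT1, hT2, hT3, hT4⟩ := hx1 x c1
    refine ⟨T, hT1, ?_⟩
    have hlog : 0 < Real.log x := Real.log_pos c2
    have hL2 : 0 < Real.log x ^ 2 := by positivity
    have hδL : 0 < δ * Real.log x ^ 2 := by positivity
    have hexp : -η = -(1 - η - ρ) := by rw [hη]; ring
    rw [hexp]
    set idx : ℕ → ℕ → ℕ := fun t p => ⌊|(p : ℝ) - t| / (δ * Real.log x ^ 2)⌋₊ with hidx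
    have hidxlt : ∀ t, ∀ p ∈ B x t, idx t p < n := by
      intro t p hp
      have h1 := hBabs x t p hp
      rw [hidx]
      simp only
      rw [Nat.floor_lt (by positivity), div_lt_iff₀ hδL]
      calc |(p : ℝ) - t| < M * Real.log x ^ 2 := h1
        _ = n * (δ * Real.log x ^ 2) := by rw [← mul_assoc, hnδ]
    refine core_bound x ρ η c2 T (G x) (fun t _ => hGm x t)
      (fun t => ∑ p ∈ B x t, c (idx t p)) 1
      (2 * kap * δ * Real.log x * ∑ j ∈ range n, c j) zero_le_one ?_ ?_ hT3 ?_ ?_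
    · -- average cost
      have h1 : ∀ t ∈ T, ∑ p ∈ B x t, c (idx t p) ≤ ∑ j ∈ range n, (c j - c (j + 1)) *
          (((Icc (t - ⌊((j : ℝ) + 1) * (δ * Real.log x ^ 2)⌋₊)
            (t + ⌊((j : ℝ) + 1) * (δ * Real.log x ^ 2)⌋₊)).filter Nat.Prime).card : ℝ) := by
        intro t _
        rw [layer hcn (B x t) (idx t) (fun p hp => (hidxlt t p hp).le)]
        apply Finset.sum_le_sum
        intro j _
        apply mul_le_mul_of_nonneg_left _ (by linarith [hcanti j])
        have : (B x t).filter (fun p => idx t p ≤ j) ⊆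
            (Icc (t - ⌊((j : ℝ) + 1) * (δ * Real.log x ^ 2)⌋₊)
            (t + ⌊((j : ℝ) + 1) * (δ * Real.log x ^ 2)⌋₊)).filter Nat.Prime := by
          intro p hp
          rw [mem_filter] at hp
          rw [mem_filter]
          refine ⟨?_, hBprime x t p hp.1⟩
          have h2 : |(p : ℝ) - t| < ((j : ℝ) + 1) * (δ * Real.log x ^ 2) := by
            have h3 := Nat.lt_floor_add_one (|(p : ℝ) - t| / (δ * Real.log x ^ 2))
            have h4 : ((idx t p : ℕ) : ℝ) ≤ j := by exact_mod_cast hp.2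
            rw [div_lt_iff₀ hδL] at h3
            refine lt_of_lt_of_le h3 ?_
            apply mul_le_mul_of_nonneg_right _ hδL.le
            have h5 : ((⌊|(p : ℝ) - t| / (δ * Real.log x ^ 2)⌋₊ : ℕ) : ℝ) ≤ j := h4
            linarith
          rw [abs_lt] at h2
          rw [mem_Icc]
          constructor
          · have h3 : ((t - p : ℕ) : ℝ) ≤ ((j : ℝ) + 1) * (δ * Real.log x ^ 2) := by
              rcases le_total p t with h | h
              · rw [Nat.cast_sub h]; linarith
              · rw [Nat.sub_eq_zero_of_le h]; push_cast; positivity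
            have h4 := Nat.le_floor h3
            omega
          · have h3 : ((p - t : ℕ) : ℝ) ≤ ((j : ℝ) + 1) * (δ * Real.log x ^ 2) := by
              rcases le_total t p with h | h
              · rw [Nat.cast_sub h]; linarith
              · rw [Nat.sub_eq_zero_of_le h]; push_cast; positivity
            have h4 := Nat.le_floor h3
            omega
        exact_mod_cast Finset.card_le_card this
      refine (Finset.sum_le_sum h1).trans ?_
      rw [Finset.sum_comm]
      have h2 : ∀ j ∈ range n, ∑ t ∈ T, (c j - c (j + 1)) *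
          (((Icc (t - ⌊((j : ℝ) + 1) * (δ * Real.log x ^ 2)⌋₊)
            (t + ⌊((j : ℝ) + 1) * (δ * Real.log x ^ 2)⌋₊)).filter Nat.Prime).card : ℝ) ≤
          (c j - c (j + 1)) * ((j : ℝ) + 1) * (T.card * (2 * kap * δ * Real.log x)) := by
        intro j hj
        rw [mem_range] at hj
        rw [← Finset.mul_sum]
        set U := ⌊((j : ℝ) + 1) * (δ * Real.log x ^ 2)⌋₊ with hU
        have hj1 : (0 : ℝ) ≤ j := Nat.cast_nonneg j
        have hU1 : (U : ℝ) ≤ ((j : ℝ) + 1) * (δ * Real.log x ^ 2) := Nat.floor_le (by positivity)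
        have hU2 : ((j : ℝ) + 1) * (δ * Real.log x ^ 2) < U + 1 := Nat.lt_floor_add_one _
        have hU3 : δ / 2 * Real.log x ^ 2 ≤ U := by
          have : 1 * (δ * Real.log x ^ 2) ≤ ((j : ℝ) + 1) * (δ * Real.log x ^ 2) :=
            mul_le_mul_of_nonneg_right (by linarith) hδL.le
          linarith
        have hU4 : (U : ℝ) ≤ M * Real.log x ^ 2 := by
          refine hU1.trans ?_
          rw [← hnδ, mul_assoc]
          apply mul_le_mul_of_nonneg_right _ hδL.le
          exact_mod_cast hj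
        have h3 := hT4 U hU3 hU4
        rw [mul_assoc]
        apply mul_le_mul_of_nonneg_left _ (by linarith [hcanti j])
        refine h3.trans ?_
        rw [div_le_iff₀ hlog]
        have h4 : kap * T.card * (2 * (U : ℝ)) ≤
            kap * T.card * (2 * (((j : ℝ) + 1) * (δ * Real.log x ^ 2))) := by
          apply mul_le_mul_of_nonneg_left _ (by positivity)
          linarith
        refine h4.trans (le_of_eq ?_)
        ring
      refine (Finset.sum_le_sum h2).trans (le_of_eq ?_)
      rw [← Finset.sum_mul, abel_id, hcn]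
      ring
    · -- numerical bound
      rw [one_mul]
      have h1 : ∑ j ∈ range n, c j = ∑ j ∈ range n, -Real.log (1 - PP C g (j * δ) - ε) := by
        apply Finset.sum_congr rfl
        intro j hj
        rw [mem_range] at hj
        rw [hc]
        unfold stepCost
        rw [if_pos hj]
      rw [h1]
      calc 2 * kap * δ * Real.log x * ∑ j ∈ range n, -Real.log (1 - PP C g (j * δ) - ε)
          = (2 * kap * δ * ∑ j ∈ range n, -Real.log (1 - PP C g (j * δ) - ε)) * Real.log x := by ring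
        _ ≤ ρ * Real.log x := mul_le_mul_of_nonneg_right hsum hlog.le
    · -- probability of the good event
      intro t ht
      rw [one_mul]
      have hpf := prod_formula hξi (B x t) (fun _ => (bad x t)ᶜ)
      have hGt : G x t = {ω | ∀ p ∈ B x t, ξ p ω ∈ (bad x t)ᶜ} := rfl
      rw [hGt, hpf, ← Finset.sum_neg_distrib, Real.exp_sum]
      apply Finset.prod_le_prod (fun _ _ => (Real.exp_pos _).le)
      intro p hp
      have hpp := hBprime x t p hp
      have hpa := hBabs x t p hp
      obtain ⟨ht1, ht2⟩ := hT1 t ht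
      have hpx : x < p := by
        rw [abs_lt] at hpa
        linarith
      have hp4x : (p : ℝ) ≤ 4 * x := by
        rw [abs_lt] at hpa
        linarith
      have hlogp1 : Real.log (x / 2) ≤ Real.log p := Real.log_le_log (by linarith) (by linarith)
      have hlogp2 : Real.log p ≤ Real.log (4 * x) := Real.log_le_log (by linarith) hp4x
      have hlogp0 : 0 < Real.log p := lt_of_lt_of_le c7 hlogp1
      set lam := C * Real.log p ^ 2 with hlam
      have hlam1 : lam ≤ (C + e) * Real.log x ^ 2 := by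
        refine le_trans ?_ c5
        apply mul_le_mul_of_nonneg_left _ hC.le
        exact pow_le_pow_left₀ hlogp0.le hlogp2 2
      have hlam2 : (C - e) * Real.log x ^ 2 ≤ lam := by
        refine c6.trans ?_
        apply mul_le_mul_of_nonneg_left _ hC.le
        exact pow_le_pow_left₀ c7.le hlogp1 2
      have hlam0 : 0 < lam := by positivity
      set i := idx t p with hi
      have hin : i < n := hidxlt t p hp
      have hy : (i : ℝ) * (δ * Real.log x ^ 2) ≤ |(p : ℝ) - t| := by
        have h1 : ((⌊|(p : ℝ) - t| / (δ * Real.log x ^ 2)⌋₊ : ℕ) : ℝ) ≤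
            |(p : ℝ) - t| / (δ * Real.log x ^ 2) := Nat.floor_le (by positivity)
        rw [le_div_iff₀ hδL] at h1
        exact h1
      have hhit := hit_prob_cloud (hXm p) (hXu p hpp) hlam0 p t (hh x) _ hy
      have hh1 : ((hh x : ℕ) : ℝ) ≤ g / 2 * Real.log x ^ 2 := Nat.floor_le (by positivity)
      have hbound : max 0 (min (2 * ((hh x : ℕ) : ℝ) + 1)
          (lam - i * (δ * Real.log x ^ 2) + (hh x : ℕ) + 1)) / (2 * lam) ≤ PP C g (i * δ) + ε := by
        have hCe : 0 < C - e := by linarith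
        have h1 : max 0 (min (2 * ((hh x : ℕ) : ℝ) + 1)
            (lam - i * (δ * Real.log x ^ 2) + (hh x : ℕ) + 1)) ≤
            Real.log x ^ 2 * (max 0 (min g (C + g / 2 - i * δ)) + 2 * e) := by
          apply max_le
          · have : 0 ≤ max 0 (min g (C + g / 2 - i * δ)) := le_max_left _ _
            positivity
          · rcases le_total g (C + g / 2 - i * δ) with h | h
            · rw [min_eq_left h]
              refine (min_le_left _ _).trans ?_
              have h2 : g ≤ max 0 g := le_max_right _ _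
              have h3 : Real.log x ^ 2 * g ≤ Real.log x ^ 2 * max 0 g :=
                mul_le_mul_of_nonneg_left h2 hL2.le
              linarith
            · rw [min_eq_right h]
              refine (min_le_right _ _).trans ?_
              have h2 : C + g / 2 - i * δ ≤ max 0 (C + g / 2 - i * δ) := le_max_right _ _
              have h3 : Real.log x ^ 2 * (C + g / 2 - i * δ) ≤
                  Real.log x ^ 2 * max 0 (C + g / 2 - i * δ) := mul_le_mul_of_nonneg_left h2 hL2.le
              linarith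
        have hP0 := PP_nonneg (g := g) (σ := i * δ) hC
        have hP1 : PP C g (i * δ) ≤ 1 := by
          have := PP_le (C := C) (σ := i * δ) hC hg.le
          linarith
        have h2 : max 0 (min g (C + g / 2 - i * δ)) = 2 * C * PP C g (i * δ) := by
          unfold PP
          field_simp
        rw [h2] at h1
        rw [div_le_iff₀ (by positivity)]
        refine h1.trans ?_
        have h3 : (PP C g (i * δ) + ε) * (2 * ((C - e) * Real.log x ^ 2)) ≤
            (PP C g (i * δ) + ε) * (2 * lam) := by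
          apply mul_le_mul_of_nonneg_left _ (by positivity)
          linarith
        refine le_trans ?_ h3
        have h4 : C * PP C g (i * δ) + e ≤ (PP C g (i * δ) + ε) * (C - e) := by
          have := mul_nonneg he0.le (sub_nonneg.mpr hP1)
          linarith
        have h5 := mul_le_mul_of_nonneg_left h4 (show 0 ≤ 2 * Real.log x ^ 2 by positivity)
        linarith
      have hmeas : MeasurableSet {ω | (t : ℤ) - hh x < ⌊(p : ℝ) + lam * X p ω⌋ ∧
          ⌊(p : ℝ) + lam * X p ω⌋ ≤ (t : ℤ) + hh x} :=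
        hξm p (MeasurableSet.of_discrete (s := bad x t))
      have hcompl : {ω | ξ p ω ∈ (bad x t)ᶜ} = {ω | (t : ℤ) - hh x < ⌊(p : ℝ) + lam * X p ω⌋ ∧
          ⌊(p : ℝ) + lam * X p ω⌋ ≤ (t : ℤ) + hh x}ᶜ := by
        ext ω
        simp [hbad, hξ, hlam]
      rw [hcompl, probReal_compl_eq_one_sub hmeas]
      have hstepc : c i = -Real.log (1 - PP C g (i * δ) - ε) := by
        rw [hc]
        unfold stepCost
        rw [if_pos hin]
      rw [hstepc, neg_neg, Real.exp_log (by
        have := PP_le (C := C) (σ := i * δ) hC hg.le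
        linarith)]
      linarith
    · intro t ht t' ht' hne
      have hd : Disjoint (B x t) (B x t') := by
        rw [Finset.disjoint_left]
        intro p hp hp'
        have h2 := abs_lt.mp (hBabs x t p hp)
        have h3 := abs_lt.mp (hBabs x t' p hp')
        rcases Nat.lt_or_gt_of_ne hne with h4 | h4
        · have := hT2 t ht t' ht' h4; linarith [h2.2, h3.1]
        · have := hT2 t' ht' t ht h4; linarith [h2.1, h3.2]
      exact (prod_formula_two hξi (B x t) (B x t') hd (fun _ => (bad x t)ᶜ)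
        (fun _ => (bad x t')ᶜ)).le
  obtain ⟨k0, hk0⟩ : ∃ k0 : ℕ, X0 ≤ (2 : ℝ) ^ k0 := by
    obtain ⟨k, hk⟩ := pow_unbounded_of_one_lt X0 (show (1 : ℝ) < 2 by norm_num)
    exact ⟨k, hk.le⟩
  have hk0' : ∀ k, k0 ≤ k → X0 ≤ (2 : ℝ) ^ k := fun k hk =>
    hk0.trans (pow_le_pow_right₀ (by norm_num) hk)
  have hch : ∀ k : ℕ, ∃ T : Finset ℕ, k0 ≤ k →
      (∀ t ∈ T, (2 : ℝ) ^ k + M * Real.log ((2 : ℝ) ^ k) ^ 2 ≤ (t : ℝ) ∧
        (t : ℝ) ≤ 3 * (2 : ℝ) ^ k) ∧
      μ.real {ω | ∀ t ∈ T, ω ∉ G ((2 : ℝ) ^ k) t} ≤ ((2 : ℝ) ^ k) ^ (-η) := by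
    intro k
    by_cases hk : k0 ≤ k
    · obtain ⟨T, h1, h2⟩ := hstep _ (hk0' k hk)
      exact ⟨T, fun _ => ⟨h1, h2⟩⟩
    · exact ⟨∅, fun h => absurd h hk⟩
  choose T hT using hch
  have hBC := bc_pow_two (μ := μ) η hη0 (fun k => {ω | ∀ t ∈ T k, ω ∉ G ((2 : ℝ) ^ k) t}) k0
    (fun k hk => (hT k hk).2)
  have habs : ∀ᵐ ω ∂μ, ∀ p : ℕ, p.Prime → |X p ω| ≤ 1 := by
    rw [ae_all_iff]
    intro p
    by_cases hp : p.Prime
    · filter_upwards [abs_le_one_ae (hXm p) (hXu p hp)] with ω hω _ using hω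
    · exact Eventually.of_forall fun ω h => absurd h hp
  filter_upwards [hBC, habs] with ω hω habsω x0
  obtain ⟨K, hK⟩ := eventually_atTop.mp hω
  obtain ⟨k1, hk1⟩ := pow_unbounded_of_one_lt x0 (show (1 : ℝ) < 2 by norm_num)
  set k := max (max K k0) k1 with hk
  have hkK : K ≤ k := (le_max_left _ _).trans (le_max_left _ _)
  have hkk0 : k0 ≤ k := (le_max_right _ _).trans (le_max_left _ _)
  have hkk1 : k1 ≤ k := le_max_right _ _
  have h1 : ¬ (∀ t ∈ T k, ω ∉ G ((2 : ℝ) ^ k) t) := hK k hkK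
  push Not at h1
  obtain ⟨t, ht, htG⟩ := h1
  obtain ⟨hTk, _⟩ := hT k hkk0
  obtain ⟨ht1, ht2⟩ := hTk t ht
  set x : ℝ := (2 : ℝ) ^ k with hxk
  obtain ⟨c1, c2, c3, c4, c5, c6, c7, c8, c9, c10, c11⟩ := hX0 x (hk0' k hkk0)
  have hlog : 0 < Real.log x := Real.log_pos c2
  have hL2 : 0 < Real.log x ^ 2 := by positivity
  have hh1 : ((hh x : ℕ) : ℝ) ≤ g / 2 * Real.log x ^ 2 := Nat.floor_le (by positivity)
  have hh2 : g / 2 * Real.log x ^ 2 < (hh x : ℕ) + 1 := Nat.lt_floor_add_one _
  have hhM : ((hh x : ℕ) : ℝ) ≤ M * Real.log x ^ 2 := by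
    refine hh1.trans ?_
    apply mul_le_mul_of_nonneg_right _ hL2.le
    linarith
  have hht : hh x ≤ t := by
    have : ((hh x : ℕ) : ℝ) ≤ t := by linarith
    exact_mod_cast this
  refine ⟨x, hk1.le.trans (pow_le_pow_right₀ (by norm_num) hkk1), t - hh x, ?_, ?_, ?_⟩
  · rw [Nat.cast_sub hht]; linarith
  · rw [Nat.cast_sub hht]
    have : (0 : ℝ) ≤ ((hh x : ℕ) : ℝ) := Nat.cast_nonneg _
    linarith
  rintro m hm1 hm2 ⟨p, hp, hmp⟩
  rw [Nat.cast_sub hht] at hm2
  have hmt : (m : ℝ) ≤ t + hh x := by linarith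
  have hmt' : m ≤ t + hh x := by exact_mod_cast hmt
  have hXp := habsω p hp
  set lam := C * Real.log p ^ 2 with hlam
  have hlamnn : 0 ≤ lam := by positivity
  have hdist : |(m : ℝ) - p| ≤ lam + 1 := by
    have h2 := Int.floor_le ((p : ℝ) + lam * X p ω)
    have h3 := Int.lt_floor_add_one ((p : ℝ) + lam * X p ω)
    have h4 : (m : ℝ) = ((⌊(p : ℝ) + lam * X p ω⌋ : ℤ) : ℝ) := by
      exact_mod_cast congrArg (fun y : ℤ => (y : ℝ)) hmp
    rw [← h4] at h2 h3
    have h5 : |lam * X p ω| ≤ lam := by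
      rw [abs_mul, abs_of_nonneg hlamnn]
      exact mul_le_of_le_one_right hlamnn hXp
    rw [abs_le] at h5 ⊢
    constructor <;> linarith [h5.1, h5.2]
  have hpB : p ∈ B x t := by
    have hm1' : (t : ℝ) - hh x < m := by
      have : ((t - hh x : ℕ) : ℝ) < m := by exact_mod_cast hm1
      rwa [Nat.cast_sub hht] at this
    have hp4 : (p : ℝ) ≤ 4 * x := by
      by_contra hcon
      push Not at hcon
      have h2 := c11 p hcon
      rw [abs_le] at hdist
      have h3 : lam + 1 ≤ p / 8 := h2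
      linarith [hdist.1, hdist.2]
    have hlam1 : lam + 2 ≤ (C + 1) * Real.log x ^ 2 := by
      refine le_trans ?_ c10
      have h3 : 0 ≤ Real.log p := Real.log_natCast_nonneg p
      have h4 : Real.log p ≤ Real.log (4 * x) :=
        Real.log_le_log (by exact_mod_cast hp.pos) hp4
      have h5 : lam ≤ C * Real.log (4 * x) ^ 2 :=
        mul_le_mul_of_nonneg_left (pow_le_pow_left₀ h3 h4 2) hC.le
      linarith
    have habs2 : |(p : ℝ) - t| < M * Real.log x ^ 2 := by
      rw [abs_le] at hdist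
      rw [abs_lt]
      constructor
      · rw [hM]; linarith [hdist.1, hdist.2]
      · rw [hM]; linarith [hdist.1, hdist.2]
    rw [hB]
    simp only [mem_filter, mem_Icc]
    refine ⟨?_, hp, habs2⟩
    rw [abs_lt] at habs2
    constructor
    · have h3 : ((t - p : ℕ) : ℝ) ≤ M * Real.log x ^ 2 := by
        rcases le_total p t with h | h
        · rw [Nat.cast_sub h]; linarith
        · rw [Nat.sub_eq_zero_of_le h]; push_cast; positivity
      have h4 : t - p ≤ RR x := Nat.le_floor h3
      omega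
    · have h3 : ((p - t : ℕ) : ℝ) ≤ M * Real.log x ^ 2 := by
        rcases le_total t p with h | h
        · rw [Nat.cast_sub h]; linarith
        · rw [Nat.sub_eq_zero_of_le h]; push_cast; positivity
      have h4 : p - t ≤ RR x := Nat.le_floor h3
      omega
  have h2 := htG p hpB
  apply h2
  rw [hbad, hξ]
  simp only [Set.mem_setOf_eq]
  rw [← hmp]
  constructor <;> omega

end Pool.Agent.Work.MP_b0c12c_nt_helper63
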