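import Pool.Agent.Work.MP_b0c12c_nt_helper63.CloudDefs
import Pool.Agent.Work.MP_b0c12c_nt_helper63.BlockP2
import Pool.Agent.Work.MP_b0c12c_nt_helper63.BlockD

/-!
The Cramér constant of the moved primes is a Lipschitz function of `C`.
-/

set_option linter.unusedSectionVars false
set_option linter.deprecated false

namespace Pool.Agent.Work.MP_b0c12c_nt_helper63

open MeasureTheory ProbabilityTheory Filter Topology Finset Pool.Agent.Work.MP_b0c12c_nt

/-- The case `A = 2` with a natural number exponent. -/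
def cloud (C : ℝ) (u : ℕ → ℝ) : Set ℕ :=
  {m | ∃ p : ℕ, p.Prime ∧ (m : ℤ) = ⌊(p : ℝ) + C * Real.log p ^ 2 * u p⌋}

lemma moved_two (C : ℝ) (u : ℕ → ℝ) : moved 2 C u = cloud C u := by
  unfold moved cloud
  simp only [Real.rpow_two]

lemma cloud_zero (u : ℕ → ℝ) : cloud 0 u = {p : ℕ | p.Prime} := by
  ext m
  simp only [cloud, zero_mul, add_zero, Int.floor_natCast, Set.mem_setOf_eq]
  constructor
  · rintro ⟨p, hp, h⟩
    have : m = p := by exact_mod_cast h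
    rwa [this]
  · intro h
    exact ⟨m, h, rfl⟩

lemma ev_small (C : ℝ) (hC : 0 ≤ C) :
    ∃ Y : ℝ, 4 ≤ Y ∧ ∀ p : ℝ, Y ≤ p → C * Real.log p ^ 2 + 1 ≤ p / 8 := by
  have h7 : ∀ᶠ x : ℝ in atTop, Real.log x ^ (2 : ℝ) ≤ 1 / (16 * (C + 1)) * x :=
    log_rpow_le _ _ (by positivity)
  obtain ⟨Y, hY⟩ := eventually_atTop.mp h7
  refine ⟨max Y 16, (by norm_num : (4 : ℝ) ≤ 16).trans (le_max_right _ _), fun p hp => ?_⟩
  have hp1 : Y ≤ p := (le_max_left _ _).trans hp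
  have hp2 : 16 ≤ p := (le_max_right _ _).trans hp
  have h9 := hY p hp1
  rw [Real.rpow_two] at h9
  have h10 : (C + 1) * Real.log p ^ 2 ≤ (C + 1) * (1 / (16 * (C + 1)) * p) :=
    mul_le_mul_of_nonneg_left h9 (by linarith)
  have h11 : (C + 1) * (1 / (16 * (C + 1)) * p) = p / 16 := by field_simp
  have h12 : 0 ≤ Real.log p ^ 2 := by positivity
  nlinarith

lemma move_abs {C : ℝ} (hC : 0 ≤ C) {u : ℕ → ℝ} {p : ℕ} (hu : |u p| ≤ 1) :
    |C * Real.log p ^ 2 * u p| ≤ C * Real.log p ^ 2 := by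
  have h1 : 0 ≤ C * Real.log p ^ 2 := by positivity
  rw [abs_mul, abs_of_nonneg h1]
  nlinarith

lemma cloud_infinite {C : ℝ} (hC : 0 ≤ C) {u : ℕ → ℝ} (hu : ∀ p : ℕ, p.Prime → |u p| ≤ 1) :
    (cloud C u).Infinite := by
  rw [Set.infinite_iff_exists_gt]
  intro n
  obtain ⟨Y, hY4, hY⟩ := ev_small C hC
  obtain ⟨p, hp1, hp2⟩ := Nat.exists_infinite_primes (⌈Y⌉₊ + 2 * n + 2)
  have hp0 : Y ≤ p := by
    have h2 : (⌈Y⌉₊ : ℝ) ≤ p := by exact_mod_cast (by omega : ⌈Y⌉₊ ≤ p)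
    exact (Nat.le_ceil Y).trans h2
  have h3 := hY p hp0
  have h4 := move_abs hC (hu p hp2)
  rw [abs_le] at h4
  have h5 : (n : ℝ) + 1 ≤ (p : ℝ) + C * Real.log p ^ 2 * u p := by
    have h6 : (2 : ℝ) * n + 2 ≤ p := by exact_mod_cast (by omega : 2 * n + 2 ≤ p)
    linarith [h4.1]
  have h6 : (n : ℤ) + 1 ≤ ⌊(p : ℝ) + C * Real.log p ^ 2 * u p⌋ := by
    apply Int.le_floor.mpr
    push_cast
    exact h5
  refine ⟨(⌊(p : ℝ) + C * Real.log p ^ 2 * u p⌋).toNat, ⟨p, hp2, ?_⟩, ?_⟩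
  · rw [Int.toNat_of_nonneg]
    omega
  · omega

lemma gapL_nonneg (Q : Set ℕ) (hQ : Q.Infinite) : 0 ≤ gapL Q := by
  unfold gapL
  apply le_limsup_of_frequently_le
  · apply Frequently.of_forall
    intro k
    have h1 : Nat.nth (· ∈ Q) k < Nat.nth (· ∈ Q) (k + 1) := (Nat.nth_strictMono hQ) (Nat.lt_succ_self k)
    have h2 : (Nat.nth (· ∈ Q) k : ℝ) ≤ Nat.nth (· ∈ Q) (k + 1) := by exact_mod_cast h1.le
    have h3 : (0 : ℝ) ≤ ((Nat.nth (· ∈ Q) (k + 1) : ℝ) - (Nat.nth (· ∈ Q) k : ℝ)) /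
        Real.log (Nat.nth (· ∈ Q) k) ^ 2 := div_nonneg (by linarith) (by positivity)
    exact_mod_cast h3
  · exact isBoundedUnder_of ⟨⊤, fun _ => le_top⟩

/-- windows of `cloud C'` from gaps of `cloud C` -/
lemma transfer {C C' : ℝ} (hC : 0 ≤ C) (hC' : 0 ≤ C') {u : ℕ → ℝ}
    (hu : ∀ p : ℕ, p.Prime → |u p| ≤ 1) {l l1 : ℝ} (hl : 0 < l)
    (h1 : l + 2 * |C - C'| < l1) (h2 : (l1 : EReal) < gapL (cloud C u)) :
    ((l : ℝ) : EReal) ≤ gapL (cloud C' u) := by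
  have hinf := cloud_infinite hC hu
  have hinf' := cloud_infinite hC' hu
  apply limsupOfWindows _ hinf' _ hl
  intro x0
  set D := |C - C'| with hD
  have hD0 : 0 ≤ D := abs_nonneg _
  -- eventual conditions in `q`
  have h3 : Tendsto (fun x : ℝ => 2 * D * (Real.log (4 * x) / Real.log x) ^ 2) atTop
      (𝓝 (2 * D * 1 ^ 2)) := ((log_ratio 4 (by norm_num)).pow 2).const_mul (2 * D)
  rw [one_pow, mul_one] at h3
  have hL2 : Tendsto (fun x : ℝ => Real.log x ^ 2) atTop atTop :=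
    (tendsto_pow_atTop two_ne_zero).comp Real.tendsto_log_atTop
  set s := (l1 - l - 2 * D) / 2 with hs
  have hs0 : 0 < s := by rw [hs]; linarith
  have h4 : ∀ᶠ x : ℝ in atTop, 6 ≤ s * Real.log x ^ 2 :=
    (hL2.const_mul_atTop hs0).eventually_ge_atTop 6
  obtain ⟨Y, hY4, hY⟩ := ev_small C' hC'
  obtain ⟨Y1, hY14, hY1⟩ := ev_small (l1 + 2 * D) (by linarith)
  obtain ⟨X1, hX1⟩ := eventually_atTop.mp ((h3.eventually_lt_const (show 2 * D < 2 * D + s by linarith)).and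
    (h4.and (eventually_ge_atTop (max (max x0 Y) (max Y1 4)))))
  -- a large gap
  have hfreq : ∃ᶠ k in atTop, (l1 : EReal) <
      ((((Nat.nth (· ∈ cloud C u) (k + 1) : ℝ) - (Nat.nth (· ∈ cloud C u) k : ℝ)) /
        Real.log (Nat.nth (· ∈ cloud C u) k) ^ 2 : ℝ) : EReal) :=
    frequently_lt_of_lt_limsup (by isBoundedDefault) h2
  obtain ⟨k, hk1, hk2⟩ := frequently_atTop.mp hfreq ⌈X1⌉₊
  set q := Nat.nth (· ∈ cloud C u) k with hq
  set q' := Nat.nth (· ∈ cloud C u) (k + 1) with hq'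
  have hqk : k ≤ q := (Nat.nth_strictMono (p := (· ∈ cloud C u)) hinf).le_apply
  have hqX : X1 ≤ q := by
    have : (⌈X1⌉₊ : ℝ) ≤ q := by exact_mod_cast hk1.trans hqk
    exact (Nat.le_ceil X1).trans this
  obtain ⟨g1, g2, g3⟩ := hX1 q hqX
  have g3a : x0 ≤ q := ((le_max_left _ _).trans (le_max_left _ _)).trans g3
  have g3b : Y ≤ q := ((le_max_right _ _).trans (le_max_left _ _)).trans g3
  have g3c : Y1 ≤ q := ((le_max_left _ _).trans (le_max_right _ _)).trans g3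
  have g3d : 4 ≤ (q : ℝ) := ((le_max_right _ _).trans (le_max_right _ _)).trans g3
  have hlog : 0 < Real.log q := Real.log_pos (by linarith)
  have hsq : 0 < Real.log q ^ 2 := by positivity
  rw [div_pow, mul_div_assoc', div_lt_iff₀ hsq] at g1
  have hk3 : l1 < ((q' : ℝ) - q) / Real.log q ^ 2 := by exact_mod_cast hk2
  rw [lt_div_iff₀ hsq] at hk3
  set W := D * Real.log (4 * q) ^ 2 with hW
  have hW0 : 0 ≤ W := by positivity
  have hW2 : 2 * W < (2 * D + s) * Real.log q ^ 2 := by rw [hW]; linarith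
  have hYq := hY1 q g3c
  refine ⟨q, g3a, q + ⌈W⌉₊ + 1, by push_cast; linarith [Nat.cast_nonneg (α := ℝ) ⌈W⌉₊], ?_, ?_⟩
  · have h5 := Nat.ceil_lt_add_one hW0
    push_cast
    nlinarith
  · rintro m hm1 hm2 ⟨p, hp, hmp⟩
    push_cast at hm2
    have h5 := Nat.ceil_lt_add_one hW0
    have h5' := Nat.le_ceil W
    -- p ≤ 4 q
    have hmv' := move_abs hC' (hu p hp)
    rw [abs_le] at hmv'
    have hf1 := Int.floor_le ((p : ℝ) + C' * Real.log p ^ 2 * u p)
    have hf2 := Int.lt_floor_add_one ((p : ℝ) + C' * Real.log p ^ 2 * u p)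
    have hmr : (m : ℝ) = ((⌊(p : ℝ) + C' * Real.log p ^ 2 * u p⌋ : ℤ) : ℝ) := by
      exact_mod_cast congrArg (fun y : ℤ => (y : ℝ)) hmp
    rw [← hmr] at hf1 hf2
    have hm2q : (m : ℝ) ≤ 2 * q := by
      nlinarith
    have hp4 : (p : ℝ) ≤ 4 * q := by
      by_contra hcon
      push Not at hcon
      have h6 := hY p (by linarith)
      linarith [hmv'.1]
    have hlogp : Real.log p ^ 2 ≤ Real.log (4 * q) ^ 2 := by
      apply pow_le_pow_left₀ (Real.log_natCast_nonneg p)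
      exact Real.log_le_log (by exact_mod_cast hp.pos) hp4
    have hdiff : |C * Real.log p ^ 2 * u p - C' * Real.log p ^ 2 * u p| ≤ W := by
      have e1 : C * Real.log p ^ 2 * u p - C' * Real.log p ^ 2 * u p =
          (C - C') * (Real.log p ^ 2 * u p) := by ring
      rw [e1, abs_mul, hW]
      apply mul_le_mul_of_nonneg_left _ hD0
      rw [abs_mul, abs_of_nonneg (by positivity : (0 : ℝ) ≤ Real.log p ^ 2)]
      have := hu p hp
      have h7 : 0 ≤ Real.log p ^ 2 := by positivity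
      nlinarith
    rw [abs_le] at hdiff
    have hg1 := Int.floor_le ((p : ℝ) + C * Real.log p ^ 2 * u p)
    have hg2 := Int.lt_floor_add_one ((p : ℝ) + C * Real.log p ^ 2 * u p)
    set M := ⌊(p : ℝ) + C * Real.log p ^ 2 * u p⌋ with hM
    have hm1r : (q : ℝ) + ⌈W⌉₊ + 2 ≤ m := by
      have : q + ⌈W⌉₊ + 1 + 1 ≤ m := hm1
      have h8 : ((q + ⌈W⌉₊ + 1 + 1 : ℕ) : ℝ) ≤ m := by exact_mod_cast this
      push_cast at h8
      linarith
    have hM1 : (q : ℝ) < M := by linarith [hdiff.1, hdiff.2]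
    have hM2 : (M : ℝ) < q' := by nlinarith [hdiff.1, hdiff.2]
    have hM1' : (q : ℤ) < M := by exact_mod_cast hM1
    have hM2' : M < (q' : ℤ) := by exact_mod_cast hM2
    have hMQ : M.toNat ∈ cloud C u := by
      refine ⟨p, hp, ?_⟩
      rw [Int.toNat_of_nonneg (by omega)]
    have h9 : q < M.toNat := by omega
    have h10 : M.toNat < q' := by omega
    have h11 := Nat.le_nth_of_lt_nth_succ (p := (· ∈ cloud C u)) h10 hMQ
    omega

/-- The Cramér constant of the moved primes is `2`-Lipschitz in `C`. -/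
theorem gapL_lipschitz {C C' : ℝ} (hC : 0 ≤ C) (hC' : 0 ≤ C') {u : ℕ → ℝ}
    (hu : ∀ p : ℕ, p.Prime → |u p| ≤ 1) :
    gapL (cloud C u) ≤ gapL (cloud C' u) + ((2 * |C - C'| : ℝ) : EReal) := by
  have hD0 : 0 ≤ |C - C'| := abs_nonneg _
  have hnn := gapL_nonneg _ (cloud_infinite hC' hu)
  apply EReal.ge_of_forall_gt_iff_ge.mp
  intro z hz
  -- `z < gapL (cloud C u)`
  obtain ⟨z1, hz1, hz2⟩ := EReal.lt_iff_exists_real_btwn.mp hz
  rw [EReal.coe_lt_coe_iff] at hz1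
  rcases le_or_gt (z - 2 * |C - C'|) 0 with h | h
  · have h1 : ((z : ℝ) : EReal) ≤ ((2 * |C - C'| : ℝ) : EReal) := by
      rw [EReal.coe_le_coe_iff]; linarith
    refine h1.trans ?_
    exact le_add_of_nonneg_left hnn
  · have h1 := transfer hC hC' hu (l := z - 2 * |C - C'|) (l1 := z1) h (by linarith) hz2
    have h2 : ((z : ℝ) : EReal) = ((z - 2 * |C - C'| : ℝ) : EReal) + ((2 * |C - C'| : ℝ) : EReal) := by
      rw [← EReal.coe_add]
      congr 1
      ring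
    rw [h2]
    exact add_le_add_left h1 _

end Pool.Agent.Work.MP_b0c12c_nt_helper63
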