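import Pool.Agent.Work.MP_b0c12c_nt_helper63.C5
import Pool.Agent.Work.MP_b0c12c_nt_helper63.C6

/-!
Assembly for the primes moved by at most `C (log p)^2`.
-/

set_option linter.unusedSectionVars false
set_option linter.deprecated false

namespace Pool.Agent.Work.MP_b0c12c_nt_helper63

open MeasureTheory ProbabilityTheory Filter Topology Finset Pool.Agent.Work.MP_b0c12c_nt
open scoped ENNReal NNReal

/-- the function `K(C,g)` -/
noncomputable def KK (C g : ℝ) : ℝ := 2 * g + (2 * C - g) * Real.log (1 - g / (2 * C))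

lemma cloud_one {C g : ℝ} (hC : 0 < C) (hg : 0 < g) (hgC : g < 2 * C)
    (hK : KK C g < 2 * Real.exp (-Real.eulerMascheroniConstant))
    (hS : Itf2.UniformPntStrong)
    {Ω : Type*} [MeasurableSpace Ω] (μ : Measure Ω) [IsProbabilityMeasure μ]
    (X : ℕ → Ω → ℝ) (hXm : ∀ p, Measurable (X p)) (hXi : iIndepFun X μ)
    (hXu : ∀ p : ℕ, p.Prime → UnifOn μ (X p)) :
    ∀ᵐ ω ∂μ, ((g : ℝ) : EReal) ≤ gapL (cloud C (fun p => X p ω)) := by
  have habs : ∀ᵐ ω ∂μ, ∀ p : ℕ, p.Prime → |X p ω| ≤ 1 := by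
    rw [ae_all_iff]
    intro p
    by_cases hp : p.Prime
    · filter_upwards [abs_le_one_ae (hXm p) (hXu p hp)] with ω hω _ using hω
    · exact Eventually.of_forall fun ω h => absurd h hp
  have hwin : ∀ n : ℕ, ∀ᵐ ω ∂μ, ∀ x0 : ℝ, ∃ x : ℝ, x0 ≤ x ∧ ∃ t : ℕ, x ≤ (t : ℝ) ∧
      (t : ℝ) ≤ 4 * x ∧ ∀ m : ℕ, t < m → (m : ℝ) ≤ t + (g * (1 - 1 / ((n : ℝ) + 2))) * Real.log x ^ 2 →
        ¬ ∃ p : ℕ, p.Prime ∧ (m : ℤ) = ⌊(p : ℝ) + C * Real.log p ^ 2 * X p ω⌋ := by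
    intro n
    have hn0 : (0 : ℝ) ≤ n := Nat.cast_nonneg n
    have hn1 : 0 < 1 - 1 / ((n : ℝ) + 2) := by
      rw [sub_pos, div_lt_one (by linarith)]
      linarith
    have hn2 : 1 - 1 / ((n : ℝ) + 2) < 1 := by
      have : 0 < 1 / ((n : ℝ) + 2) := by positivity
      linarith
    exact windows_cloud hC hg hgC hK hS (l := g * (1 - 1 / ((n : ℝ) + 2))) (by positivity)
      (by nlinarith) μ X hXm hXi hXu
  filter_upwards [habs, ae_all_iff.mpr hwin] with ω h1 h2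
  have hinf : (cloud C (fun p => X p ω)).Infinite := cloud_infinite hC.le h1
  have h3 : ∀ n : ℕ, ((g * (1 - 1 / ((n : ℝ) + 2)) : ℝ) : EReal) ≤
      gapL (cloud C (fun p => X p ω)) := by
    intro n
    have hn0 : (0 : ℝ) ≤ n := Nat.cast_nonneg n
    have hn1 : 0 < 1 - 1 / ((n : ℝ) + 2) := by
      rw [sub_pos, div_lt_one (by linarith)]
      linarith
    exact limsupOfWindows _ hinf _ (by positivity) (h2 n)
  have h4 : Tendsto (fun n : ℕ => g * (1 - 1 / ((n : ℝ) + 2))) atTop (𝓝 (g * (1 - 0))) := by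
    apply Tendsto.const_mul
    apply Tendsto.const_sub
    apply tendsto_const_nhds.div_atTop
    exact tendsto_atTop_add_const_right _ _ tendsto_natCast_atTop_atTop
  rw [sub_zero, mul_one] at h4
  exact le_of_tendsto' ((continuous_coe_real_ereal.tendsto g).comp h4) h3

lemma continuousAt_KK {C g : ℝ} (hC : 0 < C) (hgC : g < 2 * C) :
    ContinuousAt (fun v : ℝ × ℝ => KK v.1 v.2) (C, g) := by
  unfold KK
  apply ContinuousAt.add (by fun_prop)
  apply ContinuousAt.mul (by fun_prop)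
  apply ContinuousAt.log
  · apply ContinuousAt.sub continuousAt_const
    apply ContinuousAt.div (by fun_prop) (by fun_prop)
    simp only
    positivity
  · simp only
    have : g / (2 * C) < 1 := by rw [div_lt_one (by linarith)]; exact hgC
    linarith

/-- all `C` and `g` simultaneously -/
theorem cloud_all (hS : Itf2.UniformPntStrong)
    {Ω : Type*} [MeasurableSpace Ω] (μ : Measure Ω) [IsProbabilityMeasure μ]
    (X : ℕ → Ω → ℝ) (hXm : ∀ p, Measurable (X p)) (hXi : iIndepFun X μ)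
    (hXu : ∀ p : ℕ, p.Prime → UnifOn μ (X p)) :
    ∀ᵐ ω ∂μ, ∀ C g : ℝ, 0 < C → 0 < g → g < 2 * C →
      KK C g < 2 * Real.exp (-Real.eulerMascheroniConstant) →
      ((g : ℝ) : EReal) ≤ gapL (cloud C (fun p => X p ω)) := by
  have habs : ∀ᵐ ω ∂μ, ∀ p : ℕ, p.Prime → |X p ω| ≤ 1 := by
    rw [ae_all_iff]
    intro p
    by_cases hp : p.Prime
    · filter_upwards [abs_le_one_ae (hXm p) (hXu p hp)] with ω hω _ using hω
    · exact Eventually.of_forall fun ω h => absurd h hp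
  have hrat : ∀ᵐ ω ∂μ, ∀ q : ℚ × ℚ, 0 < (q.1 : ℝ) → 0 < (q.2 : ℝ) → (q.2 : ℝ) < 2 * (q.1 : ℝ) →
      KK q.1 q.2 < 2 * Real.exp (-Real.eulerMascheroniConstant) →
      (((q.2 : ℝ)) : EReal) ≤ gapL (cloud (q.1 : ℝ) (fun p => X p ω)) := by
    rw [ae_all_iff]
    intro q
    by_cases h : 0 < (q.1 : ℝ) ∧ 0 < (q.2 : ℝ) ∧ (q.2 : ℝ) < 2 * (q.1 : ℝ) ∧
      KK q.1 q.2 < 2 * Real.exp (-Real.eulerMascheroniConstant)
    · obtain ⟨h1, h2, h3, h4⟩ := h
      filter_upwards [cloud_one h1 h2 h3 h4 hS μ X hXm hXi hXu] with ω hω _ _ _ _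
      exact hω
    · exact Eventually.of_forall fun ω h1 h2 h3 h4 => absurd ⟨h1, h2, h3, h4⟩ h
  filter_upwards [habs, hrat] with ω h1 h2 C g hC hg hgC hK
  refine EReal.ge_of_forall_gt_iff_ge.mp (fun z hz => ?_)
  rw [EReal.coe_lt_coe_iff] at hz
  -- rational point near `(C, g)`
  have hopen : ∀ᶠ v : ℝ × ℝ in 𝓝 (C, g), 0 < v.1 ∧ 0 < v.2 ∧ v.2 < 2 * v.1 ∧
      KK v.1 v.2 < 2 * Real.exp (-Real.eulerMascheroniConstant) ∧
      z + 2 * |C - v.1| < v.2 := by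
    have e1 : ∀ᶠ v : ℝ × ℝ in 𝓝 (C, g), 0 < v.1 :=
      (continuous_fst.tendsto (C, g)).eventually (lt_mem_nhds hC)
    have e2 : ∀ᶠ v : ℝ × ℝ in 𝓝 (C, g), 0 < v.2 :=
      (continuous_snd.tendsto (C, g)).eventually (lt_mem_nhds hg)
    have e3 : ∀ᶠ v : ℝ × ℝ in 𝓝 (C, g), 0 < 2 * v.1 - v.2 := by
      have : Continuous fun v : ℝ × ℝ => 2 * v.1 - v.2 := by fun_prop
      exact (this.tendsto (C, g)).eventually (lt_mem_nhds (by simp only; linarith))
    have e4 : ∀ᶠ v : ℝ × ℝ in 𝓝 (C, g), KK v.1 v.2 < 2 * Real.exp (-Real.eulerMascheroniConstant) :=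
      (continuousAt_KK hC hgC).tendsto.eventually (gt_mem_nhds hK)
    have e5 : ∀ᶠ v : ℝ × ℝ in 𝓝 (C, g), 0 < v.2 - (z + 2 * |C - v.1|) := by
      have : Continuous fun v : ℝ × ℝ => v.2 - (z + 2 * |C - v.1|) := by fun_prop
      exact (this.tendsto (C, g)).eventually (lt_mem_nhds (by simp; linarith))
    filter_upwards [e1, e2, e3, e4, e5] with v f1 f2 f3 f4 f5
    exact ⟨f1, f2, by linarith, f4, by linarith⟩
  have hdense : DenseRange (fun q : ℚ × ℚ => ((q.1 : ℝ), (q.2 : ℝ))) :=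
    Rat.denseRange_cast.prodMap Rat.denseRange_cast
  obtain ⟨s, hs1, hs2, hs3⟩ := mem_nhds_iff.mp hopen
  obtain ⟨q, hq⟩ := hdense.exists_mem_open hs2 ⟨_, hs3⟩
  obtain ⟨f1, f2, f3, f4, f5⟩ := hs1 hq
  simp only at f1 f2 f3 f4 f5
  have h3 := h2 q f1 f2 f3 f4
  have h4 := gapL_lipschitz f1.le hC.le (u := fun p => X p ω) h1
  rw [abs_sub_comm] at h4
  have h5 : (((q.2 : ℝ)) : EReal) ≤ gapL (cloud C (fun p => X p ω)) +
      ((2 * |C - (q.1 : ℝ)| : ℝ) : EReal) := h3.trans h4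
  have h6 : ((z : ℝ) : EReal) + ((2 * |C - (q.1 : ℝ)| : ℝ) : EReal) ≤
      gapL (cloud C (fun p => X p ω)) + ((2 * |C - (q.1 : ℝ)| : ℝ) : EReal) := by
    refine le_trans ?_ h5
    rw [← EReal.coe_add, EReal.coe_le_coe_iff]
    linarith
  have h7 := EReal.sub_le_sub h6 (le_refl ((2 * |C - (q.1 : ℝ)| : ℝ) : EReal))
  rwa [EReal.add_sub_cancel_right, EReal.add_sub_cancel_right] at h7

/-- bound for `K` -/
lemma KK_le {C g : ℝ} (hC : 0 < C) (hg : 0 < g) (hgC : g < 2 * C) : KK C g ≤ g + g ^ 2 / (2 * C) := by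
  unfold KK
  have h1 : 0 < 1 - g / (2 * C) := by
    rw [sub_pos, div_lt_one (by linarith)]; exact hgC
  have h2 := Real.log_le_sub_one_of_pos h1
  have h3 : (2 * C - g) * Real.log (1 - g / (2 * C)) ≤ (2 * C - g) * (1 - g / (2 * C) - 1) :=
    mul_le_mul_of_nonneg_left h2 (by linarith)
  have h4 : (2 * C - g) * (1 - g / (2 * C) - 1) = -g + g ^ 2 / (2 * C) := by
    field_simp
    ring
  linarith

lemma KK_one_le {C : ℝ} (hC : 9 / 4 ≤ C) : KK C 1 ≤ KK (9 / 4) 1 := by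
  have hC0 : 0 < C := by linarith
  set y := 1 - 1 / (2 * C) with hy
  have hy1 : 7 / 9 ≤ y := by
    have h1 : 1 / (2 * C) ≤ 1 / (2 * (9 / 4)) := one_div_le_one_div_of_le (by norm_num) (by linarith)
    have h2 : (1 : ℝ) / (2 * (9 / 4)) = 2 / 9 := by norm_num
    rw [hy]
    linarith
  have hy2 : y < 1 := by
    have : 0 < 1 / (2 * C) := by positivity
    rw [hy]; linarith
  have hconv := Real.convexOn_mul_log
  have h1y : 0 < 1 - y := by linarith
  -- y = a * (7/9) + b * 1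
  set a := (1 - y) / (2 / 9) with ha
  have ha0 : 0 ≤ a := by rw [ha]; positivity
  have ha1 : a ≤ 1 := by rw [ha, div_le_one (by norm_num)]; linarith
  have h3 := hconv.2 (show (7 / 9 : ℝ) ∈ Set.Ici 0 by norm_num) (show (1 : ℝ) ∈ Set.Ici 0 by norm_num)
    ha0 (show 0 ≤ 1 - a by linarith) (by ring)
  simp only [smul_eq_mul, Real.log_one, mul_zero, add_zero, mul_one] at h3
  have h4 : a * (7 / 9) + (1 - a) = y := by rw [ha]; ring
  rw [h4] at h3
  have h5 : y * Real.log y ≤ (1 - y) * (7 / 2 * Real.log (7 / 9)) := by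
    refine h3.trans (le_of_eq ?_)
    rw [ha]; ring
  have h6 : (2 * C - 1) * Real.log y = y * Real.log y / (1 - y) := by
    have h7 : 1 - y = 1 / (2 * C) := by rw [hy]; ring
    have h8 : y = (2 * C - 1) * (1 / (2 * C)) := by rw [hy]; field_simp
    rw [h7]
    rw [eq_div_iff (by positivity)]
    nth_rewrite 2 [h8]
    ring
  unfold KK
  have h9 : (1 : ℝ) - 1 / (2 * (9 / 4)) = 7 / 9 := by norm_num
  rw [h9, ← hy, h6]
  have h10 : y * Real.log y / (1 - y) ≤ 7 / 2 * Real.log (7 / 9) := by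
    rw [div_le_iff₀ h1y]
    linarith
  have h11 : (2 * (9 / 4) - 1 : ℝ) = 7 / 2 := by norm_num
  rw [h11]
  linarith

end Pool.Agent.Work.MP_b0c12c_nt_helper63
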