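import Pool.Agent.Work.MP_b0c12c_nt_helper63.C7
import Pool.Agent.Work.MP_b0c12c_nt_helper41.Num

/-!
Numerical consequences.
-/

set_option linter.unusedSectionVars false
set_option linter.deprecated false

namespace Pool.Agent.Work.MP_b0c12c_nt_helper63

open MeasureTheory ProbabilityTheory Filter Topology Finset Pool.Agent.Work.MP_b0c12c_nt
open scoped ENNReal NNReal

lemma two_exp_gt : (11215 : ℝ) / 10000 < 2 * Real.exp (-Real.eulerMascheroniConstant) := by
  have h1 := Pool.Agent.Work.MP_b0c12c_nt_helper41.exp_gamma_le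
  have h2 := Real.exp_pos Real.eulerMascheroniConstant
  have h3 : (10000 : ℝ) / 17832 ≤ Real.exp (-Real.eulerMascheroniConstant) := by
    rw [Real.exp_neg, le_inv_comm₀ (by norm_num) h2]
    refine h1.trans (le_of_eq ?_)
    norm_num
  have h4 : (11215 : ℝ) / 10000 < 2 * (10000 / 17832) := by norm_num
  linarith

lemma log_seven_ninth : Real.log (7 / 9) ≤ -(2512 / 10000) := by
  have h1 : Real.exp (2512 / 10000) ≤ 9 / 7 := by
    have h := Real.exp_bound' (x := 2512 / 10000) (by norm_num) (by norm_num) (n := 6) (by norm_num)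
    refine h.trans ?_
    norm_num [Finset.sum_range_succ, Nat.factorial]
  have h2 : (2512 : ℝ) / 10000 ≤ Real.log (9 / 7) := by
    rw [Real.le_log_iff_exp_le (by norm_num)]
    exact h1
  have h3 : Real.log (7 / 9) = -Real.log (9 / 7) := by
    rw [← Real.log_inv]; norm_num
  rw [h3]
  linarith

lemma KK_nine_quarter : KK (9 / 4) 1 < 2 * Real.exp (-Real.eulerMascheroniConstant) := by
  have h1 := two_exp_gt
  have h2 := log_seven_ninth
  unfold KK
  have h9 : (1 : ℝ) - 1 / (2 * (9 / 4)) = 7 / 9 := by norm_num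
  rw [h9]
  linarith

lemma two_exp_lt : 2 * Real.exp (-Real.eulerMascheroniConstant) < 5 / 4 := by
  have h1 := Real.one_half_lt_eulerMascheroniConstant
  have h2 : Real.exp (-Real.eulerMascheroniConstant) < Real.exp (-(1 / 2)) :=
    Real.exp_lt_exp.mpr (by linarith)
  have h3 : Real.exp (-(1 / 2)) ≤ 5 / 8 := by
    rw [Real.exp_neg, inv_le_comm₀ (Real.exp_pos _) (by norm_num)]
    have h4 := Real.quadratic_le_exp_of_nonneg (show (0 : ℝ) ≤ 1 / 2 by norm_num)
    refine le_trans ?_ h4
    norm_num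
  linarith

theorem cloud_final (hS : Itf2.UniformPntStrong)
    {Ω : Type*} [MeasurableSpace Ω] (μ : Measure Ω) [IsProbabilityMeasure μ]
    (X : ℕ → Ω → ℝ) (hXm : ∀ p, Measurable (X p)) (hXi : iIndepFun X μ)
    (hXu : ∀ p : ℕ, p.Prime → UnifOn μ (X p)) :
    ∀ᵐ ω ∂μ,
      (∀ C g : ℝ, 0 < g → g < 2 * C →
        2 * g + (2 * C - g) * Real.log (1 - g / (2 * C)) <
          2 * Real.exp (-Real.eulerMascheroniConstant) →
        ((g : ℝ) : EReal) ≤ gapL (cloud C (fun p => X p ω))) ∧
      (∀ C : ℝ, 9 / 4 ≤ C → 1 < gapL (cloud C (fun p => X p ω))) ∧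
      (∀ C : ℝ, 1 ≤ C → ((2 * Real.exp (-Real.eulerMascheroniConstant) - 1 / C : ℝ) : EReal) ≤
        gapL (cloud C (fun p => X p ω))) := by
  filter_upwards [cloud_all hS μ X hXm hXi hXu] with ω h
  refine ⟨fun C g hg hgC hK => h C g (by linarith) hg hgC hK, fun C hC => ?_, fun C hC => ?_⟩
  · have hC0 : 0 < C := by linarith
    have h1 : KK C 1 < 2 * Real.exp (-Real.eulerMascheroniConstant) :=
      lt_of_le_of_lt (KK_one_le hC) KK_nine_quarter
    have h2 : ∀ᶠ g : ℝ in 𝓝[>] 1, KK C g < 2 * Real.exp (-Real.eulerMascheroniConstant) := by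
      have h3 : ContinuousAt (fun g : ℝ => KK C g) 1 :=
        (continuousAt_KK hC0 (g := 1) (by linarith)).comp (f := fun g : ℝ => (C, g)) (by fun_prop)
      exact (h3.tendsto.eventually (gt_mem_nhds h1)).filter_mono nhdsWithin_le_nhds
    obtain ⟨g, hg1, hg2⟩ := (h2.and (Ioo_mem_nhdsGT (show (1 : ℝ) < 2 * C by linarith))).exists
    refine lt_of_lt_of_le ?_ (h C g hC0 (by linarith [hg2.1]) hg2.2 hg1)
    exact_mod_cast hg2.1
  · have hC0 : 0 < C := by linarith
    set E := 2 * Real.exp (-Real.eulerMascheroniConstant) with hE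
    have hE1 := two_exp_lt
    have hE2 := two_exp_gt
    rw [← hE] at hE1 hE2
    have h1C : 0 < 1 / C := by positivity
    have h1C' : 1 / C ≤ 1 := by rw [div_le_one hC0]; exact hC
    have hg0 : 0 < E - 1 / C := by linarith
    refine h C (E - 1 / C) hC0 hg0 (by linarith) ?_
    refine lt_of_le_of_lt (KK_le hC0 hg0 (by linarith)) ?_
    have h2 : (E - 1 / C) ^ 2 < 2 := by nlinarith
    have h3 : (E - 1 / C) ^ 2 / (2 * C) < 1 / C := by
      rw [div_lt_div_iff₀ (by positivity) hC0]
      nlinarith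
    linarith

end Pool.Agent.Work.MP_b0c12c_nt_helper63
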