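import Pool.Agent.Work.MP_b0c12c_nt_helper63.Prob
import Pool.Agent.Work.MP_b0c12c_nt_helper63.BlockD

/-!
Common part of the blocks P and T.
-/

set_option linter.unusedSectionVars false
set_option linter.deprecated false

namespace Pool.Agent.Work.MP_b0c12c_nt_helper63

open MeasureTheory ProbabilityTheory Filter Topology Finset

/-- Jensen for the exponential. -/
lemma jensen_exp (T : Finset ℕ) (N : ℕ → ℝ) (c s : ℝ) (hc : 0 ≤ c)
    (h : ∑ t ∈ T, N t ≤ T.card * s) :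
    T.card * Real.exp (-(c * s)) ≤ ∑ t ∈ T, Real.exp (-(c * N t)) := by
  have h1 : ∀ t ∈ T, Real.exp (-(c * s)) * (1 - c * (N t - s)) ≤ Real.exp (-(c * N t)) := by
    intro t _
    have h2 : Real.exp (-(c * N t)) = Real.exp (-(c * s)) * Real.exp (-(c * (N t - s))) := by
      rw [← Real.exp_add]; congr 1; ring
    rw [h2]
    apply mul_le_mul_of_nonneg_left _ (Real.exp_pos _).le
    have := Real.add_one_le_exp (-(c * (N t - s)))
    linarith
  have h2 : ∑ t ∈ T, (1 - c * (N t - s)) = T.card - c * (∑ t ∈ T, N t - T.card * s) := by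
    rw [Finset.sum_sub_distrib, ← Finset.mul_sum, Finset.sum_sub_distrib]
    simp
  calc (T.card : ℝ) * Real.exp (-(c * s))
      ≤ Real.exp (-(c * s)) * ∑ t ∈ T, (1 - c * (N t - s)) := by
        rw [h2, mul_comm]
        apply mul_le_mul_of_nonneg_left _ (Real.exp_pos _).le
        have : c * (∑ t ∈ T, N t - T.card * s) ≤ 0 := mul_nonpos_of_nonneg_of_nonpos hc (by linarith)
        linarith
    _ = ∑ t ∈ T, Real.exp (-(c * s)) * (1 - c * (N t - s)) := by rw [Finset.mul_sum]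
    _ ≤ _ := Finset.sum_le_sum h1

variable {Ω : Type*} [MeasurableSpace Ω] {μ : Measure Ω} [IsProbabilityMeasure μ]

/-- The probability that no good event occurs is a negative power of `x`. -/
lemma core_bound (x ρ η : ℝ) (hx : 1 < x) (T : Finset ℕ) (G : ℕ → Set Ω)
    (hG : ∀ t ∈ T, MeasurableSet (G t)) (N : ℕ → ℝ) (c s : ℝ) (hc : 0 ≤ c)
    (hN : ∑ t ∈ T, N t ≤ T.card * s) (hcs : c * s ≤ ρ * Real.log x)
    (hT : x ^ (1 - η) ≤ (T.card : ℝ))
    (hlow : ∀ t ∈ T, Real.exp (-(c * N t)) ≤ μ.real (G t))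
    (hneg : ∀ t ∈ T, ∀ t' ∈ T, t ≠ t' → μ.real (G t ∩ G t') ≤ μ.real (G t) * μ.real (G t')) :
    μ.real {ω | ∀ t ∈ T, ω ∉ G t} ≤ x ^ (-(1 - η - ρ)) := by
  have hx0 : 0 < x := by linarith
  have hlam : 0 < x ^ (1 - η - ρ) := Real.rpow_pos_of_pos hx0 _
  have hsum : x ^ (1 - η - ρ) ≤ ∑ t ∈ T, μ.real (G t) := by
    calc x ^ (1 - η - ρ) = x ^ (1 - η) * x ^ (-ρ) := by
          rw [← Real.rpow_add hx0]; congr 1
      _ ≤ T.card * Real.exp (-(c * s)) := by
          apply mul_le_mul hT _ (Real.rpow_nonneg hx0.le _) (by positivity)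
          rw [Real.rpow_def_of_pos hx0]
          apply Real.exp_le_exp.mpr
          linarith
      _ ≤ ∑ t ∈ T, Real.exp (-(c * N t)) := jensen_exp T N c s hc hN
      _ ≤ _ := Finset.sum_le_sum hlow
  have h := second_moment T G hG hneg hlam hsum
  rwa [Real.rpow_neg hx0.le, ← one_div]

/-- Borel-Cantelli along powers of two. -/
lemma bc_pow_two (κ : ℝ) (hκ : 0 < κ) (bad : ℕ → Set Ω) (k0 : ℕ)
    (h : ∀ k, k0 ≤ k → μ.real (bad k) ≤ ((2 : ℝ) ^ k) ^ (-κ)) :
    ∀ᵐ ω ∂μ, ∀ᶠ k in atTop, ω ∉ bad k := by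
  have hr0 : (0 : ℝ) ≤ (2 : ℝ) ^ (-κ) := Real.rpow_nonneg (by norm_num) _
  have hr1 : (2 : ℝ) ^ (-κ) < 1 := Real.rpow_lt_one_of_one_lt_of_neg (by norm_num) (by linarith)
  have hs : Summable fun j : ℕ => ((2 : ℝ) ^ (-κ)) ^ j := summable_geometric_of_lt_one hr0 hr1
  have h1 : ∀ j, μ (bad (k0 + j)) ≤ ENNReal.ofReal (((2 : ℝ) ^ (-κ)) ^ j) := by
    intro j
    rw [← ofReal_measureReal]
    apply ENNReal.ofReal_le_ofReal
    refine (h (k0 + j) (by omega)).trans ?_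
    have e1 : ((2 : ℝ) ^ (k0 + j)) ^ (-κ) = ((2 : ℝ) ^ (-κ)) ^ (k0 + j) := by
      rw [← Real.rpow_natCast, ← Real.rpow_natCast, ← Real.rpow_mul (by norm_num),
        ← Real.rpow_mul (by norm_num), mul_comm]
    rw [e1]
    exact pow_le_pow_of_le_one hr0 hr1.le (by omega)
  have h2 : (∑' j, μ (bad (k0 + j))) ≠ ⊤ :=
    ne_top_of_le_ne_top hs.tsum_ofReal_ne_top (ENNReal.tsum_le_tsum h1)
  filter_upwards [ae_eventually_notMem h2] with ω hω
  rw [eventually_atTop] at hω ⊢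
  obtain ⟨K, hK⟩ := hω
  refine ⟨k0 + K, fun k hk => ?_⟩
  have := hK (k - k0) (by omega)
  rwa [Nat.add_sub_cancel' (by omega)] at this

/-- `(log (c x))^A / (log x)^A → 1`. -/
lemma log_ratio_rpow (c A : ℝ) (hc : 0 < c) :
    Tendsto (fun x : ℝ => Real.log (c * x) ^ A / Real.log x ^ A) atTop (𝓝 1) := by
  have h1 : Tendsto (fun x : ℝ => (Real.log (c * x) / Real.log x) ^ A) atTop (𝓝 ((1 : ℝ) ^ A)) :=
    (log_ratio c hc).rpow_const (Or.inl one_ne_zero)
  rw [Real.one_rpow] at h1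
  refine h1.congr' ?_
  filter_upwards [eventually_gt_atTop 1, eventually_gt_atTop (1 / c)] with x hx hx2
  have h2 : 0 < Real.log (c * x) := by
    apply Real.log_pos
    rw [div_lt_iff₀ hc] at hx2
    linarith
  exact Real.div_rpow h2.le (Real.log_pos hx).le A

end Pool.Agent.Work.MP_b0c12c_nt_helper63
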