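import Mathlib

/-!
Numerical parameters.
-/

namespace Pool.Agent.Work.MP_b0c12c_nt_helper63

open Filter Topology

lemma growth (ε C : ℝ) (hε : 0 < ε) :
    ∀ᶠ x : ℕ in atTop, C * (1 + Real.log x ^ 2) ≤ Real.exp (ε * Real.log x) := by
  have h1 : Tendsto (fun X : ℝ => (ε * X) ^ 2 * Real.exp (-(ε * X))) atTop (𝓝 0) :=
    (Real.tendsto_pow_mul_exp_neg_atTop_nhds_zero 2).comp (tendsto_id.const_mul_atTop hε)
  have h2 : Tendsto (fun X : ℝ => (ε * X) ^ 0 * Real.exp (-(ε * X))) atTop (𝓝 0) :=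
    (Real.tendsto_pow_mul_exp_neg_atTop_nhds_zero 0).comp (tendsto_id.const_mul_atTop hε)
  have h3 : Tendsto (fun X : ℝ => C * ((ε * X) ^ 0 * Real.exp (-(ε * X))) +
      C / ε ^ 2 * ((ε * X) ^ 2 * Real.exp (-(ε * X)))) atTop (𝓝 (C * 0 + C / ε ^ 2 * 0)) :=
    (h2.const_mul C).add (h1.const_mul _)
  rw [mul_zero, mul_zero, add_zero] at h3
  have h4 : ∀ᶠ X : ℝ in atTop, C * ((ε * X) ^ 0 * Real.exp (-(ε * X))) +
      C / ε ^ 2 * ((ε * X) ^ 2 * Real.exp (-(ε * X))) ≤ 1 :=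
    (h3.eventually (gt_mem_nhds (show (0 : ℝ) < 1 by norm_num))).mono fun _ h => h.le
  have h5 : ∀ᶠ X : ℝ in atTop, C * (1 + X ^ 2) ≤ Real.exp (ε * X) := by
    filter_upwards [h4] with X hX
    have e : C * ((ε * X) ^ 0 * Real.exp (-(ε * X))) +
      C / ε ^ 2 * ((ε * X) ^ 2 * Real.exp (-(ε * X))) = (C * (1 + X ^ 2)) * Real.exp (-(ε * X)) := by
      field_simp
    rw [e, Real.exp_neg] at hX
    have hpos := Real.exp_pos (ε * X)
    rwa [← div_eq_mul_inv, div_le_one hpos] at hX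
  exact (Real.tendsto_log_atTop.comp tendsto_natCast_atTop_atTop).eventually h5

lemma params (θ w : ℝ) (x : ℕ) (hθ0 : 0 < θ) (hθ1 : θ < 1 / 2) (hw1 : 1 ≤ w)
    (ha : 100 * (1 + Real.log x ^ 2) ≤ Real.exp (1 / 10 * θ * Real.log x))
    (hb : w ≤ θ * Real.log x / 1140) (hx : 1 < x)
    (H h M : ℕ) (hH : H = ⌊(x : ℝ) ^ θ⌋₊)
    (hh : h = ⌈θ ^ 2 / 4000 * Real.log (2 * x) ^ 2 / w⌉₊)
    (hM : M = ⌊256 * h / Real.log H⌋₊) :
    (H : ℝ) ≤ (x : ℝ) ^ θ ∧ 1 ≤ h ∧ 2 * h ≤ H ∧ 256 * h / Real.log H ≤ M + 1 ∧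
      (M + 1) / (x : ℝ) ^ θ ≤ Real.exp (-w) / 2 ∧ 2 * (M : ℝ) ≤ (x : ℝ) ^ θ ∧
      (4 * h / H) * Real.exp (M * (w + 3)) ≤ Real.exp (-(θ / 4 * Real.log x)) ∧
      θ ^ 2 / 4000 * Real.log (2 * x) ^ 2 ≤ h * w ∧ 2 ≤ H := by
  have hx0 : (0 : ℝ) < x := by exact_mod_cast (by omega : 0 < x)
  set X := Real.log x with hX
  set E := θ * X with hE
  have hX0 : 0 < X := Real.log_pos (by exact_mod_cast hx)
  have hE0 : 0 < E := mul_pos hθ0 hX0
  have hyE : (x : ℝ) ^ θ = Real.exp E := by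
    rw [Real.rpow_def_of_pos hx0, hE, hX, mul_comm]
  have hea : 1 / 10 * θ * X = E / 10 := by rw [hE]; ring
  rw [hea] at ha
  have he4 : Real.exp 4 < 100 := by
    have h1 : Real.exp 4 = Real.exp 1 ^ 4 := by rw [← Real.exp_nat_mul]; norm_num
    rw [h1]
    have h2 := Real.exp_one_lt_d9
    have h3 := Real.exp_pos 1
    calc Real.exp 1 ^ 4 ≤ 2.7182818286 ^ 4 := pow_le_pow_left₀ h3.le h2.le 4
      _ < 100 := by norm_num
  have hE40 : 40 < E := by
    have h1 : Real.exp 4 < Real.exp (E / 10) := by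
      have : (0 : ℝ) ≤ X ^ 2 := by positivity
      linarith
    rw [Real.exp_lt_exp] at h1
    linarith
  have hEX : E ≤ X / 2 := by rw [hE]; nlinarith
  have hlog2 : Real.log 2 < 1 := by have := Real.log_two_lt_d9; linarith
  have hlog20 : 0 < Real.log 2 := Real.log_pos (by norm_num)
  have hL : Real.log (2 * x) = Real.log 2 + X := by rw [Real.log_mul (by norm_num) hx0.ne']
  set L := Real.log (2 * x) with hLdef
  have hL1 : L ≤ 11 / 10 * X := by rw [hL]; linarith
  have hL0 : 0 < L := by rw [hL]; linarith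
  rw [hyE]
  have hy1 : 100 ≤ Real.exp (E / 10) := by
    have : (0 : ℝ) ≤ X ^ 2 := by positivity
    linarith
  have hyy : Real.exp (E / 10) ≤ Real.exp E := Real.exp_le_exp.mpr (by linarith)
  have hHle : (H : ℝ) ≤ Real.exp E := by rw [hH, hyE]; exact Nat.floor_le (Real.exp_pos _).le
  have hHge : Real.exp E / 2 ≤ H := by
    have := Nat.lt_floor_add_one (Real.exp E)
    rw [hH, hyE]
    linarith
  have hH2 : (2 : ℝ) ≤ H := by linarith
  have hH2' : 2 ≤ H := by exact_mod_cast hH2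
  have hlogH : 9 / 10 * E ≤ Real.log H := by
    have h1 : Real.log (Real.exp E / 2) ≤ Real.log H := Real.log_le_log (by positivity) hHge
    rw [Real.log_div (Real.exp_pos _).ne' (by norm_num), Real.log_exp] at h1
    linarith
  have hlogH0 : 0 < Real.log H := by linarith
  have hw0 : 0 < w := by linarith
  -- h
  set A := θ ^ 2 / 4000 * L ^ 2 / w with hA
  have hA0 : 0 < A := by positivity
  have hhge : A ≤ h := by rw [hh]; exact Nat.le_ceil _
  have hhle : (h : ℝ) ≤ A + 1 := by rw [hh]; exact (Nat.ceil_lt_add_one hA0.le).le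
  have hAle : A ≤ 4 / 10000 * E ^ 2 / w := by
    rw [hA]
    apply div_le_div_of_nonneg_right _ hw0.le
    have h1 : L ^ 2 ≤ (11 / 10 * X) ^ 2 := pow_le_pow_left₀ hL0.le hL1 2
    have h2 : θ ^ 2 / 4000 * L ^ 2 ≤ θ ^ 2 / 4000 * (11 / 10 * X) ^ 2 :=
      mul_le_mul_of_nonneg_left h1 (by positivity)
    have h3 : θ ^ 2 / 4000 * (11 / 10 * X) ^ 2 = 121 / 400000 * E ^ 2 := by rw [hE]; ring
    have : (0 : ℝ) ≤ E ^ 2 := by positivity
    linarith
  have hAle2 : A ≤ 4 / 10000 * E ^ 2 := by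
    refine hAle.trans (div_le_self (by positivity) hw1)
  have hh1 : 1 ≤ h := by
    rw [hh]; exact Nat.one_le_iff_ne_zero.mpr (Nat.ceil_pos.mpr hA0).ne'
  have hhX : (h : ℝ) ≤ 1 + X ^ 2 := by
    have h1 : E ^ 2 ≤ (X / 2) ^ 2 := pow_le_pow_left₀ hE0.le hEX 2
    have : (0 : ℝ) ≤ X ^ 2 := by positivity
    nlinarith
  have h2hH : 2 * h ≤ H := by
    have : (2 * h : ℝ) ≤ H := by linarith
    exact_mod_cast this
  -- M
  have hM1 : 256 * h / Real.log H ≤ M + 1 := by rw [hM]; exact (Nat.lt_floor_add_one _).le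
  have hMle : (M : ℝ) ≤ 256 * h / Real.log H := by rw [hM]; exact Nat.floor_le (by positivity)
  have hMle2 : (M : ℝ) ≤ 285 / E + 114 / 1000 * E / w := by
    have h1 : 256 * (h : ℝ) / Real.log H ≤ 256 * (1 + 4 / 10000 * E ^ 2 / w) / (9 / 10 * E) := by
      apply div_le_div₀ (by positivity) (by linarith) (by positivity) hlogH
    have h2 : 256 * (1 + 4 / 10000 * E ^ 2 / w) / (9 / 10 * E) =
        (2560 / 9) / E + (256 * 4 * 10 / (9 * 10000)) * E / w := by
      field_simp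
      ring
    have h3 : (2560 / 9 : ℝ) / E ≤ 285 / E := by
      apply div_le_div_of_nonneg_right (by norm_num) hE0.le
    have h4 : (256 * 4 * 10 / (9 * 10000) : ℝ) * E / w ≤ 114 / 1000 * E / w := by
      apply div_le_div_of_nonneg_right _ hw0.le
      nlinarith
    linarith
  have hMX : (M : ℝ) + 1 ≤ 10 * (1 + X ^ 2) := by
    have h1 : 285 / E ≤ 8 := by rw [div_le_iff₀ hE0]; linarith
    have h2 : 114 / 1000 * E / w ≤ 114 / 1000 * E := div_le_self (by positivity) hw1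
    have h3 : X ≤ 1 + X ^ 2 := by nlinarith [sq_nonneg (X - 1)]
    nlinarith
  have hM2 : 2 * (M : ℝ) ≤ Real.exp E := by linarith
  have hMM : (M + 1) / Real.exp E ≤ Real.exp (-w) / 2 := by
    have h1 : ((M : ℝ) + 1) ≤ Real.exp (E / 10) / 2 := by linarith
    have h2 : w ≤ E / 10 := by linarith
    have h3 : Real.exp (-(E / 10)) ≤ Real.exp (-w) := Real.exp_le_exp.mpr (by linarith)
    calc (M + 1) / Real.exp E ≤ (Real.exp (E / 10) / 2) / Real.exp E :=
          div_le_div_of_nonneg_right h1 (Real.exp_pos _).le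
      _ = Real.exp (E / 10 - E) / 2 := by rw [Real.exp_sub]; ring
      _ ≤ Real.exp (-(E / 10)) / 2 := by
          apply div_le_div_of_nonneg_right _ (by norm_num)
          exact Real.exp_le_exp.mpr (by linarith)
      _ ≤ Real.exp (-w) / 2 := by linarith
  have hMw : (M : ℝ) * (w + 3) ≤ 1 + 456 / 1000 * E := by
    have h1 : w + 3 ≤ 4 * w := by linarith
    have h2 : (M : ℝ) * (w + 3) ≤ (285 / E + 114 / 1000 * E / w) * (4 * w) :=
      mul_le_mul hMle2 h1 (by linarith) (by positivity)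
    have h3 : (285 / E + 114 / 1000 * E / w) * (4 * w) = 1140 * w / E + 456 / 1000 * E := by
      field_simp; ring
    have h4 : 1140 * w / E ≤ 1 := by rw [div_le_one hE0]; linarith
    linarith
  refine ⟨hHle, hh1, h2hH, hM1, hMM, hM2, ?_, ?_, hH2'⟩
  · have h1 : 4 * (h : ℝ) / H ≤ 8 * (1 + X ^ 2) / Real.exp E := by
      rw [div_le_div_iff₀ (by linarith) (Real.exp_pos _)]
      have h2 : 4 * (h : ℝ) * Real.exp E ≤ 4 * (1 + X ^ 2) * Real.exp E :=
        mul_le_mul_of_nonneg_right (by linarith) (Real.exp_pos _).le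
      have h3 : 8 * (1 + X ^ 2) * (Real.exp E / 2) ≤ 8 * (1 + X ^ 2) * H :=
        mul_le_mul_of_nonneg_left hHge (by positivity)
      linarith
    have h2 : Real.exp (M * (w + 3)) ≤ Real.exp (1 + 456 / 1000 * E) := Real.exp_le_exp.mpr hMw
    have h3 : 8 * (1 + X ^ 2) ≤ Real.exp (E / 10) * (8 / 100) := by linarith
    calc 4 * (h : ℝ) / H * Real.exp (M * (w + 3))
        ≤ (8 * (1 + X ^ 2) / Real.exp E) * Real.exp (1 + 456 / 1000 * E) :=
          mul_le_mul h1 h2 (Real.exp_pos _).le (by positivity)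
      _ ≤ (Real.exp (E / 10) * (8 / 100) / Real.exp E) * Real.exp (1 + 456 / 1000 * E) := by
          apply mul_le_mul_of_nonneg_right _ (Real.exp_pos _).le
          exact div_le_div_of_nonneg_right h3 (Real.exp_pos _).le
      _ = (8 / 100 * Real.exp 1) * Real.exp (E / 10 - E + 456 / 1000 * E) := by
          rw [Real.exp_add (1 : ℝ), Real.exp_add (E / 10 - E), Real.exp_sub]; ring
      _ ≤ 1 * Real.exp (E / 10 - E + 456 / 1000 * E) := by
          apply mul_le_mul_of_nonneg_right _ (Real.exp_pos _).le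
          have := Real.exp_one_lt_d9
          linarith
      _ ≤ Real.exp (-(θ / 4 * X)) := by
          rw [one_mul]
          apply Real.exp_le_exp.mpr
          have : θ / 4 * X = E / 4 := by rw [hE]; ring
          rw [this]
          linarith
  · have h1 : A * w ≤ h * w := mul_le_mul_of_nonneg_right hhge hw0.le
    have h2 : A * w = θ ^ 2 / 4000 * L ^ 2 := by rw [hA]; field_simp
    linarith

end Pool.Agent.Work.MP_b0c12c_nt_helper63
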