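import Pool.Agent.Work.MP_b0c12c_nt_helper63.Scale
import Pool.Agent.Work.MP_b0c12c_nt_helper63.Gap
import Pool.Agent.Work.MP_b0c12c_nt_helper63.Params
import Pool.Agent.Work.MP_b0c12c_nt_helper63.Inf

/-!
Main theorem on the semi-random sieve of Eratosthenes.
-/

set_option linter.unusedSectionVars false
set_option linter.deprecated false

namespace Pool.Agent.Work.MP_b0c12c_nt_helper63

open MeasureTheory ProbabilityTheory Finset Filter Topology

variable {Ω : Type*} [MeasurableSpace Ω] {μ : Measure Ω} [IsProbabilityMeasure μ]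
  {a : ℕ → Ω → ℕ}

theorem semirandom (θ : ℝ) (hθ0 : 0 < θ) (hθ1 : θ < 1 / 2) (A : ℕ → Set ℕ)
    (hA : ∀ n, ∀ p ∈ A n, (n : ℝ) ^ θ < p) (w : ℕ → ℝ) (hw1 : ∀ n, 1 ≤ w n) (hwm : Monotone w)
    (hw : Tendsto (fun n : ℕ => w n / Real.log n) atTop (𝓝 0))
    (hfreq : ∃ᶠ x : ℕ in atTop, Real.exp (-w x) ≤ activeSum θ A x)
    (ha : RandomClasses μ a) :
    ∀ᵐ ω ∂μ, (Sifted A (fun p => a p ω)).Infinite ∧
      ((θ ^ 2 / 4000 : ℝ) : EReal) ≤ gapLimsup w (Sifted A (fun p => a p ω)) := by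
  classical
  -- good scales
  have hgood : ∀ᶠ x : ℕ in atTop, 100 * (1 + Real.log x ^ 2) ≤ Real.exp (1 / 10 * θ * Real.log x) ∧
      w x ≤ θ * Real.log x / 1140 ∧ 1 < x := by
    have h1 := growth (1 / 10 * θ) 100 (by positivity)
    have h2 : ∀ᶠ n : ℕ in atTop, w n / Real.log n < θ / 1140 :=
      hw.eventually (gt_mem_nhds (by positivity))
    filter_upwards [h1, h2, eventually_gt_atTop 1] with x hx1 hx2 hx3
    refine ⟨hx1, ?_, hx3⟩
    have hlog : 0 < Real.log x := Real.log_pos (by exact_mod_cast hx3)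
    rw [div_lt_iff₀ hlog] at hx2
    linarith
  have hsel : ∀ j : ℕ, ∃ x : ℕ, 2 ^ j ≤ x ∧ Real.exp (-w x) ≤ activeSum θ A x ∧
      (100 * (1 + Real.log x ^ 2) ≤ Real.exp (1 / 10 * θ * Real.log x) ∧
      w x ≤ θ * Real.log x / 1140 ∧ 1 < x) := by
    intro j
    obtain ⟨x, hx, h1, h2⟩ := (frequently_atTop.mp (hfreq.and_eventually hgood)) (2 ^ j)
    exact ⟨x, hx, h1, h2⟩
  choose f hf1 hf2 hf3 using hsel
  set y : ℕ → ℝ := fun j => (f j : ℝ) ^ θ with hy
  set H : ℕ → ℕ := fun j => ⌊(f j : ℝ) ^ θ⌋₊ with hH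
  set h : ℕ → ℕ := fun j => ⌈θ ^ 2 / 4000 * Real.log (2 * f j) ^ 2 / w (f j)⌉₊ with hh
  set M : ℕ → ℕ := fun j => ⌊256 * (h j : ℝ) / Real.log (H j)⌋₊ with hM
  have hpar := fun j => params θ (w (f j)) (f j) hθ0 hθ1 (hw1 _) (hf3 j).1 (hf3 j).2.1 (hf3 j).2.2
    (H j) (h j) (M j) rfl rfl rfl
  set Q : ℕ → Finset ℕ := fun j => (range (f j + 1)).filter (fun p => p.Prime ∧ p * p ≤ f j ∧
    ∀ n : ℕ, f j ≤ n → (n : ℝ) ≤ f j + (f j : ℝ) ^ θ → p ∈ A n) with hQ
  have hQmem : ∀ j, ∀ p ∈ Q j, p.Prime ∧ p * p ≤ f j ∧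
      ∀ n : ℕ, f j ≤ n → (n : ℝ) ≤ f j + (f j : ℝ) ^ θ → p ∈ A n := fun j p hp => by
    rw [hQ] at hp; exact (mem_filter.mp hp).2
  have hy0 : ∀ j, 0 < y j := fun j => by
    have : (0 : ℝ) < f j := by exact_mod_cast (by have := (hf3 j).2.2; omega : 0 < f j)
    exact Real.rpow_pos_of_pos this _
  set bad : ℕ → Set Ω := fun j => {ω | ∀ i ∈ range (H j / h j), ω ∉ Hit a (Q j).toList (win (f j) (h j) (y j) i)}
    with hbad
  have hbadP : ∀ j, μ.real (bad j) ≤ Real.exp (-(θ / 4 * Real.log (f j))) := by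
    intro j
    obtain ⟨h1, h2, h3, h4, h5, h6, h7, _, _⟩ := hpar j
    refine le_trans (scale ha (f j) (H j) (h j) (M j) (y j) (w (f j)) (Q j) h1 ?_ (by linarith [hw1 (f j)])
      ?_ h2 h3 h4 h5 h6) h7
    · intro p hp
      obtain ⟨hp1, hp2, hp3⟩ := hQmem j p hp
      exact ⟨hp1, hA _ _ (hp3 (f j) le_rfl (by have := (hy0 j).le; simp only [hy] at this; linarith))⟩
    · exact hf2 j
  have hbadP2 : ∀ j, μ.real (bad j) ≤ (Real.exp (-(θ / 4 * Real.log 2))) ^ j := by
    intro j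
    refine (hbadP j).trans ?_
    rw [← Real.exp_nat_mul]
    apply Real.exp_le_exp.mpr
    have h1 : (j : ℝ) * Real.log 2 ≤ Real.log (f j) := by
      rw [← Real.log_pow]
      apply Real.log_le_log (by positivity)
      exact_mod_cast hf1 j
    have h2 : θ / 4 * (j * Real.log 2) ≤ θ / 4 * Real.log (f j) :=
      mul_le_mul_of_nonneg_left h1 (by positivity)
    linarith
  have hsum : (∑' j, μ (bad j)) ≠ ⊤ := by
    have hr1 : Real.exp (-(θ / 4 * Real.log 2)) < 1 := by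
      rw [Real.exp_lt_one_iff]
      have := Real.log_pos (show (1 : ℝ) < 2 by norm_num)
      have : 0 < θ / 4 * Real.log 2 := by positivity
      linarith
    have hs : Summable fun j : ℕ => (Real.exp (-(θ / 4 * Real.log 2))) ^ j :=
      summable_geometric_of_lt_one (Real.exp_pos _).le hr1
    have h1 : ∀ j, μ (bad j) ≤ ENNReal.ofReal ((Real.exp (-(θ / 4 * Real.log 2))) ^ j) := by
      intro j
      rw [← ofReal_measureReal]
      exact ENNReal.ofReal_le_ofReal (hbadP2 j)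
    have h2 := hs.tsum_ofReal_ne_top
    exact ne_top_of_le_ne_top h2 (ENNReal.tsum_le_tsum h1)
  have hBC := ae_eventually_notMem hsum
  filter_upwards [sifted_infinite ha θ hθ0 hθ1 A hA, hBC] with ω hinf hev
  refine ⟨hinf, ?_⟩
  apply le_gapLimsup w (fun n => by linarith [hw1 n]) hwm _ hinf _ (by positivity)
  intro X
  obtain ⟨J, hJ⟩ := eventually_atTop.mp hev
  set j := max J X with hj
  have hnb := hJ j (le_max_left _ _)
  obtain ⟨h1, h2, h3, h4, h5, h6, h7, h8, h9⟩ := hpar j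
  rw [hbad] at hnb
  simp only [Set.mem_setOf_eq] at hnb
  push Not at hnb
  obtain ⟨i, hi, hhit⟩ := hnb
  rw [mem_range] at hi
  have hxX : X ≤ f j := by
    have ha1 : j < 2 ^ j := Nat.lt_two_pow_self
    have ha2 := hf1 j
    have ha3 : X ≤ j := le_max_right _ _
    omega
  have hfj := (hf3 j).2.2
  have hfj0 : (0 : ℝ) < f j := by exact_mod_cast (by omega : 0 < f j)
  have hfj1 : (1 : ℝ) ≤ f j := by exact_mod_cast hfj.le
  have hih : (i + 1) * h j ≤ H j := by
    calc (i + 1) * h j ≤ (H j / h j) * h j := Nat.mul_le_mul_right _ hi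
      _ ≤ H j := Nat.div_mul_le_self _ _
  have hyx : y j ≤ f j := by
    calc (f j : ℝ) ^ θ ≤ (f j : ℝ) ^ (1 : ℝ) := Real.rpow_le_rpow_of_exponent_le hfj1 (by linarith)
      _ = f j := Real.rpow_one _
  have hihm : i * h j ≤ (i + 1) * h j := Nat.mul_le_mul_right _ (by omega)
  refine ⟨f j, f j + i * h j, h j, hxX, by omega, by omega, ?_, ?_⟩
  · refine le_trans ?_ h8
    apply mul_le_mul_of_nonneg_left _ (by positivity)
    apply pow_le_pow_left₀ (Real.log_nonneg (by exact_mod_cast (by omega : 1 ≤ f j + i * h j)))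
    apply Real.log_le_log (by exact_mod_cast (by omega : 0 < f j + i * h j))
    have e1 : ((f j + i * h j : ℕ) : ℝ) ≤ f j + H j := by
      exact_mod_cast (by omega : f j + i * h j ≤ f j + H j)
    linarith
  · intro n hn hmn
    have hwin : n ∈ win (f j) (h j) (y j) i := by
      rw [mem_win]
      refine ⟨⟨hmn.1, by rw [add_mul, one_mul]; omega⟩, ?_⟩
      intro p hp hpy
      have hfn : f j ≤ n := by omega
      have hfnr : (f j : ℝ) ≤ n := by exact_mod_cast hfn
      have hpA : p ∉ A n := by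
        intro hpA
        have := hA n p hpA
        have h10 : (f j : ℝ) ^ θ ≤ (n : ℝ) ^ θ := Real.rpow_le_rpow hfj0.le hfnr hθ0.le
        linarith
      have hpp : p * p ≤ n := by
        have h10 : (p : ℝ) * p ≤ f j := by
          calc (p : ℝ) * p ≤ (f j : ℝ) ^ θ * (f j : ℝ) ^ θ :=
                mul_le_mul hpy hpy (by positivity) (hy0 j).le
            _ = (f j : ℝ) ^ (θ + θ) := by rw [Real.rpow_add hfj0]
            _ ≤ (f j : ℝ) ^ (1 : ℝ) := Real.rpow_le_rpow_of_exponent_le hfj1 (by linarith)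
            _ = f j := Real.rpow_one _
        have h11 : p * p ≤ f j := by exact_mod_cast h10
        omega
      exact (hn.2 p hp hpp).2 hpA
    obtain ⟨p, hpQ, hap⟩ := hhit n hwin
    rw [mem_toList] at hpQ
    obtain ⟨hp1, hp2, hp3⟩ := hQmem j p hpQ
    have hfn : f j ≤ n := by omega
    have hnle : (n : ℝ) ≤ f j + (f j : ℝ) ^ θ := by
      have e1 : n ≤ f j + H j := by
        have := hmn.2
        rw [add_mul, one_mul] at hih
        omega
      have e2 : (n : ℝ) ≤ f j + H j := by exact_mod_cast e1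
      linarith
    exact (hn.2 p hp1 (hp2.trans hfn)).1 (hp3 n hfn hnle) hap.symm

end Pool.Agent.Work.MP_b0c12c_nt_helper63
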