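import Mathlib

/-!
The function `phi l m`: probability that `m` given integers, pairwise incongruent modulo every
prime of the list `l`, are all removed by independent uniformly random residue classes modulo
the primes of `l`.
-/

namespace Pool.Agent.Work.MP_b0c12c_nt_helper63

/-- Coverage probability, by recursion on the list of moduli. -/
noncomputable def phi : List ℕ → ℕ → ℝ
  | [], m => if m = 0 then 1 else 0
  | p :: l, m => (1 - (m : ℝ) / p) * phi l m + (m : ℝ) / p * phi l (m - 1)

lemma phi_zero (l : List ℕ) : phi l 0 = 1 := by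
  induction l with
  | nil => simp [phi]
  | cons p l ih => simp [phi, ih]

lemma ratio_nonneg (m p : ℕ) : (0 : ℝ) ≤ (m : ℝ) / p := by positivity

lemma ratio_le_one {m p : ℕ} (hp : 0 < p) (h : m ≤ p) : (m : ℝ) / p ≤ 1 := by
  rw [div_le_one (by exact_mod_cast hp)]
  exact_mod_cast h

lemma phi_nonneg : ∀ (l : List ℕ) (m : ℕ), (∀ p ∈ l, 0 < p ∧ m ≤ p) → 0 ≤ phi l m := by
  intro l
  induction l with
  | nil => intro m _; simp only [phi]; split_ifs <;> norm_num
  | cons p l ih =>
    intro m h
    have hp := h p (by simp)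
    have h1 := ih m (fun q hq => h q (by simp [hq]))
    have h2 := ih (m - 1) (fun q hq => ⟨(h q (by simp [hq])).1, by have := (h q (by simp [hq])).2; omega⟩)
    have h3 := ratio_le_one hp.1 hp.2
    simp only [phi]
    have := ratio_nonneg m p
    nlinarith [mul_nonneg (sub_nonneg.mpr h3) h1, mul_nonneg this h2]

/-- `phi` is nonincreasing in the number of integers. -/
lemma phi_anti : ∀ (l : List ℕ) (m : ℕ), (∀ p ∈ l, 0 < p ∧ m + 1 ≤ p) → phi l (m + 1) ≤ phi l m := by
  intro l
  induction l with
  | nil => intro m _; simp only [phi]; split_ifs <;> simp_all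
  | cons p l ih =>
    intro m h
    have hp := h p (by simp)
    have hl : ∀ q ∈ l, 0 < q ∧ m + 1 ≤ q := fun q hq => h q (by simp [hq])
    have h1 := ih m hl
    have h3 := ratio_le_one hp.1 hp.2
    have h3' := ratio_le_one (m := m) hp.1 (by omega)
    have h4 : phi (p :: l) (m + 1) ≤ phi l m := by
      simp only [phi, Nat.add_sub_cancel]
      have := ratio_nonneg (m + 1) p
      nlinarith
    have h5 : phi l m ≤ phi (p :: l) m := by
      rcases Nat.eq_zero_or_pos m with h0 | h0
      · subst h0; simp [phi_zero]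
      · have h6 := ih (m - 1) (fun q hq => by have := hl q hq; constructor <;> omega)
        rw [Nat.sub_add_cancel h0] at h6
        simp only [phi]
        have := ratio_nonneg m p
        nlinarith
    linarith

lemma phi_anti' (l : List ℕ) {m n : ℕ} (hmn : m ≤ n) (h : ∀ p ∈ l, 0 < p ∧ n ≤ p) :
    phi l n ≤ phi l m := by
  induction n, hmn using Nat.le_induction with
  | base => exact le_rfl
  | succ n hmn ih =>
    exact (phi_anti l n h).trans (ih fun p hp => by have := h p hp; constructor <;> omega)

/-- Submultiplicativity (negative correlation). -/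
lemma phi_mul : ∀ (l : List ℕ) (m n : ℕ), (∀ p ∈ l, 0 < p ∧ m + n ≤ p) →
    phi l (m + n) ≤ phi l m * phi l n := by
  intro l
  induction l with
  | nil =>
    intro m n _
    simp only [phi]
    by_cases hm : m = 0 <;> by_cases hn : n = 0 <;> simp [hm, hn]
  | cons p l ih =>
    intro m n h
    have hp := h p (by simp)
    have hl : ∀ q ∈ l, 0 < q ∧ m + n ≤ q := fun q hq => h q (by simp [hq])
    have hmn := ih m n hl
    have hA : 0 ≤ phi l m := phi_nonneg l m (fun q hq => by have := hl q hq; constructor <;> omega)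
    have hB : 0 ≤ phi l n := phi_nonneg l n (fun q hq => by have := hl q hq; constructor <;> omega)
    have hAB : (m : ℝ) / p + (n : ℝ) / p ≤ 1 := by
      rw [← add_div]
      have := ratio_le_one hp.1 hp.2
      push_cast at this
      exact this
    have hα := ratio_nonneg m p
    have hβ := ratio_nonneg n p
    have hA' : (m : ℝ) / p * phi l (m - 1 + n) ≤ (m : ℝ) / p * (phi l (m - 1) * phi l n) := by
      apply mul_le_mul_of_nonneg_left _ hα
      exact ih (m - 1) n (fun q hq => by have := hl q hq; constructor <;> omega)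
    have hB' : (n : ℝ) / p * phi l (m + (n - 1)) ≤ (n : ℝ) / p * (phi l m * phi l (n - 1)) := by
      apply mul_le_mul_of_nonneg_left _ hβ
      exact ih m (n - 1) (fun q hq => by have := hl q hq; constructor <;> omega)
    have hm1 : (m : ℝ) / p * phi l (m + n - 1) = (m : ℝ) / p * phi l (m - 1 + n) := by
      rcases Nat.eq_zero_or_pos m with h0 | h0
      · subst h0; simp
      · congr 2; omega
    have hn1 : (n : ℝ) / p * phi l (m + n - 1) = (n : ℝ) / p * phi l (m + (n - 1)) := by
      rcases Nat.eq_zero_or_pos n with h0 | h0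
      · subst h0; simp
      · congr 2; omega
    have hA1 : phi l m ≤ phi l (m - 1) := by
      rcases Nat.eq_zero_or_pos m with h0 | h0
      · subst h0; simp
      · have := phi_anti l (m - 1) (fun q hq => by have := hl q hq; constructor <;> omega)
        rwa [Nat.sub_add_cancel h0] at this
    have hB1 : phi l n ≤ phi l (n - 1) := by
      rcases Nat.eq_zero_or_pos n with h0 | h0
      · subst h0; simp
      · have := phi_anti l (n - 1) (fun q hq => by have := hl q hq; constructor <;> omega)
        rwa [Nat.sub_add_cancel h0] at this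
    simp only [phi]
    push_cast
    rw [add_div, add_mul ((m : ℝ) / p) ((n : ℝ) / p) (phi l (m + n - 1)), hm1, hn1]
    have key : 0 ≤ (1 - ((m : ℝ) / p + (n : ℝ) / p)) := by linarith
    have h7 := mul_le_mul_of_nonneg_left hmn key
    have h8 : 0 ≤ ((m : ℝ) / p) * ((n : ℝ) / p) * ((phi l (m - 1) - phi l m) * (phi l (n - 1) - phi l n)) := by
      apply mul_nonneg (mul_nonneg hα hβ)
      apply mul_nonneg <;> linarith
    nlinarith [h7, h8, hA', hB']

/-- auxiliary inequality -/
lemma pos_pow_aux (a u δ : ℝ) (hu : 0 ≤ u) (huδ : u ≤ δ) (m : ℕ) :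
    (max 0 (a + u)) ^ m ≤ (max 0 a) ^ m + m * u * (max 0 (a + δ)) ^ (m - 1) := by
  rcases Nat.eq_zero_or_pos m with h0 | h0
  · subst h0; simp
  obtain ⟨k, rfl⟩ : ∃ k, m = k + 1 := ⟨m - 1, by omega⟩
  simp only [Nat.add_sub_cancel]
  by_cases ha : 0 ≤ a
  · rw [max_eq_right (by linarith : 0 ≤ a + u), max_eq_right ha, max_eq_right (by linarith : 0 ≤ a + δ)]
    have h1 : (a + u) ^ (k + 1) - a ^ (k + 1) ≤ (k + 1) * u * (a + u) ^ k := by
      have h2 := Commute.geom_sum₂_mul (Commute.all (a + u) a) (k + 1)
      have h3 : ∑ i ∈ Finset.range (k + 1), (a + u) ^ i * a ^ (k + 1 - 1 - i) ≤ (k + 1) * (a + u) ^ k := by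
        calc ∑ i ∈ Finset.range (k + 1), (a + u) ^ i * a ^ (k + 1 - 1 - i)
            ≤ ∑ i ∈ Finset.range (k + 1), (a + u) ^ k := by
              apply Finset.sum_le_sum
              intro i hi
              rw [Finset.mem_range] at hi
              have h4 : a ^ (k + 1 - 1 - i) ≤ (a + u) ^ (k + 1 - 1 - i) :=
                pow_le_pow_left₀ ha (by linarith) _
              calc (a + u) ^ i * a ^ (k + 1 - 1 - i) ≤ (a + u) ^ i * (a + u) ^ (k + 1 - 1 - i) :=
                    mul_le_mul_of_nonneg_left h4 (by positivity)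
                _ = (a + u) ^ k := by rw [← pow_add]; congr 1; omega
          _ = (k + 1) * (a + u) ^ k := by simp
      have h5 : a + u - a = u := by ring
      rw [h5] at h2
      have h6 := mul_le_mul_of_nonneg_right h3 hu
      linarith
    have h7 : (a + u) ^ k ≤ (a + δ) ^ k := pow_le_pow_left₀ (by linarith) (by linarith) _
    have h8 : (k + 1) * u * (a + u) ^ k ≤ (k + 1) * u * (a + δ) ^ k :=
      mul_le_mul_of_nonneg_left h7 (by positivity)
    push_cast
    linarith
  · push Not at ha
    rw [max_eq_left ha.le]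
    simp only [ne_eq, Nat.succ_ne_zero, not_false_eq_true, zero_pow, zero_add]
    by_cases hau : 0 ≤ a + u
    · rw [max_eq_right hau, max_eq_right (by linarith : 0 ≤ a + δ)]
      have h7 : (a + u) ^ k ≤ (a + δ) ^ k := pow_le_pow_left₀ hau (by linarith) _
      have h9 : a + u ≤ u := by linarith
      calc (a + u) ^ (k + 1) = (a + u) * (a + u) ^ k := by ring
        _ ≤ u * (a + δ) ^ k := mul_le_mul h9 h7 (by positivity) hu
        _ ≤ ((k + 1 : ℕ) : ℝ) * u * (a + δ) ^ k := by
          have h10 : 0 ≤ u * (a + δ) ^ k := mul_nonneg hu (pow_nonneg (by linarith) _)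
          push_cast
          have : (0 : ℝ) ≤ k := by positivity
          nlinarith [mul_nonneg this h10]
    · push Not at hau
      rw [max_eq_left hau.le]
      simp only [ne_eq, Nat.succ_ne_zero, not_false_eq_true, zero_pow]
      have : 0 ≤ max 0 (a + δ) := le_max_left _ _
      positivity

lemma one_sub_ge_exp {t : ℝ} (h0 : 0 ≤ t) (h1 : t ≤ 1 / 2) : Real.exp (-2 * t) ≤ 1 - t := by
  have h2 : Real.exp (-2 * t) = (Real.exp (2 * t))⁻¹ := by rw [← Real.exp_neg]; ring_nf
  rw [h2]
  have h3 : 1 + 2 * t ≤ Real.exp (2 * t) := by have := Real.add_one_le_exp (2 * t); linarith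
  have h4 : (Real.exp (2 * t))⁻¹ ≤ (1 + 2 * t)⁻¹ := by
    apply inv_anti₀ (by linarith) h3
  have h5 : (1 + 2 * t)⁻¹ ≤ 1 - t := by
    rw [inv_le_iff_one_le_mul₀ (by linarith)]
    nlinarith
  linarith

/-- Lower bound for the coverage probability. -/
lemma phi_lower (δ : ℝ) (hδ : 0 ≤ δ) : ∀ (l : List ℕ) (m : ℕ),
    (∀ p ∈ l, 0 < p ∧ (1 : ℝ) / p ≤ δ ∧ 2 * m ≤ p) →
    (Real.exp (-2 * (l.map fun p : ℕ => (1 : ℝ) / p).sum)) ^ m *
      (max 0 ((l.map fun p : ℕ => (1 : ℝ) / p).sum - m * δ)) ^ m ≤ phi l m := by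
  intro l
  induction l with
  | nil =>
    intro m _
    rcases Nat.eq_zero_or_pos m with h0 | h0
    · subst h0; simp [phi]
    · have h1 : max 0 ((0 : ℝ) - m * δ) = 0 := max_eq_left (by have : (0:ℝ) ≤ m * δ := by positivity
                                                               linarith)
      simp only [List.map_nil, List.sum_nil, h1, phi, h0.ne', if_false]
      rw [zero_pow h0.ne']
      simp
  | cons p l ih =>
    intro m h
    have hp := h p (by simp)
    have hl : ∀ q ∈ l, 0 < q ∧ (1 : ℝ) / q ≤ δ ∧ 2 * m ≤ q := fun q hq => h q (by simp [hq])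
    set s := (l.map fun p : ℕ => (1 : ℝ) / p).sum with hs
    set u : ℝ := (1 : ℝ) / p with hu
    have hu0 : 0 ≤ u := by positivity
    have hs0 : 0 ≤ s := List.sum_nonneg (by
      intro x hx
      rw [List.mem_map] at hx
      obtain ⟨q, _, rfl⟩ := hx
      positivity)
    have e1 : ((p :: l).map fun p : ℕ => (1 : ℝ) / p).sum = u + s := by simp [hs, hu]
    rw [e1]
    have ih1 := ih m hl
    have ih2 := ih (m - 1) (fun q hq => ⟨(hl q hq).1, (hl q hq).2.1, by have := (hl q hq).2.2; omega⟩)
    rcases Nat.eq_zero_or_pos m with h0 | h0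
    · subst h0; simp [phi, phi_zero]
    have hmu : (m : ℝ) / p = m * u := by rw [hu]; ring
    have hmu1 : (m : ℝ) * u ≤ 1 / 2 := by
      rw [← hmu, div_le_iff₀ (by exact_mod_cast hp.1)]
      have : (2 * m : ℝ) ≤ p := by exact_mod_cast hp.2.2
      linarith
    have hmu0 : 0 ≤ (m : ℝ) * u := by positivity
    set a : ℝ := s - m * δ with ha
    have e2 : s - ((m - 1 : ℕ) : ℝ) * δ = a + δ := by
      rw [Nat.cast_sub h0, ha]; push_cast; ring
    rw [e2] at ih2
    have e3 : u + s - m * δ = a + u := by rw [ha]; ring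
    rw [e3]
    set E := Real.exp (-2 * s) with hE
    have hE0 : 0 < E := Real.exp_pos _
    have hE1 : E ≤ 1 := Real.exp_le_one_iff.mpr (by linarith)
    have hEm : Real.exp (-2 * (u + s)) ^ m = Real.exp (-2 * (m * u)) * E ^ m := by
      rw [← Real.exp_nat_mul, hE, ← Real.exp_nat_mul, ← Real.exp_add]; congr 1; ring
    have haux := pos_pow_aux a u δ hu0 hp.2.1 m
    simp only [phi]
    rw [hmu]
    have hX : 0 ≤ (max 0 (a + u)) ^ m := pow_nonneg (le_max_left _ _) _
    have hY : 0 ≤ (max 0 (a + δ)) ^ (m - 1) := pow_nonneg (le_max_left _ _) _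
    have hZ : 0 ≤ (max 0 a) ^ m := pow_nonneg (le_max_left _ _) _
    have hEpow : E ^ m ≤ E ^ (m - 1) := pow_le_pow_of_le_one hE0.le hE1 (by omega)
    calc Real.exp (-2 * (u + s)) ^ m * max 0 (a + u) ^ m
        = Real.exp (-2 * (m * u)) * E ^ m * max 0 (a + u) ^ m := by rw [hEm]
      _ ≤ (1 - m * u) * E ^ m * max 0 (a + u) ^ m := by
          apply mul_le_mul_of_nonneg_right _ hX
          exact mul_le_mul_of_nonneg_right (one_sub_ge_exp hmu0 hmu1) (by positivity)
      _ ≤ (1 - m * u) * E ^ m * ((max 0 a) ^ m + m * u * (max 0 (a + δ)) ^ (m - 1)) := by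
          apply mul_le_mul_of_nonneg_left haux
          have : 0 ≤ 1 - (m : ℝ) * u := by linarith
          positivity
      _ = (1 - m * u) * (E ^ m * (max 0 a) ^ m) +
            (1 - m * u) * (m * u * (E ^ m * (max 0 (a + δ)) ^ (m - 1))) := by ring
      _ ≤ (1 - m * u) * phi l m + 1 * (m * u * (E ^ (m - 1) * (max 0 (a + δ)) ^ (m - 1))) := by
          apply add_le_add
          · exact mul_le_mul_of_nonneg_left ih1 (by linarith)
          · apply mul_le_mul (by linarith) _ (by positivity) (by norm_num)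
            apply mul_le_mul_of_nonneg_left _ hmu0
            exact mul_le_mul_of_nonneg_right hEpow hY
      _ ≤ (1 - m * u) * phi l m + m * u * phi l (m - 1) := by
          rw [one_mul]
          have := mul_le_mul_of_nonneg_left ih2 hmu0
          linarith

end Pool.Agent.Work.MP_b0c12c_nt_helper63
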