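import Pool.Agent.Work.MP_b0c12c_nt_helper63.Prob
import Pool.Agent.Work.MP_0b7501_nt.BT

/-!
The main estimate at one scale.
-/

set_option linter.unusedSectionVars false
set_option linter.deprecated false

namespace Pool.Agent.Work.MP_b0c12c_nt_helper63

open MeasureTheory ProbabilityTheory Finset

/-- choice of a subset with a prescribed sum -/
lemma exists_subset_sum (Q : Finset ℕ) (f : ℕ → ℝ) (δ t : ℝ)
    (hδ : ∀ p ∈ Q, f p ≤ δ) (h0 : 0 ≤ δ) (ht : 0 ≤ t) (hs : t ≤ ∑ p ∈ Q, f p) :
    ∃ Q' ⊆ Q, t - δ ≤ ∑ p ∈ Q', f p ∧ ∑ p ∈ Q', f p ≤ t := by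
  classical
  induction Q using Finset.induction_on with
  | empty =>
    refine ⟨∅, subset_rfl, ?_, ?_⟩
    · simp only [Finset.sum_empty] at hs ⊢; linarith
    · simpa using ht
  | insert p Q hp ih =>
    by_cases h1 : t ≤ ∑ q ∈ Q, f q
    · obtain ⟨Q', hQ', h2, h3⟩ := ih (fun q hq => hδ q (mem_insert_of_mem hq)) h1
      exact ⟨Q', hQ'.trans (subset_insert _ _), h2, h3⟩
    · push Not at h1
      refine ⟨Q, subset_insert _ _, ?_, h1.le⟩
      rw [sum_insert hp] at hs
      have := hδ p (mem_insert_self _ _)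
      linarith

variable {Ω : Type*} [MeasurableSpace Ω] {μ : Measure Ω} [IsProbabilityMeasure μ]
  {a : ℕ → Ω → ℕ}

/-- survivors of the deterministic part of the sieve in the `i`-th window -/
noncomputable def win (x h : ℕ) (y : ℝ) (i : ℕ) : Finset ℕ := by
  classical
  exact (Ioc (x + i * h) (x + (i + 1) * h)).filter (fun n => ∀ p : ℕ, p.Prime → (p : ℝ) ≤ y → ¬ p ∣ n)

lemma mem_win {x h : ℕ} {y : ℝ} {i n : ℕ} : n ∈ win x h y i ↔
    (x + i * h < n ∧ n ≤ x + (i + 1) * h) ∧ ∀ p : ℕ, p.Prime → (p : ℝ) ≤ y → ¬ p ∣ n := by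
  classical
  unfold win
  rw [mem_filter, mem_Ioc]

lemma win_disj {x h : ℕ} {y : ℝ} {i j : ℕ} (hij : i ≠ j) : Disjoint (win x h y i) (win x h y j) := by
  rw [Finset.disjoint_left]
  intro n hi hj
  rw [mem_win] at hi hj
  rcases Nat.lt_or_gt_of_ne hij with h1 | h1
  · have : (i + 1) * h ≤ j * h := Nat.mul_le_mul_right h h1
    omega
  · have : (j + 1) * h ≤ i * h := Nat.mul_le_mul_right h h1
    omega


lemma injOn_mod {x H p : ℕ} (D : Finset ℕ) (hD : ∀ n ∈ D, x < n ∧ n ≤ x + H) (hp : H ≤ p) :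
    Set.InjOn (fun n => n % p) (D : Set ℕ) := by
  intro n hn k hk hnk
  have h1 := hD n hn
  have h2 := hD k hk
  simp only at hnk
  by_contra hne
  rcases Nat.lt_or_gt_of_ne hne with h3 | h3
  · have h4 : p ∣ k - n := (Nat.modEq_iff_dvd' h3.le).mp hnk
    have := Nat.le_of_dvd (by omega) h4
    omega
  · have h4 : p ∣ n - k := (Nat.modEq_iff_dvd' h3.le).mp hnk.symm
    have := Nat.le_of_dvd (by omega) h4
    omega

lemma hit_inter (l : List ℕ) (D D' : Finset ℕ) [DecidableEq ℕ] :
    Hit a l D ∩ Hit a l D' = Hit a l (D ∪ D') := by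
  ext ω
  simp only [Hit, Set.mem_inter_iff, Set.mem_setOf_eq, mem_union]
  constructor
  · rintro ⟨h1, h2⟩ n (hn | hn)
    · exact h1 n hn
    · exact h2 n hn
  · intro h1
    exact ⟨fun n hn => h1 n (Or.inl hn), fun n hn => h1 n (Or.inr hn)⟩

lemma hit_mono {l l' : List ℕ} (h : ∀ p ∈ l, p ∈ l') (D : Finset ℕ) : Hit a l D ⊆ Hit a l' D := by
  intro ω hω n hn
  obtain ⟨p, hp, h1⟩ := hω n hn
  exact ⟨p, h p hp, h1⟩

/-- number of survivors of the deterministic part in a stretch -/
lemma survivors_bound (x H : ℕ) (y : ℝ) (hH : 2 ≤ H) (hHy : (H : ℝ) ≤ y) (D : Finset ℕ)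
    (hD : ∀ n ∈ D, (x < n ∧ n ≤ x + H) ∧ ∀ p : ℕ, p.Prime → (p : ℝ) ≤ y → ¬ p ∣ n) :
    (D.card : ℝ) ≤ 64 * H / Real.log H := by
  classical
  set R := Nat.sqrt H with hRdef
  have hR : 1 ≤ R := by
    rw [hRdef, Nat.one_le_iff_ne_zero]
    intro h0
    rw [Nat.sqrt_eq_zero] at h0
    omega
  have hR2 : R ^ 2 ≤ H := by rw [hRdef, sq]; exact Nat.sqrt_le H
  have hRH : R ≤ H := Nat.sqrt_le_self H
  have hlogh : 0 < Real.log H := Real.log_pos (by exact_mod_cast (by omega : 1 < H))
  have hlogR : Real.log H / 2 ≤ Real.log (R + 1) := by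
    have h1 : (H : ℝ) ≤ ((R : ℝ) + 1) ^ 2 := by
      have := Nat.lt_succ_sqrt H
      have h2 : H ≤ (R + 1) ^ 2 := by rw [sq]; exact this.le
      exact_mod_cast h2
    have h2 := Real.log_le_log (by exact_mod_cast (by omega : 0 < H)) h1
    rw [Real.log_pow] at h2
    push_cast at h2
    linarith
  have hsb := Pool.Agent.Work.MP_0b7501_nt.sieve_bound x H R hR
  rw [max_eq_left hR2] at hsb
  set B := (Icc 1 H).filter (fun m => ∀ q, 0 < q → q ≤ R → Nat.Coprime q (x + m)) with hB
  have hDB : D.card ≤ B.card := by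
    apply Finset.card_le_card_of_injOn (fun n => n - x)
    · intro n hn
      obtain ⟨⟨h1, h2⟩, h3⟩ := hD n hn
      rw [hB]
      simp only [coe_filter, mem_Icc, Set.mem_setOf_eq]
      refine ⟨by omega, ?_⟩
      intro q hq0 hqR
      rw [show x + (n - x) = n by omega]
      by_contra hnc
      obtain ⟨p, hp, hpq, hpn⟩ := Nat.Prime.not_coprime_iff_dvd.mp hnc
      refine h3 p hp ?_ hpn
      have h4 : p ≤ H := (Nat.le_of_dvd hq0 hpq).trans (hqR.trans hRH)
      exact (by exact_mod_cast h4 : (p : ℝ) ≤ H).trans hHy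
    · intro n hn k hk hnk
      have h1 := (hD n hn).1
      have h2 := (hD k hk).1
      simp only at hnk
      omega
  have hBle : (B.card : ℝ) ≤ 64 * H / Real.log H := by
    rw [le_div_iff₀ hlogh]
    have : (B.card : ℝ) * (Real.log H / 4) ≤ (B.card : ℝ) * (Real.log (R + 1) / 2) := by
      apply mul_le_mul_of_nonneg_left _ (by positivity)
      linarith
    nlinarith
  exact (by exact_mod_cast hDB : (D.card : ℝ) ≤ B.card).trans hBle

/-- At one scale: with high probability some window is emptied. -/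
theorem scale (ha : RandomClasses μ a) (x H h M : ℕ) (y w : ℝ) (Q : Finset ℕ)
    (hHy : (H : ℝ) ≤ y) (hQ : ∀ p ∈ Q, p.Prime ∧ y < p) (hw : 0 ≤ w)
    (hsum : Real.exp (-w) ≤ ∑ p ∈ Q, (1 : ℝ) / p) (hh : 1 ≤ h) (hhH : 2 * h ≤ H)
    (hM : 256 * h / Real.log H ≤ M + 1) (hM1 : (M + 1) / y ≤ Real.exp (-w) / 2)
    (hM2 : 2 * (M : ℝ) ≤ y) :
    μ.real {ω | ∀ i ∈ range (H / h), ω ∉ Hit a Q.toList (win x h y i)} ≤
      (4 * h / H) * Real.exp (M * (w + 3)) := by
  classical
  have hH2 : 2 ≤ H := by omega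
  have hHpos : (0 : ℝ) < H := by exact_mod_cast (by omega : 0 < H)
  have hhpos : (0 : ℝ) < h := by exact_mod_cast (by omega : 0 < h)
  have hy : 0 < y := lt_of_lt_of_le hHpos hHy
  have hlogH : 0 < Real.log H := Real.log_pos (by exact_mod_cast (by omega : 1 < H))
  have hexp1 : Real.exp (-w) ≤ 1 := Real.exp_le_one_iff.mpr (by linarith)
  -- subset of primes
  obtain ⟨Q', hQ', hs1, hs2⟩ := exists_subset_sum Q (fun p => (1 : ℝ) / p) (1 / y) (Real.exp (-w))
    (fun p hp => one_div_le_one_div_of_le hy (hQ p hp).2.le) (by positivity) (Real.exp_pos _).le hsum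
  set l := Q'.toList with hl
  have hlmem : ∀ p ∈ l, p.Prime ∧ y < p := fun p hp => hQ p (hQ' (by rw [hl, mem_toList] at hp; exact hp))
  have hlprime : ∀ p ∈ l, p.Prime := fun p hp => (hlmem p hp).1
  have hlnd : l.Nodup := Q'.nodup_toList
  have hlsum : (l.map fun p : ℕ => (1 : ℝ) / p).sum = ∑ p ∈ Q', (1 : ℝ) / p := by
    rw [hl]; exact Finset.sum_map_toList Q' _
  -- windows
  set W := H / h with hW
  have hWh : W * h ≤ H := Nat.div_mul_le_self H h
  have hDsub : ∀ i ∈ range W, ∀ n ∈ win x h y i, x < n ∧ n ≤ x + H := by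
    intro i hi n hn
    rw [mem_range] at hi
    rw [mem_win] at hn
    have h1 : (i + 1) * h ≤ W * h := Nat.mul_le_mul_right h hi
    omega
  set G := (range W).filter (fun i => (win x h y i).card ≤ M) with hG
  have hF : ∀ i ∈ G, MeasurableSet (Hit a l (win x h y i)) := fun i _ => hit_meas' ha.meas l _
  have hprob : ∀ D : Finset ℕ, (∀ n ∈ D, x < n ∧ n ≤ x + H) → μ.real (Hit a l D) = phi l D.card := by
    intro D hD
    apply hit_prob ha l hlnd hlprime D
    intro p hp
    apply injOn_mod D hD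
    have := (hlmem p hp).2
    exact_mod_cast (hHy.trans this.le)
  have hG' : ∀ i ∈ G, i ∈ range W ∧ (win x h y i).card ≤ M := fun i hi => by
    rw [hG, mem_filter] at hi; exact hi
  have h2Mp : ∀ p ∈ l, 2 * M ≤ p := by
    intro p hp
    have := (hlmem p hp).2
    have h1 : (2 * M : ℝ) ≤ p := hM2.trans this.le
    exact_mod_cast h1
  have hneg : ∀ i ∈ G, ∀ j ∈ G, i ≠ j →
      μ.real (Hit a l (win x h y i) ∩ Hit a l (win x h y j)) ≤
        μ.real (Hit a l (win x h y i)) * μ.real (Hit a l (win x h y j)) := by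
    intro i hi j hj hij
    obtain ⟨hi1, hi2⟩ := hG' i hi
    obtain ⟨hj1, hj2⟩ := hG' j hj
    rw [hit_inter, hprob _ (hDsub i hi1), hprob _ (hDsub j hj1), hprob _ ?_,
      card_union_of_disjoint (win_disj hij)]
    · apply phi_mul
      intro p hp
      have := h2Mp p hp
      exact ⟨(hlprime p hp).pos, by omega⟩
    · intro n hn
      rw [mem_union] at hn
      rcases hn with hn | hn
      · exact hDsub i hi1 n hn
      · exact hDsub j hj1 n hn
  -- lower bound for each probability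
  have hlow : ∀ i ∈ G, Real.exp (-(M * (w + 3))) ≤ μ.real (Hit a l (win x h y i)) := by
    intro i hi
    obtain ⟨hi1, hi2⟩ := hG' i hi
    rw [hprob _ (hDsub i hi1)]
    have h1 : phi l M ≤ phi l (win x h y i).card := phi_anti' l hi2 (fun p hp =>
      ⟨(hlprime p hp).pos, by have := h2Mp p hp; omega⟩)
    refine le_trans ?_ h1
    have h2 := phi_lower (1 / y) (by positivity) l M (fun p hp =>
      ⟨(hlprime p hp).pos, one_div_le_one_div_of_le hy (hlmem p hp).2.le, h2Mp p hp⟩)
    refine le_trans ?_ h2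
    rw [hlsum]
    set s := ∑ p ∈ Q', (1 : ℝ) / p with hs
    rw [← mul_pow]
    have h3 : Real.exp (-(w + 3)) ≤ Real.exp (-2 * s) * max 0 (s - M * (1 / y)) := by
      have h4 : Real.exp (-2) ≤ Real.exp (-2 * s) := Real.exp_le_exp.mpr (by linarith)
      have h5 : Real.exp (-w) / 2 ≤ max 0 (s - M * (1 / y)) := by
        apply le_max_of_le_right
        have : (M + 1 : ℝ) / y = M * (1 / y) + 1 / y := by ring
        linarith
      have h6 : Real.exp (-(w + 3)) ≤ Real.exp (-2) * (Real.exp (-w) / 2) := by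
        have h7 : Real.exp (-(w + 3)) = Real.exp (-2) * (Real.exp (-w) * Real.exp (-1)) := by
          rw [← Real.exp_add, ← Real.exp_add]; congr 1; ring
        rw [h7]
        apply mul_le_mul_of_nonneg_left _ (Real.exp_pos _).le
        have h8 : Real.exp (-1) ≤ 1 / 2 := by
          rw [Real.exp_neg, ← one_div]
          apply one_div_le_one_div_of_le (by norm_num)
          have := Real.add_one_le_exp (1 : ℝ)
          linarith
        have := mul_le_mul_of_nonneg_left h8 (Real.exp_pos (-w)).le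
        linarith
      calc Real.exp (-(w + 3)) ≤ Real.exp (-2) * (Real.exp (-w) / 2) := h6
        _ ≤ Real.exp (-2 * s) * max 0 (s - M * (1 / y)) :=
          mul_le_mul h4 h5 (by positivity) (Real.exp_pos _).le
    calc Real.exp (-(M * (w + 3))) = (Real.exp (-(w + 3))) ^ M := by
          rw [← Real.exp_nat_mul]; congr 1; ring
      _ ≤ _ := pow_le_pow_left₀ (Real.exp_pos _).le h3 M
  -- number of good windows
  have hcount : (H : ℝ) / (4 * h) ≤ G.card := by
    set Bd := (range W).filter (fun i => ¬ (win x h y i).card ≤ M) with hBd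
    have h1 : G.card + Bd.card = W := by
      rw [hG, hBd, card_filter_add_card_filter_not, card_range]
    have h2 : (Bd.card : ℝ) * (M + 1) ≤ 64 * H / Real.log H := by
      have h3 : ∑ i ∈ Bd, (win x h y i).card = (Bd.biUnion (win x h y)).card := by
        rw [card_biUnion]
        intro i _ j _ hij
        exact win_disj hij
      have h4 : ((Bd.biUnion (win x h y)).card : ℝ) ≤ 64 * H / Real.log H := by
        apply survivors_bound x H y hH2 hHy
        intro n hn
        rw [mem_biUnion] at hn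
        obtain ⟨i, hi, hn⟩ := hn
        rw [hBd, mem_filter] at hi
        exact ⟨hDsub i hi.1 n hn, (mem_win.mp hn).2⟩
      have h5 : Bd.card * (M + 1) ≤ ∑ i ∈ Bd, (win x h y i).card := by
        rw [← smul_eq_mul, ← Finset.sum_const]
        apply Finset.sum_le_sum
        intro i hi
        rw [hBd, mem_filter] at hi
        omega
      calc (Bd.card : ℝ) * (M + 1) = ((Bd.card * (M + 1) : ℕ) : ℝ) := by push_cast; ring
        _ ≤ ((∑ i ∈ Bd, (win x h y i).card : ℕ) : ℝ) := by exact_mod_cast h5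
        _ = ((Bd.biUnion (win x h y)).card : ℝ) := by rw [h3]
        _ ≤ _ := h4
    have h3 : (Bd.card : ℝ) ≤ H / (4 * h) := by
      have h4 : (Bd.card : ℝ) * (256 * h / Real.log H) ≤ 64 * H / Real.log H :=
        (mul_le_mul_of_nonneg_left hM (by positivity)).trans h2
      rw [mul_div_assoc', div_le_div_iff_of_pos_right hlogH] at h4
      rw [le_div_iff₀ (by positivity)]
      nlinarith
    have h4 : (H : ℝ) / (2 * h) ≤ W := by
      have h5 : H < (W + 1) * h := by
        have := Nat.lt_div_mul_add (a := H) (b := h) (by omega)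
        rw [hW]; nlinarith
      have h6 : (H : ℝ) ≤ (W + 1) * h := by exact_mod_cast h5.le
      have h7 : 1 ≤ W := by
        rw [hW, Nat.le_div_iff_mul_le (by omega)]; omega
      have h8 : (1 : ℝ) ≤ W := by exact_mod_cast h7
      rw [div_le_iff₀ (by positivity)]
      nlinarith
    have h5 : (G.card : ℝ) = W - Bd.card := by
      have : ((G.card + Bd.card : ℕ) : ℝ) = W := by rw [h1]
      push_cast at this
      linarith
    rw [h5]
    have h6 : (H : ℝ) / (2 * h) = 2 * (H / (4 * h)) := by field_simp; ring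
    linarith
  -- conclusion
  have hlam : 0 < (H : ℝ) / (4 * h) * Real.exp (-(M * (w + 3))) := by positivity
  have hsumG : (H : ℝ) / (4 * h) * Real.exp (-(M * (w + 3))) ≤
      ∑ i ∈ G, μ.real (Hit a l (win x h y i)) := by
    calc (H : ℝ) / (4 * h) * Real.exp (-(M * (w + 3))) ≤ G.card * Real.exp (-(M * (w + 3))) :=
          mul_le_mul_of_nonneg_right hcount (Real.exp_pos _).le
      _ = ∑ i ∈ G, Real.exp (-(M * (w + 3))) := by rw [Finset.sum_const, nsmul_eq_mul]
      _ ≤ _ := Finset.sum_le_sum hlow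
  have hfin := second_moment G (fun i => Hit a l (win x h y i)) hF hneg hlam hsumG
  have hsubset : {ω | ∀ i ∈ range W, ω ∉ Hit a Q.toList (win x h y i)} ⊆
      {ω | ∀ i ∈ G, ω ∉ Hit a l (win x h y i)} := by
    intro ω hω i hi hmem
    refine hω i (hG' i hi).1 (hit_mono ?_ _ hmem)
    intro p hp
    rw [mem_toList]
    rw [hl, mem_toList] at hp
    exact hQ' hp
  calc μ.real {ω | ∀ i ∈ range W, ω ∉ Hit a Q.toList (win x h y i)}
      ≤ μ.real {ω | ∀ i ∈ G, ω ∉ Hit a l (win x h y i)} := measureReal_mono hsubset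
    _ ≤ 1 / ((H : ℝ) / (4 * h) * Real.exp (-(M * (w + 3)))) := hfin
    _ = (4 * h / H) * Real.exp (M * (w + 3)) := by
      rw [Real.exp_neg]; field_simp

end Pool.Agent.Work.MP_b0c12c_nt_helper63
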